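import Pool.Agent.TwoOdd.Defs

/-!
Data for zeta(5), ..., zeta(29).  Seat: helper30.
-/

open Finset

namespace Pool.Agent.TwoOdd.D29

open Pool.Agent.TwoOdd

def hs : List ℕ := [67, 68, 69, 70, 71, 71, 72, 73, 74, 75, 76, 77, 78, 79, 80, 80, 81, 82, 83, 84,
  84, 85, 86, 87, 88, 89, 90, 91, 92, 93, 94]

def D : Dat where
  C := 214
  P := Finset.range 31
  h := fun i => hs.getD i 0
  A := 30
  s := 67
  lo := 68
  hH := 23
  hG := 22

theorem ok : D.OK := by
  refine ⟨by decide, by decide, by decide, by decide, by decide, by decide, by decide, by decide,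
    by decide, by decide, by decide, by decide, by decide, by decide⟩

end Pool.Agent.TwoOdd.D29
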