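import Mathlib

/-!
Two irrational numbers among zeta(5), ..., zeta(29): definitions.

Everything about the zero blocks is written in the lattice `(1/6) Z`: an element `u : ℕ` stands for
the factor `t + u / 6`.
Seat: helper30.
-/

open Finset

namespace Pool.Agent.TwoOdd

/-- data: pole blocks `[h i n, (C - h i) n]` for `i ∈ P`, one zero block at all integers of
`[0, C n]`, one zero block at the half-integers between `hH n` and `(C - hH) n`, one zero block at
the points with denominator three between `hG n` and `(C - hG) n` -/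
structure Dat where
  C : ℕ
  P : Finset ℕ
  h : ℕ → ℕ
  A : ℕ
  s : ℕ
  lo : ℕ
  hH : ℕ
  hG : ℕ

/-- well-formed data (everything decidable) -/
structure Dat.OK (D : Dat) : Prop where
  Ceven : Even D.C
  cardP : D.P.card = D.A + 1
  Aeven : Even D.A
  A4 : 4 ≤ D.A
  P_ge : ∀ i ∈ D.P, D.s ≤ D.h i
  P_lt : ∀ i ∈ D.P, 2 * D.h i < D.C
  s_mem : ∃ i ∈ D.P, D.h i = D.s
  lo_mem : ∃ i ∈ D.P, D.h i = D.lo
  hH_lt : D.hH < D.s
  hG_lt : D.hG < D.s
  s_le : D.s ≤ D.lo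
  lo_lt : 2 * D.lo < D.C
  lo_ok : #{i ∈ D.P | D.h i < D.lo} ≤ 1
  deg : D.C + (D.C - 2 * D.hH) + 2 * (D.C - 2 * D.hG) ≤ ∑ i ∈ D.P, (D.C - 2 * D.h i)

variable (D : Dat)

/-- length of the block of `h` -/
def Nl (n h : ℕ) : ℕ := (D.C - 2 * h) * n

/-- the pole block of `h`, a set of integers `m` (the factors `t + m`) -/
def blk (n h : ℕ) : Finset ℕ := Finset.Icc (h * n) ((D.C - h) * n)

/-- the zeros, in units of `1 / 6` -/
def Z (n : ℕ) : Finset ℕ :=
  (Finset.Icc 0 (6 * (D.C * n))).filter fun u => u % 6 = 0 ∨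
    (u % 6 = 3 ∧ 6 * (D.hH * n) < u ∧ u < 6 * ((D.C - D.hH) * n)) ∨
    ((u % 6 = 2 ∨ u % 6 = 4) ∧ 6 * (D.hG * n) < u ∧ u < 6 * ((D.C - D.hG) * n))

/-- normalising constant -/
def K (n : ℕ) : ℚ :=
  ((∏ i ∈ D.P, ((Nl D n (D.h i)).factorial : ℚ)) * 4 ^ Nl D n D.hH * 27 ^ Nl D n D.hG) /
    (((D.C * n).factorial : ℚ) * (Nl D n D.hH).factorial * (Nl D n D.hG).factorial ^ 2)

/-- pole order of `R n` at `-l`, for `l ≤ C n` -/
def ord (n l : ℕ) : ℤ := (#{i ∈ D.P | l ∈ blk D n (D.h i)} : ℤ) - 1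

/-- product over the pole block of `h`, without `m = l`, of `(m - l) + X` -/
noncomputable def B (n h l : ℕ) : PowerSeries ℚ :=
  ∏ m ∈ (blk D n h).erase l, (PowerSeries.C ((m : ℚ) - (l : ℚ)) + PowerSeries.X)

/-- product over the zeros, without `u = 6 l`, of `(u / 6 - l) + X` -/
noncomputable def BZ (n l : ℕ) : PowerSeries ℚ :=
  ∏ u ∈ (Z D n).erase (6 * l), (PowerSeries.C ((u : ℚ) / 6 - (l : ℚ)) + PowerSeries.X)

/-- `F n l` is the power series of `ε ^ ord * R n (-l + ε)`, for `l ≤ C n` -/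
noncomputable def F (n l : ℕ) : PowerSeries ℚ :=
  PowerSeries.C (K D n) * (PowerSeries.C (D.C * (n : ℚ) - 2 * (l : ℚ)) + 2 * PowerSeries.X) *
    BZ D n l * (∏ i ∈ D.P, B D n (D.h i) l)⁻¹

/-- partial fraction coefficient of `1 / (t + l) ^ i` in `R n t` -/
noncomputable def a (n l i : ℕ) : ℚ :=
  if (i : ℤ) ≤ ord D n l then PowerSeries.coeff (ord D n l - i).toNat (F D n l) else 0

/-- the rational function -/
noncomputable def R (n : ℕ) (x : ℝ) : ℝ :=
  (K D n : ℝ) * (2 * x + D.C * n) * (∏ u ∈ Z D n, (x + (u : ℝ) / 6)) /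
    ∏ i ∈ D.P, ∏ m ∈ blk D n (D.h i), (x + m)

/-- the range of the poles -/
def poles (n : ℕ) : Finset ℕ := Finset.Icc (D.lo * n) ((D.C - D.lo) * n)

/-- the three classes of points, in units of `1 / 6`: integers, half-integers, denominator three -/
def cls : ℕ → ℕ → Prop
  | 0, u => u % 6 = 0
  | 1, u => u % 6 = 3
  | _, u => u % 6 = 2 ∨ u % 6 = 4

instance (c u : ℕ) : Decidable (cls c u) := by
  unfold cls
  split <;> infer_instance

/-- the sum of the class `c` starts at `-(st c) n` -/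
def st : ℕ → ℕ
  | 0 => D.s
  | 1 => D.hH
  | _ => D.hG

/-- the analytic sum of the class `c` -/
noncomputable def S (c n : ℕ) : ℝ :=
  ∑' u : ℕ, if cls c u ∧ 0 < u then R D n ((u : ℝ) / 6 - (st D c * n : ℕ)) else 0

/-- `∑ 1 / (u / 6) ^ i` over the points `0 < u / 6 ≤ M` of the class `c` -/
def Hs (c i M : ℕ) : ℚ := ∑ u ∈ (Finset.Icc 1 (6 * M)).filter (cls c), 1 / ((u : ℚ) / 6) ^ i

/-- coefficient of `ζ(j)` (up to the factor `cc c j`) -/
noncomputable def rho (n j : ℕ) : ℚ := ∑ l ∈ poles D n, a D n l j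

/-- local contribution to the constant term of the class `c` -/
noncomputable def T (c n l : ℕ) : ℚ :=
  - ∑ i ∈ Finset.Icc 1 D.A, a D n l i * Hs c i (l - st D c * n)

/-- constant term of the class `c` -/
noncomputable def rho0 (c n : ℕ) : ℚ := ∑ l ∈ poles D n, T D c n l

/-- the odd `j` whose `ζ(j)` occurs -/
def Js : Finset ℕ := (Finset.Icc 3 (D.A - 1)).filter (fun j => Odd j)

/-- the value of `∑ 1 / (u / 6) ^ j` over the class `c`, divided by `ζ(j)` -/
def cc : ℕ → ℕ → ℕ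
  | 0, _ => 1
  | 1, j => 2 ^ j - 1
  | _, j => 3 ^ j - 1

/-- `ζ(j)` -/
noncomputable def zt (j : ℕ) : ℝ := ∑' m : ℕ, 1 / ((m : ℝ) + 1) ^ j

/-! ### arithmetic data for one prime `p` -/

/-- `⌊(l - h n)/p⌋` -/
def fA (n l p h : ℕ) : ℤ := ((l : ℤ) - h * n) / p

/-- `⌊((C - h) n - l)/p⌋` -/
def fB (n l p h : ℕ) : ℤ := ((D.C - h : ℤ) * n - l) / p

/-- number of `m` in the pole block of `h`, `m ≠ l`, with `p ∣ m - l` -/
def cnt (n l p h : ℕ) : ℤ := fA n l p h + fB D n l p h + if l ∈ blk D n h then 0 else 1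

/-- number of `u ∈ Z n`, `u ≠ 6 l`, with `p ∣ u - 6 l` (for `l` in the pole range) -/
def cntZ (n l p : ℕ) : ℤ :=
  (fA n l p 0 + fB D n l p 0) +
  ((2 * ((l : ℤ) - D.hH * n)) / p - fA n l p D.hH +
    ((2 * ((D.C - D.hH : ℤ) * n - l)) / p - fB D n l p D.hH)) +
  ((3 * ((l : ℤ) - D.hG * n)) / p - fA n l p D.hG +
    ((3 * ((D.C - D.hG : ℤ) * n - l)) / p - fB D n l p D.hG))

/-- `E0`: the exponent of `p` in `K n` -/
def E0 (n p : ℕ) : ℤ :=
  (∑ i ∈ D.P, ((Nl D n (D.h i) / p : ℕ) : ℤ)) -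
    (((D.C * n / p : ℕ) : ℤ) + ((Nl D n D.hH / p : ℕ) : ℤ) + 2 * ((Nl D n D.hG / p : ℕ) : ℤ))

/-- the valuation exponent `V` at `l` (for `p ≥ 5`, `6 C n < p ^ 2`) -/
def V (n l p : ℕ) : ℤ := E0 D n p + cntZ D n l p - ∑ i ∈ D.P, cnt D n l p (D.h i)

/-- no pole-type factor at `l` is divisible by `p` -/
def noP (n l p : ℕ) : Prop := ∀ i ∈ D.P, cnt D n l p (D.h i) ≤ 0

instance (n l p : ℕ) : Decidable (noP D n l p) := by unfold noP; infer_instance

/-- local exponent bound (valid for all three classes) -/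
def bnd (n l p : ℕ) : ℤ :=
  if p ≤ l - D.s * n then ord D n l - V D n l p
  else if noP D n l p then min (ord D n l - V D n l p - 1) (- E0 D n p)
  else ord D n l - V D n l p - 1

end Pool.Agent.TwoOdd
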