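import Pool.Agent.TwoOdd.N1Tab

/-!
Kernel evaluation (module N1, helper86).
-/

set_option autoImplicit false

namespace Pool.Agent.TwoOdd.N1

set_option maxRecDepth 100000 in
lemma Rs0 : Rs 0 % 1289 = 621 := by decide +kernel

set_option maxRecDepth 100000 in
lemma Rs1 : Rs 1 % 1289 = 1263 := by decide +kernel

end Pool.Agent.TwoOdd.N1
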