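import Pool.Agent.TwoOdd.N1Main
import Pool.Agent.TwoOdd.N1TabA
import Pool.Agent.TwoOdd.N1TabR
import Pool.Agent.TwoOdd.N1TabS

/-!
Nonvanishing of the combinations at `n = 1` (module N1, helper86).
-/

set_option autoImplicit false

open Finset

namespace Pool.Agent.TwoOdd.N1

open Pool.Agent.TwoOdd

/-! ### digits -/

lemma mem_Z_iff (u : ℕ) (hu : u < 2048) : u ∈ Z D 1 ↔ Zmask.testBit u = true := by
  have key : ∀ u < 2048, (((0 ≤ u ∧ u ≤ 6 * (D.C * 1)) ∧ (u % 6 = 0 ∨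
    (u % 6 = 3 ∧ 6 * (D.hH * 1) < u ∧ u < 6 * ((D.C - D.hH) * 1)) ∨
    ((u % 6 = 2 ∨ u % 6 = 4) ∧ 6 * (D.hG * 1) < u ∧ u < 6 * ((D.C - D.hG) * 1)))) ↔
      Zmask.testBit u = true) := by
    decide +kernel
  rw [← key u hu]
  unfold Z
  rw [Finset.mem_filter, Finset.mem_Icc]

lemma Z_le (u : ℕ) (hu : u ∈ Z D 1) : u ≤ 1284 := by
  unfold Z at hu
  rw [Finset.mem_filter, Finset.mem_Icc] at hu
  exact hu.1.2

lemma prod_gz (l : ℕ) : ∏ j ∈ Finset.range (2 ^ 11), gz l (0 + j) =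
    ∏ u ∈ (Z D 1).erase (6 * l), (u + (1289 - 6 * l) + 6 * bZ) ^ 1 := by
  have h1 : (Z D 1).erase (6 * l) =
      (Finset.range (2 ^ 11)).filter (fun u => u ≠ 6 * l ∧ Zmask.testBit u = true) := by
    ext u
    rw [Finset.mem_erase, Finset.mem_filter, Finset.mem_range]
    constructor
    · rintro ⟨h1, h2⟩
      have h3 := Z_le u h2
      exact ⟨by omega, h1, (mem_Z_iff u (by omega)).1 h2⟩
    · rintro ⟨h1, h2, h3⟩
      exact ⟨h2, (mem_Z_iff u (by omega)).2 h3⟩
  rw [h1, Finset.prod_filter]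
  apply Finset.prod_congr rfl
  intro u _
  rw [zero_add]
  unfold gz
  by_cases h2 : u = 6 * l
  · simp [h2]
  · by_cases h3 : Zmask.testBit u = true
    · simp [h2, h3]
    · simp [h2, h3]

lemma bound_Z (l : ℕ) : ∏ u ∈ (Z D 1).erase (6 * l), (u + (1289 - 6 * l) + 6) ^ 1 < bZ := by
  have h1 : ∏ u ∈ (Z D 1).erase (6 * l), (u + (1289 - 6 * l) + 6) ^ 1 ≤
      (2 ^ 12) ^ ((Z D 1).erase (6 * l)).card := by
    apply Finset.prod_le_pow_card
    intro u hu
    have := Z_le u (Finset.mem_of_mem_erase hu)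
    rw [pow_one]
    omega
  have h2 : ((Z D 1).erase (6 * l)).card ≤ 723 := by
    rw [← card_Z]
    exact Finset.card_erase_le
  have h3 : (2 ^ 12) ^ ((Z D 1).erase (6 * l)).card ≤ (2 ^ 12) ^ 723 :=
    Nat.pow_le_pow_right (by norm_num) h2
  have h4 : (2 ^ 12) ^ 723 < bZ := by
    unfold bZ
    rw [← pow_mul]
    exact Nat.pow_lt_pow_right (by norm_num) (by norm_num)
  exact lt_of_le_of_lt (h1.trans h3) h4

lemma coeff_gZ (l k : ℕ) (hk : k < 30) : PowerSeries.coeff k (gZ l) =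
    (((digs bZ 30 (zN l)).getD k 0 : ℕ) : ZMod 1289) := by
  rw [digs_getD _ _ _ _ hk, ZMod.natCast_mod]
  unfold gZ
  apply kron_prod (q := 1289) ((Z D 1).erase (6 * l)) (fun u => u + (1289 - 6 * l)) (fun _ => 1) 6 bZ
    30 k hk (bound_Z l)
  unfold zN
  rw [bpT_mod, prod_gz]

lemma wN_zero (m : ℕ) (hm : 148 ≤ m) : wN m = 0 := by
  unfold wN
  rw [if_pos (by omega)]

lemma prod_gp (l : ℕ) : ∏ j ∈ Finset.range (2 ^ 8), gp l (0 + j) =
    ∏ m ∈ (Finset.range 256).erase l, (m + (1289 - l) + 1 * bP) ^ wN m := by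
  have h1 : (Finset.range 256).erase l = (Finset.range (2 ^ 8)).filter (fun m => m ≠ l) := by
    ext m
    rw [Finset.mem_erase, Finset.mem_filter]
    exact and_comm
  rw [h1, Finset.prod_filter]
  apply Finset.prod_congr rfl
  intro m _
  rw [zero_add]
  unfold gp
  by_cases h2 : m = l
  · simp [h2]
  · simp [h2]

lemma sum_wN : ∑ m ∈ Finset.range 256, wN m = 1687 := by decide +kernel

lemma bound_P (l : ℕ) : ∏ m ∈ (Finset.range 256).erase l, (m + (1289 - l) + 1) ^ wN m < bP := by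
  have h1 : ∏ m ∈ (Finset.range 256).erase l, (m + (1289 - l) + 1) ^ wN m ≤
      ∏ m ∈ (Finset.range 256).erase l, (2 ^ 11) ^ wN m := by
    apply Finset.prod_le_prod'
    intro m hm
    apply Nat.pow_le_pow_left
    have := Finset.mem_range.1 (Finset.mem_of_mem_erase hm)
    omega
  rw [Finset.prod_pow_eq_pow_sum] at h1
  have h2 : ∑ m ∈ (Finset.range 256).erase l, wN m ≤ 1687 := by
    rw [← sum_wN]
    exact Finset.sum_le_sum_of_subset (Finset.erase_subset _ _)
  have h3 : (2 ^ 11) ^ (∑ m ∈ (Finset.range 256).erase l, wN m) ≤ (2 ^ 11) ^ 1687 :=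
    Nat.pow_le_pow_right (by norm_num) h2
  have h4 : (2 ^ 11) ^ 1687 < bP := by
    unfold bP
    rw [← pow_mul]
    exact Nat.pow_lt_pow_right (by norm_num) (by norm_num)
  exact lt_of_le_of_lt (h1.trans h3) h4

lemma coeff_gB (l k : ℕ) (hk : k < 30) : PowerSeries.coeff k (gB l) =
    (((digs bP 30 (pN l)).getD k 0 : ℕ) : ZMod 1289) := by
  rw [digs_getD _ _ _ _ hk, ZMod.natCast_mod]
  unfold gB
  apply kron_prod (q := 1289) ((Finset.range 256).erase l) (fun m => m + (1289 - l)) wN 1 bP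
    30 k hk (bound_P l)
  unfold pN
  rw [bpT_mod, prod_gp]

/-! ### the rows -/

lemma row_len (j : ℕ) (hj : j < 79) : wN (68 + j) = (row j).length + 1 := by
  have key : ∀ j < 79, wN (68 + j) = (row j).length + 1 := by decide +kernel
  exact key j hj

lemma row_len_le (j : ℕ) (hj : j < 79) : (row j).length ≤ 30 := by
  have key : ∀ j < 79, (row j).length ≤ 30 := by decide +kernel
  exact key j hj

lemma ord_eq (j : ℕ) (hj : j < 79) : ord D 1 (68 + j) = ((row j).length : ℤ) := by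
  unfold ord
  rw [card_P _ (by omega), row_len j hj]
  push_cast
  ring

lemma mod_cast_eq {x y : ℕ} (h : x % 1289 = y % 1289) : (x : ZMod 1289) = (y : ZMod 1289) :=
  (ZMod.natCast_eq_natCast_iff' x y 1289).2 h

lemma row_spec (j : ℕ) (hj : j < 79) : PowerSeries.constantCoeff (gB (68 + j)) ≠ 0 ∧
    ∀ k < (row j).length, PowerSeries.coeff k (gF (68 + j)) = ((row j).getD k 0 : ZMod 1289) := by
  have h := rows_ok j hj
  unfold rowOK at h
  rw [digsK_eq, digsK_eq] at h
  unfold rowChk at h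
  rw [Bool.and_eq_true, List.all_eq_true] at h
  obtain ⟨h1, h2⟩ := h
  have hlen := row_len_le j hj
  have hc : PowerSeries.constantCoeff (gB (68 + j)) ≠ 0 := by
    rw [← PowerSeries.coeff_zero_eq_constantCoeff_apply, coeff_gB _ 0 (by norm_num)]
    intro h0
    rw [ZMod.natCast_eq_zero_iff] at h0
    rw [bne_iff_ne] at h1
    apply h1
    rw [digs_getD _ _ _ _ (by norm_num)] at h0 ⊢
    exact Nat.eq_zero_of_dvd_of_lt h0 (Nat.mod_lt _ (by norm_num))
  refine ⟨hc, ?_⟩
  apply quot_unique (gL (68 + j) * gZ (68 + j)) (gB (68 + j)) (gF (68 + j)) hc (row j).length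
    (fun k => ((row j).getD k 0 : ZMod 1289)) _ rfl
  intro k hk
  have h3 := h2 k (List.mem_range.2 hk)
  rw [beq_iff_eq] at h3
  have h4 := mod_cast_eq h3
  rw [sumN_eq] at h4
  push_cast at h4
  have h5 : PowerSeries.coeff k (gL (68 + j) * gZ (68 + j)) =
      ((1503 - 2 * (68 + j) : ℕ) : ZMod 1289) * PowerSeries.coeff k (gZ (68 + j)) +
        2 * (if k = 0 then 0 else PowerSeries.coeff (k - 1) (gZ (68 + j))) := by
    unfold gL
    rw [add_mul, map_add, PowerSeries.coeff_C_mul, mul_assoc, PowerSeries.coeff_C_mul]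
    congr 1
    cases k with
    | zero => simp
    | succ k =>
      rw [PowerSeries.coeff_succ_X_mul]
      simp
  rw [h5, coeff_gZ _ k (by omega)]
  have h6 : (if k = 0 then 0 else PowerSeries.coeff (k - 1) (gZ (68 + j))) =
      (((if k = 0 then 0 else (digs bZ 30 (zN (68 + j))).getD (k - 1) 0 : ℕ)) : ZMod 1289) := by
    split_ifs with h7
    · simp
    · rw [coeff_gZ _ _ (by omega)]
  rw [h6]
  have h7 : ∑ x ∈ Finset.range (k + 1), ((row j).getD x 0 : ZMod 1289) *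
      PowerSeries.coeff (k - x) (gB (68 + j)) = ∑ x ∈ Finset.range (k + 1),
        ((row j).getD x 0 : ZMod 1289) * ((digs bP 30 (pN (68 + j))).getD (k - x) 0 : ZMod 1289) := by
    apply Finset.sum_congr rfl
    intro x _
    rw [coeff_gB _ _ (by omega)]
  rw [h7, h4]
  push_cast
  ring

/-! ### the final sums -/

lemma foldl_eq (y : ℕ) (cs : List ℕ) (acc : ℕ) : cs.foldl (fun acc c => acc * y + c) acc =
    acc * y ^ cs.length + ∑ k ∈ Finset.range cs.length, cs.getD k 0 * y ^ (cs.length - 1 - k) := by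
  induction cs generalizing acc with
  | nil => simp
  | cons c t ih =>
    rw [List.foldl_cons, ih, List.length_cons, Finset.sum_range_succ']
    have h1 : ∑ k ∈ Finset.range t.length, (c :: t).getD (k + 1) 0 * y ^ (t.length + 1 - 1 - (k + 1)) =
        ∑ k ∈ Finset.range t.length, t.getD k 0 * y ^ (t.length - 1 - k) := by
      apply Finset.sum_congr rfl
      intro k _
      rw [List.getD_cons_succ]
      congr 2
      omega
    rw [h1, List.getD_cons_zero]
    have h2 : t.length + 1 - 1 - 0 = t.length := by omega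
    rw [h2, pow_succ]
    ring

lemma Ay_cast (cs : List ℕ) (y : ℕ) (hl : cs.length ≤ 30) : ((Ay cs y : ℕ) : ZMod 1289) =
    ∑ i ∈ Finset.Icc 1 30, (if i ≤ cs.length then ((cs.getD (cs.length - i) 0 : ℕ) : ZMod 1289) else 0) *
      (y : ZMod 1289) ^ i := by
  unfold Ay
  rw [ZMod.natCast_mod, foldl_eq]
  push_cast
  rw [zero_mul, zero_add, Finset.sum_mul]
  have h0 : Finset.Icc 1 30 = Finset.Ico (0 + 1) (30 + 1) := by decide
  rw [h0, ← Finset.sum_Ico_add' (fun i => (if i ≤ cs.length then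
    ((cs.getD (cs.length - i) 0 : ℕ) : ZMod 1289) else 0) * (y : ZMod 1289) ^ i) 0 30 1,
    ← Finset.range_eq_Ico, ← Finset.sum_range_reflect]
  have h1 : ∑ x ∈ Finset.range 30, (if x + 1 ≤ cs.length then
      ((cs.getD (cs.length - (x + 1)) 0 : ℕ) : ZMod 1289) else 0) * (y : ZMod 1289) ^ (x + 1) =
      ∑ x ∈ Finset.range cs.length, (if x + 1 ≤ cs.length then
      ((cs.getD (cs.length - (x + 1)) 0 : ℕ) : ZMod 1289) else 0) * (y : ZMod 1289) ^ (x + 1) := by
    symm
    apply Finset.sum_subset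
    · intro x hx
      rw [Finset.mem_range] at hx ⊢
      omega
    · intro x _ hx
      rw [Finset.mem_range] at hx
      rw [if_neg (by omega), zero_mul]
  rw [h1]
  apply Finset.sum_congr rfl
  intro k hk
  rw [Finset.mem_range] at hk
  rw [if_pos (by omega), show cs.length - 1 - k = cs.length - (k + 1) by omega,
    show cs.length - 1 - (cs.length - (k + 1)) = k by omega, pow_succ, mul_assoc]

lemma inv_pow_q (u : ZMod 1289) : u ^ 1287 = u⁻¹ := by
  by_cases hu : u = 0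
  · rw [hu]
    simp
  · have h1 := ZMod.pow_card_sub_one_eq_one hu
    have h2 : u * u ^ 1287 = 1 := by
      rw [← pow_succ']
      exact h1
    exact eq_inv_of_mul_eq_one_right h2

lemma yv_cast (u : ℕ) : ((yv u : ℕ) : ZMod 1289) = 6 * (u : ZMod 1289)⁻¹ := by
  unfold yv
  rw [ZMod.natCast_mod]
  push_cast
  rw [ZMod.natCast_mod]
  push_cast
  rw [inv_pow_q]

lemma rel_Hs (c i M : ℕ) (hM : M ≤ 124) : Rel 1289 (Hs c i M)
    (∑ u ∈ (Finset.Icc 1 (6 * M)).filter (cls c), ((yv u : ℕ) : ZMod 1289) ^ i) := by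
  unfold Hs
  apply Rel.sum
  intro u hu
  rw [Finset.mem_filter, Finset.mem_Icc] at hu
  have hu0 : (u : ZMod 1289) ≠ 0 := by
    intro h
    rw [ZMod.natCast_eq_zero_iff] at h
    have := Nat.le_of_dvd (by omega) h
    omega
  have h1 : (1 / ((u : ℚ) / 6) ^ i : ℚ) = (6 * (u : ℚ)⁻¹) ^ i := by
    rw [one_div, ← inv_pow, inv_div, div_eq_mul_inv]
  rw [h1, yv_cast]
  apply Rel.pow
  have h6 : Rel 1289 (6 : ℚ) (6 : ZMod 1289) := by
    have h := Rel.nat (q := 1289) 6
    rw [Nat.cast_ofNat, Nat.cast_ofNat] at h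
    exact h
  exact h6.mul ((Rel.nat (q := 1289) u).inv hu0)

lemma hq_eq (c : ℕ) (hc : c < 3) (cs : List ℕ) (M : ℕ) :
    ∑ u ∈ (Finset.Icc 1 (6 * M)).filter (cls c), Ay cs (yv u) = hq c cs M := by
  induction M with
  | zero =>
    have h : Finset.Icc 1 (6 * 0) = (∅ : Finset ℕ) := Finset.Icc_eq_empty (by norm_num)
    rw [h, Finset.filter_empty, Finset.sum_empty]
    rfl
  | succ M ih =>
    rw [Finset.sum_filter] at ih ⊢
    rw [show 6 * (M + 1) = 6 * M + 1 + 1 + 1 + 1 + 1 + 1 by ring,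
      Finset.sum_Icc_succ_top (by omega), Finset.sum_Icc_succ_top (by omega),
      Finset.sum_Icc_succ_top (by omega), Finset.sum_Icc_succ_top (by omega),
      Finset.sum_Icc_succ_top (by omega), Finset.sum_Icc_succ_top (by omega), ih]
    have e1 : (6 * M + 1) % 6 = 1 := by omega
    have e2 : (6 * M + 1 + 1) % 6 = 2 := by omega
    have e3 : (6 * M + 1 + 1 + 1) % 6 = 3 := by omega
    have e4 : (6 * M + 1 + 1 + 1 + 1) % 6 = 4 := by omega
    have e5 : (6 * M + 1 + 1 + 1 + 1 + 1) % 6 = 5 := by omega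
    have e6 : (6 * M + 1 + 1 + 1 + 1 + 1 + 1) % 6 = 0 := by omega
    interval_cases c
    · have h : hq 0 cs (M + 1) = hq 0 cs M + pt cs (6 * M + 6) := rfl
      rw [h]
      simp only [cls, e1, e2, e3, e4, e5, e6, pt, force_eq]
      simp
    · have h : hq 1 cs (M + 1) = hq 1 cs M + pt cs (6 * M + 3) := rfl
      rw [h]
      simp only [cls, e1, e2, e3, e4, e5, e6, pt, force_eq]
      simp
    · have h : hq 2 cs (M + 1) = hq 2 cs M + (pt cs (6 * M + 2) + pt cs (6 * M + 4)) := rfl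
      rw [h]
      simp only [cls, e1, e2, e3, e4, e5, e6, pt, force_eq]
      simp
      ring

lemma rel_b (j i : ℕ) (hj : j < 79) (hi : 1 ≤ i) : Rel 1289 (b (68 + j) i)
    (if i ≤ (row j).length then (((row j).getD ((row j).length - i) 0 : ℕ) : ZMod 1289) else 0) := by
  obtain ⟨hc, hrow⟩ := row_spec j hj
  unfold b
  rw [ord_eq j hj]
  by_cases h : i ≤ (row j).length
  · have h1 : (((row j).length : ℤ) - (i : ℤ)).toNat = (row j).length - i := by omega
    rw [if_pos (by exact_mod_cast h), if_pos h, h1]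
    rw [← hrow ((row j).length - i) (by omega)]
    exact rel_Fs (68 + j) (by omega) hc _
  · rw [if_neg (by intro h2; exact h (by exact_mod_cast h2)), if_neg h]
    exact Rel.zero

lemma st_eq (c : ℕ) (hc : c < 3) : st D c = stN c := by
  interval_cases c <;> rfl

/-- the inner sums -/
lemma rel_inner (c j : ℕ) (hc : c < 3) (hj : j < 79) :
    Rel 1289 (∑ i ∈ Finset.Icc 1 30, b (68 + j) i * Hs c i (68 + j - st D c))
      ((hq c (row j) (68 + j - stN c) : ℕ) : ZMod 1289) := by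
  rw [← hq_eq c hc, st_eq c hc]
  have hM : 68 + j - stN c ≤ 124 := by
    interval_cases c <;> simp only [stN] <;> omega
  have h1 : (((∑ u ∈ (Finset.Icc 1 (6 * (68 + j - stN c))).filter (cls c), Ay (row j) (yv u)) : ℕ) :
      ZMod 1289) = ∑ i ∈ Finset.Icc 1 30, (if i ≤ (row j).length then
        (((row j).getD ((row j).length - i) 0 : ℕ) : ZMod 1289) else 0) *
          ∑ u ∈ (Finset.Icc 1 (6 * (68 + j - stN c))).filter (cls c), ((yv u : ℕ) : ZMod 1289) ^ i := by
    rw [Nat.cast_sum]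
    simp_rw [Finset.mul_sum]
    rw [Finset.sum_comm]
    apply Finset.sum_congr rfl
    intro u _
    exact Ay_cast _ _ (row_len_le j hj)
  rw [h1]
  apply Rel.sum
  intro i hi
  rw [Finset.mem_Icc] at hi
  exact (rel_b j i hj hi.1).mul (rel_Hs c i _ hM)

lemma rel_rho (c : ℕ) (hc : c < 3) : Rel 1289 (∑ l ∈ poles D 1,
    -∑ i ∈ Finset.Icc 1 30, b l i * Hs c i (l - st D c)) (-((Rs c : ℕ) : ZMod 1289)) := by
  have h0 : poles D 1 = Finset.Ico (0 + 68) (79 + 68) := by
    ext l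
    rw [mem_poles, Finset.mem_Ico]
    omega
  rw [h0, ← Finset.sum_Ico_add' (fun l => -∑ i ∈ Finset.Icc 1 30, b l i * Hs c i (l - st D c)) 0 79 68,
    ← Finset.range_eq_Ico, Finset.sum_neg_distrib]
  apply Rel.neg
  unfold Rs
  rw [sumN_eq, Nat.cast_sum]
  apply Rel.sum
  intro j hj
  rw [Finset.mem_range] at hj
  have := rel_inner c j hc hj
  rw [add_comm j 68]
  exact this

lemma rel_comb (i : ℕ) : ∃ x : ℚ, ∑ c ∈ Finset.range 3, (wt i c : ℚ) * rho0 D c 1 = kap * x ∧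
    Rel 1289 x ((wt i 0 * (-621) + wt i 1 * (-1263) + wt i 2 * (-160) : ℤ) : ZMod 1289) := by
  refine ⟨∑ c ∈ Finset.range 3, (wt i c : ℚ) * ∑ l ∈ poles D 1,
    -∑ i ∈ Finset.Icc 1 30, b l i * Hs c i (l - st D c), ?_, ?_⟩
  · rw [Finset.mul_sum]
    apply Finset.sum_congr rfl
    intro c _
    rw [rho0_eq]
    ring
  · have h0 : ((Rs 0 : ℕ) : ZMod 1289) = ((621 : ℕ) : ZMod 1289) := mod_cast_eq Rs0
    have h1 : ((Rs 1 : ℕ) : ZMod 1289) = ((1263 : ℕ) : ZMod 1289) := mod_cast_eq Rs1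
    have h2 : ((Rs 2 : ℕ) : ZMod 1289) = ((160 : ℕ) : ZMod 1289) := mod_cast_eq Rs2
    have h3 : ((wt i 0 * (-621) + wt i 1 * (-1263) + wt i 2 * (-160) : ℤ) : ZMod 1289) =
        ∑ c ∈ Finset.range 3, ((wt i c : ℤ) : ZMod 1289) * (-((Rs c : ℕ) : ZMod 1289)) := by
      rw [Finset.sum_range_succ, Finset.sum_range_succ, Finset.sum_range_succ, Finset.sum_range_zero,
        h0, h1, h2]
      push_cast
      ring
    rw [h3]
    apply Rel.sum
    intro c hc
    exact (Rel.int (wt i c)).mul (rel_rho c (Finset.mem_range.1 hc))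

end Pool.Agent.TwoOdd.N1

namespace Pool.Agent.TwoOdd.D29

open Pool.Agent.TwoOdd

/-- module N1 -/
theorem rho0_one_ne (i : ℕ) (hi : i ∈ ({5, 7, 9} : Finset ℕ)) :
    ∑ c ∈ Finset.range 3, (wt i c : ℚ) * rho0 D c 1 ≠ 0 := by
  obtain ⟨x, hx, hrel⟩ := N1.rel_comb i
  have h1 : ((wt i 0 * (-621) + wt i 1 * (-1263) + wt i 2 * (-160) : ℤ) : ZMod 1289) ≠ 0 := by
    rw [Ne, ZMod.intCast_zmod_eq_zero_iff_dvd]
    simp only [Finset.mem_insert, Finset.mem_singleton] at hi
    rcases hi with rfl | rfl | rfl <;> simp only [wt] <;> norm_num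
  change ∑ c ∈ Finset.range 3, (wt i c : ℚ) * rho0 N1.D c 1 ≠ 0
  rw [hx]
  exact mul_ne_zero N1.kap_ne (hrel.ne_zero h1)

end Pool.Agent.TwoOdd.D29
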