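import Pool.Agent.TwoOdd.Defs

/-!
Exponent functions of the real size bound (definitions of helper30, file by helper96).
-/

open Finset

namespace Pool.Agent.TwoOdd

noncomputable def XL (y : ℝ) : ℝ := y * Real.log |y|

/-- profile of one block -/
noncomputable def FB (D : Dat) (h : ℕ) (x : ℝ) : ℝ :=
  ((D.C : ℝ) - 2 * h) * Real.log ((D.C : ℝ) - 2 * h) - XL (x + ((D.C : ℝ) - h)) + XL (x + h)

/-- `log |R n (n x)| = n * FF x + O(log)` -/
noncomputable def FF (D : Dat) (x : ℝ) : ℝ :=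
  (∑ i ∈ D.P, FB D (D.h i) x) - FB D 0 x - (FB D D.hH x - ((D.C : ℝ) - 2 * D.hH) * (2 * Real.log 2)) -
    (2 * FB D D.hG x - ((D.C : ℝ) - 2 * D.hG) * (3 * Real.log 3))

end Pool.Agent.TwoOdd
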