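import Pool.Agent.TwoOdd.Data
import Pool.Agent.TwoOdd.SizeDefs

/-!
The size inequality for the data `D29`.  Seat: helper30.
-/

open Finset

namespace Pool.Agent.TwoOdd

theorem XL_eq (y : ℝ) : XL y = y * Real.log y := by
  unfold XL
  rw [Real.log_abs]

theorem continuous_XL : Continuous XL := by
  have : XL = fun y => y * Real.log y := funext XL_eq
  rw [this]
  exact Real.continuous_mul_log

theorem hasDerivAt_XL {y : ℝ} (hy : y ≠ 0) : HasDerivAt XL (Real.log y + 1) y := by
  have : XL = fun y => y * Real.log y := funext XL_eq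
  rw [this]
  exact Real.hasDerivAt_mul_log hy

/-- the profile of a block decreases -/
theorem FB_anti (D : Dat) {h : ℕ} (hh : 2 * h < D.C) {a b : ℝ} (hab : a ≤ b)
    (ha : -(D.C : ℝ) / 2 < a) (hs : 0 ≤ a + h ∨ b + h ≤ 0) : FB D h b ≤ FB D h a := by
  have hh' : (2 : ℝ) * h < D.C := by exact_mod_cast hh
  have hmono : MonotoneOn (fun x => XL (x + ((D.C : ℝ) - h)) - XL (x + h)) (Set.Icc a b) := by
    apply monotoneOn_of_deriv_nonneg (convex_Icc a b)
    · apply Continuous.continuousOn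
      exact (continuous_XL.comp (continuous_id.add continuous_const)).sub
        (continuous_XL.comp (continuous_id.add continuous_const))
    · intro x hx
      rw [interior_Icc] at hx
      have h1 : x + h ≠ 0 := by
        rcases hs with hs | hs
        · have := hx.1; intro h0; linarith
        · have := hx.2; intro h0; linarith
      have h2 : x + ((D.C : ℝ) - h) ≠ 0 := by
        have := hx.1
        intro h0; linarith
      have e1 := (hasDerivAt_XL h2).comp x ((hasDerivAt_id x).add_const ((D.C : ℝ) - h))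
      have e2 := (hasDerivAt_XL h1).comp x ((hasDerivAt_id x).add_const (h : ℝ))
      exact (e1.sub e2).differentiableAt.differentiableWithinAt
    · intro x hx
      rw [interior_Icc] at hx
      have h1 : x + h ≠ 0 := by
        rcases hs with hs | hs
        · have := hx.1; intro h0; linarith
        · have := hx.2; intro h0; linarith
      have h2 : 0 < x + ((D.C : ℝ) - h) := by
        have := hx.1
        linarith
      have e1 := (hasDerivAt_XL h2.ne').comp x ((hasDerivAt_id x).add_const ((D.C : ℝ) - h))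
      have e2 := (hasDerivAt_XL h1).comp x ((hasDerivAt_id x).add_const (h : ℝ))
      have e3 : HasDerivAt (fun x => XL (x + ((D.C : ℝ) - h)) - XL (x + h))
          ((Real.log (x + ((D.C : ℝ) - h)) + 1) * 1 - (Real.log (x + h) + 1) * 1) x := e1.sub e2
      rw [e3.deriv]
      have h3 : Real.log (x + h) ≤ Real.log (x + ((D.C : ℝ) - h)) := by
        rw [← Real.log_abs (x + h)]
        apply Real.log_le_log (abs_pos.2 h1)
        rw [abs_le]
        have := hx.1
        constructor <;> linarith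
      linarith
  have := hmono (Set.left_mem_Icc.2 hab) (Set.right_mem_Icc.2 hab) hab
  simp only at this
  unfold FB
  linarith

/-- `m log |m|` for integers -/
noncomputable def ML (m : ℤ) : ℝ := (m : ℝ) * Real.log m

theorem XL_div (m : ℤ) (q : ℝ) (hq : 0 < q) : q * XL ((m : ℝ) / q) = ML m - m * Real.log q := by
  rw [XL_eq]
  unfold ML
  by_cases hm : m = 0
  · subst hm; simp
  · have hm' : (m : ℝ) ≠ 0 := by exact_mod_cast hm
    rw [Real.log_div hm' hq.ne']
    field_simp

theorem FB_eight (D : Dat) {h : ℕ} (a8 : ℤ) : 8 * FB D h ((a8 : ℝ) / 8) =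
    ML (8 * ((D.C : ℤ) - 2 * h)) - ML (8 * ((D.C : ℤ) - h) + a8) + ML (8 * h + a8) := by
  have h8 : (0 : ℝ) < 8 := by norm_num
  have e1 := XL_div (8 * ((D.C : ℤ) - h) + a8) 8 h8
  have e2 := XL_div (8 * (h : ℤ) + a8) 8 h8
  have e3 := XL_div (8 * ((D.C : ℤ) - 2 * h)) 8 h8
  have f1 : (((8 * ((D.C : ℤ) - h) + a8 : ℤ) : ℝ)) / 8 = (a8 : ℝ) / 8 + ((D.C : ℝ) - h) := by
    push_cast; ring
  have f2 : (((8 * (h : ℤ) + a8 : ℤ) : ℝ)) / 8 = (a8 : ℝ) / 8 + h := by
    push_cast; ring
  have f3 : (((8 * ((D.C : ℤ) - 2 * h) : ℤ) : ℝ)) / 8 = (D.C : ℝ) - 2 * h := by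
    push_cast; ring
  rw [f1] at e1
  rw [f2] at e2
  rw [f3] at e3
  have e4 : FB D h ((a8 : ℝ) / 8) = XL ((D.C : ℝ) - 2 * h) - XL ((a8 : ℝ) / 8 + ((D.C : ℝ) - h)) +
      XL ((a8 : ℝ) / 8 + h) := by
    unfold FB
    rw [XL_eq ((D.C : ℝ) - 2 * h)]
  rw [e4]
  push_cast at e1 e2 e3 ⊢
  linear_combination e3 - e1 + e2

/-- sum of `m log m` over a list of naturals -/
noncomputable def LS (l : List ℕ) : ℝ := (l.map fun m : ℕ => ML m).sum

theorem LS_cons (m : ℕ) (l : List ℕ) : LS (m :: l) = ML m + LS l := by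
  unfold LS; simp

theorem LS_nil : LS [] = 0 := by unfold LS; simp

theorem LS_append (l l' : List ℕ) : LS (l ++ l') = LS l + LS l' := by
  unfold LS; simp

def pw (l : List ℕ) : ℕ := l.foldr (fun m s => m ^ m * s) 1

theorem pw_pos (l : List ℕ) : 0 < pw l := by
  induction l with
  | nil => exact Nat.one_pos
  | cons m l ih =>
    show 0 < m ^ m * pw l
    rcases Nat.eq_zero_or_pos m with rfl | hm
    · simpa using ih
    · positivity

theorem LS_eq (l : List ℕ) : LS l = Real.log (pw l) := by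
  induction l with
  | nil => simp [LS, pw]
  | cons m l ih =>
    have h1 : pw (m :: l) = m ^ m * pw l := rfl
    have h2 : LS (m :: l) = ML m + LS l := LS_cons m l
    have h3 : ((m ^ m : ℕ) : ℝ) ≠ 0 := by
      rcases Nat.eq_zero_or_pos m with rfl | hm
      · simp
      · positivity
    have h4 : ((pw l : ℕ) : ℝ) ≠ 0 := by
      have := pw_pos l
      positivity
    rw [h1, h2, ih, Nat.cast_mul, Real.log_mul h3 h4, Nat.cast_pow, Real.log_pow]
    unfold ML
    push_cast
    ring

/-- certificate -/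
theorem LS_cert (up dn : List ℕ) (x y Q : ℕ)
    (h : pw up * 2 ^ x * 3 ^ y * 27182818286 ^ Q ≤ pw dn * 10000000000 ^ Q) :
    LS up + x * Real.log 2 + y * Real.log 3 + Q ≤ LS dn := by
  have hup := pw_pos up
  have hdn := pw_pos dn
  have he : Real.exp 1 < 27182818286 / 10000000000 := by
    have := Real.exp_one_lt_d9
    norm_num at this ⊢
    linarith
  have h1 : (pw up : ℝ) * 2 ^ x * 3 ^ y * (27182818286 : ℝ) ^ Q ≤ pw dn * 10000000000 ^ Q := by
    exact_mod_cast h
  have h2 : Real.exp Q ≤ (27182818286 / 10000000000 : ℝ) ^ Q := by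
    have e1 : Real.exp (Q : ℝ) = Real.exp 1 ^ Q := by
      rw [← Real.exp_nat_mul, mul_one]
    rw [e1]
    exact pow_le_pow_left₀ (Real.exp_pos _).le he.le Q
  rw [LS_eq, LS_eq]
  have h3 : Real.log (pw up) + x * Real.log 2 + y * Real.log 3 + Q =
      Real.log (pw up * 2 ^ x * 3 ^ y * Real.exp Q) := by
    rw [Real.log_mul (by positivity) (by positivity), Real.log_mul (by positivity) (by positivity),
      Real.log_mul (by positivity) (by positivity), Real.log_exp, Real.log_pow, Real.log_pow]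
  rw [h3]
  apply Real.log_le_log (by positivity)
  calc (pw up : ℝ) * 2 ^ x * 3 ^ y * Real.exp Q
      ≤ (pw up : ℝ) * 2 ^ x * 3 ^ y * (27182818286 / 10000000000 : ℝ) ^ Q := by gcongr
    _ = ((pw up : ℝ) * 2 ^ x * 3 ^ y * (27182818286 : ℝ) ^ Q) / 10000000000 ^ Q := by
        rw [div_pow]; ring
    _ ≤ pw dn := by
        rw [div_le_iff₀ (by positivity)]
        exact h1

/-- the part of `-ML m` in the numerator -/
def upOf (m : ℤ) : List ℕ := if m < 0 then [(-m).toNat] else []

/-- the part of `-ML m` in the denominator -/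
def dnOf (m : ℤ) : List ℕ := if m < 0 then [] else [m.toNat]

theorem ML_of (m : ℤ) : - ML m = LS (upOf m) - LS (dnOf m) := by
  unfold upOf dnOf
  split_ifs with h
  · have e : (((-m).toNat : ℕ) : ℤ) = -m := Int.toNat_of_nonneg (by omega)
    rw [LS_cons, LS_nil, e]
    unfold ML
    push_cast
    rw [Real.log_neg_eq_log]
    ring
  · have e : ((m.toNat : ℕ) : ℤ) = m := Int.toNat_of_nonneg (by omega)
    rw [LS_cons, LS_nil, e]
    ring

theorem ML_toNat {m : ℤ} (h : 0 ≤ m) : ML m = LS [m.toNat] := by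
  have e : ((m.toNat : ℕ) : ℤ) = m := Int.toNat_of_nonneg h
  rw [LS_cons, LS_nil, e, add_zero]

/-- numerator of the pole blocks -/
def upP (C : ℕ) (a8 : ℤ) : List ℕ → List ℕ
  | [] => []
  | h :: l => (8 * ((C : ℤ) - 2 * h)).toNat :: (8 * (h : ℤ) + a8).toNat :: upP C a8 l

/-- denominator of the pole blocks -/
def dnP (C : ℕ) (a8 : ℤ) : List ℕ → List ℕ
  | [] => []
  | h :: l => (8 * ((C : ℤ) - h) + a8).toNat :: dnP C a8 l

theorem sum_P (D : Dat) (a8 : ℤ) : ∀ l : List ℕ,
    (∀ h ∈ l, 0 ≤ (D.C : ℤ) - 2 * h ∧ 0 ≤ 8 * (h : ℤ) + a8) →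
    8 * (l.map fun h => FB D h ((a8 : ℝ) / 8)).sum = LS (upP D.C a8 l) - LS (dnP D.C a8 l)
  | [], _ => by simp [upP, dnP, LS_nil]
  | h :: l, hl => by
    have ih := sum_P D a8 l (fun x hx => hl x (List.mem_cons_of_mem _ hx))
    obtain ⟨h1, h2⟩ := hl h List.mem_cons_self
    have e1 : ML (8 * ((D.C : ℤ) - 2 * h)) = LS [(8 * ((D.C : ℤ) - 2 * h)).toNat] :=
      ML_toNat (by omega)
    have e2 : ML (8 * (h : ℤ) + a8) = LS [(8 * (h : ℤ) + a8).toNat] := ML_toNat h2
    have e3 : ML (8 * ((D.C : ℤ) - h) + a8) = LS [(8 * ((D.C : ℤ) - h) + a8).toNat] :=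
      ML_toNat (by omega)
    rw [List.map_cons, List.sum_cons, mul_add, ih, FB_eight, e1, e2, e3]
    simp only [upP, dnP, LS_cons, LS_nil]
    ring

namespace D29

theorem sum_hs (f : ℕ → ℝ) : ∑ i ∈ D.P, f (D.h i) = (hs.map f).sum := by
  have h1 : D.P = Finset.range 31 := rfl
  have h2 : D.h = fun i => hs.getD i 0 := rfl
  rw [h1, h2]
  simp [hs, Finset.sum_range_succ]
  ring

/-- all factors of the numerator on the cell `[a8/8, b8/8]` -/
def upL (a8 b8 : ℤ) : List ℕ :=
  upP 214 a8 hs ++ ((1712 + b8).toNat :: (1528 + b8).toNat :: (1536 + b8).toNat ::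
    (1536 + b8).toNat :: (upOf b8 ++ (upOf (184 + b8) ++ (upOf (176 + b8) ++ upOf (176 + b8)))))

/-- all factors of the denominator on the cell `[a8/8, b8/8]` -/
def dnL (a8 b8 : ℤ) : List ℕ :=
  dnP 214 a8 hs ++ (1712 :: 1344 :: 1360 :: 1360 ::
    (dnOf b8 ++ (dnOf (184 + b8) ++ (dnOf (176 + b8) ++ dnOf (176 + b8)))))

/-- everything to be checked on a cell -/
def okc (a8 b8 : ℤ) : Bool :=
  decide (-184 ≤ a8) && decide (a8 ≤ b8) && decide (0 ≤ 176 + a8 ∨ 176 + b8 ≤ 0) &&
    decide (0 ≤ a8 ∨ b8 ≤ 0) &&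
    decide (pw (upL a8 b8) * 2 ^ 2688 * 3 ^ 4080 * 27182818286 ^ 12642 ≤
      pw (dnL a8 b8) * 10000000000 ^ 12642)

theorem cell {a8 b8 : ℤ} (h : okc a8 b8 = true) {x : ℝ} (hxa : (a8 : ℝ) / 8 ≤ x)
    (hxb : x ≤ (b8 : ℝ) / 8) : FF D x ≤ -(12642 : ℝ) / 8 := by
  unfold okc at h
  simp only [Bool.and_eq_true, decide_eq_true_eq] at h
  obtain ⟨⟨⟨⟨h1, h2⟩, h3⟩, h4⟩, h5⟩ := h
  have h5' := LS_cert _ _ _ _ _ h5
  have h1' : (-184 : ℝ) ≤ a8 := by exact_mod_cast h1
  have hC : (D.C : ℝ) = 214 := by norm_num [D]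
  have ha0 : -(D.C : ℝ) / 2 < (a8 : ℝ) / 8 := by rw [hC]; linarith
  have hx0 : -(D.C : ℝ) / 2 < x := lt_of_lt_of_le ha0 hxa
  -- pole blocks
  have hP : ∑ i ∈ D.P, FB D (D.h i) x ≤ ∑ i ∈ D.P, FB D (D.h i) ((a8 : ℝ) / 8) := by
    apply Finset.sum_le_sum
    intro i hi
    have hs1 : 67 ≤ D.h i := ok.P_ge i hi
    have hs2 := ok.P_lt i hi
    have hs1' : (67 : ℝ) ≤ D.h i := by exact_mod_cast hs1
    apply FB_anti D hs2 hxa ha0
    left
    linarith
  have q1 : ∑ i ∈ D.P, FB D (D.h i) x = (hs.map fun h => FB D h x).sum := sum_hs fun h => FB D h x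
  have q2 : ∑ i ∈ D.P, FB D (D.h i) ((a8 : ℝ) / 8) = (hs.map fun h => FB D h ((a8 : ℝ) / 8)).sum :=
    sum_hs fun h => FB D h ((a8 : ℝ) / 8)
  rw [q1, q2] at hP
  have hPs := sum_P D a8 hs (by
    intro h hh
    have hall : ∀ h ∈ hs, (h ≤ 94 ∧ 67 ≤ h) := by decide
    obtain ⟨q1, q2⟩ := hall h hh
    have hC' : D.C = 214 := rfl
    rw [hC']
    constructor <;> push_cast <;> omega)
  -- zero blocks
  have hM : FB D 0 ((b8 : ℝ) / 8) ≤ FB D 0 x := by
    apply FB_anti D (by decide) hxb hx0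
    rcases h4 with h4 | h4
    · left
      have : (0 : ℝ) ≤ a8 := by exact_mod_cast h4
      push_cast
      linarith
    · right
      have : (b8 : ℝ) ≤ 0 := by exact_mod_cast h4
      push_cast
      linarith
  have hH : FB D 23 ((b8 : ℝ) / 8) ≤ FB D 23 x := by
    apply FB_anti D (by decide) hxb hx0
    left
    push_cast
    linarith
  have hG : FB D 22 ((b8 : ℝ) / 8) ≤ FB D 22 x := by
    apply FB_anti D (by decide) hxb hx0
    rcases h3 with h3 | h3
    · left
      have : (0 : ℝ) ≤ 176 + a8 := by exact_mod_cast h3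
      push_cast
      linarith
    · right
      have : (176 : ℝ) + b8 ≤ 0 := by exact_mod_cast h3
      push_cast
      linarith
  have e0 := FB_eight D (h := 0) b8
  have e1 := FB_eight D (h := 23) b8
  have e2 := FB_eight D (h := 22) b8
  have hC' : D.C = 214 := rfl
  rw [hC'] at e0 e1 e2
  have g0 : (8 * (((214 : ℕ) : ℤ) - 2 * ((0 : ℕ) : ℤ)) : ℤ) = 1712 := by norm_num
  have g0' : (8 * (((214 : ℕ) : ℤ) - ((0 : ℕ) : ℤ)) + b8 : ℤ) = 1712 + b8 := by norm_num
  have g0'' : (8 * ((0 : ℕ) : ℤ) + b8 : ℤ) = b8 := by norm_num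
  have g1 : (8 * (((214 : ℕ) : ℤ) - 2 * ((23 : ℕ) : ℤ)) : ℤ) = 1344 := by norm_num
  have g1' : (8 * (((214 : ℕ) : ℤ) - ((23 : ℕ) : ℤ)) + b8 : ℤ) = 1528 + b8 := by norm_num
  have g1'' : (8 * ((23 : ℕ) : ℤ) + b8 : ℤ) = 184 + b8 := by norm_num
  have g2 : (8 * (((214 : ℕ) : ℤ) - 2 * ((22 : ℕ) : ℤ)) : ℤ) = 1360 := by norm_num
  have g2' : (8 * (((214 : ℕ) : ℤ) - ((22 : ℕ) : ℤ)) + b8 : ℤ) = 1536 + b8 := by norm_num
  have g2'' : (8 * ((22 : ℕ) : ℤ) + b8 : ℤ) = 176 + b8 := by norm_num
  rw [g0, g0', g0''] at e0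
  rw [g1, g1', g1''] at e1
  rw [g2, g2', g2''] at e2
  have m0 : ML 1712 = LS [1712] := ML_toNat (by norm_num)
  have m1 : ML 1344 = LS [1344] := ML_toNat (by norm_num)
  have m2 : ML 1360 = LS [1360] := ML_toNat (by norm_num)
  have n0 : ML (1712 + b8) = LS [(1712 + b8).toNat] := ML_toNat (by omega)
  have n1 : ML (1528 + b8) = LS [(1528 + b8).toNat] := ML_toNat (by omega)
  have n2 : ML (1536 + b8) = LS [(1536 + b8).toNat] := ML_toNat (by omega)
  have o0 := ML_of b8
  have o1 := ML_of (184 + b8)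
  have o2 := ML_of (176 + b8)
  unfold upL dnL at h5'
  simp only [LS_append, LS_cons, LS_nil] at h5' m0 m1 m2 n0 n1 n2
  rw [hC'] at hPs
  have hFF : FF D x ≤ (hs.map fun h => FB D h ((a8 : ℝ) / 8)).sum - FB D 0 ((b8 : ℝ) / 8) -
      (FB D 23 ((b8 : ℝ) / 8) - 168 * (2 * Real.log 2)) -
      (2 * FB D 22 ((b8 : ℝ) / 8) - 170 * (3 * Real.log 3)) := by
    have hH' : D.hH = 23 := rfl
    have hG' : D.hG = 22 := rfl
    unfold FF
    rw [q1, hH', hG', hC]
    norm_num
    linarith
  push_cast at *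
  linarith

/-- the cells -/
def cells : List (ℤ × ℤ) := [(-184, -182), (-182, -180), (-180, -178), (-178, -176), (-176, -174),
  (-174, -172), (-172, -170), (-170, -168), (-168, -165), (-165, -161), (-161, -156), (-156, -149),
  (-149, -139), (-139, -124), (-124, -99), (-99, -58), (-58, 0), (0, 107), (107, 348), (348, 1081),
  (1081, 3282), (3282, 8192)]

set_option maxRecDepth 100000 in
theorem cells_ok : ∀ c ∈ cells, okc c.1 c.2 = true := by decide +kernel

theorem chain_cover : ∀ (l : List (ℤ × ℤ)) (a b : ℤ), (l.foldl (fun (s : Option ℤ) c =>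
    if s = some c.1 then some c.2 else none) (some a)) = some b → a ≤ b → l ≠ [] →
    ∀ x : ℝ, (a : ℝ) / 8 ≤ x → x ≤ (b : ℝ) / 8 → ∃ c ∈ l, (c.1 : ℝ) / 8 ≤ x ∧ x ≤ (c.2 : ℝ) / 8
  | [], _, _, _, _, h, _, _, _ => absurd rfl h
  | c :: l, a, b, hf, _, _, x, hxa, hxb => by
    rw [List.foldl_cons] at hf
    by_cases hc : some a = some c.1
    · have hac : a = c.1 := Option.some.inj hc
      rw [if_pos hc] at hf
      by_cases hx : x ≤ (c.2 : ℝ) / 8
      · exact ⟨c, List.mem_cons_self, by rw [← hac]; exact hxa, hx⟩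
      · rw [not_le] at hx
        rcases l with _ | ⟨c', l⟩
        · rw [List.foldl_nil] at hf
          have := Option.some.inj hf
          rw [← this] at hxb
          exact absurd hxb (not_le.2 hx)
        · have hcb : c.2 ≤ b := by
            by_contra hcon
            rw [not_le] at hcon
            have : (b : ℝ) < c.2 := by exact_mod_cast hcon
            linarith
          obtain ⟨c2, hc2, h2⟩ := chain_cover (c' :: l) c.2 b hf hcb (by simp) x hx.le hxb
          exact ⟨c2, List.mem_cons_of_mem _ hc2, h2⟩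
    · rw [if_neg hc] at hf
      have hnone : ∀ m : List (ℤ × ℤ), (m.foldl (fun (s : Option ℤ) c =>
          if s = some c.1 then some c.2 else none) none) = none := by
        intro m
        induction m with
        | nil => rfl
        | cons d m ih => rw [List.foldl_cons]; simpa using ih
      rw [hnone] at hf
      exact absurd hf (by simp)

/-- the bounded range -/
theorem FF_le_mid {x : ℝ} (h1 : -23 ≤ x) (h2 : x ≤ 1024) : FF D x ≤ -(12642 : ℝ) / 8 := by
  obtain ⟨c, hc, hca, hcb⟩ := chain_cover cells (-184) 8192 (by decide) (by norm_num) (by decide) x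
    (by push_cast; linarith) (by push_cast; linarith)
  exact cell (cells_ok c hc) hca hcb

/-- an upper bound for one pole block -/
theorem FB_le (D : Dat) {h : ℕ} (hh : 2 * h < D.C) {x : ℝ} (hx : 0 < x) :
    FB D h x ≤ ((D.C : ℝ) - 2 * h) * (Real.log ((D.C : ℝ) - 2 * h) - Real.log x - 1) := by
  have hh' : (2 : ℝ) * h < D.C := by exact_mod_cast hh
  have hh0 : (0 : ℝ) ≤ h := by positivity
  set u : ℝ := x + h with hu
  set v : ℝ := x + ((D.C : ℝ) - h) with hv
  have hu0 : 0 < u := by linarith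
  have hv0 : 0 < v := by linarith
  have hxu : Real.log x ≤ Real.log u := Real.log_le_log hx (by linarith)
  have h1 : 1 - (v / u)⁻¹ ≤ Real.log (v / u) := Real.one_sub_inv_le_log_of_pos (by positivity)
  rw [Real.log_div hv0.ne' hu0.ne', inv_div] at h1
  have h2 : v - u ≤ v * (Real.log v - Real.log u) := by
    have := mul_le_mul_of_nonneg_left h1 hv0.le
    have e : v * (1 - u / v) = v - u := by field_simp
    linarith
  unfold FB
  rw [XL_eq, XL_eq]
  have e : (D.C : ℝ) - 2 * h = v - u := by rw [hu, hv]; ring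
  rw [← hu, ← hv, e]
  have h3 : 0 ≤ (v - u) * (Real.log u - Real.log x) := mul_nonneg (by linarith) (by linarith)
  nlinarith

/-- a lower bound for one block -/
theorem le_FB (D : Dat) {h : ℕ} (hh : 2 * h < D.C) {x : ℝ} (hx : 0 < x) :
    ((D.C : ℝ) - 2 * h) * (Real.log ((D.C : ℝ) - 2 * h) - Real.log (x + D.C) - 1) ≤ FB D h x := by
  have hh' : (2 : ℝ) * h < D.C := by exact_mod_cast hh
  have hh0 : (0 : ℝ) ≤ h := by positivity
  set u : ℝ := x + h with hu
  set v : ℝ := x + ((D.C : ℝ) - h) with hv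
  have hu0 : 0 < u := by linarith
  have hv0 : 0 < v := by linarith
  have hxv : Real.log v ≤ Real.log (x + D.C) := Real.log_le_log hv0 (by linarith)
  have h1 : Real.log (v / u) ≤ v / u - 1 := Real.log_le_sub_one_of_pos (by positivity)
  rw [Real.log_div hv0.ne' hu0.ne'] at h1
  have h2 : u * (Real.log v - Real.log u) ≤ v - u := by
    have := mul_le_mul_of_nonneg_left h1 hu0.le
    have e : u * (v / u - 1) = v - u := by field_simp
    linarith
  unfold FB
  rw [XL_eq, XL_eq]
  have e : (D.C : ℝ) - 2 * h = v - u := by rw [hu, hv]; ring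
  rw [← hu, ← hv, e]
  have h3 : 0 ≤ (v - u) * (Real.log (x + D.C) - Real.log v) :=
    mul_nonneg (by linarith) (by linarith)
  nlinarith

/-- the tail -/
theorem FF_le_tail {x : ℝ} (hx : 1024 ≤ x) :
    FF D x ≤ -1900 + 10 - 900 * (Real.log x - 10 * Real.log 2) := by
  have hx0 : 0 < x := by linarith
  have hl2 := Real.log_two_gt_d9
  have hl2' := Real.log_two_lt_d9
  have hC : (D.C : ℝ) = 214 := by norm_num [D]
  have q1 : ∑ i ∈ D.P, FB D (D.h i) x = (hs.map fun h => FB D h x).sum := sum_hs fun h => FB D h x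
  have h128 : Real.log 128 = 7 * Real.log 2 := by
    rw [show (128 : ℝ) = 2 ^ 7 by norm_num, Real.log_pow]
    norm_num
  have h3 : Real.log 3 ≤ 8 / 5 * Real.log 2 := by
    have : Real.log ((3 : ℝ) ^ 5) ≤ Real.log (2 ^ 8) := Real.log_le_log (by norm_num) (by norm_num)
    rw [Real.log_pow, Real.log_pow] at this
    push_cast at this
    linarith
  have hlx : 10 * Real.log 2 ≤ Real.log x := by
    have : Real.log (2 ^ 10) ≤ Real.log x := Real.log_le_log (by norm_num) (by norm_num; linarith)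
    rw [Real.log_pow] at this
    push_cast at this
    exact this
  have hlx2 : Real.log (x + 214) ≤ Real.log x + 214 / 1024 := by
    have e : x + 214 = x * (1 + 214 / x) := by field_simp
    have h1 : Real.log (1 + 214 / x) ≤ 214 / x := by
      have := Real.log_le_sub_one_of_pos (show (0 : ℝ) < 1 + 214 / x by positivity)
      linarith
    have h2 : 214 / x ≤ 214 / 1024 := by
      apply div_le_div_of_nonneg_left (by norm_num) (by norm_num) hx
    rw [e, Real.log_mul hx0.ne' (by positivity)]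
    linarith
  have hP : ∀ h ∈ hs, FB D h x ≤ (214 - 2 * (h : ℝ)) * (7 * Real.log 2 - Real.log x - 1) := by
    intro h hh
    have hall : ∀ h ∈ hs, (h ≤ 94 ∧ 67 ≤ h) := by decide
    obtain ⟨g1, g2⟩ := hall h hh
    have hC' : D.C = 214 := rfl
    have h1 := FB_le D (h := h) (by rw [hC']; omega) hx0
    rw [hC] at h1
    have g1' : (h : ℝ) ≤ 94 := by exact_mod_cast g1
    have g2' : (67 : ℝ) ≤ h := by exact_mod_cast g2
    have h2 : Real.log (214 - 2 * (h : ℝ)) ≤ Real.log 128 :=
      Real.log_le_log (by linarith) (by linarith)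
    rw [h128] at h2
    refine h1.trans (mul_le_mul_of_nonneg_left (by linarith) (by linarith))
  have hPs : (hs.map fun h => FB D h x).sum ≤
      (hs.map fun h : ℕ => (214 - 2 * (h : ℝ)) * (7 * Real.log 2 - Real.log x - 1)).sum :=
    List.sum_le_sum hP
  have hPe : (hs.map fun h : ℕ => (214 - 2 * (h : ℝ)) * (7 * Real.log 2 - Real.log x - 1)).sum =
      1656 * (7 * Real.log 2 - Real.log x - 1) := by
    simp [hs]
    ring
  have hZ : ∀ h : ℕ, h ≤ 43 →
      (214 - 2 * (h : ℝ)) * (7 * Real.log 2 - Real.log x - 214 / 1024 - 1) ≤ FB D h x := by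
    intro h hh
    have hC' : D.C = 214 := rfl
    have h1 := le_FB D (h := h) (by rw [hC']; omega) hx0
    rw [hC] at h1
    have g1' : (h : ℝ) ≤ 43 := by exact_mod_cast hh
    have h2 : Real.log 128 ≤ Real.log (214 - 2 * (h : ℝ)) :=
      Real.log_le_log (by norm_num) (by linarith)
    rw [h128] at h2
    refine (mul_le_mul_of_nonneg_left (by linarith) (by linarith)).trans h1
  have z0 := hZ 0 (by norm_num)
  have z1 := hZ 23 (by norm_num)
  have z2 := hZ 22 (by norm_num)
  have hH' : D.hH = 23 := rfl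
  have hG' : D.hG = 22 := rfl
  unfold FF
  rw [q1, hH', hG', hC]
  push_cast at z0 z1 z2 ⊢
  linarith

/-- module SD -/
theorem FF_le (x : ℝ) (hx : -((max D.hH D.hG : ℕ) : ℝ) ≤ x) :
    FF D x ≤ -(1580 : ℝ) - (1 / 100) * Real.log (1 + |x|) := by
  have hmax : ((max D.hH D.hG : ℕ) : ℝ) = 23 := by
    have : max D.hH D.hG = 23 := by decide
    rw [this]; norm_num
  rw [hmax] at hx
  have hl2 := Real.log_two_gt_d9
  have hl2' := Real.log_two_lt_d9
  by_cases h : x ≤ 1024
  · have h1 := FF_le_mid hx h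
    have h2 : |x| ≤ 1024 := by rw [abs_le]; constructor <;> linarith
    have h3 : Real.log (1 + |x|) ≤ Real.log (2 ^ 11) := by
      apply Real.log_le_log (by positivity)
      norm_num
      linarith
    rw [Real.log_pow] at h3
    push_cast at h3
    linarith
  · rw [not_le] at h
    have h1 := FF_le_tail h.le
    have hx0 : 0 < x := by linarith
    rw [abs_of_pos hx0]
    have h2 : Real.log (1 + x) ≤ Real.log (2 * x) := Real.log_le_log (by linarith) (by linarith)
    rw [Real.log_mul (by norm_num) hx0.ne'] at h2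
    have h3 : Real.log (2 ^ 10) ≤ Real.log x := Real.log_le_log (by norm_num) (by norm_num; linarith)
    rw [Real.log_pow] at h3
    push_cast at h3
    linarith

end D29

end Pool.Agent.TwoOdd
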