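import Pool.Agent.TwoOdd.SizeR

set_option autoImplicit false

/-!
# Size of the sums `S D c n` (module SZ2: `S_bound_of`)

Seat: helper96.
-/

open Finset

namespace Pool.Agent.TwoOdd

theorem eventually_poly_exp {KK al be : ℝ} (hKK : 0 ≤ KK) (hab : be < al) (B : ℕ) :
    ∀ᶠ n : ℕ in Filter.atTop, KK * (n : ℝ) ^ B * Real.exp (-al * n) ≤ Real.exp (-be * n) := by
  have hlim := isLittleO_pow_exp_pos_mul_atTop B (b := al - be) (by linarith)
  have hev := (hlim.comp_tendsto tendsto_natCast_atTop_atTop).bound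
    (c := 1 / (KK + 1)) (by positivity)
  filter_upwards [hev] with n h1
  simp only [Function.comp, norm_pow, Real.norm_eq_abs, Nat.abs_cast, Real.abs_exp] at h1
  have h4 : KK * (n : ℝ) ^ B ≤ Real.exp ((al - be) * n) := by
    have h5 : KK * (n : ℝ) ^ B ≤ KK * (1 / (KK + 1) * Real.exp ((al - be) * n)) := by
      gcongr
    refine h5.trans ?_
    have h6 : KK * (1 / (KK + 1)) ≤ 1 := by
      rw [mul_one_div, div_le_one (by positivity)]
      linarith
    calc KK * (1 / (KK + 1) * Real.exp ((al - be) * n)) =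
        (KK * (1 / (KK + 1))) * Real.exp ((al - be) * n) := by ring
      _ ≤ 1 * Real.exp ((al - be) * n) := by gcongr
      _ = _ := one_mul _
  calc KK * (n : ℝ) ^ B * Real.exp (-al * n)
      ≤ Real.exp ((al - be) * n) * Real.exp (-al * n) := by gcongr
    _ = Real.exp (-be * n) := by
      rw [← Real.exp_add]
      congr 1
      ring

theorem R_eq_zero (D : Dat) (n m : ℕ) (hm : m ≤ D.C * n) : R D n (-(m : ℝ)) = 0 := by
  have h0 : ∏ u ∈ Z D n, (-(m : ℝ) + (u : ℝ) / 6) = 0 := by
    refine Finset.prod_eq_zero (i := 6 * m) ?_ ?_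
    · unfold Z
      rw [Finset.mem_filter, Finset.mem_Icc]
      refine ⟨⟨Nat.zero_le _, by omega⟩, Or.inl (by omega)⟩
    · push_cast
      ring
  unfold R
  rw [h0]
  simp

/-- SZ2 -/
theorem S_bound_of {D : Dat} (hD : D.OK) {al be ep : ℝ} (hep : 0 < ep) (hab : be < al)
    (hineq : ∀ x : ℝ, -((max D.hH D.hG : ℕ) : ℝ) ≤ x → FF D x ≤ -al - ep * Real.log (1 + |x|)) :
    ∃ N : ℕ, ∀ n ≥ N, ∀ c : ℕ, |S D c n| ≤ Real.exp (-be * n) := by
  obtain ⟨Cst', A, hR'⟩ := R_bound hD
  set Cst : ℝ := max Cst' 0 with hCst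
  have hC0 : 0 ≤ Cst := le_max_right _ _
  have hR : ∀ n : ℕ, 0 < n → ∀ x : ℝ, -((max D.hH D.hG : ℕ) * n : ℝ) ≤ x →
      |R D n x| ≤ Cst * ((n : ℝ) + |x| + 1) ^ A * Real.exp (n * FF D (x / n)) := by
    intro n hn x hx
    refine (hR' n hn x hx).trans ?_
    gcongr
    exact le_max_left _ _
  have hZ : Summable (fun u : ℕ => 1 / ((u : ℝ) + 1) ^ 2) := by
    have h1 : Summable (fun m : ℕ => 1 / (m : ℝ) ^ 2) := Real.summable_one_div_nat_pow.mpr (by norm_num)
    have h2 := (summable_nat_add_iff 1).mpr h1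
    refine h2.congr fun m => ?_
    push_cast
    rfl
  set Zs : ℝ := ∑' u : ℕ, 1 / ((u : ℝ) + 1) ^ 2 with hZs
  have hZ0 : 0 ≤ Zs := by
    rw [hZs]
    exact tsum_nonneg fun m => by positivity
  set KK : ℝ := Cst * 2 ^ A * (36 * ((D.s : ℝ) + 1) ^ 2) * Zs with hKK
  have hKK0 : 0 ≤ KK := by positivity
  have key : ∀ n : ℕ, 1 ≤ n → (A : ℝ) + 2 ≤ ep * n → ∀ c : ℕ,
      |S D c n| ≤ KK * (n : ℝ) ^ (A + 2) * Real.exp (-al * n) := by
    intro n hn hnδ c
    have hn0 : (0 : ℝ) < n := by exact_mod_cast hn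
    have hn1 : (1 : ℝ) ≤ n := by exact_mod_cast hn
    have hst : (st D c : ℝ) ≤ D.s := by
      have h1 := hD.hH_lt
      have h2 := hD.hG_lt
      have : st D c ≤ D.s := by
        unfold st
        split <;> omega
      exact_mod_cast this
    have hs0 : (0 : ℝ) ≤ D.s := Nat.cast_nonneg _
    have hst0 : (0 : ℝ) ≤ st D c := Nat.cast_nonneg _
    -- bound for one point
    have hpt : ∀ u : ℕ, -((max D.hH D.hG : ℕ) * n : ℝ) ≤ (u : ℝ) / 6 - (st D c * n : ℕ) →
        |R D n ((u : ℝ) / 6 - (st D c * n : ℕ))| ≤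
          Cst * 2 ^ A * (36 * ((D.s : ℝ) + 1) ^ 2) * (n : ℝ) ^ (A + 2) * Real.exp (-al * n) *
            (1 / ((u : ℝ) + 1) ^ 2) := by
      intro u hu
      have hu0 : (0 : ℝ) ≤ u := Nat.cast_nonneg u
      set x : ℝ := (u : ℝ) / 6 - (st D c * n : ℕ) with hx
      have hxr : x = (u : ℝ) / 6 - st D c * n := by rw [hx]; push_cast; ring
      have h1 := hR n hn x hu
      have h2 := hineq (x / n) (by
        rw [le_div_iff₀ hn0]
        linarith)
      rw [abs_div, abs_of_pos hn0] at h2
      have hax := abs_nonneg x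
      set z : ℝ := 1 + |x| / n with hz
      have hz1 : 1 ≤ z := by rw [hz]; have : 0 ≤ |x| / n := by positivity
                             linarith
      have hz0 : 0 < z := by linarith
      have hnz : n * z = n + |x| := by rw [hz]; field_simp
      have hlogz : 0 ≤ Real.log z := Real.log_nonneg hz1
      have hexp : Real.exp (n * FF D (x / n)) ≤ Real.exp (-al * n) * (1 / z ^ (A + 2)) := by
        have h3 : (n : ℝ) * FF D (x / n) ≤ -al * n + -((A + 2 : ℕ) * Real.log z) := by
          have h4 : (n : ℝ) * FF D (x / n) ≤ n * (-al - ep * Real.log z) :=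
            mul_le_mul_of_nonneg_left h2 hn0.le
          have h5 : ((A : ℝ) + 2) * Real.log z ≤ (ep * n) * Real.log z :=
            mul_le_mul_of_nonneg_right hnδ hlogz
          push_cast
          nlinarith
        refine (Real.exp_le_exp.2 h3).trans (le_of_eq ?_)
        rw [Real.exp_add, Real.exp_neg, ← Real.log_pow, Real.exp_log (by positivity), one_div]
      have hpoly : ((n : ℝ) + |x| + 1) ^ A ≤ (2 * (n * z)) ^ A := by
        apply pow_le_pow_left₀ (by positivity)
        rw [hnz]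
        linarith
      have hfin : (2 * (n * z)) ^ A * (1 / z ^ (A + 2)) ≤
          2 ^ A * (n : ℝ) ^ (A + 2) * (36 * ((D.s : ℝ) + 1) ^ 2) * (1 / ((u : ℝ) + 1) ^ 2) := by
        have h6 : (2 * (n * z)) ^ A * (1 / z ^ (A + 2)) = 2 ^ A * (n : ℝ) ^ (A + 2) * (1 / (n * z) ^ 2) := by
          rw [mul_pow, mul_pow, pow_add, pow_add, mul_pow]
          field_simp
        rw [h6, hnz, mul_assoc (2 ^ A * (n : ℝ) ^ (A + 2))]
        refine mul_le_mul_of_nonneg_left ?_ (by positivity)
        rw [mul_one_div, div_le_div_iff₀ (by positivity) (by positivity), one_mul]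
        have h7 : (u : ℝ) + 1 ≤ 6 * (((D.s : ℝ) + 1) * (n + |x|)) := by
          have h8 : (u : ℝ) / 6 - st D c * n ≤ |x| := by rw [← hxr]; exact le_abs_self x
          have h9 : (st D c : ℝ) * n ≤ D.s * n := mul_le_mul_of_nonneg_right hst hn0.le
          have h10 : 0 ≤ (D.s : ℝ) * |x| := by positivity
          nlinarith
        calc ((u : ℝ) + 1) ^ 2 ≤ (6 * (((D.s : ℝ) + 1) * (n + |x|))) ^ 2 := by gcongr
          _ = _ := by ring
      calc |R D n x| ≤ Cst * ((n : ℝ) + |x| + 1) ^ A * Real.exp (n * FF D (x / n)) := h1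
        _ ≤ Cst * (2 * (n * z)) ^ A * (Real.exp (-al * n) * (1 / z ^ (A + 2))) := by gcongr
        _ = Cst * Real.exp (-al * n) * ((2 * (n * z)) ^ A * (1 / z ^ (A + 2))) := by ring
        _ ≤ Cst * Real.exp (-al * n) * (2 ^ A * (n : ℝ) ^ (A + 2) * (36 * ((D.s : ℝ) + 1) ^ 2) *
            (1 / ((u : ℝ) + 1) ^ 2)) := by gcongr
        _ = _ := by ring
    have hterm : ∀ u : ℕ, |(if cls c u ∧ 0 < u then R D n ((u : ℝ) / 6 - (st D c * n : ℕ)) else 0)| ≤
        Cst * 2 ^ A * (36 * ((D.s : ℝ) + 1) ^ 2) * (n : ℝ) ^ (A + 2) * Real.exp (-al * n) *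
            (1 / ((u : ℝ) + 1) ^ 2) := by
      intro u
      split_ifs with h
      · by_cases hc : c = 0
        · subst hc
          have hmod : u % 6 = 0 := h.1
          obtain ⟨m, rfl⟩ : ∃ m, u = 6 * m := ⟨u / 6, by omega⟩
          rcases le_or_gt (D.s * n) m with h1 | h1
          · apply hpt
            have h2 : ((D.s * n : ℕ) : ℝ) ≤ m := by exact_mod_cast h1
            have h3 : (0 : ℝ) ≤ (max D.hH D.hG : ℕ) * n := by positivity
            have h4 : ((6 * m : ℕ) : ℝ) / 6 = m := by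
              push_cast
              ring
            show -((max D.hH D.hG : ℕ) * n : ℝ) ≤ ((6 * m : ℕ) : ℝ) / 6 - (D.s * n : ℕ)
            rw [h4]
            linarith
          · have h2 : ((6 * m : ℕ) : ℝ) / 6 - ((st D 0 * n : ℕ) : ℝ) = -((D.s * n - m : ℕ) : ℝ) := by
              rw [Nat.cast_sub h1.le]
              show ((6 * m : ℕ) : ℝ) / 6 - ((D.s * n : ℕ) : ℝ) = _
              push_cast
              ring
            rw [h2, R_eq_zero D n _ ?_, abs_zero]
            · positivity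
            · have : D.s * n ≤ D.C * n := Nat.mul_le_mul_right n (by
                have := hD.s_le; have := hD.lo_lt; omega)
              omega
        · apply hpt
          have h1 : st D c ≤ max D.hH D.hG := by
            unfold st
            split
            · exact absurd rfl hc
            · exact le_max_left _ _
            · exact le_max_right _ _
          have h2 : (st D c : ℝ) * n ≤ (max D.hH D.hG : ℕ) * n := by
            have : (st D c : ℝ) ≤ (max D.hH D.hG : ℕ) := by exact_mod_cast h1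
            exact mul_le_mul_of_nonneg_right this hn0.le
          have h3 : (0 : ℝ) ≤ (u : ℝ) / 6 := by positivity
          rw [Nat.cast_mul]
          linarith
      · rw [abs_zero]
        positivity
    have hs1 : Summable (fun u : ℕ => Cst * 2 ^ A * (36 * ((D.s : ℝ) + 1) ^ 2) * (n : ℝ) ^ (A + 2) *
        Real.exp (-al * n) * (1 / ((u : ℝ) + 1) ^ 2)) := hZ.mul_left _
    have h7 := tsum_of_norm_bounded hs1.hasSum (fun u => by
      rw [Real.norm_eq_abs]
      exact hterm u)
    rw [Real.norm_eq_abs, tsum_mul_left] at h7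
    refine h7.trans (le_of_eq ?_)
    rw [← hZs, hKK]
    ring
  have hδn : ∀ᶠ n : ℕ in Filter.atTop, (A : ℝ) + 2 ≤ ep * n := by
    have := (tendsto_natCast_atTop_atTop (R := ℝ)).const_mul_atTop hep
    exact this.eventually_ge_atTop _
  obtain ⟨N, hN⟩ := Filter.eventually_atTop.1
    ((eventually_poly_exp hKK0 hab (A + 2)).and (hδn.and (Filter.eventually_ge_atTop 1)))
  refine ⟨N, fun n hn c => ?_⟩
  obtain ⟨h1, h2, h3⟩ := hN n hn
  exact (key n h3 h2 c).trans h1

end Pool.Agent.TwoOdd
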