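/-!
Finite table: values on the grid with step `1 / 27720`, in blocks, run-length encoded
`(length, value)`.  Seat: helper61.
-/

namespace Pool.Agent.TwoOdd.D29

def r0 : List (Nat × Nat) :=
  [(109, 30), (54, 29), (29, 31), (26, 30), (23, 29), (54, 28), (31, 27), (4, 29), (17, 30), (9,
  29), (9, 28), (10, 27), (10, 26), (3, 24), (8, 25), (12, 24), (12, 23), (14, 22), (1, 21), (13,
  20), (14, 19), (3, 18), (13, 17), (11, 16), (6, 18), (13, 17), (6, 16), (4, 15), (5, 16), (20,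
  17), (11, 18), (11, 19), (12, 20), (1, 21), (11, 20), (8, 21), (6, 20), (13, 19), (28, 20), (1,
  21), (2, 20), (5, 21), (2, 23), (22, 22), (6, 23), (11, 22)]

def r1 : List (Nat × Nat) :=
  [(14, 21), (3, 20), (1, 21), (19, 20), (16, 19), (3, 18), (1, 19), (20, 18), (7, 16), (38, 17),
  (1, 19), (9, 18), (42, 19), (27, 18), (1, 19), (9, 18), (2, 17), (9, 18), (9, 17), (28, 15),
  (3, 14), (1, 15), (16, 14), (6, 15), (12, 17), (18, 16), (18, 17), (1, 18), (13, 17), (4, 16),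
  (2, 15), (20, 16), (1, 17), (41, 14), (1, 15), (22, 14), (8, 15), (2, 16), (30, 18), (1, 19),
  (33, 18), (1, 19), (35, 17), (3, 18), (16, 17), (35, 16), (9, 17), (36, 19), (23, 18), (16,
  19), (7, 18)]

def r2 : List (Nat × Nat) :=
  [(36, 16), (2, 15), (34, 16), (1, 17), (8, 15), (8, 17), (10, 16), (14, 17), (13, 16), (28,
  17), (14, 14), (30, 15), (22, 14), (1, 15), (23, 14), (1, 17), (19, 16), (33, 17), (14, 18),
  (8, 19), (28, 20), (7, 18), (29, 17), (8, 18), (11, 16), (1, 17), (4, 16), (14, 18), (1, 19),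
  (7, 16), (2, 17), (7, 18), (49, 16), (6, 15), (7, 17), (39, 16), (20, 15), (7, 16), (1, 17),
  (3, 16), (24, 18), (11, 16), (25, 15), (12, 16), (8, 17), (17, 16), (1, 17), (12, 15), (2, 14),
  (4, 15), (3, 16), (4, 15), (13, 13), (27, 14), (13, 16), (1, 18), (33, 16), (8, 15), (15, 16),
  (25, 15), (3, 14), (14, 15), (16, 14), (1, 15), (14, 14), (10, 15), (6, 16), (4, 17), (28, 19),
  (39, 18), (10, 19), (17, 20), (9, 19), (25, 18), (1, 19), (15, 17), (5, 16), (14, 17), (1, 19),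
  (15, 18), (21, 19), (6, 20), (7, 18), (43, 17), (16, 16), (13, 15), (11, 14), (1, 15), (11,
  14), (9, 15), (9, 13), (7, 15), (60, 16), (7, 15), (1, 16), (12, 15), (22, 14), (3, 15), (12,
  16), (30, 17), (10, 16)]

def r3 : List (Nat × Nat) :=
  [(33, 15), (13, 16), (10, 17), (4, 18), (11, 17), (1, 18), (5, 17), (5, 18), (13, 17), (1, 18),
  (28, 17), (21, 18), (1, 19), (8, 17), (9, 16), (5, 18), (8, 17), (6, 18), (16, 17), (9, 16),
  (6, 17), (29, 18), (4, 16), (6, 15), (13, 16), (43, 17), (18, 16), (17, 18), (4, 17), (11, 16),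
  (8, 15), (42, 16), (19, 17), (8, 16), (2, 15), (4, 14), (1, 15), (9, 14), (38, 15), (1, 18),
  (21, 16), (5, 15), (12, 16), (26, 15), (1, 16), (40, 15), (21, 16), (6, 15), (10, 16), (5, 17),
  (2, 16), (6, 17), (7, 18), (41, 20), (40, 17), (23, 16), (10, 17), (15, 18), (1, 19), (10, 17),
  (18, 16), (5, 15), (29, 17), (9, 16), (1, 15), (4, 16), (18, 17), (13, 14), (35, 15), (50, 14),
  (4, 13), (6, 15), (2, 16), (22, 17), (15, 16), (7, 17), (2, 16), (8, 17), (26, 16), (8, 17),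
  (4, 16), (31, 14), (4, 13), (5, 14), (14, 15), (6, 16), (3, 15), (47, 17), (19, 18), (34, 17),
  (2, 16), (9, 17), (8, 16), (24, 17), (7, 18), (11, 17), (2, 16), (1, 19), (12, 17), (6, 18),
  (11, 17), (1, 18), (14, 17), (16, 16), (8, 17), (4, 18), (9, 17)]

def r4 : List (Nat × Nat) :=
  [(26, 15), (34, 16), (1, 17), (9, 14), (11, 15), (25, 17), (1, 19), (9, 15), (16, 16), (12,
  17), (10, 16), (20, 17), (27, 16), (17, 15), (1, 16), (25, 15), (8, 17), (9, 16), (1, 17), (35,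
  16), (6, 17), (23, 16), (1, 17), (11, 16), (16, 15), (13, 14), (8, 15), (3, 16), (12, 17), (3,
  16), (5, 17), (9, 18), (55, 20), (49, 15), (38, 14), (10, 15), (1, 14), (10, 15), (4, 17), (10,
  18), (23, 17), (14, 16), (1, 17), (5, 16), (19, 17), (9, 18), (7, 17), (1, 18), (19, 16), (11,
  17), (12, 15), (7, 16), (21, 15), (1, 17), (27, 16), (9, 15), (22, 16), (14, 15), (26, 16), (8,
  15), (7, 16), (46, 15), (3, 16), (28, 18), (9, 17), (7, 18), (9, 17), (8, 15), (18, 16), (1,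
  17), (14, 15), (20, 14), (6, 16), (7, 17), (17, 18), (19, 15), (5, 16), (8, 15), (14, 16), (1,
  17), (13, 16), (22, 15), (20, 16), (8, 15), (2, 16), (21, 17), (18, 15), (31, 16), (10, 18),
  (34, 17), (16, 15), (5, 16), (8, 17), (12, 18), (25, 19), (15, 18), (39, 17)]

def r5 : List (Nat × Nat) :=
  [(25, 18), (3, 19), (14, 18), (24, 17), (9, 18), (12, 17), (16, 16), (10, 14), (21, 15), (8,
  14), (1, 15), (12, 14), (8, 15), (1, 17), (45, 16), (39, 17), (24, 18), (2, 17), (10, 16), (7,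
  17), (1, 18), (7, 17), (24, 16), (3, 15), (21, 17), (16, 16), (6, 17), (1, 18), (19, 17), (7,
  16), (18, 15), (20, 16), (15, 17), (1, 18), (20, 17), (12, 16), (1, 17), (5, 15), (1, 14), (9,
  16), (6, 15), (16, 16), (11, 15), (1, 16), (8, 15), (1, 16), (3, 15), (11, 16), (6, 15), (2,
  16), (53, 17), (36, 15), (5, 17), (13, 16), (3, 15), (5, 16), (15, 17), (22, 15), (1, 16), (10,
  15), (6, 16), (7, 17), (1, 18), (16, 17), (22, 16), (25, 17), (6, 18), (6, 17), (2, 19), (8,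
  20), (27, 19), (1, 20), (17, 19), (3, 18), (29, 17), (1, 18), (21, 17), (8, 15), (11, 16), (35,
  17), (1, 19), (11, 18), (11, 17), (7, 15), (14, 16), (11, 15), (7, 16), (16, 15), (6, 16), (23,
  17), (23, 15), (1, 16), (21, 15), (11, 13), (50, 15), (30, 16), (30, 17), (4, 16), (9, 17), (8,
  18), (7, 19), (6, 20), (5, 21), (1, 20), (3, 21), (2, 20), (8, 21), (17, 23), (16, 24), (13,
  23), (36, 22)]

def r6 : List (Nat × Nat) :=
  [(28, 15), (36, 14), (2, 15), (15, 14), (15, 16), (39, 15), (12, 16), (14, 17), (4, 18), (12,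
  19), (1, 20), (10, 19), (2, 18), (4, 17), (16, 18), (26, 17), (8, 16), (10, 18), (2, 17), (1,
  18), (13, 16), (31, 17), (1, 18), (38, 17), (7, 18), (17, 16), (1, 18), (8, 16), (12, 15), (7,
  13), (15, 14), (1, 16), (16, 15), (29, 16), (9, 17), (45, 15), (15, 16), (11, 15), (1, 16),
  (16, 13), (8, 15), (12, 14), (8, 16), (4, 15), (5, 16), (39, 17), (34, 16), (11, 17), (8, 16),
  (10, 17), (4, 16), (19, 15), (4, 16), (1, 17), (13, 16), (3, 15), (13, 17), (24, 18), (19, 16),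
  (4, 15), (2, 14), (7, 15), (3, 14), (11, 15), (9, 14), (16, 15), (10, 16), (16, 17), (10, 16),
  (1, 15), (11, 16), (7, 15), (8, 17), (11, 16), (15, 17), (22, 18), (11, 17), (27, 16), (37,
  17), (13, 16), (10, 15), (9, 14), (19, 15), (17, 16), (6, 15), (16, 16), (1, 17), (16, 16),
  (35, 17), (3, 16), (50, 17), (1, 20), (7, 18), (14, 19), (8, 18), (26, 17), (5, 16), (1, 17),
  (15, 15), (21, 14), (17, 15), (7, 16), (16, 17), (26, 18)]

def r7 : List (Nat × Nat) :=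
  [(14, 16), (38, 15), (12, 16), (9, 17), (26, 16), (21, 17), (1, 18), (19, 16), (14, 17), (9,
  14), (6, 16), (15, 17), (29, 18), (1, 20), (22, 18), (9, 17), (73, 16), (8, 17), (9, 19), (12,
  18), (15, 16), (41, 17), (8, 16), (6, 15), (5, 16), (7, 15), (8, 16), (1, 17), (24, 15), (11,
  14), (16, 15), (3, 17), (12, 18), (13, 17), (5, 16), (1, 17), (7, 16), (9, 17), (5, 16), (10,
  15), (1, 16), (14, 15), (6, 14), (19, 15), (16, 14), (11, 15), (15, 16), (3, 15), (13, 16), (1,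
  19), (10, 17), (1, 18), (20, 17), (9, 18), (14, 17), (17, 16), (11, 14), (16, 15), (5, 16),
  (16, 17), (3, 18), (11, 17), (11, 18), (18, 19), (55, 21), (6, 20), (4, 19), (44, 20), (54,
  19), (43, 21), (12, 20), (7, 19), (9, 18), (7, 17), (4, 16), (14, 15), (24, 14), (22, 15), (19,
  16), (2, 17), (8, 19), (19, 20), (41, 18), (4, 17), (19, 16), (10, 15), (1, 16), (11, 15), (6,
  16), (9, 17), (11, 18), (13, 16), (11, 17), (5, 18), (16, 17), (1, 18), (38, 16), (22, 17)]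

def r8 : List (Nat × Nat) :=
  [(12, 15), (4, 16), (17, 15), (5, 16), (14, 15), (6, 14), (1, 15), (22, 14), (1, 17), (24, 15),
  (9, 16), (1, 17), (18, 15), (1, 16), (7, 15), (4, 16), (8, 15), (44, 16), (37, 14), (9, 15),
  (4, 16), (1, 17), (11, 16), (12, 15), (5, 16), (1, 18), (15, 17), (2, 16), (13, 17), (33, 15),
  (6, 16), (7, 15), (9, 14), (38, 15), (4, 16), (2, 15), (6, 17), (5, 16), (15, 17), (6, 16),
  (23, 17), (33, 16), (15, 15), (1, 17), (17, 15), (3, 16), (12, 17), (6, 16), (1, 15), (14, 16),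
  (1, 17), (5, 14), (35, 16), (29, 15), (7, 16), (5, 17), (14, 18), (10, 19), (23, 18), (40, 14),
  (25, 16), (24, 17), (4, 16), (1, 17), (3, 16), (8, 17), (14, 16), (1, 17), (7, 16), (19, 15),
  (1, 16), (18, 15), (18, 16), (6, 15), (14, 16), (1, 18), (17, 17), (5, 18), (14, 19), (26, 18),
  (1, 20), (10, 17), (20, 16), (6, 15), (12, 16), (15, 15), (5, 16), (1, 17), (11, 16), (6, 15),
  (3, 16), (4, 17), (6, 16), (19, 18), (26, 15), (11, 16), (12, 17), (35, 16), (13, 15), (29,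
  14), (14, 15), (4, 14), (7, 16), (12, 17), (30, 16), (7, 15), (3, 14), (17, 15), (6, 16), (1,
  17), (3, 16), (2, 17), (5, 18), (8, 17), (30, 16), (33, 17)]

def r9 : List (Nat × Nat) :=
  [(61, 18), (16, 17), (13, 15), (27, 14), (15, 15), (18, 16), (13, 15), (11, 17), (7, 16), (24,
  17), (1, 18), (12, 17), (1, 16), (15, 15), (18, 16), (20, 15), (6, 16), (6, 15), (1, 16), (18,
  15), (1, 16), (6, 15), (16, 16), (1, 18), (20, 17), (14, 16), (1, 17), (19, 16), (7, 15), (30,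
  14), (8, 15), (14, 16), (22, 17), (27, 15), (15, 16), (11, 17), (10, 18), (7, 17), (23, 16),
  (7, 15), (7, 16), (14, 17), (1, 18), (23, 16), (9, 15), (11, 16), (13, 17), (12, 15), (5, 16),
  (26, 17), (1, 18), (9, 17), (6, 15), (20, 16), (8, 15), (88, 16), (5, 18), (9, 17), (18, 18),
  (22, 16), (30, 17), (1, 18), (24, 17), (33, 15), (1, 16), (6, 17), (1, 18), (11, 16), (2, 15),
  (14, 17), (4, 16), (12, 15), (7, 16), (12, 17), (13, 16), (41, 14), (7, 15), (4, 16), (26, 15),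
  (4, 14), (5, 15), (14, 16), (1, 19), (10, 16), (21, 17), (8, 16), (51, 17), (42, 16), (23, 15),
  (7, 16), (10, 18), (24, 16), (1, 17), (26, 16), (1, 17), (20, 16)]

def r10 : List (Nat × Nat) :=
  [(36, 15), (8, 14), (1, 15), (11, 14), (25, 15), (9, 17), (2, 18), (17, 19), (17, 18), (38,
  19), (16, 18), (1, 19), (39, 16), (11, 17), (13, 16), (5, 17), (14, 18), (17, 17), (6, 16),
  (33, 18), (1, 20), (23, 16), (4, 15), (2, 14), (11, 15), (11, 14), (25, 15), (11, 14), (29,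
  16), (21, 17), (22, 16), (13, 17), (9, 16), (19, 17), (17, 16), (24, 17), (7, 18), (2, 17), (1,
  20), (23, 18), (7, 17), (15, 18), (14, 15), (7, 16), (19, 15), (1, 16), (19, 15), (4, 14), (1,
  13), (12, 14), (33, 13), (7, 14), (5, 16), (18, 17), (9, 16), (1, 17), (17, 16), (1, 17), (5,
  16), (19, 15), (1, 16), (58, 15), (29, 16), (4, 18), (78, 17), (1, 18), (22, 17), (11, 15), (5,
  14), (42, 13), (56, 15), (9, 14), (2, 15), (8, 16), (8, 17), (9, 18), (7, 19), (5, 20), (3,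
  19), (6, 21), (7, 22), (6, 23), (5, 24), (1, 25), (5, 24), (5, 25), (1, 26), (4, 25), (4, 26),
  (11, 27), (1, 28), (34, 30), (21, 31), (55, 30), (54, 29)]

def r11 : List (Nat × Nat) :=
  [(55, 15), (54, 14), (54, 13), (2, 15), (53, 16), (23, 15), (11, 14), (7, 15), (2, 16), (10,
  17), (1, 18), (10, 17), (12, 18), (5, 19), (9, 18), (14, 19), (4, 20), (12, 22), (9, 23), (8,
  22), (1, 23), (9, 22), (9, 21), (1, 22), (4, 21), (6, 20), (3, 18), (20, 19), (19, 18), (8,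
  17), (12, 16), (1, 17), (24, 16), (5, 15), (1, 16), (11, 15), (6, 17), (18, 18), (1, 19), (4,
  16), (12, 17), (24, 16), (1, 18), (14, 17), (9, 18), (3, 17), (4, 16), (5, 17), (12, 16), (1,
  17), (17, 15), (10, 16), (17, 15), (5, 16), (8, 18), (21, 19), (12, 20), (11, 18), (7, 19),
  (18, 17), (1, 18), (20, 16), (6, 15), (10, 16), (4, 15), (7, 14), (7, 15), (31, 16), (1, 19),
  (24, 18), (8, 17), (18, 18), (1, 19), (17, 16), (16, 17), (6, 16), (9, 17), (9, 16), (39, 15),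
  (3, 14), (12, 15), (26, 16), (23, 17), (7, 16), (2, 17), (2, 18), (2, 17), (26, 16), (1, 17),
  (28, 15), (28, 14), (1, 15), (12, 14), (5, 15), (14, 17), (10, 15), (9, 16), (14, 18), (18,
  17), (9, 15), (75, 16), (5, 15), (5, 16), (4, 15), (37, 17), (1, 18), (16, 17), (6, 18), (2,
  17), (1, 18), (19, 17)]

def r12 : List (Nat × Nat) :=
  [(28, 15), (8, 16), (2, 15), (24, 16), (11, 17), (8, 15), (7, 16), (11, 17), (6, 18), (1, 17),
  (30, 18), (18, 17), (14, 16), (23, 17), (7, 16), (2, 15), (4, 14), (4, 15), (17, 14), (19, 15),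
  (1, 17), (19, 16), (30, 17), (3, 16), (7, 17), (12, 18), (30, 19), (1, 21), (17, 16), (14, 15),
  (6, 16), (6, 15), (1, 16), (16, 15), (20, 17), (5, 18), (6, 17), (6, 16), (18, 17), (13, 16),
  (29, 17), (29, 16), (6, 17), (17, 14), (14, 15), (24, 17), (29, 18), (30, 17), (15, 16), (18,
  15), (6, 16), (1, 15), (35, 14), (5, 15), (13, 17), (1, 18), (14, 15), (28, 16), (13, 15), (1,
  16), (16, 15), (4, 14), (1, 15), (7, 14), (14, 15), (4, 14), (1, 15), (32, 14), (7, 15), (7,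
  16), (28, 18), (21, 15), (13, 16), (1, 15), (7, 16), (1, 15), (13, 16), (10, 17), (13, 16), (1,
  17), (21, 16), (9, 14), (6, 16), (19, 14), (1, 17), (15, 15), (14, 16), (12, 17), (1, 18), (11,
  16), (21, 17), (14, 16), (11, 15), (9, 16), (12, 15), (1, 16), (17, 14), (6, 15), (8, 16), (1,
  17), (9, 14), (3, 16), (12, 17), (45, 16), (6, 15), (15, 16), (29, 17), (2, 16), (52, 17)]

def r13 : List (Nat × Nat) :=
  [(27, 18), (6, 17), (27, 18), (12, 17), (5, 16), (5, 17), (22, 16), (11, 17), (1, 18), (10,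
  17), (2, 16), (1, 17), (17, 16), (8, 15), (9, 14), (44, 16), (10, 17), (8, 18), (16, 17), (1,
  18), (34, 16), (5, 15), (27, 16), (18, 13), (10, 15), (3, 16), (8, 17), (22, 16), (9, 17), (11,
  16), (11, 17), (26, 16), (1, 17), (8, 16), (2, 15), (25, 14), (4, 13), (5, 14), (18, 15), (1,
  17), (14, 15), (34, 16), (57, 15), (23, 16), (9, 15), (9, 16), (6, 17), (1, 18), (5, 17), (4,
  18), (41, 20), (32, 15), (3, 16), (32, 15), (13, 16), (9, 17), (23, 16), (10, 15), (7, 17),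
  (21, 16), (1, 17), (14, 16), (8, 17), (9, 16), (1, 17), (7, 16), (14, 15), (8, 14), (19, 15),
  (44, 14), (10, 15), (4, 17), (2, 16), (24, 17), (15, 18), (7, 19), (6, 18), (4, 17), (12, 16),
  (9, 15), (17, 16), (30, 14), (1, 15), (4, 14), (6, 15), (19, 14), (3, 13), (9, 15), (8, 16),
  (30, 17), (8, 16), (25, 15), (11, 16), (9, 17), (2, 16), (28, 17), (8, 16), (12, 17), (13, 16),
  (1, 19), (14, 17), (16, 16), (13, 15), (1, 16), (4, 15), (8, 16), (12, 17), (13, 18)]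

def r14 : List (Nat × Nat) :=
  [(32, 16), (10, 17), (10, 16), (8, 15), (1, 16), (16, 15), (4, 13), (3, 15), (22, 16), (1, 17),
  (9, 15), (57, 16), (1, 17), (12, 14), (22, 15), (1, 16), (10, 15), (9, 14), (16, 15), (2, 16),
  (6, 17), (26, 16), (9, 15), (10, 16), (6, 17), (2, 16), (14, 18), (7, 19), (1, 20), (4, 19),
  (1, 20), (10, 19), (5, 20), (15, 19), (13, 18), (32, 19), (55, 21), (43, 18), (65, 19), (14,
  21), (10, 20), (13, 19), (15, 18), (12, 17), (28, 18), (1, 19), (13, 17), (17, 18), (13, 16),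
  (5, 15), (1, 16), (21, 15), (1, 17), (26, 16), (1, 17), (3, 15), (6, 16), (5, 15), (17, 16),
  (18, 15), (21, 16), (1, 17), (15, 16), (8, 13), (3, 14), (5, 13), (19, 14), (11, 13), (3, 14),
  (6, 16), (10, 17), (28, 18), (8, 17), (1, 18), (8, 16), (19, 17), (14, 16), (15, 15), (8, 16),
  (10, 17), (5, 18), (11, 17), (1, 19), (19, 15), (6, 17), (2, 16), (11, 17), (9, 18), (47, 17),
  (12, 18), (6, 17), (20, 18), (1, 19), (15, 17), (28, 16), (4, 17), (2, 16), (10, 18), (13, 15),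
  (20, 16), (1, 17), (16, 16), (14, 17), (18, 16), (18, 15), (1, 14), (9, 15), (6, 16), (29, 17),
  (9, 16)]

def r15 : List (Nat × Nat) :=
  [(25, 15), (3, 16), (30, 15), (8, 16), (9, 17), (27, 16), (1, 17), (33, 15), (7, 16), (12, 15),
  (8, 16), (1, 19), (28, 18), (10, 17), (29, 18), (17, 17), (4, 16), (6, 17), (26, 16), (8, 17),
  (28, 15), (6, 14), (2, 16), (13, 18), (6, 19), (7, 18), (60, 17), (36, 18), (12, 17), (20, 16),
  (1, 17), (6, 15), (9, 17), (22, 16), (14, 15), (7, 16), (3, 15), (8, 16), (2, 15), (1, 17), (6,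
  16), (6, 17), (23, 16), (26, 17), (23, 13), (9, 14), (4, 15), (5, 17), (12, 16), (1, 17), (3,
  15), (9, 16), (1, 17), (10, 16), (33, 15), (58, 16), (8, 15), (11, 14), (5, 15), (1, 16), (6,
  15), (9, 17), (1, 18), (27, 17), (1, 18), (38, 15), (6, 16), (1, 17), (34, 16), (21, 17), (8,
  16), (17, 17), (1, 19), (8, 17), (6, 16), (28, 17), (1, 18), (18, 17), (5, 16), (11, 17), (6,
  16), (4, 17), (6, 18), (13, 17), (30, 15), (1, 14), (13, 15), (1, 16), (11, 13), (50, 15), (41,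
  16), (28, 15), (5, 16), (3, 15), (5, 17), (3, 16), (6, 18), (6, 19), (1, 20), (4, 19), (1, 20),
  (4, 19), (6, 20), (17, 22), (14, 23), (51, 22)]

def r16 : List (Nat × Nat) :=
  [(64, 14), (17, 15), (49, 17), (24, 18), (15, 19), (1, 20), (8, 19), (9, 18), (1, 19), (6, 18),
  (4, 19), (19, 18), (14, 17), (7, 16), (1, 17), (5, 16), (13, 18), (20, 17), (1, 19), (11, 18),
  (3, 17), (1, 18), (8, 17), (1, 18), (28, 17), (17, 18), (5, 16), (13, 17), (8, 15), (5, 14),
  (29, 15), (1, 18), (26, 17), (8, 16), (11, 17), (9, 18), (33, 16), (7, 17), (17, 18), (14, 17),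
  (1, 19), (28, 16), (6, 15), (2, 16), (18, 18), (42, 17), (30, 16), (11, 17), (12, 16), (10,
  17), (19, 15), (12, 16), (6, 17), (3, 16), (29, 18), (54, 17), (25, 16), (4, 17), (7, 18), (14,
  17), (1, 18), (10, 16), (5, 15), (7, 16), (7, 15), (7, 17), (1, 18), (32, 16), (1, 17), (22,
  16), (4, 17), (2, 16), (6, 15), (19, 16), (42, 15), (8, 16), (10, 15), (9, 14), (14, 16), (21,
  17), (1, 18), (6, 17), (17, 18), (10, 17), (27, 18), (21, 15), (18, 16), (1, 17), (15, 15), (7,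
  16), (5, 15), (1, 18), (7, 16), (4, 17), (10, 18), (16, 17), (32, 16), (13, 17), (21, 18), (34,
  17), (21, 18), (5, 17)]

def r17 : List (Nat × Nat) :=
  [(73, 19), (11, 18), (15, 17), (3, 16), (1, 15), (5, 16), (12, 17), (1, 18), (14, 16), (1, 17),
  (18, 16), (9, 14), (15, 16), (1, 17), (15, 16), (19, 17), (1, 18), (21, 16), (1, 17), (8, 16),
  (1, 17), (19, 16), (36, 15), (13, 14), (8, 15), (1, 16), (4, 15), (20, 17), (1, 19), (15, 15),
  (11, 16), (2, 15), (11, 16), (1, 17), (9, 16), (14, 15), (1, 16), (18, 15), (9, 16), (14, 14),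
  (16, 15), (1, 16), (20, 15), (3, 17), (39, 18), (8, 17), (6, 15), (23, 16), (1, 17), (25, 16),
  (13, 14), (14, 15), (31, 16), (1, 19), (18, 17), (4, 16), (5, 15), (13, 16), (11, 15), (19,
  16), (1, 17), (27, 16), (5, 17), (17, 16), (42, 15), (4, 16), (6, 15), (1, 16), (10, 15), (9,
  16), (7, 17), (6, 18), (6, 19), (16, 20), (44, 21), (49, 14), (5, 13), (32, 15), (8, 16), (13,
  17), (9, 18), (8, 17), (1, 18), (11, 17), (4, 16), (24, 15), (1, 14), (19, 15), (1, 16), (11,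
  15), (4, 14), (10, 15), (5, 14), (2, 15), (3, 17), (23, 19), (1, 20), (20, 19), (7, 18), (12,
  19), (5, 18), (1, 19), (19, 16), (19, 17), (3, 16), (15, 17), (10, 18), (1, 19), (23, 17), (1,
  16), (5, 18), (6, 16), (11, 17), (18, 16), (15, 15), (8, 16), (1, 17), (18, 16)]

def r18 : List (Nat × Nat) :=
  [(16, 15), (4, 14), (1, 15), (8, 14), (4, 15), (5, 16), (14, 15), (16, 14), (13, 15), (1, 17),
  (10, 16), (24, 17), (10, 16), (14, 17), (1, 18), (1, 17), (4, 18), (45, 17), (51, 16), (2, 15),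
  (5, 17), (11, 16), (12, 15), (5, 16), (7, 17), (6, 16), (9, 17), (9, 16), (11, 14), (28, 15),
  (12, 14), (1, 13), (3, 14), (15, 15), (23, 14), (6, 15), (6, 17), (21, 16), (19, 17), (37, 16),
  (6, 15), (5, 16), (10, 15), (11, 14), (6, 15), (3, 16), (11, 17), (1, 18), (22, 16), (5, 14),
  (11, 16), (1, 17), (48, 16), (8, 17), (6, 18), (5, 19), (11, 20), (8, 21), (19, 20), (6, 19),
  (33, 15), (7, 14), (30, 16), (19, 17), (5, 16), (3, 15), (26, 16), (15, 15), (1, 16), (16, 15),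
  (21, 16), (7, 17), (20, 16), (1, 19), (22, 18), (5, 19), (10, 18), (4, 19), (6, 18), (9, 19),
  (6, 18), (1, 19), (17, 16), (5, 17), (26, 16), (11, 15), (4, 16), (6, 17), (5, 16), (6, 17),
  (9, 16), (10, 17), (19, 18), (49, 17), (34, 16), (1, 17), (3, 16), (10, 15), (3, 14), (1, 15),
  (22, 14), (21, 15), (18, 17), (1, 18), (49, 17), (1, 18), (13, 17), (1, 18), (3, 16), (7, 17),
  (17, 16), (7, 15), (6, 16), (1, 17), (7, 16), (33, 17)]

def r19 : List (Nat × Nat) :=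
  [(51, 15), (3, 16), (10, 17), (3, 16), (10, 17), (32, 15), (4, 14), (5, 15), (14, 14), (18,
  15), (6, 14), (7, 15), (10, 17), (1, 18), (7, 15), (3, 16), (29, 17), (5, 18), (1, 17), (33,
  16), (33, 17), (12, 16), (13, 17), (16, 18), (1, 21), (9, 19), (4, 18), (21, 19), (1, 20), (34,
  18), (16, 17), (28, 18), (9, 19), (13, 18), (27, 16), (9, 17), (1, 16), (25, 17), (1, 18), (7,
  17), (12, 16), (10, 15), (1, 17), (5, 16), (9, 15), (3, 16), (12, 18), (13, 16), (30, 17), (12,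
  18), (1, 19), (12, 17), (8, 18), (12, 17), (7, 16), (14, 17), (6, 15), (20, 16), (9, 15), (5,
  14), (1, 15), (22, 14), (7, 15), (29, 16), (23, 14), (14, 16), (9, 17), (9, 18), (13, 16), (1,
  17), (31, 16), (8, 17), (24, 16), (14, 15), (11, 14), (5, 13), (3, 14), (1, 15), (20, 16), (34,
  18), (5, 19), (23, 20), (34, 18), (4, 19), (14, 18), (11, 17), (14, 16), (1, 17), (4, 16), (8,
  17), (11, 16), (1, 19), (13, 17), (47, 16), (8, 17), (1, 18), (6, 17), (15, 18), (19, 15), (9,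
  14), (4, 15), (9, 14), (1, 15), (19, 14), (11, 15), (9, 17), (1, 18), (10, 17), (23, 16), (3,
  17), (1, 18), (8, 17), (3, 16), (24, 17)]

def r20 : List (Nat × Nat) :=
  [(33, 16), (12, 17), (21, 16), (15, 17), (6, 19), (3, 18), (6, 19), (30, 20), (8, 19), (10,
  18), (1, 19), (9, 18), (10, 19), (27, 18), (3, 17), (4, 16), (8, 15), (14, 16), (11, 17), (13,
  16), (10, 17), (9, 18), (14, 17), (1, 18), (20, 16), (22, 17), (19, 15), (10, 16), (5, 17), (5,
  16), (1, 17), (46, 14), (1, 13), (6, 15), (33, 16), (16, 17), (15, 16), (2, 17), (27, 18), (13,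
  19), (1, 20), (13, 17), (25, 18), (3, 19), (7, 20), (2, 19), (1, 22), (11, 20), (5, 21), (18,
  20), (1, 21), (2, 20), (8, 21), (21, 19), (9, 18), (11, 19), (9, 18), (18, 19), (9, 20), (40,
  19), (5, 21), (18, 22), (28, 21), (25, 19), (23, 18), (11, 17), (10, 16), (4, 15), (10, 14),
  (6, 15), (9, 14), (9, 15), (5, 16), (3, 18), (17, 19), (15, 20), (15, 21), (13, 23), (13, 24),
  (6, 25), (1, 26), (5, 25), (11, 26), (1, 27), (1, 26), (4, 27), (11, 26), (4, 25), (10, 26),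
  (9, 27), (24, 28), (12, 30), (44, 29), (11, 28), (55, 29), (40, 28), (1, 29), (68, 31), (42,
  30), (27, 29), (27, 28)]

/-- the blocks, with their first cell -/
def BL : List (Nat × List (Nat × Nat)) :=
  [(0, r0), (693, r1), (1386, r2), (2772, r3), (4158, r4), (5544, r5), (6930, r6), (8316, r7),
  (9702, r8), (11088, r9), (12474, r10), (13860, r11), (15246, r12), (16632, r13), (18018, r14),
  (19404, r15), (20790, r16), (22176, r17), (23562, r18), (24948, r19), (26334, r20)]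

/-- cells `(a1, b1, a2, b2, d)` from `1 / 214` to `1 / 40` -/
def T0 : List (Nat × Nat × Nat × Nat × Nat) :=
  [(1, 214, 1, 170, 1), (1, 170, 1, 168, 3), (1, 168, 1, 107, 4), (1, 107, 1, 85, 5), (1, 85, 1,
  84, 7), (1, 84, 1, 80, 8), (1, 80, 1, 79, 7), (1, 79, 1, 78, 7), (1, 78, 1, 76, 6), (1, 76, 1,
  74, 5), (1, 74, 5, 366, 4), (5, 366, 7, 510, 4), (7, 510, 1, 72, 4), (1, 72, 2, 143, 3), (2,
  143, 1, 71, 3), (1, 71, 2, 141, 4), (2, 141, 1, 70, 4), (1, 70, 1, 69, 4), (1, 69, 2, 135, 5),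
  (2, 135, 1, 67, 4), (1, 67, 5, 333, 5), (5, 333, 1, 65, 5), (1, 65, 1, 63, 6), (1, 63, 1, 61,
  8), (1, 61, 1, 59, 9), (1, 59, 1, 57, 11), (1, 57, 3, 170, 12), (3, 170, 1, 56, 14), (1, 56, 1,
  55, 15), (1, 55, 1, 54, 16), (1, 54, 2, 107, 15), (2, 107, 1, 53, 16), (1, 53, 1, 52, 17), (1,
  52, 4, 207, 17), (4, 207, 1, 51, 17), (1, 51, 4, 201, 18), (4, 201, 1, 50, 18), (1, 50, 1, 49,
  19), (1, 49, 1, 48, 20), (1, 48, 4, 189, 20), (4, 189, 1, 47, 20), (1, 47, 2, 93, 21), (2, 93,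
  11, 510, 20), (11, 510, 1, 46, 20), (1, 46, 4, 183, 19), (4, 183, 1, 45, 19), (1, 45, 2, 89,
  20), (2, 89, 13, 576, 20), (13, 576, 1, 44, 20), (1, 44, 2, 87, 20), (2, 87, 1, 43, 20), (1,
  43, 5, 214, 20), (5, 214, 2, 85, 21), (2, 85, 9, 382, 22), (9, 382, 1, 42, 22), (1, 42, 3, 124,
  22), (3, 124, 1, 41, 22), (1, 41, 3, 122, 23), (3, 122, 2, 81, 22), (2, 81, 5, 201, 22), (5,
  201, 1, 40, 22)]

end Pool.Agent.TwoOdd.D29
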