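import Pool.Agent.TwoOdd.TabData
import Pool.Agent.TwoOdd.TabCells

/-! Finite table: kernel check of some blocks.  Seat: helper61. -/

namespace Pool.Agent.TwoOdd.D29

open Pool.Agent.TwoOdd.Tab

set_option maxRecDepth 100000 in
theorem ck_r0 : OD.all (fun o => chk 27720 0 693 r0 o.2.1) = true := by decide +kernel

set_option maxRecDepth 100000 in
theorem ck_r1 : OD.all (fun o => chk 27720 693 693 r1 o.2.1) = true := by decide +kernel

set_option maxRecDepth 100000 in
theorem ck_r2 : OD.all (fun o => chk 27720 1386 1386 r2 o.2.1) = true := by decide +kernel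

set_option maxRecDepth 100000 in
theorem ck_r3 : OD.all (fun o => chk 27720 2772 1386 r3 o.2.1) = true := by decide +kernel

set_option maxRecDepth 100000 in
theorem ck_r4 : OD.all (fun o => chk 27720 4158 1386 r4 o.2.1) = true := by decide +kernel

set_option maxRecDepth 100000 in
theorem ck_r5 : OD.all (fun o => chk 27720 5544 1386 r5 o.2.1) = true := by decide +kernel

end Pool.Agent.TwoOdd.D29
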