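import Pool.Agent.TwoOdd.TabData
import Pool.Agent.TwoOdd.TabCells

/-! Finite table: kernel check of some blocks.  Seat: helper61. -/

namespace Pool.Agent.TwoOdd.D29

open Pool.Agent.TwoOdd.Tab

set_option maxRecDepth 100000 in
theorem ck_r6 : OD.all (fun o => chk 27720 6930 1386 r6 o.2.1) = true := by decide +kernel

set_option maxRecDepth 100000 in
theorem ck_r7 : OD.all (fun o => chk 27720 8316 1386 r7 o.2.1) = true := by decide +kernel

set_option maxRecDepth 100000 in
theorem ck_r8 : OD.all (fun o => chk 27720 9702 1386 r8 o.2.1) = true := by decide +kernel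

set_option maxRecDepth 100000 in
theorem ck_r9 : OD.all (fun o => chk 27720 11088 1386 r9 o.2.1) = true := by decide +kernel

set_option maxRecDepth 100000 in
theorem ck_r10 : OD.all (fun o => chk 27720 12474 1386 r10 o.2.1) = true := by decide +kernel

set_option maxRecDepth 100000 in
theorem ck_r11 : OD.all (fun o => chk 27720 13860 1386 r11 o.2.1) = true := by decide +kernel

end Pool.Agent.TwoOdd.D29
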