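import Pool.Agent.TwoOdd.TabData
import Pool.Agent.TwoOdd.TabCells

/-! Finite table: kernel check of some blocks.  Seat: helper61. -/

namespace Pool.Agent.TwoOdd.D29

open Pool.Agent.TwoOdd.Tab

set_option maxRecDepth 100000 in
theorem ck_r12 : OD.all (fun o => chk 27720 15246 1386 r12 o.2.1) = true := by decide +kernel

set_option maxRecDepth 100000 in
theorem ck_r13 : OD.all (fun o => chk 27720 16632 1386 r13 o.2.1) = true := by decide +kernel

set_option maxRecDepth 100000 in
theorem ck_r14 : OD.all (fun o => chk 27720 18018 1386 r14 o.2.1) = true := by decide +kernel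

set_option maxRecDepth 100000 in
theorem ck_r15 : OD.all (fun o => chk 27720 19404 1386 r15 o.2.1) = true := by decide +kernel

set_option maxRecDepth 100000 in
theorem ck_r16 : OD.all (fun o => chk 27720 20790 1386 r16 o.2.1) = true := by decide +kernel

set_option maxRecDepth 100000 in
theorem ck_r17 : OD.all (fun o => chk 27720 22176 1386 r17 o.2.1) = true := by decide +kernel

end Pool.Agent.TwoOdd.D29
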