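import Pool.Agent.TwoOdd.TabData
import Pool.Agent.TwoOdd.TabCells

/-! Finite table: kernel check of some blocks.  Seat: helper61. -/

namespace Pool.Agent.TwoOdd.D29

open Pool.Agent.TwoOdd.Tab

set_option maxRecDepth 100000 in
theorem ck_r18 : OD.all (fun o => chk 27720 23562 1386 r18 o.2.1) = true := by decide +kernel

set_option maxRecDepth 100000 in
theorem ck_r19 : OD.all (fun o => chk 27720 24948 1386 r19 o.2.1) = true := by decide +kernel

set_option maxRecDepth 100000 in
theorem ck_r20 : OD.all (fun o => chk 27720 26334 1386 r20 o.2.1) = true := by decide +kernel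

end Pool.Agent.TwoOdd.D29
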