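import Pool.Agent.TwoOdd.TabNum
import Pool.Agent.TwoOdd.TabCk0
import Pool.Agent.TwoOdd.TabCk1
import Pool.Agent.TwoOdd.TabCk2
import Pool.Agent.TwoOdd.TabCk3

/-!
Module TB: the finite table, `sum_bound`.  Seat: helper61.
-/

open Finset

namespace Pool.Agent.TwoOdd.D29

open Pool.Agent.TwoOdd Pool.Agent.TwoOdd.Tab
open Pool.Agent.OddZeta (tabVal tabInt sum_primes_le)
open Pool.Agent.OddZetaG.Tab (toQ tab tabVal_ge toQ_cond tabInt_le sumUb ub chain cover ub_spec)

theorem ck_of {e0 m : ℕ} {r : List (ℕ × ℕ)} (hr : Nat.beq (rlen r) m = true)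
    (h : OD.all (fun o => chk 27720 e0 m r o.2.1) = true) :
    OD.all (fun o => chk 27720 e0 (rlen r) r o.2.1) = true := by
  rw [Nat.eq_of_beq_eq_true hr]
  exact h

set_option maxRecDepth 100000 in
theorem ck_all : ∀ b ∈ BL, OD.all (fun o => chk 27720 b.1 (rlen b.2) b.2 o.2.1) = true := by
  intro b hb
  unfold BL at hb
  simp only [List.mem_cons, List.not_mem_nil, or_false] at hb
  rcases hb with rfl | rfl | rfl | rfl | rfl | rfl | rfl | rfl | rfl | rfl | rfl | rfl | rfl |
    rfl | rfl | rfl | rfl | rfl | rfl | rfl | rfl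
  · exact ck_of (by decide +kernel) ck_r0
  · exact ck_of (by decide +kernel) ck_r1
  · exact ck_of (by decide +kernel) ck_r2
  · exact ck_of (by decide +kernel) ck_r3
  · exact ck_of (by decide +kernel) ck_r4
  · exact ck_of (by decide +kernel) ck_r5
  · exact ck_of (by decide +kernel) ck_r6
  · exact ck_of (by decide +kernel) ck_r7
  · exact ck_of (by decide +kernel) ck_r8
  · exact ck_of (by decide +kernel) ck_r9
  · exact ck_of (by decide +kernel) ck_r10
  · exact ck_of (by decide +kernel) ck_r11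
  · exact ck_of (by decide +kernel) ck_r12
  · exact ck_of (by decide +kernel) ck_r13
  · exact ck_of (by decide +kernel) ck_r14
  · exact ck_of (by decide +kernel) ck_r15
  · exact ck_of (by decide +kernel) ck_r16
  · exact ck_of (by decide +kernel) ck_r17
  · exact ck_of (by decide +kernel) ck_r18
  · exact ck_of (by decide +kernel) ck_r19
  · exact ck_of (by decide +kernel) ck_r20

theorem bch_spec (l : List (ℕ × List (ℕ × ℕ))) : ∀ s t e : ℕ, bch s l t = true → s ≤ e → e < t →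
    ∃ b ∈ l, b.1 ≤ e ∧ e < b.1 + rlen b.2 := by
  induction l with
  | nil =>
    intro s t e h h1 h2
    unfold bch at h
    have := Nat.eq_of_beq_eq_true h
    omega
  | cons b l ih =>
    intro s t e h h1 h2
    unfold bch at h
    rw [Bool.and_eq_true] at h
    have h3 := Nat.eq_of_beq_eq_true h.1
    by_cases hc : e < s + rlen b.2
    · exact ⟨b, by simp, by omega, by omega⟩
    · obtain ⟨b', hb', h4⟩ := ih _ _ e h.2 (by omega) h2
      exact ⟨b', by simp [hb'], h4⟩

theorem bch_le (l : List (ℕ × List (ℕ × ℕ))) : ∀ s t : ℕ, bch s l t = true → s ≤ t := by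
  induction l with
  | nil =>
    intro s t h
    unfold bch at h
    exact (Nat.eq_of_beq_eq_true h).le
  | cons c l ih =>
    intro s t h
    unfold bch at h
    rw [Bool.and_eq_true] at h
    have := ih _ _ h.2
    omega

theorem bch_ge (l : List (ℕ × List (ℕ × ℕ))) : ∀ s t : ℕ, bch s l t = true →
    ∀ b ∈ l, s ≤ b.1 ∧ b.1 + rlen b.2 ≤ t := by
  induction l with
  | nil => intro s t _ b hb; simp at hb
  | cons b l ih =>
    intro s t h b' hb'
    unfold bch at h
    rw [Bool.and_eq_true] at h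
    have h3 := Nat.eq_of_beq_eq_true h.1
    have hle : s + rlen b.2 ≤ t := bch_le _ _ _ h.2
    rcases List.mem_cons.1 hb' with rfl | hb'
    · exact ⟨by omega, by omega⟩
    · have := ih _ _ h.2 b' hb'
      exact ⟨by omega, this.2⟩

theorem rv_le {r : List (ℕ × ℕ)} {v : ℕ} (h : ∀ x ∈ r, x.2 ≤ v) : ∀ t, rv r t ≤ v := by
  induction r with
  | nil => intro t; simp [rv]
  | cons x r ih =>
    intro t
    obtain ⟨len, w⟩ := x
    unfold rv
    split_ifs
    · exact h (len, w) (by simp)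
    · exact ih (fun x hx => h x (List.mem_cons_of_mem _ hx)) _

theorem run_facts {b : ℕ × List (ℕ × ℕ)} (hb : b ∈ BL) : ∀ x ∈ b.2, 0 < x.1 ∧ x.2 ≤ 31 := by
  have h := run_ok
  rw [List.all_eq_true] at h
  have h1 := h b hb
  rw [List.all_eq_true] at h1
  intro x hx
  have h2 := h1 x hx
  rw [Bool.and_eq_true, Nat.blt_eq] at h2
  exact ⟨h2.1, Nat.le_of_ble_eq_true h2.2⟩

/-- the periodic bound -/
theorem per_bound {n l p : ℕ} (hp : 0 < p) (hg : Gen n p 214) : ∃ b ∈ BL, ∃ e : ℕ,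
    b.1 ≤ e ∧ e < b.1 + rlen b.2 ∧ e * p ≤ 27720 * (n % p) ∧ 27720 * (n % p) < (e + 1) * p ∧
    bnd D n l p ≤ (rv b.2 (e - b.1) : ℤ) := by
  have hm : n % p < p := Nat.mod_lt _ hp
  set e := 27720 * (n % p) / p with he
  have e1 : e * p ≤ 27720 * (n % p) := Nat.div_mul_le_self _ _
  have e2 : 27720 * (n % p) < (e + 1) * p := by
    have := Nat.lt_div_mul_add (a := 27720 * (n % p)) hp
    calc 27720 * (n % p) < e * p + p := this
      _ = (e + 1) * p := by ring
  have he3 : e < 27720 := by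
    rw [he, Nat.div_lt_iff_lt_mul hp]
    exact Nat.mul_lt_mul_of_pos_left hm (by norm_num)
  obtain ⟨b, hb, b1, b2⟩ := bch_spec BL 0 27720 e bch_ok (Nat.zero_le _) he3
  clear_value e
  refine ⟨b, hb, e, b1, b2, e1, e2, ?_⟩
  have hrun := run_facts hb
  apply bnd_periodic lists hp
  intro o ho
  obtain ⟨x, hx, rfl⟩ := ups_mem ho
  obtain ⟨G1, G2, G3⟩ := form_G hp hg hx
  rw [G1]
  have hbal := bal_ok
  rw [List.all_eq_true] at hbal
  have hb1 := hbal x hx
  unfold balb at hb1
  rw [Bool.and_eq_true, List.all_eq_true] at hb1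
  rw [fv_mod hp (Nat.eq_of_beq_eq_true hb1.1) (by
    intro t ht
    have := hb1.2 t ht
    rw [Bool.and_eq_true] at this
    exact Nat.dvd_of_mod_eq_zero (Nat.eq_of_beq_eq_true this.1))]
  have hck := ck_all b hb
  rw [List.all_eq_true] at hck
  obtain ⟨s, rfl⟩ := Nat.exists_eq_add_of_le b1
  have hs : s < rlen b.2 := by omega
  have h1 := chk_spec (L := 27720) (e0 := b.1) (m := rlen b.2) (by norm_num) (by omega) rfl
    (fun t => le_trans (rv_le (fun x hx => (hrun x hx).2) t) (by norm_num)) G2 G3 (hck x hx) hs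
  have h2 := fle_spec hp (by norm_num) (by norm_num) e1 e2 G2 h1
  rw [Nat.add_sub_cancel_left]
  simpa using h2

theorem cellsOf_mem (r : List (ℕ × ℕ)) : ∀ s e : ℕ, s ≤ e → e < s + rlen r →
    ∃ c ∈ cellsOf s r, c.1 ≤ e ∧ e < c.2.2.1 ∧ c.2.1 = 27720 ∧ c.2.2.2.1 = 27720 ∧
      c.2.2.2.2 = rv r (e - s) := by
  induction r with
  | nil => intro s e h1 h2; simp [rlen] at h2; omega
  | cons x r ih =>
    intro s e h1 h2
    obtain ⟨len, v⟩ := x
    by_cases hc : e < s + len
    · refine ⟨(s, 27720, s + len, 27720, v), by simp [cellsOf], h1, hc, rfl, rfl, ?_⟩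
      simp only [rv]
      rw [if_pos (by omega)]
    · have h3 : rlen ((len, v) :: r) = len + rlen r := rfl
      obtain ⟨c, hc1, hc2⟩ := ih (s + len) e (by omega) (by omega)
      refine ⟨c, by simp [cellsOf, hc1], hc2.1, hc2.2.1, hc2.2.2.1, hc2.2.2.2.1, ?_⟩
      rw [hc2.2.2.2.2]
      simp only [rv]
      rw [if_neg (by omega)]
      congr 1
      omega

theorem cellsOf_pos (r : List (ℕ × ℕ)) (hr : ∀ x ∈ r, 0 < x.1) : ∀ s : ℕ, ∀ c ∈ cellsOf s r,
    s ≤ c.1 ∧ 0 < c.2.1 ∧ 0 < c.2.2.2.1 ∧ c.1 * c.2.2.2.1 < c.2.2.1 * c.2.1 := by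
  induction r with
  | nil => intro s c hc; simp [cellsOf] at hc
  | cons x r ih =>
    intro s c hc
    obtain ⟨len, v⟩ := x
    have hl : 0 < len := hr (len, v) (by simp)
    simp only [cellsOf, List.mem_cons] at hc
    rcases hc with rfl | hc
    · refine ⟨le_rfl, by norm_num, by norm_num, ?_⟩
      simp only
      omega
    · have := ih (fun x hx => hr x (List.mem_cons_of_mem _ hx)) (s + len) c hc
      exact ⟨by omega, this.2⟩

theorem BL_eq : BL = (0, r0) :: BL.drop 1 := rfl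

theorem T1_pos : ∀ e ∈ T1a ++ T1b, 0 < e.2.1 ∧ 0 < e.2.2.2.1 ∧ e.1 * e.2.2.2.1 < e.2.2.1 * e.2.1 := by
  intro e he
  rw [List.mem_append] at he
  rcases he with he | he
  · unfold T1a at he
    have hb : ((0 : ℕ), r0) ∈ BL := by rw [BL_eq]; simp
    exact (cellsOf_pos _ (fun x hx => (run_facts hb x hx).1) _ e he).2
  · unfold T1b at he
    rw [List.mem_flatMap] at he
    obtain ⟨b, hb, he⟩ := he
    have hb' : b ∈ BL := List.mem_of_mem_drop hb
    exact (cellsOf_pos _ (fun x hx => (run_facts hb' x hx).1) _ e he).2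

theorem bch_tail : bch 693 (BL.drop 1) 27720 = true := by
  have h := bch_ok
  rw [BL_eq] at h
  unfold bch at h
  rw [Bool.and_eq_true] at h
  have h2 := h.2
  rw [zero_add, Nat.eq_of_beq_eq_true first_ok] at h2
  exact h2

theorem T1b_pos : ∀ e ∈ T1b, 0 < e.1 := by
  intro e he
  unfold T1b at he
  rw [List.mem_flatMap] at he
  obtain ⟨b, hb, he⟩ := he
  have hb' : b ∈ BL := List.mem_of_mem_drop hb
  have h1 := (cellsOf_pos _ (fun x hx => (run_facts hb' x hx).1) _ e he).1
  have h2 := (bch_ge _ _ _ bch_tail b hb).1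
  omega

theorem T0_pos : ∀ e ∈ T0, (0 < e.2.1 ∧ 0 < e.2.2.2.1 ∧ e.1 * e.2.2.2.1 < e.2.2.1 * e.2.1) ∧
    0 < e.1 := by
  intro e he
  have h := ok_T0
  rw [List.all_eq_true] at h
  have h1 := h e he
  unfold cellE at h1
  simp only [Bool.and_eq_true, Nat.blt_eq] at h1
  exact ⟨⟨h1.2.1, h1.2.2.1, h1.2.2.2.1⟩, h1.1⟩

theorem bnd_tab {n p l : ℕ} (hn : n.Prime) (hp : p.Prime) (hne : p ≠ n) (hbig : 27720 ^ 2 ≤ n)
    (hp1 : 6 * (D.C * n) < p ^ 2) (hp2 : p ≤ D.C * n) (hl : l ∈ poles D n) :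
    bnd D n l p ≤ ((tabVal (tab T0 T1a T1b 12) n p + (if (12 + 1) * p ≤ n then 31 else 0) : ℕ) : ℤ) := by
  have hp0 : 0 < p := hp.pos
  have hC : D.C = 214 := rfl
  have hpbig : 27720 < p := by
    by_contra hcon
    rw [not_lt] at hcon
    have : p ^ 2 ≤ 27720 ^ 2 := Nat.pow_le_pow_left hcon 2
    rw [hC] at hp1
    omega
  have hg : Gen n p 214 := by
    intro k hk hkK hd
    have hpz : Prime (p : ℤ) := Nat.prime_iff_prime_int.1 hp
    rcases hpz.dvd_or_dvd hd with h1 | h1
    · rcases hpz.dvd_or_dvd h1 with h2 | h2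
      · have := Int.le_of_dvd (by norm_num) h2
        omega
      · have h3 := Int.natCast_dvd.1 h2
        have := Nat.le_of_dvd (Int.natAbs_pos.2 hk) h3
        omega
    · have h2 : p ∣ n := by exact_mod_cast h1
      exact hne ((Nat.prime_dvd_prime_iff_eq hp hn).1 h2)
  obtain ⟨b, hb, e, b1, b2, e1, e2, hbd⟩ := per_bound (n := n) (l := l) hp0 hg
  have hrun := run_facts hb
  have h31 : (rv b.2 (e - b.1) : ℤ) ≤ 31 := by
    exact_mod_cast rv_le (fun x hx => (hrun x hx).2) (e - b.1)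
  by_cases h10 : (12 + 1) * p ≤ n
  · rw [if_pos h10]
    push_cast
    have : (0 : ℤ) ≤ (tabVal (tab T0 T1a T1b 12) n p : ℤ) := Nat.cast_nonneg _
    linarith
  rw [if_neg h10, add_zero]
  have hN9 : n / p < 12 + 1 := by
    rw [Nat.div_lt_iff_lt_mul hp0]
    omega
  have hmod : n % p < p := Nat.mod_lt _ hp0
  -- the cell of the periodic table
  obtain ⟨c, hc, c1, c2, c3, c4, c5⟩ := cellsOf_mem b.2 b.1 e b1 b2
  have d1 : c.1 * p ≤ (n % p) * c.2.1 := by
    rw [c3]
    calc c.1 * p ≤ e * p := Nat.mul_le_mul_right _ c1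
      _ ≤ 27720 * (n % p) := e1
      _ = (n % p) * 27720 := by ring
  have d2 : (n % p) * c.2.2.2.1 < c.2.2.1 * p := by
    rw [c4]
    calc (n % p) * 27720 = 27720 * (n % p) := by ring
      _ < (e + 1) * p := e2
      _ ≤ c.2.2.1 * p := Nat.mul_le_mul_right _ c2
  have hcell : toQ (n / p) c ∈ tab T0 T1a T1b 12 →
      bnd D n l p ≤ ((tabVal (tab T0 T1a T1b 12) n p : ℕ) : ℤ) := by
    intro hmem
    obtain ⟨q1, q2⟩ := toQ_cond (by omega) (by omega) rfl d1 d2
    have h6 : c.2.2.2.2 ≤ tabVal (tab T0 T1a T1b 12) n p := tabVal_ge hmem q1 q2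
    rw [c5] at h6
    have h6' : (rv b.2 (e - b.1) : ℤ) ≤ (tabVal (tab T0 T1a T1b 12) n p : ℤ) := by exact_mod_cast h6
    exact hbd.trans h6'
  have hcT : c ∈ T1a ++ T1b := by
    rw [BL_eq, List.mem_cons] at hb
    rw [List.mem_append]
    rcases hb with rfl | hb
    · exact Or.inl hc
    · right
      unfold T1b
      rw [List.mem_flatMap]
      exact ⟨b, hb, hc⟩
  by_cases hN : n / p = 0
  · have hnp : n < p := by
      rwa [Nat.div_eq_zero_iff_lt hp0] at hN
    have hmn : n % p = n := Nat.mod_eq_of_lt hnp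
    by_cases h40 : n * 40 < 1 * p
    · obtain ⟨e', he', f1, f2⟩ := cover T0 1 214 1 40 chain_T0 n p (by
        rw [hC] at hp2
        omega) h40
      have hok := ok_T0
      rw [List.all_eq_true] at hok
      have h5 := cellE_spec (hok e' he') hp0 hg f1 f2 hl
      obtain ⟨⟨p1, p2, p3⟩, p4⟩ := T0_pos e' he'
      rw [← hmn] at f1 f2
      obtain ⟨q1, q2⟩ := toQ_cond p1 p2 hN f1 f2
      have hmem : toQ 0 e' ∈ tab T0 T1a T1b 12 := by
        unfold tab
        exact List.mem_append_left _ (List.mem_map_of_mem he')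
      have h6 : e'.2.2.2.2 ≤ tabVal (tab T0 T1a T1b 12) n p := tabVal_ge hmem q1 q2
      have h6' : (e'.2.2.2.2 : ℤ) ≤ (tabVal (tab T0 T1a T1b 12) n p : ℤ) := by exact_mod_cast h6
      exact h5.trans h6'
    · apply hcell
      rw [hN]
      unfold tab
      refine List.mem_append_right _ (List.mem_append_left _ (List.mem_map_of_mem ?_))
      -- the cell is in `T1b`
      have he693 : 693 ≤ e := by
        by_contra hcon
        rw [not_le] at hcon
        rw [hmn] at e2
        have : (e + 1) * p ≤ 693 * p := Nat.mul_le_mul_right _ hcon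
        omega
      rw [BL_eq, List.mem_cons] at hb
      rcases hb with rfl | hb
      · exfalso
        have := Nat.eq_of_beq_eq_true first_ok
        simp only at b2
        omega
      · unfold T1b
        rw [List.mem_flatMap]
        exact ⟨b, hb, hc⟩
  · apply hcell
    unfold tab
    refine List.mem_append_right _ (List.mem_append_right _ ?_)
    rw [List.mem_flatMap]
    refine ⟨n / p - 1, List.mem_range.2 (Nat.sub_one_lt_of_le (Nat.pos_of_ne_zero hN)
      (Nat.lt_succ_iff.1 hN9)), ?_⟩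
    rw [Nat.sub_add_cancel (Nat.one_le_iff_ne_zero.2 hN)]
    exact List.mem_map_of_mem hcT

/-- module TB -/
theorem sum_bound : ∃ d : ℕ → ℕ → ℕ, ∃ N : ℕ, ∀ n ≥ N, n.Prime →
      (∀ p : ℕ, p.Prime → p ≠ n → 6 * (D.C * n) < p ^ 2 → p ≤ D.C * n →
        ∀ l ∈ poles D n, bnd D n l p ≤ d n p) ∧
      ∑ p ∈ (Finset.Icc 1 (D.C * n)).filter (fun p => p.Prime ∧ 6 * (D.C * n) < p ^ 2 ∧ p ≠ n),
        (d n p : ℝ) * Real.log p ≤ (1579 : ℝ) * n := by
  have hB : ∀ i < 12, sumUb (i + 1) (T1a ++ T1b) ≤ Bf i := by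
    intro i hi
    interval_cases i
    · exact num_0
    · exact num_1
    · exact num_2
    · exact num_3
    · exact num_4
    · exact num_5
    · exact num_6
    · exact num_7
    · exact num_8
    · exact num_9
    · exact num_10
    · exact num_11
  have htab := tabInt_le (T0 := T0) (T1a := T1a) (T1b := T1b) 12 _ _ Bf (fun e he => (T0_pos e he).1)
    T1_pos (fun e he => (T0_pos e he).2) T1b_pos num_T0 num_T1b hB
  have hpos : ∀ e ∈ tab T0 T1a T1b 12, 0 < e.1 ∧ e.1 < e.2.1 := by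
    intro e he
    unfold tab at he
    rw [List.mem_append, List.mem_append, List.mem_flatMap] at he
    rcases he with he | he | ⟨i, -, he⟩
    · rw [List.mem_map] at he
      obtain ⟨x, hx, rfl⟩ := he
      obtain ⟨⟨q1, q2, q3⟩, h3⟩ := T0_pos x hx
      have := ub_spec (N := 0) q1 q2 q3 (by omega)
      exact ⟨this.1, this.2.1⟩
    · rw [List.mem_map] at he
      obtain ⟨x, hx, rfl⟩ := he
      obtain ⟨q1, q2, q3⟩ := T1_pos x (List.mem_append_right _ hx)
      have h3 := T1b_pos x hx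
      have := ub_spec (N := 0) q1 q2 q3 (by omega)
      exact ⟨this.1, this.2.1⟩
    · rw [List.mem_map] at he
      obtain ⟨x, hx, rfl⟩ := he
      obtain ⟨q1, q2, q3⟩ := T1_pos x hx
      have := ub_spec (N := i + 1) q1 q2 q3 (by positivity)
      exact ⟨this.1, this.2.1⟩
  have hA : (tabInt (tab T0 T1a T1b 12) : ℝ) + ((31 : ℕ) : ℝ) / ((12 + 1 : ℕ) : ℝ) < 1579 := by
    have h : ((tabInt (tab T0 T1a T1b 12) : ℚ) : ℝ) ≤ (((1575300000000 : ℚ) / 1000000000 : ℚ) : ℝ) := by
      have h0 : tabInt (tab T0 T1a T1b 12) ≤ (1575300000000 : ℚ) / 1000000000 := by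
        refine htab.trans ?_
        apply div_le_div_of_nonneg_right _ (by norm_num)
        norm_num [Finset.sum_range_succ, Bf]
      exact_mod_cast h0
    push_cast at h ⊢
    linarith
  obtain ⟨N, hN⟩ := sum_primes_le _ hpos (12 + 1) 31 (by omega) _ hA
  refine ⟨fun n p => tabVal (tab T0 T1a T1b 12) n p + (if (12 + 1) * p ≤ n then 31 else 0),
    max N (27720 ^ 2), fun n hn hnp => ⟨?_, ?_⟩⟩
  · intro p hp hne hq1 hq2 l hl
    exact bnd_tab hnp hp hne (le_trans (le_max_right _ _) hn) hq1 hq2 hl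
  · refine le_trans ?_ (hN n (le_trans (le_max_left _ _) hn) (D.C * n))
    apply Finset.sum_le_sum_of_subset_of_nonneg
    · intro p hp
      rw [Finset.mem_filter] at hp ⊢
      exact ⟨hp.1, hp.2.1⟩
    · intro p _ _
      exact mul_nonneg (Nat.cast_nonneg _) (Real.log_natCast_nonneg p)

end Pool.Agent.TwoOdd.D29
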