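import Pool.Agent.TwoOdd.Defs

/-!
`zt j` is the value of the Riemann zeta function at `j`.
Seat: helper59.
-/

namespace Pool.Agent.TwoOdd

theorem riemannZeta_eq_zt (j : ℕ) (hj : 1 < j) : riemannZeta (j : ℂ) = (zt j : ℂ) := by
  have hj' : 1 < ((j : ℂ)).re := by simpa using hj
  rw [zeta_eq_tsum_one_div_nat_add_one_cpow hj']
  unfold zt
  rw [Complex.ofReal_tsum]
  refine tsum_congr (fun m => ?_)
  rw [Complex.cpow_natCast]
  push_cast
  rfl

end Pool.Agent.TwoOdd
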