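import Pool.Agent.TwoOdd.MN
import Pool.Agent.TwoOdd.SizeIneq29
import Pool.Agent.TwoOdd.SizeS
import Pool.Agent.TwoOdd.TB
import Pool.Agent.TwoOdd.N1
import Pool.Agent.TwoOdd.ZetaZt

/-!
For every `i` in `{5, 7, 9}` one of the other numbers `ζ(5), ζ(7), ..., ζ(29)` is irrational.
Seat: helper59.
-/

open Finset
namespace Pool.Agent.TwoOdd.D29
open Pool.Agent.TwoOdd

theorem exists_other (i : ℕ) (hi : i ∈ ({5, 7, 9} : Finset ℕ)) :
    ∃ j ∈ Js D, j ≠ 3 ∧ j ≠ i ∧ Irrational (zt j) := by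
  obtain ⟨N, hN⟩ := S_bound_of ok (al := 1580) (be := 1579.5) (ep := 1/100) (by norm_num)
    (by norm_num) FF_le
  exact main_of ok (al := 1579.5) (be := 1579) (by norm_num) ⟨N, hN⟩ sum_bound i
    (rho0_one_ne i hi)

theorem two_of (h579 : ∃ s ∈ ({5, 7, 9} : Finset ℕ), ∃ x : ℝ,
      riemannZeta (s : ℂ) = (x : ℂ) ∧ Irrational x) :
    ∃ s t : ℕ, 5 ≤ s ∧ s < t ∧ t ≤ 29 ∧ Odd s ∧ Odd t ∧
      (∃ x : ℝ, riemannZeta (s : ℂ) = (x : ℂ) ∧ Irrational x) ∧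
      (∃ x : ℝ, riemannZeta (t : ℂ) = (x : ℂ) ∧ Irrational x) := by
  obtain ⟨s, hs, hx⟩ := h579
  obtain ⟨t, ht, h3, hts, hirr⟩ := exists_other s hs
  have ht' : t ∈ Finset.Icc 3 29 ∧ Odd t := by
    have := ht
    unfold Js at this
    rw [Finset.mem_filter] at this
    exact this
  have h1 := Finset.mem_Icc.mp ht'.1
  have h5 : 5 ≤ t := by
    obtain ⟨r, hr⟩ := ht'.2
    omega
  have hs' : 5 ≤ s ∧ s ≤ 9 ∧ Odd s := by
    simp only [Finset.mem_insert, Finset.mem_singleton] at hs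
    rcases hs with rfl | rfl | rfl <;> exact ⟨by norm_num, by norm_num, by decide⟩
  have hy : ∃ x : ℝ, riemannZeta (t : ℂ) = (x : ℂ) ∧ Irrational x :=
    ⟨zt t, riemannZeta_eq_zt t (by omega), hirr⟩
  rcases Nat.lt_or_gt_of_ne hts with hlt | hgt
  · exact ⟨t, s, h5, hlt, by omega, ht'.2, hs'.2.2, hy, hx⟩
  · exact ⟨s, t, hs'.1, hgt, h1.2, hs'.2.2, ht'.2, hx, hy⟩

end Pool.Agent.TwoOdd.D29
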