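import Mathlib
import Pool.Agent.TwoOdd.Defs
import Pool.Agent.OddZetaG.PadicC4

set_option autoImplicit false
set_option linter.unusedSectionVars false

/-!
# Module PB: p-adic bounds for the partial fraction coefficients (helper20)
-/

open Finset

namespace Pool.Agent.TwoOdd

open PowerSeries

open Pool.Agent.OddZetaG (GB pq_pos pz_pos one_le_pq norm_int prod_zpow_base prod_inv_ps
  norm_factorial norm_nat_lower norm_natAbs norm_sub_lower prod_lower prod_upper)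

/-- the pole blocks, as data of the older construction -/
def toG (D : Dat) : Pool.Agent.OddZetaG.Dat where
  C := D.C
  P := D.P
  M := ∅
  h := D.h
  k := 0
  A := D.A
  s := D.s
  lo := D.lo

variable {D : Dat}

lemma two_P (hD : D.OK) {i : ℕ} (hi : i ∈ D.P) : 2 * D.h i < D.C := hD.P_lt i hi

lemma s_lt (hD : D.OK) : 2 * D.s < D.C := by
  have h1 := hD.s_le
  have h2 := hD.lo_lt
  omega

lemma poles_mem (n l : ℕ) : l ∈ poles D n ↔ D.lo * n ≤ l ∧ l ≤ (D.C - D.lo) * n := by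
  unfold poles
  rw [Finset.mem_Icc]

lemma poles_le {n l : ℕ} (hl : l ∈ poles D n) : l ≤ D.C * n := by
  rw [poles_mem] at hl
  have h1 : (D.C - D.lo) * n ≤ D.C * n := Nat.mul_le_mul_right _ (by omega)
  omega

/-- `h n < l < (C - h) n` for the poles and `h < s` -/
lemma poles_in (hD : D.OK) {n l h : ℕ} (hl : l ∈ poles D n) (hh : h ≤ D.s) :
    h * n ≤ l ∧ l ≤ (D.C - h) * n := by
  rw [poles_mem] at hl
  have h1 := hD.s_le
  have h2 : h * n ≤ D.lo * n := Nat.mul_le_mul_right _ (by omega)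
  have h3 : (D.C - D.lo) * n ≤ (D.C - h) * n := Nat.mul_le_mul_right _ (by omega)
  omega

/-! ### Decomposition of the zeros -/

/-- The zeros without `u = 6 l`, split into integers, half-integers, thirds. -/
lemma Z_prod {M : Type*} [CommMonoid M] (n l : ℕ) (f : ℕ → M) :
    ∏ u ∈ (Z D n).erase (6 * l), f u = (∏ m ∈ (blk D n 0).erase l, f (6 * m)) *
      (∏ m ∈ Finset.Ico (D.hH * n) ((D.C - D.hH) * n), f (6 * m + 3)) *
      ∏ m ∈ Finset.Ico (D.hG * n) ((D.C - D.hG) * n), (f (6 * m + 2) * f (6 * m + 4)) := by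
  classical
  have hB : (D.C - D.hH) * n ≤ D.C * n := Nat.mul_le_mul_right _ (by omega)
  have hB' : (D.C - D.hG) * n ≤ D.C * n := Nat.mul_le_mul_right _ (by omega)
  have hset : (Z D n).erase (6 * l) = (((blk D n 0).erase l).image (fun m => 6 * m)) ∪
      (((Finset.Ico (D.hH * n) ((D.C - D.hH) * n)).image (fun m => 6 * m + 3)) ∪
      (((Finset.Ico (D.hG * n) ((D.C - D.hG) * n)).image (fun m => 6 * m + 2)) ∪
      ((Finset.Ico (D.hG * n) ((D.C - D.hG) * n)).image (fun m => 6 * m + 4)))) := by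
    ext u
    simp only [Finset.mem_erase, Finset.mem_union, Finset.mem_image, Finset.mem_Ico, Z, blk,
      Finset.mem_filter, Finset.mem_Icc, zero_mul, Nat.sub_zero]
    generalize D.hH * n = a at *
    generalize (D.C - D.hH) * n = b at *
    generalize D.hG * n = a' at *
    generalize (D.C - D.hG) * n = b' at *
    generalize D.C * n = N at *
    constructor
    · rintro ⟨h1, ⟨h2, h3⟩, h4 | ⟨h4, h5, h6⟩ | ⟨h4 | h4, h5, h6⟩⟩
      · left
        exact ⟨u / 6, by omega, by omega⟩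
      · right; left
        exact ⟨u / 6, by omega, by omega⟩
      · right; right; left
        exact ⟨u / 6, by omega, by omega⟩
      · right; right; right
        exact ⟨u / 6, by omega, by omega⟩
    · rintro (⟨m, h1, rfl⟩ | ⟨m, h1, rfl⟩ | ⟨m, h1, rfl⟩ | ⟨m, h1, rfl⟩)
      · refine ⟨by omega, ⟨by omega, by omega⟩, Or.inl (by omega)⟩
      · refine ⟨by omega, ⟨by omega, by omega⟩, Or.inr (Or.inl ⟨by omega, by omega, by omega⟩)⟩
      · refine ⟨by omega, ⟨by omega, by omega⟩, Or.inr (Or.inr ⟨by omega, by omega, by omega⟩)⟩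
      · refine ⟨by omega, ⟨by omega, by omega⟩, Or.inr (Or.inr ⟨by omega, by omega, by omega⟩)⟩
  rw [hset, Finset.prod_union, Finset.prod_union, Finset.prod_union, Finset.prod_image,
    Finset.prod_image, Finset.prod_image, Finset.prod_image, Finset.prod_mul_distrib, mul_assoc]
  · intro x _ y _ h; simpa using h
  · intro x _ y _ h; simpa using h
  · intro x _ y _ h; simpa using h
  · intro x _ y _ h; simpa using h
  · rw [Finset.disjoint_left]
    intro x hx hy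
    rw [Finset.mem_image] at hx hy
    obtain ⟨y, _, rfl⟩ := hx
    obtain ⟨z, _, h⟩ := hy
    omega
  · rw [Finset.disjoint_left]
    intro x hx hy
    rw [Finset.mem_union, Finset.mem_image, Finset.mem_image] at hy
    rw [Finset.mem_image] at hx
    obtain ⟨y, _, rfl⟩ := hx
    rcases hy with ⟨z, _, h⟩ | ⟨z, _, h⟩ <;> omega
  · rw [Finset.disjoint_left]
    intro x hx hy
    rw [Finset.mem_union, Finset.mem_union, Finset.mem_image, Finset.mem_image,
      Finset.mem_image] at hy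
    rw [Finset.mem_image] at hx
    obtain ⟨y, _, rfl⟩ := hx
    rcases hy with ⟨z, _, h⟩ | ⟨z, _, h⟩ | ⟨z, _, h⟩ <;> omega

/-! ### Counting -/

lemma card_mult (p : ℕ) (hp : 0 < p) (x y : ℤ) (hx : 0 ≤ x) (hy : 0 ≤ y) :
    ((#{z ∈ Finset.Icc (-x) y | (p : ℤ) ∣ z} : ℕ) : ℤ) = x / p + y / p + 1 := by
  have hpz : (0 : ℤ) < p := by exact_mod_cast hp
  have h1 : (Finset.Icc (-x) y).filter (fun z => (p : ℤ) ∣ z)
      = (Finset.Icc (-(x / p)) (y / p)).image (fun q : ℤ => (p : ℤ) * q) := by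
    ext z
    rw [Finset.mem_filter, Finset.mem_image, Finset.mem_Icc]
    constructor
    · rintro ⟨⟨h2, h3⟩, q, rfl⟩
      refine ⟨q, ?_, rfl⟩
      rw [Finset.mem_Icc]
      constructor
      · rw [neg_le, Int.le_ediv_iff_mul_le hpz]
        linarith
      · rw [Int.le_ediv_iff_mul_le hpz]
        linarith
    · rintro ⟨q, hq, rfl⟩
      rw [Finset.mem_Icc, neg_le, Int.le_ediv_iff_mul_le hpz, Int.le_ediv_iff_mul_le hpz] at hq
      exact ⟨⟨by linarith, by linarith⟩, dvd_mul_right _ _⟩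
  rw [h1, Finset.card_image_of_injective _ (fun a b h => mul_left_cancel₀ hpz.ne' h),
    Int.card_Icc]
  have h2 : 0 ≤ x / p := Int.ediv_nonneg hx hpz.le
  have h3 : 0 ≤ y / p := Int.ediv_nonneg hy hpz.le
  omega

/-- multiples of `p` in `[-d a, d b]` which are not multiples of `d` -/
lemma card_ap (p d : ℕ) (hp : 0 < p) (hd : 0 < d) (hpd : Nat.Coprime p d) (a b : ℤ) (ha : 0 ≤ a)
    (hb : 0 ≤ b) :
    ((#{z ∈ Finset.Icc (-(d * a)) (d * b) | ¬ (d : ℤ) ∣ z ∧ (p : ℤ) ∣ z} : ℕ) : ℤ)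
      = (d * a) / p - a / p + ((d * b) / p - b / p) := by
  have hdz : (0 : ℤ) < d := by exact_mod_cast hd
  have h1 := card_mult p hp (d * a) (d * b) (by positivity) (by positivity)
  have h2 := card_mult p hp a b ha hb
  have h3 : (Finset.Icc (-(d * a)) (d * b : ℤ)).filter (fun z => (d : ℤ) ∣ z ∧ (p : ℤ) ∣ z)
      = ((Finset.Icc (-a) b).filter (fun z => (p : ℤ) ∣ z)).image (fun q : ℤ => (d : ℤ) * q) := by
    ext z
    rw [Finset.mem_filter, Finset.mem_image, Finset.mem_Icc]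
    constructor
    · rintro ⟨⟨h4, h5⟩, ⟨q, rfl⟩, h6⟩
      refine ⟨q, ?_, rfl⟩
      rw [Finset.mem_filter, Finset.mem_Icc]
      refine ⟨⟨?_, ?_⟩, ?_⟩
      · by_contra hc
        push Not at hc
        nlinarith
      · by_contra hc
        push Not at hc
        nlinarith
      · have hcop : IsCoprime (p : ℤ) (d : ℤ) := Nat.isCoprime_iff_coprime.mpr hpd
        exact hcop.dvd_of_dvd_mul_left h6
    · rintro ⟨q, hq, rfl⟩
      rw [Finset.mem_filter, Finset.mem_Icc] at hq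
      refine ⟨⟨?_, ?_⟩, dvd_mul_right _ _, dvd_mul_of_dvd_right hq.2 _⟩
      · nlinarith [hq.1.1]
      · nlinarith [hq.1.2]
  have h4 : #{z ∈ Finset.Icc (-(d * a)) (d * b : ℤ) | (d : ℤ) ∣ z ∧ (p : ℤ) ∣ z}
      = #{z ∈ Finset.Icc (-a) b | (p : ℤ) ∣ z} := by
    rw [h3, Finset.card_image_of_injective _ (fun a b h => mul_left_cancel₀ hdz.ne' h)]
  have h5 : #{z ∈ Finset.Icc (-(d * a)) (d * b : ℤ) | (p : ℤ) ∣ z}
      = #{z ∈ Finset.Icc (-(d * a)) (d * b : ℤ) | (d : ℤ) ∣ z ∧ (p : ℤ) ∣ z}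
        + #{z ∈ Finset.Icc (-(d * a)) (d * b : ℤ) | ¬ (d : ℤ) ∣ z ∧ (p : ℤ) ∣ z} := by
    rw [← Finset.card_filter_add_card_filter_not
      (s := (Finset.Icc (-(d * a)) (d * b : ℤ)).filter (fun z => (p : ℤ) ∣ z))
      (p := fun z => (d : ℤ) ∣ z), Finset.filter_filter, Finset.filter_filter]
    congr 2
    · ext z; simp only [Finset.mem_filter]; tauto
    · ext z; simp only [Finset.mem_filter]; tauto
  rw [h4] at h5
  have h6 : ((#{z ∈ Finset.Icc (-(d * a)) (d * b : ℤ) | (p : ℤ) ∣ z} : ℕ) : ℤ)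
      = (#{z ∈ Finset.Icc (-a) b | (p : ℤ) ∣ z} : ℕ)
        + (#{z ∈ Finset.Icc (-(d * a)) (d * b : ℤ) | ¬ (d : ℤ) ∣ z ∧ (p : ℤ) ∣ z} : ℕ) := by
    exact_mod_cast h5
  linarith

/-- reparametrisation -/
lemma sum_ap {M : Type*} [AddCommMonoid M] (d : ℕ) (hd : 0 < d) (l A B : ℕ) (f : ℤ → M) :
    ∑ m ∈ Finset.Ico A B, ∑ r ∈ Finset.Ico 1 d, f (d * ((m : ℤ) - l) + r)
      = ∑ z ∈ (Finset.Icc (-(d * ((l : ℤ) - A))) (d * ((B : ℤ) - l))).filter
          (fun z => ¬ (d : ℤ) ∣ z), f z := by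
  have hdz : (0 : ℤ) < d := by exact_mod_cast hd
  rw [← Finset.sum_product' (f := fun (m r : ℕ) => f (d * ((m : ℤ) - l) + r))]
  refine Finset.sum_bij' (fun x _ => (d : ℤ) * ((x.1 : ℤ) - l) + x.2)
    (fun z _ => (((l : ℤ) + z / d).toNat, (z % d).toNat)) ?_ ?_ ?_ ?_ ?_
  · rintro ⟨m, r⟩ hx
    rw [Finset.mem_product, Finset.mem_Ico, Finset.mem_Ico] at hx
    obtain ⟨⟨h1, h2⟩, h3, h4⟩ := hx
    simp only at h1 h2 h3 h4 ⊢
    have h1' : (A : ℤ) ≤ m := by exact_mod_cast h1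
    have h2' : (m : ℤ) + 1 ≤ B := by exact_mod_cast h2
    have h3' : (1 : ℤ) ≤ r := by exact_mod_cast h3
    have h4' : (r : ℤ) < d := by exact_mod_cast h4
    rw [Finset.mem_filter, Finset.mem_Icc]
    refine ⟨⟨?_, ?_⟩, ?_⟩
    · nlinarith
    · nlinarith
    · intro hc
      have h5 : (d : ℤ) ∣ r := (Int.dvd_add_right (dvd_mul_right _ _)).mp hc
      have := Int.le_of_dvd (by linarith) h5
      linarith
  · intro z hz
    rw [Finset.mem_filter, Finset.mem_Icc] at hz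
    obtain ⟨⟨h1, h2⟩, h3⟩ := hz
    have h4 := Int.emod_nonneg z hdz.ne'
    have h5 := Int.emod_lt_of_pos z hdz
    have h6 : z % d ≠ 0 := fun hc => h3 (Int.dvd_of_emod_eq_zero hc)
    have h7 := Int.mul_ediv_add_emod z d
    have h8 : (A : ℤ) ≤ l + z / d := by
      have : (A : ℤ) - l ≤ z / d := by
        rw [Int.le_ediv_iff_mul_le hdz]
        linarith
      linarith
    have h9 : (l : ℤ) + z / d < B := by
      have : z / d < (B : ℤ) - l := by
        rw [Int.ediv_lt_iff_lt_mul hdz]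
        rcases lt_or_eq_of_le h2 with h | h
        · linarith
        · exfalso
          apply h3
          rw [h]
          exact dvd_mul_right _ _
      linarith
    rw [Finset.mem_product, Finset.mem_Ico, Finset.mem_Ico]
    simp only
    refine ⟨⟨by omega, by omega⟩, by omega, by omega⟩
  · rintro ⟨m, r⟩ hx
    rw [Finset.mem_product, Finset.mem_Ico, Finset.mem_Ico] at hx
    obtain ⟨⟨h1, h2⟩, h3, h4⟩ := hx
    simp only at h1 h2 h3 h4 ⊢
    have h4' : (r : ℤ) < d := by exact_mod_cast h4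
    have h5 : ((d : ℤ) * ((m : ℤ) - l) + r) / d = m - l := by
      rw [Int.mul_comm, Int.add_comm, Int.add_mul_ediv_right _ _ hdz.ne',
        Int.ediv_eq_zero_of_lt (by positivity) h4', zero_add]
    have h6 : ((d : ℤ) * ((m : ℤ) - l) + r) % d = r := by
      rw [Int.add_comm, Int.add_mul_emod_self_left, Int.emod_eq_of_lt (by positivity) h4']
    rw [h5, h6]
    ext
    · simp
    · simp
  · intro z hz
    rw [Finset.mem_filter, Finset.mem_Icc] at hz
    obtain ⟨⟨h1, h2⟩, h3⟩ := hz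
    have h4 := Int.emod_nonneg z hdz.ne'
    have h7 := Int.mul_ediv_add_emod z d
    have h8 : (A : ℤ) ≤ l + z / d := by
      have : (A : ℤ) - l ≤ z / d := by
        rw [Int.le_ediv_iff_mul_le hdz]
        linarith
      linarith
    simp only
    rw [Int.toNat_of_nonneg (by linarith [Int.natCast_nonneg A]), Int.toNat_of_nonneg h4]
    linarith
  · rintro ⟨m, r⟩ _
    rfl

/-- additive version of `Z_prod` -/
lemma Z_sum {M : Type*} [AddCommMonoid M] (n l : ℕ) (f : ℕ → M) :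
    ∑ u ∈ (Z D n).erase (6 * l), f u = (∑ m ∈ (blk D n 0).erase l, f (6 * m)) +
      (∑ m ∈ Finset.Ico (D.hH * n) ((D.C - D.hH) * n), f (6 * m + 3)) +
      ∑ m ∈ Finset.Ico (D.hG * n) ((D.C - D.hG) * n), (f (6 * m + 2) + f (6 * m + 4)) :=
  Z_prod (M := Multiplicative M) n l f

section

variable {p : ℕ} [hp : Fact p.Prime]

lemma two_cop (h5 : 5 ≤ p) : Nat.Coprime p 2 :=
  (Nat.coprime_primes hp.out Nat.prime_two).mpr (by omega)

lemma three_cop (h5 : 5 ≤ p) : Nat.Coprime p 3 :=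
  (Nat.coprime_primes hp.out Nat.prime_three).mpr (by omega)

lemma dvd_mul_cop {k : ℕ} (hk : Nat.Coprime p k) (z : ℤ) : (p : ℤ) ∣ (k : ℤ) * z ↔ (p : ℤ) ∣ z := by
  have hcop : IsCoprime (p : ℤ) (k : ℤ) := Nat.isCoprime_iff_coprime.mpr hk
  exact ⟨fun h => hcop.dvd_of_dvd_mul_left h, fun h => dvd_mul_of_dvd_right h _⟩

omit hp in
lemma cnt_ap (hp0 : 0 < p) (d : ℕ) (hd : 0 < d) (hpd : Nat.Coprime p d) (l A B : ℕ) (hA : A ≤ l)
    (hB : l ≤ B) :
    (∑ m ∈ Finset.Ico A B, ∑ r ∈ Finset.Ico 1 d,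
      if (p : ℤ) ∣ (d : ℤ) * ((m : ℤ) - l) + r then (1 : ℤ) else 0)
      = ((d : ℤ) * ((l : ℤ) - A)) / p - ((l : ℤ) - A) / p +
        (((d : ℤ) * ((B : ℤ) - l)) / p - ((B : ℤ) - l) / p) := by
  have h1 := sum_ap d hd l A B (fun z => if (p : ℤ) ∣ z then (1 : ℤ) else 0)
  have h2 := card_ap p d hp0 hd hpd ((l : ℤ) - A) ((B : ℤ) - l) (by omega) (by omega)
  rw [← Finset.filter_filter, Finset.card_filter] at h2
  push_cast at h2
  rw [h1]
  exact h2

lemma card_Z (hD : D.OK) (n l : ℕ) (hl : l ∈ poles D n) (h5 : 5 ≤ p) :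
    ((#{u ∈ (Z D n).erase (6 * l) | (p : ℤ) ∣ ((u : ℕ) : ℤ) - 6 * l} : ℕ) : ℤ) = cntZ D n l p := by
  have c2 := two_cop (p := p) h5
  have c3 := three_cop (p := p) h5
  have c6 : Nat.Coprime p 6 := Nat.Coprime.mul_right c2 c3
  have hsC := s_lt hD
  rw [Finset.card_filter]
  push_cast
  rw [Z_sum]
  have e1 : (∑ m ∈ (blk D n 0).erase l, if (p : ℤ) ∣ ((6 * m : ℕ) : ℤ) - 6 * l then (1 : ℤ) else 0)
      = fA n l p 0 + fB D n l p 0 := by
    have h1 := Pool.Agent.OddZetaG.card_div (D := toG D) (p := p) n l 0 (by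
      change 2 * 0 ≤ D.C
      omega)
    have h2 : Pool.Agent.OddZetaG.cnt (toG D) n l p 0 = fA n l p 0 + fB D n l p 0 := by
      unfold Pool.Agent.OddZetaG.cnt
      rw [if_pos, add_zero]
      · rfl
      · have := poles_in hD hl (h := 0) (by omega)
        unfold Pool.Agent.OddZetaG.blk
        rw [Finset.mem_Icc]
        exact this
    rw [h2] at h1
    rw [← h1, Finset.card_filter]
    push_cast
    refine Finset.sum_congr rfl (fun m _ => ?_)
    have h3 : (6 : ℤ) * m - 6 * l = ((6 : ℕ) : ℤ) * ((m : ℤ) - l) := by push_cast; ring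
    rw [h3]
    exact if_congr (dvd_mul_cop c6 _) rfl rfl
  have hH := poles_in hD hl (h := D.hH) hD.hH_lt.le
  have hG := poles_in hD hl (h := D.hG) hD.hG_lt.le
  have hHC : (((D.C - D.hH) * n : ℕ) : ℤ) = ((D.C - D.hH : ℤ) * n) := by
    have := hD.hH_lt
    push_cast [Nat.cast_sub (show D.hH ≤ D.C by omega)]
    ring
  have hGC : (((D.C - D.hG) * n : ℕ) : ℤ) = ((D.C - D.hG : ℤ) * n) := by
    have := hD.hG_lt
    push_cast [Nat.cast_sub (show D.hG ≤ D.C by omega)]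
    ring
  have e2 : (∑ m ∈ Finset.Ico (D.hH * n) ((D.C - D.hH) * n),
      if (p : ℤ) ∣ ((6 * m + 3 : ℕ) : ℤ) - 6 * l then (1 : ℤ) else 0)
      = ((2 * ((l : ℤ) - D.hH * n)) / p - fA n l p D.hH +
    ((2 * ((D.C - D.hH : ℤ) * n - l)) / p - fB D n l p D.hH)) := by
    have h1 := cnt_ap hp.out.pos 2 (by norm_num) c2 l _ _ hH.1 hH.2
    rw [hHC] at h1
    unfold fA fB
    rw [Nat.cast_mul, Nat.cast_ofNat] at h1
    rw [← h1]
    refine Finset.sum_congr rfl (fun m _ => ?_)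
    have h2 : Finset.Ico 1 2 = {1} := rfl
    rw [h2, Finset.sum_singleton]
    have h3 : ((6 * m + 3 : ℕ) : ℤ) - 6 * l = ((3 : ℕ) : ℤ) * (2 * ((m : ℤ) - l) + ((1 : ℕ) : ℤ)) := by
      push_cast; ring
    rw [h3]
    exact if_congr (dvd_mul_cop c3 _) rfl rfl
  have e3 : (∑ m ∈ Finset.Ico (D.hG * n) ((D.C - D.hG) * n),
      ((if (p : ℤ) ∣ ((6 * m + 2 : ℕ) : ℤ) - 6 * l then (1 : ℤ) else 0) +
      (if (p : ℤ) ∣ ((6 * m + 4 : ℕ) : ℤ) - 6 * l then (1 : ℤ) else 0)))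
      = ((3 * ((l : ℤ) - D.hG * n)) / p - fA n l p D.hG +
    ((3 * ((D.C - D.hG : ℤ) * n - l)) / p - fB D n l p D.hG)) := by
    have h1 := cnt_ap hp.out.pos 3 (by norm_num) c3 l _ _ hG.1 hG.2
    rw [hGC] at h1
    unfold fA fB
    rw [Nat.cast_mul, Nat.cast_ofNat] at h1
    rw [← h1]
    refine Finset.sum_congr rfl (fun m _ => ?_)
    have h2 : Finset.Ico 1 3 = {1, 2} := rfl
    rw [h2, Finset.sum_insert (by norm_num), Finset.sum_singleton]
    have h3 : ((6 * m + 2 : ℕ) : ℤ) - 6 * l = ((2 : ℕ) : ℤ) * (3 * ((m : ℤ) - l) + ((1 : ℕ) : ℤ)) := by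
      push_cast; ring
    have h4 : ((6 * m + 4 : ℕ) : ℤ) - 6 * l = ((2 : ℕ) : ℤ) * (3 * ((m : ℤ) - l) + ((2 : ℕ) : ℤ)) := by
      push_cast; ring
    rw [h3, h4]
    congr 1
    · exact if_congr (dvd_mul_cop c2 _) rfl rfl
    · exact if_congr (dvd_mul_cop c2 _) rfl rfl
  push_cast at e1 e2 e3 ⊢
  rw [e1, e2, e3]
  unfold cntZ
  ring

/-- norm of a zero-type difference -/
lemma norm_u (n l u : ℕ) (hl : l ≤ D.C * n) (h5 : 5 ≤ p) (hpn : 6 * (D.C * n) < p ^ 2)
    (hu : u ∈ (Z D n).erase (6 * l)) :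
    padicNorm p ((u : ℚ) / 6 - l) = if (p : ℤ) ∣ (u : ℤ) - 6 * l then (p : ℚ)⁻¹ else 1 := by
  rw [Finset.mem_erase] at hu
  have hu2 : u ≤ 6 * (D.C * n) := by
    have := hu.2
    unfold Z at this
    rw [Finset.mem_filter, Finset.mem_Icc] at this
    exact this.1.2
  have h1 : (u : ℤ) - 6 * l ≠ 0 := by
    intro hc
    apply hu.1
    have : (u : ℤ) = ((6 * l : ℕ) : ℤ) := by push_cast; linarith
    exact_mod_cast this
  have h2 : |(u : ℤ) - 6 * l| < (p : ℤ) ^ 2 := by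
    have h3 : (u : ℤ) ≤ 6 * (D.C * n) := by exact_mod_cast hu2
    have h4 : (l : ℤ) ≤ D.C * n := by exact_mod_cast hl
    have h5 : (6 * (D.C * n) : ℤ) < (p : ℤ) ^ 2 := by exact_mod_cast hpn
    rw [abs_lt]
    constructor
    · have := Int.natCast_nonneg u
      linarith
    · have := Int.natCast_nonneg l
      linarith
  have h3 := norm_int ((u : ℤ) - 6 * l) h1 h2
  have h6 : padicNorm p (6 : ℚ) = 1 := by
    have c6 : Nat.Coprime p 6 := Nat.Coprime.mul_right (two_cop (p := p) h5) (three_cop (p := p) h5)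
    have := (padicNorm.nat_eq_one_iff (p := p) 6).2 (fun hd => by
      have := Nat.Coprime.eq_one_of_dvd c6 hd
      omega)
    exact_mod_cast this
  have h7 : (u : ℚ) / 6 - l = (((u : ℤ) - 6 * l : ℤ) : ℚ) / 6 := by
    push_cast
    ring
  rw [h7, padicNorm.div, h6, div_one, h3]

lemma prod_norm_Z (hD : D.OK) (n l : ℕ) (hl : l ∈ poles D n) (h5 : 5 ≤ p)
    (hpn : 6 * (D.C * n) < p ^ 2) :
    ∏ u ∈ (Z D n).erase (6 * l), padicNorm p ((u : ℚ) / 6 - l) = (p : ℚ) ^ (-cntZ D n l p) := by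
  rw [Finset.prod_congr rfl (fun u hu => norm_u n l u (poles_le hl) h5 hpn hu)]
  rw [Finset.prod_ite, Finset.prod_const, Finset.prod_const_one, mul_one, ← card_Z hD n l hl h5,
    inv_pow, zpow_neg, zpow_natCast]

lemma GB_BZ (hD : D.OK) (n l : ℕ) (hl : l ∈ poles D n) (h5 : 5 ≤ p)
    (hpn : 6 * (D.C * n) < p ^ 2) : GB p (BZ D n l) ((p : ℚ) ^ (-cntZ D n l p)) p := by
  rw [← prod_norm_Z hD n l hl h5 hpn]
  unfold BZ
  apply GB.prod _ _ _ (pq_pos (p := p)).le
  intro u hu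
  apply GB.linX _ (pq_pos (p := p)).le le_rfl
  rw [norm_u n l u (poles_le hl) h5 hpn hu]
  split_ifs
  · rw [inv_mul_cancel₀ (pq_pos (p := p)).ne']
  · rw [one_mul]; exact one_le_pq

lemma norm_prod_fact (s : Finset ℕ) (n : ℕ) (hpn : D.C * n < p ^ 2) :
    padicNorm p (∏ i ∈ s, ((Nl D n (D.h i)).factorial : ℚ))
      = (p : ℚ) ^ (-∑ i ∈ s, ((Nl D n (D.h i) / p : ℕ) : ℤ)) := by
  have hNl : ∀ h, Nl D n h < p ^ 2 := fun h => by
    unfold Nl
    have : (D.C - 2 * h) * n ≤ D.C * n := Nat.mul_le_mul_right _ (by omega)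
    omega
  rw [← Finset.sum_neg_distrib, ← prod_zpow_base _ _ _ (pq_pos (p := p)).ne']
  classical
  induction s using Finset.induction_on with
  | empty => simp
  | insert a s ha ih =>
    rw [Finset.prod_insert ha, Finset.prod_insert ha, padicNorm.mul, ih, norm_factorial _ (hNl _)]

lemma norm_pow_q (x : ℚ) (k : ℕ) : padicNorm p (x ^ k) = (padicNorm p x) ^ k := by
  induction k with
  | zero => simp
  | succ k ih => rw [pow_succ, padicNorm.mul, ih, pow_succ]

lemma norm_K (n : ℕ) (h5 : 5 ≤ p) (hpn : D.C * n < p ^ 2) :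
    padicNorm p (K D n) = (p : ℚ) ^ (-E0 D n p) := by
  have hp0 := pq_pos (p := p)
  have hNl : ∀ h, Nl D n h < p ^ 2 := fun h => by
    unfold Nl
    have : (D.C - 2 * h) * n ≤ D.C * n := Nat.mul_le_mul_right _ (by omega)
    omega
  have h4 : padicNorm p (4 : ℚ) = 1 := by
    have := (padicNorm.nat_eq_one_iff (p := p) 4).2 (fun hd => by
      have := (Nat.prime_dvd_prime_iff_eq hp.out Nat.prime_two).1
        (hp.out.dvd_of_dvd_pow (show p ∣ 2 ^ 2 from hd))
      omega)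
    exact_mod_cast this
  have h27 : padicNorm p (27 : ℚ) = 1 := by
    have := (padicNorm.nat_eq_one_iff (p := p) 27).2 (fun hd => by
      have := (Nat.prime_dvd_prime_iff_eq hp.out Nat.prime_three).1
        (hp.out.dvd_of_dvd_pow (show p ∣ 3 ^ 3 from hd))
      omega)
    exact_mod_cast this
  unfold K E0
  rw [padicNorm.div, padicNorm.mul, padicNorm.mul, padicNorm.mul, padicNorm.mul, norm_pow_q,
    norm_pow_q, norm_pow_q, h4, h27, one_pow, one_pow, mul_one, mul_one,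
    norm_prod_fact D.P n hpn, norm_factorial _ hpn, norm_factorial _ (hNl _),
    norm_factorial _ (hNl _), ← zpow_natCast, ← zpow_mul, ← zpow_add₀ hp0.ne', ← zpow_add₀ hp0.ne',
    ← zpow_sub₀ hp0.ne']
  congr 1
  push_cast
  ring

lemma GB_mid (n l : ℕ) {r : ℚ} (hr : 1 ≤ r) :
    GB p (PowerSeries.C (D.C * (n : ℚ) - 2 * (l : ℚ)) + 2 * PowerSeries.X) 1 r :=
  Pool.Agent.OddZetaG.GB_mid (D := toG D) n l hr

lemma GB_F (hD : D.OK) (n l : ℕ) (hl : l ∈ poles D n) (h5 : 5 ≤ p) (hpn : 6 * (D.C * n) < p ^ 2) :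
    GB p (F D n l) ((p : ℚ) ^ (-V D n l p)) p := by
  have hp0 := pq_pos (p := p)
  have hpn' : D.C * n < p ^ 2 := by omega
  have e : (p : ℚ) ^ (-V D n l p) = (p : ℚ) ^ (-E0 D n p) * 1 * ((p : ℚ) ^ (-cntZ D n l p))
      * (∏ i ∈ D.P, (p : ℚ) ^ (cnt D n l p (D.h i))) := by
    rw [prod_zpow_base _ _ _ hp0.ne', mul_one, ← zpow_add₀ hp0.ne', ← zpow_add₀ hp0.ne']
    congr 1
    unfold V
    ring
  rw [e]
  unfold F
  rw [prod_inv_ps]
  apply GB.mul
  · apply GB.mul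
    · apply GB.mul
      · rw [← norm_K n h5 hpn']
        exact GB.C _ hp0.le
      · exact GB_mid n l one_le_pq
    · exact GB_BZ hD n l hl h5 hpn
  · apply GB.prod _ _ _ hp0.le
    intro i hi
    exact Pool.Agent.OddZetaG.GB_Binv (D := toG D) n l (D.h i) (two_P hD hi).le (poles_le hl) hpn'

end

theorem norm_a_le (hD : D.OK) (n l i p : ℕ) [Fact p.Prime] (hn : 0 < n) (h5 : 5 ≤ p)
    (hl : l ∈ poles D n) (hp : 6 * (D.C * n) < p ^ 2) :
    padicNorm p (a D n l i) ≤ (p : ℚ) ^ (ord D n l - V D n l p - i) := by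
  have hp0 := pq_pos (p := p)
  unfold a
  split_ifs with h
  · refine (GB_F hD n l hl h5 hp _).trans (le_of_eq ?_)
    rw [← zpow_natCast, ← zpow_add₀ hp0.ne']
    congr 1
    have : (((ord D n l - i).toNat : ℕ) : ℤ) = ord D n l - i := Int.toNat_of_nonneg (by linarith)
    rw [this]
    ring
  · rw [padicNorm.zero]; positivity

section

variable {p : ℕ} [hp : Fact p.Prime]

lemma norm_six (h5 : 5 ≤ p) : padicNorm p (6 : ℚ) = 1 := by
  have c6 : Nat.Coprime p 6 := Nat.Coprime.mul_right (two_cop (p := p) h5) (three_cop (p := p) h5)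
  have := (padicNorm.nat_eq_one_iff (p := p) 6).2 (fun hd => by
    have := Nat.Coprime.eq_one_of_dvd c6 hd
    omega)
  exact_mod_cast this

lemma GB_BZ_one (n l : ℕ) (h5 : 5 ≤ p) : GB p (BZ D n l) 1 1 := by
  have h : GB p (BZ D n l) (∏ _u ∈ (Z D n).erase (6 * l), (1 : ℚ)) 1 := by
    unfold BZ
    apply GB.prod _ _ _ zero_le_one
    intro u _
    apply GB.linX _ zero_le_one
    · have h7 : (u : ℚ) / 6 - l = (((u : ℤ) - 6 * l : ℤ) : ℚ) / 6 := by
        push_cast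
        ring
      rw [h7, padicNorm.div, norm_six h5, div_one]
      exact padicNorm.of_int _
    · norm_num
  rwa [Finset.prod_const_one] at h

lemma GB_F_noP (hD : D.OK) (n l : ℕ) (h5 : 5 ≤ p) (hl : l ∈ poles D n)
    (hpn : D.C * n < p ^ 2) (hno : noP D n l p) :
    GB p (F D n l) ((p : ℚ) ^ (-E0 D n p)) 1 := by
  have h1 : GB p (∏ i ∈ D.P, (B D n (D.h i) l)⁻¹) (∏ _i ∈ D.P, (1 : ℚ)) 1 := by
    apply GB.prod _ _ _ zero_le_one
    intro i hi
    have h2 : GB p ((B D n (D.h i) l)⁻¹) (∏ _m ∈ (blk D n (D.h i)).erase l, (1 : ℚ)) 1 := by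
      unfold B
      rw [prod_inv_ps]
      apply GB.prod _ _ _ zero_le_one
      intro m hm
      have h3 := Pool.Agent.OddZetaG.card_div (D := toG D) (p := p) n l (D.h i) (two_P hD hi).le
      have h4 : Pool.Agent.OddZetaG.cnt (toG D) n l p (D.h i) ≤ 0 := hno i hi
      rw [← h3] at h4
      have h6 : #{m ∈ (blk D n (D.h i)).erase l | (p : ℤ) ∣ ((m : ℕ) : ℤ) - l} = 0 := by
        have : ((#{m ∈ (blk D n (D.h i)).erase l | (p : ℤ) ∣ ((m : ℕ) : ℤ) - l} : ℕ) : ℤ) ≤ 0 := h4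
        omega
      rw [Finset.card_eq_zero, Finset.filter_eq_empty_iff] at h6
      have h7 := h6 hm
      have h8 := Pool.Agent.OddZetaG.norm_sub (D := toG D) (p := p) n l (D.h i) m
        (by have := two_P hD hi; change D.h i ≤ D.C; omega) (poles_le hl) hpn hm
      rw [if_neg h7] at h8
      have h9 := GB.linInv (p := p) ((m : ℚ) - l) (r := 1) (by
        rintro h0
        rw [h0, padicNorm.zero] at h8
        exact zero_ne_one h8) (by rw [h8]; norm_num)
      rwa [h8, inv_one] at h9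
    rwa [Finset.prod_const_one] at h2
  rw [Finset.prod_const_one] at h1
  unfold F
  rw [prod_inv_ps]
  have h2 := (((GB.C (p := p) (K D n) zero_le_one).mul (GB_mid (D := D) n l le_rfl)).mul
    (GB_BZ_one (D := D) n l h5)).mul h1
  rw [norm_K n h5 hpn, mul_one, mul_one, mul_one] at h2
  exact h2

end

theorem norm_a_le_noP (hD : D.OK) (n l i p : ℕ) [Fact p.Prime] (hn : 0 < n) (h5 : 5 ≤ p)
    (hl : l ∈ poles D n) (hp : 6 * (D.C * n) < p ^ 2) (hno : noP D n l p) :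
    padicNorm p (a D n l i) ≤ (p : ℚ) ^ (- E0 D n p) := by
  have hp0 := pq_pos (p := p)
  unfold a
  split_ifs with h
  · have := GB_F_noP hD n l h5 hl (by omega) hno (ord D n l - i).toNat
    rwa [one_pow, mul_one] at this
  · rw [padicNorm.zero]; positivity

/-! ### The crude bound -/

section

variable {p : ℕ} [hp : Fact p.Prime]

/-- products of arithmetic progressions are divisible by factorials -/
lemma ap_le (d : ℕ) (hd : ¬ p ∣ d) (r : ℤ) (l A N : ℕ) :
    ∏ m ∈ Finset.Ico A (A + N), padicNorm p ((d : ℚ) * ((m : ℚ) - l) + r)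
      ≤ padicNorm p ((N.factorial : ℕ) : ℚ) := by
  have hdu : IsUnit ((d : ℕ) : ℤ_[p]) := by
    rw [PadicInt.isUnit_iff]
    have h1 := (padicNorm.nat_eq_one_iff (p := p) d).2 hd
    have h2 : ‖((d : ℕ) : ℤ_[p])‖ = ‖((d : ℚ) : ℚ_[p])‖ := by
      rw [PadicInt.norm_def]
      push_cast
      rfl
    rw [h2, Padic.eq_padicNorm, h1]
    norm_num
  obtain ⟨w, hw⟩ := hdu.exists_right_inv
  set x : ℤ_[p] := ((d : ℤ_[p]) * ((A : ℤ_[p]) - l) + r) * w with hx
  have h1 : ∀ k : ℕ, (ascPochhammer ℤ_[p] k).eval x = ∏ i ∈ Finset.range k, (x + i) := by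
    intro k
    induction k with
    | zero => simp
    | succ k ih => rw [ascPochhammer_succ_eval, ih, Finset.prod_range_succ]
  have h2 : ∏ m ∈ Finset.Ico A (A + N), ((d : ℤ_[p]) * ((m : ℤ_[p]) - l) + r)
      = (d : ℤ_[p]) ^ N * (ascPochhammer ℤ_[p] N).eval x := by
    rw [h1, Finset.prod_Ico_eq_prod_range, Nat.add_sub_cancel_left, ← Finset.card_range N,
      ← Finset.prod_const, Finset.card_range, ← Finset.prod_mul_distrib]
    refine Finset.prod_congr rfl (fun i _ => ?_)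
    rw [hx]
    push_cast
    linear_combination (-((d : ℤ_[p]) * ((A : ℤ_[p]) - l) + r)) * hw
  have h3 := PadicInt.norm_ascPochhammer_le (p := p) N x
  have h4 : ‖∏ m ∈ Finset.Ico A (A + N), ((d : ℤ_[p]) * ((m : ℤ_[p]) - l) + r)‖
      ≤ ‖((N.factorial : ℕ) : ℤ_[p])‖ := by
    rw [h2, norm_mul, norm_pow, PadicInt.isUnit_iff.mp hdu, one_pow, one_mul]
    exact h3
  have h5 : ‖∏ m ∈ Finset.Ico A (A + N), ((d : ℤ_[p]) * ((m : ℤ_[p]) - l) + r)‖
      = ((∏ m ∈ Finset.Ico A (A + N), padicNorm p ((d : ℚ) * ((m : ℚ) - l) + r) : ℚ) : ℝ) := by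
    rw [norm_prod]
    push_cast
    refine Finset.prod_congr rfl (fun m _ => ?_)
    rw [← Padic.eq_padicNorm, PadicInt.norm_def]
    push_cast
    rfl
  have h6 : ‖((N.factorial : ℕ) : ℤ_[p])‖ = ((padicNorm p ((N.factorial : ℕ) : ℚ) : ℚ) : ℝ) := by
    rw [← Padic.eq_padicNorm, PadicInt.norm_def]
    push_cast
    rfl
  rw [h5, h6] at h4
  exact_mod_cast h4

lemma norm_fact_pos (N : ℕ) : 0 < padicNorm p ((N.factorial : ℕ) : ℚ) :=
  lt_of_le_of_ne (padicNorm.nonneg _)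
    (padicNorm.nonzero (by exact_mod_cast Nat.factorial_ne_zero _)).symm

/-- lower bound for the norm of a factorial -/
lemma fact_lower (N : ℕ) :
    (padicNorm p (p : ℚ)) ^ N ≤ padicNorm p ((N.factorial : ℕ) : ℚ) ^ (p - 1) := by
  have hp1 : (1 : ℚ) ≤ p := one_le_pq
  rw [padicNorm.padicNorm_p_of_prime, padicNorm.eq_zpow_of_nonzero
    (by exact_mod_cast N.factorial_ne_zero), padicValRat.of_nat, zpow_neg, zpow_natCast, inv_pow,
    inv_pow, ← pow_mul]
  apply inv_anti₀ (by positivity)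
  apply pow_le_pow_right₀ hp1
  have h1 := sub_one_mul_padicValNat_factorial (p := p) N
  rw [mul_comm] at h1
  omega

lemma ap_le_one (d : ℕ) (r : ℤ) (l A N : ℕ) :
    ∏ m ∈ Finset.Ico A (A + N), padicNorm p ((d : ℚ) * ((m : ℚ) - l) + r) ≤ 1 := by
  apply Finset.prod_le_one
  · intro m _
    exact padicNorm.nonneg _
  · intro m _
    have := padicNorm.of_int (p := p) ((d : ℤ) * ((m : ℤ) - l) + r)
    push_cast at this
    exact this

/-- the half-integer zeros -/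
lemma half_le (l A N : ℕ) :
    padicNorm p 4 ^ N * ∏ m ∈ Finset.Ico A (A + N), padicNorm p (((6 * m + 3 : ℕ) : ℚ) / 6 - l)
      ≤ padicNorm p ((N.factorial : ℕ) : ℚ) := by
  have h20 : padicNorm p (2 : ℚ) ≠ 0 := padicNorm.nonzero (by norm_num)
  have h4 : padicNorm p (4 : ℚ) = padicNorm p 2 * padicNorm p 2 := by
    rw [← padicNorm.mul]; norm_num
  have h1 : padicNorm p 4 ^ N *
      ∏ m ∈ Finset.Ico A (A + N), padicNorm p (((6 * m + 3 : ℕ) : ℚ) / 6 - l)
      = padicNorm p 2 ^ N *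
        ∏ m ∈ Finset.Ico A (A + N), padicNorm p (((2 : ℕ) : ℚ) * ((m : ℚ) - l) + ((1 : ℤ) : ℚ)) := by
    have hc : (Finset.Ico A (A + N)).card = N := by simp
    have e1 : padicNorm p 4 ^ N = ∏ _m ∈ Finset.Ico A (A + N), padicNorm p 4 := by
      rw [Finset.prod_const, hc]
    have e2 : padicNorm p 2 ^ N = ∏ _m ∈ Finset.Ico A (A + N), padicNorm p 2 := by
      rw [Finset.prod_const, hc]
    rw [e1, e2, ← Finset.prod_mul_distrib, ← Finset.prod_mul_distrib]
    refine Finset.prod_congr rfl (fun m _ => ?_)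
    have h2 : ((6 * m + 3 : ℕ) : ℚ) / 6 - l = (((2 : ℕ) : ℚ) * ((m : ℚ) - l) + ((1 : ℤ) : ℚ)) / 2 := by
      push_cast; ring
    rw [h2, padicNorm.div, h4]
    field_simp
  rw [h1]
  have hnn : 0 ≤ padicNorm p (2 : ℚ) := padicNorm.nonneg _
  have hle : padicNorm p (2 : ℚ) ≤ 1 := by
    have := padicNorm.of_nat (p := p) 2
    exact_mod_cast this
  by_cases hd : p ∣ 2
  · have hp2 : p = 2 := (Nat.prime_dvd_prime_iff_eq hp.out Nat.prime_two).1 hd
    have h2 := ap_le_one (p := p) 2 1 l A N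
    have h3 := fact_lower (p := p) N
    have h4 : p - 1 = 1 := by omega
    have h5 : (p : ℚ) = 2 := by rw [hp2]; norm_num
    rw [h4, pow_one, h5] at h3
    calc _ ≤ padicNorm p 2 ^ N * 1 := mul_le_mul_of_nonneg_left h2 (pow_nonneg hnn _)
      _ = padicNorm p 2 ^ N := mul_one _
      _ ≤ _ := h3
  · have h2 := ap_le (p := p) 2 hd 1 l A N
    calc _ ≤ 1 * ∏ m ∈ Finset.Ico A (A + N),
          padicNorm p (((2 : ℕ) : ℚ) * ((m : ℚ) - l) + ((1 : ℤ) : ℚ)) :=
          mul_le_mul_of_nonneg_right (pow_le_one₀ hnn hle)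
            (Finset.prod_nonneg (fun _ _ => padicNorm.nonneg _))
      _ ≤ _ := by rw [one_mul]; exact h2

/-- the zeros with denominator three -/
lemma third_le (l A N : ℕ) :
    padicNorm p 27 ^ N * ∏ m ∈ Finset.Ico A (A + N),
      (padicNorm p (((6 * m + 2 : ℕ) : ℚ) / 6 - l) * padicNorm p (((6 * m + 4 : ℕ) : ℚ) / 6 - l))
      ≤ padicNorm p ((N.factorial : ℕ) : ℚ) ^ 2 := by
  have h30 : padicNorm p (3 : ℚ) ≠ 0 := padicNorm.nonzero (by norm_num)
  have h27 : padicNorm p (27 : ℚ) = padicNorm p 3 * padicNorm p 3 * padicNorm p 3 := by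
    rw [← padicNorm.mul, ← padicNorm.mul]; norm_num
  have h1 : padicNorm p 27 ^ N * ∏ m ∈ Finset.Ico A (A + N),
      (padicNorm p (((6 * m + 2 : ℕ) : ℚ) / 6 - l) * padicNorm p (((6 * m + 4 : ℕ) : ℚ) / 6 - l))
      = padicNorm p 3 ^ N *
        ((∏ m ∈ Finset.Ico A (A + N), padicNorm p (((3 : ℕ) : ℚ) * ((m : ℚ) - l) + ((1 : ℤ) : ℚ))) *
        ∏ m ∈ Finset.Ico A (A + N), padicNorm p (((3 : ℕ) : ℚ) * ((m : ℚ) - l) + ((2 : ℤ) : ℚ))) := by
    have hc : (Finset.Ico A (A + N)).card = N := by simp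
    have e1 : padicNorm p 27 ^ N = ∏ _m ∈ Finset.Ico A (A + N), padicNorm p 27 := by
      rw [Finset.prod_const, hc]
    have e2 : padicNorm p 3 ^ N = ∏ _m ∈ Finset.Ico A (A + N), padicNorm p 3 := by
      rw [Finset.prod_const, hc]
    rw [e1, e2, ← Finset.prod_mul_distrib, ← Finset.prod_mul_distrib, ← Finset.prod_mul_distrib]
    refine Finset.prod_congr rfl (fun m _ => ?_)
    have h2 : ((6 * m + 2 : ℕ) : ℚ) / 6 - l = (((3 : ℕ) : ℚ) * ((m : ℚ) - l) + ((1 : ℤ) : ℚ)) / 3 := by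
      push_cast; ring
    have h3 : ((6 * m + 4 : ℕ) : ℚ) / 6 - l = (((3 : ℕ) : ℚ) * ((m : ℚ) - l) + ((2 : ℤ) : ℚ)) / 3 := by
      push_cast; ring
    rw [h2, h3, padicNorm.div, padicNorm.div, h27]
    field_simp
  rw [h1]
  have hnn : 0 ≤ padicNorm p (3 : ℚ) := padicNorm.nonneg _
  have hle : padicNorm p (3 : ℚ) ≤ 1 := by
    have := padicNorm.of_nat (p := p) 3
    exact_mod_cast this
  have hnn1 : ∀ r : ℤ, 0 ≤ ∏ m ∈ Finset.Ico A (A + N),
      padicNorm p (((3 : ℕ) : ℚ) * ((m : ℚ) - l) + (r : ℚ)) :=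
    fun r => Finset.prod_nonneg (fun _ _ => padicNorm.nonneg _)
  by_cases hd : p ∣ 3
  · have hp3 : p = 3 := (Nat.prime_dvd_prime_iff_eq hp.out Nat.prime_three).1 hd
    have h2 := ap_le_one (p := p) 3 1 l A N
    have h2' := ap_le_one (p := p) 3 2 l A N
    have h3 := fact_lower (p := p) N
    have h4 : p - 1 = 2 := by omega
    have h5 : (p : ℚ) = 3 := by rw [hp3]; norm_num
    rw [h4, h5] at h3
    refine le_trans ?_ h3
    have h6 := mul_le_one₀ h2 (hnn1 2) h2'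
    calc _ ≤ padicNorm p 3 ^ N * 1 := mul_le_mul_of_nonneg_left h6 (pow_nonneg hnn _)
      _ = padicNorm p 3 ^ N := mul_one _
  · have h2 := ap_le (p := p) 3 hd 1 l A N
    have h2' := ap_le (p := p) 3 hd 2 l A N
    rw [sq]
    calc _ ≤ 1 * ((∏ m ∈ Finset.Ico A (A + N),
          padicNorm p (((3 : ℕ) : ℚ) * ((m : ℚ) - l) + ((1 : ℤ) : ℚ))) *
          ∏ m ∈ Finset.Ico A (A + N),
          padicNorm p (((3 : ℕ) : ℚ) * ((m : ℚ) - l) + ((2 : ℤ) : ℚ))) :=
          mul_le_mul_of_nonneg_right (pow_le_one₀ hnn hle) (mul_nonneg (hnn1 1) (hnn1 2))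
      _ ≤ _ := by
          rw [one_mul]
          exact mul_le_mul h2 h2' (hnn1 2) (padicNorm.nonneg _)

lemma crude_GB_BZ (n l : ℕ) (hl : l ≤ D.C * n) :
    GB p (BZ D n l) (∏ u ∈ (Z D n).erase (6 * l), padicNorm p ((u : ℚ) / 6 - l))
      ((6 * (D.C * n) : ℕ) : ℚ) := by
  unfold BZ
  apply GB.prod _ _ _ (by positivity)
  intro u hu
  apply GB.linX _ (by positivity) le_rfl
  rw [Finset.mem_erase] at hu
  have hu2 : u ≤ 6 * (D.C * n) := by
    have := hu.2
    unfold Z at this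
    rw [Finset.mem_filter, Finset.mem_Icc] at this
    exact this.1.2
  have h1 := norm_sub_lower (p := p) (6 * (D.C * n)) (6 * l) u (by omega) hu2 hu.1
  have h60 : 0 < padicNorm p (6 : ℚ) :=
    lt_of_le_of_ne (padicNorm.nonneg _) (padicNorm.nonzero (by norm_num)).symm
  have h61 : padicNorm p (6 : ℚ) ≤ 1 := by
    have := padicNorm.of_nat (p := p) 6
    exact_mod_cast this
  have h7 : (u : ℚ) / 6 - l = ((u : ℚ) - ((6 * l : ℕ) : ℚ)) / 6 := by
    push_cast
    ring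
  rw [h7, padicNorm.div]
  refine h1.trans (mul_le_mul_of_nonneg_right ?_ (by positivity))
  rw [le_div_iff₀ h60]
  exact mul_le_of_le_one_right (padicNorm.nonneg _) h61

lemma Nl_eq (n h : ℕ) (hh : 2 * h ≤ D.C) : h * n + Nl D n h = (D.C - h) * n := by
  unfold Nl
  rw [← Nat.add_mul]
  congr 1
  omega

/-- the size of the zero product -/
lemma Z_le (hD : D.OK) (n l : ℕ) (hn : 0 < n) (hl : l ∈ poles D n) :
    padicNorm p 4 ^ Nl D n D.hH * padicNorm p 27 ^ Nl D n D.hG *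
      (∏ u ∈ (Z D n).erase (6 * l), padicNorm p ((u : ℚ) / 6 - l)) ≤
      (((D.C * n : ℕ) : ℚ) * padicNorm p (((D.C * n).factorial : ℕ) : ℚ)) *
        padicNorm p (((Nl D n D.hH).factorial : ℕ) : ℚ) *
        padicNorm p (((Nl D n D.hG).factorial : ℕ) : ℚ) ^ 2 := by
  have hsC := s_lt hD
  have hH := hD.hH_lt
  have hG := hD.hG_lt
  rw [Z_prod, ← Nl_eq n D.hH (by omega), ← Nl_eq n D.hG (by omega)]
  have h1 : ∏ m ∈ (blk D n 0).erase l, padicNorm p (((6 * m : ℕ) : ℚ) / 6 - l)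
      ≤ ((D.C * n : ℕ) : ℚ) * padicNorm p (((D.C * n).factorial : ℕ) : ℚ) := by
    have hb : blk D n 0 = Finset.Icc 0 (D.C * n) := by
      unfold blk
      rw [zero_mul, Nat.sub_zero]
    rw [hb]
    have h2 := prod_upper (p := p) 0 (D.C * n) l (D.C * n) (Nat.mul_pos (by omega) hn) le_rfl
      (Nat.zero_le _) (poles_le hl)
    rw [Nat.sub_zero] at h2
    refine le_trans (le_of_eq ?_) h2
    refine Finset.prod_congr rfl (fun m _ => ?_)
    congr 1
    push_cast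
    ring
  have h2 := half_le (p := p) l (D.hH * n) (Nl D n D.hH)
  have h3 := third_le (p := p) l (D.hG * n) (Nl D n D.hG)
  have n1 : 0 ≤ ∏ m ∈ (blk D n 0).erase l, padicNorm p (((6 * m : ℕ) : ℚ) / 6 - l) :=
    Finset.prod_nonneg (fun _ _ => padicNorm.nonneg _)
  have n2 : 0 ≤ padicNorm p 4 ^ (Nl D n D.hH) * ∏ m ∈ Finset.Ico (D.hH * n) (D.hH * n + Nl D n D.hH),
      padicNorm p (((6 * m + 3 : ℕ) : ℚ) / 6 - l) :=
    mul_nonneg (pow_nonneg (padicNorm.nonneg _) _) (Finset.prod_nonneg (fun _ _ => padicNorm.nonneg _))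
  have n3 : 0 ≤ padicNorm p 27 ^ (Nl D n D.hG) * ∏ m ∈ Finset.Ico (D.hG * n) (D.hG * n + Nl D n D.hG),
      (padicNorm p (((6 * m + 2 : ℕ) : ℚ) / 6 - l) * padicNorm p (((6 * m + 4 : ℕ) : ℚ) / 6 - l)) :=
    mul_nonneg (pow_nonneg (padicNorm.nonneg _) _)
      (Finset.prod_nonneg (fun _ _ => mul_nonneg (padicNorm.nonneg _) (padicNorm.nonneg _)))
  have h4 := mul_le_mul (mul_le_mul h1 h2 n2 (n1.trans h1)) h3 n3
    (mul_nonneg (n1.trans h1) (n2.trans h2))
  refine le_trans (le_of_eq ?_) h4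
  ring

lemma crude_GB_F (hD : D.OK) (n l : ℕ) (hn : 0 < n) (hl : l ∈ poles D n) :
    GB p (F D n l) (((6 * (D.C * n) : ℕ) : ℚ) ^ (2 * D.P.card + 1)) ((6 * (D.C * n) : ℕ) : ℚ) := by
  have hl83 := poles_le hl
  have hsC := s_lt hD
  have hH := hD.hH_lt
  have hCn : 1 ≤ D.C * n := Nat.mul_pos (by omega) hn
  have hL1 : (1 : ℚ) ≤ ((D.C * n : ℕ) : ℚ) := by exact_mod_cast hCn
  have hLL : ((D.C * n : ℕ) : ℚ) ≤ ((6 * (D.C * n) : ℕ) : ℚ) := by exact_mod_cast (by omega)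
  have hL1' : (1 : ℚ) ≤ ((6 * (D.C * n) : ℕ) : ℚ) := hL1.trans hLL
  have hL0' : (0 : ℚ) < ((6 * (D.C * n) : ℕ) : ℚ) := by linarith
  have hBpos : ∀ h, 0 < ∏ m ∈ (blk D n h).erase l, padicNorm p ((m : ℚ) - l) := by
    intro h
    apply Finset.prod_pos
    intro m hm
    rw [Finset.mem_erase] at hm
    refine lt_of_le_of_ne (padicNorm.nonneg _) (padicNorm.nonzero ?_).symm
    intro hc
    apply hm.1
    have : (m : ℚ) = l := by linarith
    exact_mod_cast this
  have hP : ∀ i ∈ D.P, padicNorm p (((Nl D n (D.h i)).factorial : ℕ) : ℚ) *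
      (∏ m ∈ (blk D n (D.h i)).erase l, padicNorm p ((m : ℚ) - l))⁻¹
        ≤ ((6 * (D.C * n) : ℕ) : ℚ) ^ 2 := by
    intro i hi
    have h41 := two_P hD hi
    have h25 : 1 ≤ D.h i := by
      have := hD.P_ge i hi; omega
    rw [← div_eq_mul_inv, div_le_iff₀ (hBpos (D.h i))]
    have h1 := prod_lower (p := p) (D.h i * n) ((D.C - D.h i) * n) l (D.C * n)
      (Nat.mul_lt_mul_of_pos_right (by omega) hn) (Nat.mul_le_mul_right _ (by omega)) hl83
      (by
        rw [← Nl_eq n (D.h i) h41.le, Nat.add_sub_cancel_left]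
        unfold Nl
        have h1 : (D.C - 2 * D.h i) * n + 1 * n ≤ D.C * n := by
          rw [← Nat.add_mul]
          exact Nat.mul_le_mul_right _ (by omega)
        omega)
    rw [← Nl_eq n (D.h i) h41.le, Nat.add_sub_cancel_left, Nl_eq n (D.h i) h41.le] at h1
    refine h1.trans (mul_le_mul_of_nonneg_right ?_ (hBpos (D.h i)).le)
    exact pow_le_pow_left₀ (by positivity) hLL 2
  have h0 : GB p (F D n l) (padicNorm p (K D n) * 1 *
      (∏ u ∈ (Z D n).erase (6 * l), padicNorm p ((u : ℚ) / 6 - l)) *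
      (∏ i ∈ D.P, (∏ m ∈ (blk D n (D.h i)).erase l, padicNorm p ((m : ℚ) - l))⁻¹))
      ((6 * (D.C * n) : ℕ) : ℚ) := by
    unfold F
    rw [prod_inv_ps D.P]
    apply GB.mul
    · apply GB.mul
      · apply GB.mul
        · exact GB.C _ hL0'.le
        · exact GB_mid n l hL1'
      · exact crude_GB_BZ n l hl83
    · apply GB.prod _ _ _ hL0'.le
      intro i _
      unfold B
      rw [prod_inv_ps, ← Finset.prod_inv_distrib]
      apply GB.prod _ _ _ (by positivity)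
      intro m hm
      rw [Finset.mem_erase] at hm
      apply GB.linInv
      · intro hc
        apply hm.1
        have : (m : ℚ) = l := by linarith
        exact_mod_cast this
      · have hm2 : m ≤ D.C * n := by
          have h1 := hm.2
          unfold blk at h1
          rw [Finset.mem_Icc] at h1
          have h2 : (D.C - D.h i) * n ≤ D.C * n := Nat.mul_le_mul_right _ (by omega)
          omega
        exact (norm_sub_lower (D.C * n) l m hl83 hm2 hm.1).trans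
          (mul_le_mul_of_nonneg_left hLL (padicNorm.nonneg _))
  refine h0.mono hL0'.le ?_
  have hprod : padicNorm p (∏ i ∈ D.P, ((Nl D n (D.h i)).factorial : ℚ))
      = ∏ i ∈ D.P, padicNorm p (((Nl D n (D.h i)).factorial : ℕ) : ℚ) := by
    classical
    induction D.P using Finset.induction_on with
    | empty => simp
    | insert a s ha ih =>
      rw [Finset.prod_insert ha, Finset.prod_insert ha, padicNorm.mul, ih]
  have f1 := norm_fact_pos (p := p) (D.C * n)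
  have f2 := norm_fact_pos (p := p) (Nl D n D.hH)
  have f3 := norm_fact_pos (p := p) (Nl D n D.hG)
  have hZ := Z_le (p := p) hD n l hn hl
  unfold K
  rw [padicNorm.div, padicNorm.mul, padicNorm.mul, padicNorm.mul, padicNorm.mul, norm_pow_q,
    norm_pow_q, norm_pow_q, hprod]
  set Pf := ∏ i ∈ D.P, padicNorm p (((Nl D n (D.h i)).factorial : ℕ) : ℚ) with hPf
  set Zp := ∏ u ∈ (Z D n).erase (6 * l), padicNorm p ((u : ℚ) / 6 - l) with hZp
  have h5 : Pf * (∏ i ∈ D.P, (∏ m ∈ (blk D n (D.h i)).erase l, padicNorm p ((m : ℚ) - l))⁻¹)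
      ≤ ((6 * (D.C * n) : ℕ) : ℚ) ^ (2 * D.P.card) := by
    rw [hPf, ← Finset.prod_mul_distrib]
    calc _ ≤ ∏ _i ∈ D.P, ((6 * (D.C * n) : ℕ) : ℚ) ^ 2 := by
          apply Finset.prod_le_prod
          · intro i _
            exact (mul_pos (norm_fact_pos _) (inv_pos.2 (hBpos _))).le
          · exact hP
      _ = _ := by rw [Finset.prod_const, ← pow_mul]
  have h6 : padicNorm p 4 ^ Nl D n D.hH * padicNorm p 27 ^ Nl D n D.hG * Zp /
      (padicNorm p (((D.C * n).factorial : ℕ) : ℚ) *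
        padicNorm p (((Nl D n D.hH).factorial : ℕ) : ℚ) *
        padicNorm p (((Nl D n D.hG).factorial : ℕ) : ℚ) ^ 2) ≤ ((6 * (D.C * n) : ℕ) : ℚ) := by
    rw [div_le_iff₀ (by positivity)]
    refine hZ.trans ?_
    calc _ = ((D.C * n : ℕ) : ℚ) * (padicNorm p (((D.C * n).factorial : ℕ) : ℚ) *
        padicNorm p (((Nl D n D.hH).factorial : ℕ) : ℚ) *
        padicNorm p (((Nl D n D.hG).factorial : ℕ) : ℚ) ^ 2) := by ring
      _ ≤ _ := mul_le_mul_of_nonneg_right hLL (by positivity)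
  have h7 : 0 ≤ padicNorm p 4 ^ Nl D n D.hH * padicNorm p 27 ^ Nl D n D.hG * Zp /
      (padicNorm p (((D.C * n).factorial : ℕ) : ℚ) *
        padicNorm p (((Nl D n D.hH).factorial : ℕ) : ℚ) *
        padicNorm p (((Nl D n D.hG).factorial : ℕ) : ℚ) ^ 2) := by
    apply div_nonneg _ (by positivity)
    apply mul_nonneg
    · exact mul_nonneg (pow_nonneg (padicNorm.nonneg _) _) (pow_nonneg (padicNorm.nonneg _) _)
    · exact Finset.prod_nonneg (fun _ _ => padicNorm.nonneg _)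
  have h8 := mul_le_mul h5 h6 h7 (by positivity)
  refine le_trans (le_of_eq ?_) (h8.trans (le_of_eq ?_))
  · field_simp
  · rw [pow_succ]

lemma ord_le (hD : D.OK) (n l : ℕ) : ord D n l ≤ D.A := by
  unfold ord
  have h1 : #{i ∈ D.P | l ∈ blk D n (D.h i)} ≤ D.P.card := Finset.card_filter_le _ _
  have h2 := hD.cardP
  omega

end

theorem crude_a (hD : D.OK) : ∃ E : ℕ, ∀ (n p l i : ℕ) [Fact p.Prime], 0 < n → l ∈ poles D n →
    padicNorm p (a D n l i) ≤ ((6 * D.C : ℕ) * (n : ℚ)) ^ E := by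
  refine ⟨2 * D.P.card + 1 + D.A, fun n p l i _ hn hl => ?_⟩
  have hsC := s_lt hD
  have hH := hD.hH_lt
  have hCn : 1 ≤ D.C * n := Nat.mul_pos (by omega) hn
  have e : ((6 * D.C : ℕ) * (n : ℚ)) = ((6 * (D.C * n) : ℕ) : ℚ) := by push_cast; ring
  have hL1 : (1 : ℚ) ≤ ((6 * (D.C * n) : ℕ) : ℚ) := by exact_mod_cast (by omega)
  rw [e]
  unfold a
  split_ifs with h
  · refine (crude_GB_F hD n l hn hl _).trans ?_
    rw [← pow_add]
    apply pow_le_pow_right₀ hL1
    have := ord_le hD n l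
    omega
  · rw [padicNorm.zero]; positivity

end Pool.Agent.TwoOdd
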