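import Pool.Agent.TwoOdd.NvPole
import Pool.Agent.TwoOdd.PB

/-!
Nonvanishing, `p`-adically at the prime `n = p`.
Seat: helper55.
-/

open Finset

namespace Pool.Agent.TwoOdd.NVx

open Pool.Agent.TwoOdd

open Pool.Agent.OddZeta (PInt PCong p_inv_nonneg padicNorm_self padicNorm_inv pint_one pint_add
  pint_mul pint_C pint_X pint_prod pint_inv pcong_refl pcong_symm pcong_trans coeff_mul_le pcong_mul
  pint_of_pcong_one p_inv_lt_one norm_eq_one_of_close constantCoeff_norm_of_pcong_one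
  ne_zero_of_norm_one pcong_one_prod pcong_one_inv ps_prod_inv rescale_inv rescale_C rescale_X')
open Pool.Agent.OddZetaG (norm_of_not_dvd G G_const_ne Ecor Ecor_cong eh rescale_G ps_C_inv
  factorial_split G1_int G1_const pint_two norm_p_pow close_mul norm_eq_one_of_large mem_blk_mul)

variable (D : Dat) {p : ℕ} [hp : Fact p.Prime]

/-- the correction factor of `F` -/
noncomputable def EF (p j : ℕ) : PowerSeries ℚ :=
  EZ D p j * (∏ i ∈ D.P, Ecor (toG D) p (D.h i) j)⁻¹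

theorem EF_cong (h5 : 5 ≤ p) (hH : 2 * D.hH ≤ D.C) (hG : 2 * D.hG ≤ D.C) (j : ℕ) :
    PCong p (EF D p j) 1 := by
  unfold EF
  have h1 := EZ_cong D h5 hH hG j
  have h2 : PCong p (∏ i ∈ D.P, Ecor (toG D) p (D.h i) j)⁻¹ 1 :=
    pcong_one_inv (pcong_one_prod _ _ (fun i _ => Ecor_cong (toG D) (D.h i) j))
  have := pcong_mul (pint_of_pcong_one h1) pint_one h1 h2
  simpa using this

variable {D}

theorem okhP (hD : D.OK) {i : ℕ} (hi : i ∈ D.P) : 2 * D.h i ≤ D.C := (hD.P_lt i hi).le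

theorem okhHC (hD : D.OK) : 2 * D.hH ≤ D.C := by
  have h1 := hD.hH_lt
  have h2 := hD.s_le
  have h3 := hD.lo_lt
  omega

theorem okhGC (hD : D.OK) : 2 * D.hG ≤ D.C := by
  have h1 := hD.hG_lt
  have h2 := hD.s_le
  have h3 := hD.lo_lt
  omega

theorem rescale_F (hD : D.OK) (h5 : 5 ≤ p) (j : ℕ) (hj : j ≤ D.C) :
    PowerSeries.C ((p : ℚ) ^ (∑ i ∈ D.P, eh (toG D) (D.h i) j)) *
      PowerSeries.rescale (p : ℚ) (F D p (p * j))
      = PowerSeries.C (p : ℚ) * (F D 1 j * EF D p j) := by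
  have hpq : (p : ℚ) ≠ 0 := by exact_mod_cast hp.out.ne_zero
  have hP : ∏ i ∈ D.P, PowerSeries.rescale (p : ℚ) (G (toG D) p (D.h i) (p * j))
      = PowerSeries.C ((p : ℚ) ^ (∑ i ∈ D.P, eh (toG D) (D.h i) j)) *
        (∏ i ∈ D.P, G (toG D) 1 (D.h i) j) * ∏ i ∈ D.P, Ecor (toG D) p (D.h i) j := by
    rw [Finset.prod_congr rfl (fun i hi => rescale_G (toG D) (D.h i) j (okhP hD hi)),
      Finset.prod_mul_distrib, Finset.prod_mul_distrib,
      ← map_prod, Finset.prod_pow_eq_pow_sum]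
  have hne : PowerSeries.constantCoeff (∏ i ∈ D.P, G (toG D) p (D.h i) (p * j)) ≠ 0 := by
    rw [map_prod, Finset.prod_ne_zero_iff]
    intro i _
    exact G_const_ne _ _ _ _
  have hlin : PowerSeries.rescale (p : ℚ)
      (PowerSeries.C (D.C * (p : ℚ) - 2 * ((p * j : ℕ) : ℚ)) + 2 * PowerSeries.X)
      = PowerSeries.C (p : ℚ) *
        (PowerSeries.C (D.C * ((1 : ℕ) : ℚ) - 2 * (j : ℚ)) + 2 * PowerSeries.X) := by
    have h2 : (2 : PowerSeries ℚ) = PowerSeries.C 2 := by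
      rw [map_ofNat]
    rw [map_add, rescale_C, map_mul, h2, rescale_C, rescale_X', mul_add, ← map_mul]
    congr 1
    · congr 1; push_cast; ring
    · ring
  rw [F_eq, map_mul, map_mul, rescale_inv _ hne, map_prod, hP, hlin, F_eq,
    rescale_GZ D h5 (okhHC hD) (okhGC hD) j hj, PowerSeries.mul_inv_rev, PowerSeries.mul_inv_rev, ps_C_inv]
  have key : PowerSeries.C ((p : ℚ) ^ (∑ i ∈ D.P, eh (toG D) (D.h i) j)) *
      PowerSeries.C (((p : ℚ) ^ (∑ i ∈ D.P, eh (toG D) (D.h i) j))⁻¹) = 1 := by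
    rw [← map_mul, mul_inv_cancel₀ (pow_ne_zero _ hpq), map_one]
  unfold EF
  linear_combination (PowerSeries.C (p : ℚ) *
    (PowerSeries.C (D.C * ((1 : ℕ) : ℚ) - 2 * (j : ℚ)) + 2 * PowerSeries.X) *
    GZ D 1 j * EZ D p j *
    (∏ i ∈ D.P, G (toG D) 1 (D.h i) j)⁻¹ * (∏ i ∈ D.P, Ecor (toG D) p (D.h i) j)⁻¹) * key

omit hp in
theorem ord_mul (hp0 : 0 < p) (j : ℕ) : ord D p (p * j) = ord D 1 j := by
  have h : ∀ h : ℕ, p * j ∈ blk D p h ↔ j ∈ blk D 1 h := fun h => mem_blk_mul (D := toG D) hp0 h j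
  unfold ord
  simp only [h]

omit hp in
theorem ord_one_eq (hD : D.OK) (j : ℕ) : ord D 1 j =
    D.A - ∑ i ∈ D.P, (eh (toG D) (D.h i) j : ℤ) := by
  have key : (#{i ∈ D.P | j ∈ blk D 1 (D.h i)} : ℤ)
      = D.P.card - ∑ i ∈ D.P, (eh (toG D) (D.h i) j : ℤ) := by
    have h1 : ∑ i ∈ D.P, (eh (toG D) (D.h i) j : ℤ) = #{i ∈ D.P | ¬ j ∈ blk D 1 (D.h i)} := by
      have he : ∀ i, eh (toG D) (D.h i) j = if j ∈ blk D 1 (D.h i) then 0 else 1 := fun i => rfl
      rw [Finset.card_filter]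
      push_cast
      refine Finset.sum_congr rfl (fun i _ => ?_)
      rw [he]
      split_ifs <;> simp_all
    have h2 := Finset.card_filter_add_card_filter_not (s := D.P) (fun i => j ∈ blk D 1 (D.h i))
    rw [h1]
    omega
  unfold ord
  rw [key]
  have e1 := hD.cardP
  have e2 : (D.P.card : ℤ) = D.A + 1 := by exact_mod_cast e1
  linarith

/-- the coefficient `a p (p j) i`, in terms of `F 1 j` -/
theorem a_mul (hD : D.OK) (h5 : 5 ≤ p) (j i : ℕ) (hj : j ≤ D.C) (hi : (i : ℤ) ≤ ord D 1 j) :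
    a D p (p * j) i = (p : ℚ) ^ ((i : ℤ) + 1 - D.A) *
      PowerSeries.coeff (ord D 1 j - i).toNat (F D 1 j * EF D p j) := by
  have hp0 : 0 < p := hp.out.pos
  have hpq : (p : ℚ) ≠ 0 := by exact_mod_cast hp0.ne'
  unfold a
  rw [ord_mul hp0, if_pos hi]
  set k := (ord D 1 j - i).toNat with hk
  have hk' : (k : ℤ) = ord D 1 j - i := Int.toNat_of_nonneg (by omega)
  have h1 := congrArg (PowerSeries.coeff k) (rescale_F (p := p) hD h5 j hj)
  rw [PowerSeries.coeff_C_mul, PowerSeries.coeff_C_mul, PowerSeries.coeff_rescale] at h1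
  have h2 := ord_one_eq hD j
  have e : PowerSeries.coeff k (F D p (p * j)) =
      ((p : ℚ) ^ (∑ i ∈ D.P, eh (toG D) (D.h i) j) * (p : ℚ) ^ k)⁻¹ *
        ((p : ℚ) ^ 1 * PowerSeries.coeff k (F D 1 j * EF D p j)) := by
    rw [pow_one, ← h1]
    have h3 : (p : ℚ) ^ (∑ i ∈ D.P, eh (toG D) (D.h i) j) ≠ 0 := pow_ne_zero _ hpq
    have h4 : (p : ℚ) ^ k ≠ 0 := pow_ne_zero _ hpq
    field_simp
  rw [e, ← mul_assoc]
  congr 1
  rw [← zpow_natCast, ← zpow_natCast, ← zpow_natCast, ← zpow_add₀ hpq, ← zpow_neg, ← zpow_add₀ hpq]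
  congr 1
  push_cast
  rw [hk', h2]
  ring

/-! ### integrality at `n = 1` -/

theorem norm_lin (hpC : 6 * D.C < p) {u j : ℕ} (hu : u ≤ 6 * D.C) (hj : j ≤ D.C) (huj : u ≠ 6 * j) :
    padicNorm p ((u : ℚ) / 6 - j) ≤ 1 := by
  by_cases hC : D.C = 0
  · omega
  have h5 : 5 ≤ p := by omega
  have e : (u : ℚ) / 6 - j = (((u : ℤ) - 6 * j : ℤ) : ℚ) / ((6 : ℕ) : ℚ) := by
    push_cast; ring
  rw [e, padicNorm.div, norm_of_not_dvd (not_dvd_six h5), div_one]
  exact padicNorm.of_int _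

theorem BZ1_int {j : ℕ} (hj : j ≤ D.C) (hpC : 6 * D.C < p) : PInt p (BZ D 1 j) := by
  unfold BZ
  refine pint_prod _ _ ?_
  intro u hu
  rw [Finset.mem_erase, Z, Finset.mem_filter, Finset.mem_Icc, mul_one] at hu
  exact pint_add (pint_C (norm_lin hpC hu.2.1.2 hj hu.1)) pint_X

theorem KZ1_norm (hC : 0 < D.C) (hpC : 6 * D.C < p) : padicNorm p (KZ D 1) ≤ 1 := by
  have h5 : 5 ≤ p := by omega
  have hf : ∀ N, N ≤ D.C → padicNorm p (N.factorial : ℚ) = 1 := by
    intro N hN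
    refine norm_of_not_dvd ?_
    intro h1
    have h2 := (Nat.Prime.dvd_factorial hp.out).1 h1
    omega
  have hl : ∀ h, Nl D 1 h ≤ D.C := by intro h; unfold Nl; omega
  have hden : padicNorm p (((D.C * 1).factorial : ℚ) * (Nl D 1 D.hH).factorial *
      (Nl D 1 D.hG).factorial ^ 2) = 1 := by
    rw [padicNorm.mul, padicNorm.mul, pow_two, padicNorm.mul, hf _ (hl _), hf _ (hl _), mul_one D.C,
      hf _ le_rfl]
    norm_num
  unfold KZ
  rw [padicNorm.div, hden, div_one]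
  have := padicNorm.of_nat (p := p) (4 ^ Nl D 1 D.hH * 27 ^ Nl D 1 D.hG)
  push_cast at this
  exact this

theorem F1_int {j : ℕ} (hj : j ≤ D.C) (hC : 0 < D.C) (hpC : 6 * D.C < p) : PInt p (F D 1 j) := by
  rw [F_eq]
  refine pint_mul (pint_mul ?_ ?_) ?_
  · refine pint_add (pint_C ?_) (pint_mul pint_two pint_X)
    have := padicNorm.of_int (p := p) (D.C - 2 * (j : ℤ))
    simpa using this
  · exact pint_mul (BZ1_int hj hpC) (pint_C (KZ1_norm hC hpC))
  · rw [ps_prod_inv]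
    have hpC' : (toG D).C < p := by
      change D.C < p
      omega
    exact pint_prod _ _ (fun i _ => pint_inv (G1_int (D := toG D) hj hpC') (G1_const (D := toG D) hj hpC'))

theorem a1_int {j i : ℕ} (hj : j ≤ D.C) (hC : 0 < D.C) (hpC : 6 * D.C < p) :
    padicNorm p (a D 1 j i) ≤ 1 := by
  unfold a
  split_ifs
  · exact F1_int hj hC hpC _
  · rw [padicNorm.zero]; norm_num

theorem norm_pow_eq (x : ℚ) (i : ℕ) : padicNorm p (x ^ i) = padicNorm p x ^ i := by
  induction i with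
  | zero => simp
  | succ i ih => rw [pow_succ, padicNorm.mul, ih, pow_succ]

theorem inv_pow_norm_le (h5 : 5 ≤ p) {u s : ℕ} (hu : ¬ p ∣ u) :
    padicNorm p (1 / ((u : ℚ) / 6) ^ s) ≤ 1 := by
  have h6 : padicNorm p (6 : ℚ) = 1 := by
    have := norm_of_not_dvd (not_dvd_six (p := p) h5)
    simpa using this
  rw [padicNorm.div, padicNorm.one, norm_pow_eq, padicNorm.div, norm_of_not_dvd hu, h6, div_one,
    one_pow, div_one]

theorem Hs_int (h5 : 5 ≤ p) {c s M : ℕ} (hM : 6 * M < p) : padicNorm p (Hs c s M) ≤ 1 := by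
  unfold Hs
  refine padicNorm.sum_le' ?_ zero_le_one
  intro m hm
  rw [Finset.mem_filter, Finset.mem_Icc] at hm
  refine inv_pow_norm_le h5 ?_
  intro h
  have := Nat.le_of_dvd (by omega) h
  omega

theorem cls_mul (h5 : 5 ≤ p) (c v : ℕ) : cls c (p * v) ↔ cls c v := by
  have hm : (p * v) % 6 = ((p % 6) * (v % 6)) % 6 := Nat.mul_mod _ _ _
  unfold cls
  split
  · rcases p_mod_six (p := p) h5 with h | h <;> rw [hm, h] <;> omega
  · rcases p_mod_six (p := p) h5 with h | h <;> rw [hm, h] <;> omega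
  · rcases p_mod_six (p := p) h5 with h | h <;> rw [hm, h] <;> omega

theorem Hs_mul (h5 : 5 ≤ p) (c s M : ℕ) (hs : 1 ≤ s) :
    padicNorm p ((p : ℚ) ^ s * Hs c s (p * M) - Hs c s M) ≤ (p : ℚ)⁻¹ := by
  have hp0 : 0 < p := hp.out.pos
  have hpq : (p : ℚ) ≠ 0 := by exact_mod_cast hp0.ne'
  have hfil : ((Finset.Icc 1 (6 * (p * M))).filter (cls c)).filter (fun m => p ∣ m) =
      ((Finset.Icc 1 (6 * M)).filter (cls c)).image (fun m => p * m) := by
    ext m
    simp only [Finset.mem_filter, Finset.mem_Icc, Finset.mem_image]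
    have e : 6 * (p * M) = p * (6 * M) := by ring
    rw [e]
    constructor
    · rintro ⟨⟨⟨h1, h2⟩, h4⟩, m', rfl⟩
      refine ⟨m', ⟨⟨?_, Nat.le_of_mul_le_mul_left h2 hp0⟩, (cls_mul h5 c m').1 h4⟩, rfl⟩
      rcases Nat.eq_zero_or_pos m' with rfl | h3
      · simp at h1
      · exact h3
    · rintro ⟨m', ⟨⟨h1, h2⟩, h3⟩, rfl⟩
      exact ⟨⟨⟨Nat.mul_pos hp0 h1, Nat.mul_le_mul_left _ h2⟩, (cls_mul h5 c m').2 h3⟩,
        Dvd.intro _ rfl⟩
  have h1 : Hs c s (p * M) = ((p : ℚ) ^ s)⁻¹ * Hs c s M +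
      ∑ m ∈ ((Finset.Icc 1 (6 * (p * M))).filter (cls c)).filter (fun m => ¬ p ∣ m),
        1 / ((m : ℚ) / 6) ^ s := by
    unfold Hs
    rw [← Finset.sum_filter_add_sum_filter_not ((Finset.Icc 1 (6 * (p * M))).filter (cls c))
      (fun m => p ∣ m), hfil, Finset.sum_image]
    · congr 1
      rw [Finset.mul_sum]
      refine Finset.sum_congr rfl (fun m _ => ?_)
      push_cast
      rw [mul_div_assoc, mul_pow, one_div, mul_inv, one_div]
    · intro x _ y _ hxy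
      exact Nat.eq_of_mul_eq_mul_left hp0 hxy
  rw [h1, mul_add, ← mul_assoc, mul_inv_cancel₀ (pow_ne_zero _ hpq), one_mul, add_sub_cancel_left,
    padicNorm.mul]
  have h2 : padicNorm p (∑ m ∈ ((Finset.Icc 1 (6 * (p * M))).filter (cls c)).filter
      (fun m => ¬ p ∣ m), 1 / ((m : ℚ) / 6) ^ s) ≤ 1 := by
    refine padicNorm.sum_le' ?_ zero_le_one
    intro m hm
    exact inv_pow_norm_le h5 (Finset.mem_filter.1 hm).2
  have h3 : padicNorm p ((p : ℚ) ^ s) ≤ (p : ℚ)⁻¹ := by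
    obtain ⟨s', rfl⟩ : ∃ s', s = s' + 1 := ⟨s - 1, by omega⟩
    rw [pow_succ, padicNorm.mul, padicNorm_self]
    refine mul_le_of_le_one_left p_inv_nonneg ?_
    have := padicNorm.of_nat (p := p) (p ^ s')
    push_cast at this
    exact this
  calc _ ≤ (p : ℚ)⁻¹ * 1 := mul_le_mul h3 h2 (padicNorm.nonneg _) p_inv_nonneg
    _ = _ := mul_one _

omit hp in
theorem st_lt (hD : D.OK) (c : ℕ) : st D c ≤ D.s := by
  have h1 := hD.hH_lt
  have h2 := hD.hG_lt
  unfold st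
  split <;> omega

/-- local contribution at `p j` -/
theorem T_mul (hD : D.OK) {j : ℕ} (_hj : D.lo ≤ j) (hj' : j ≤ D.C - D.lo) (hpC : 6 * D.C < p) (c : ℕ) :
    padicNorm p ((p : ℚ) ^ (D.A - 1) * T D c p (p * j) - T D c 1 j) ≤ (p : ℚ)⁻¹ := by
  have hp0 : 0 < p := hp.out.pos
  have hpq : (p : ℚ) ≠ 0 := by exact_mod_cast hp0.ne'
  have hA4 := hD.A4
  have hsl := hD.s_le
  have hlo := hD.lo_lt
  have h5 : 5 ≤ p := by omega
  have e : (p : ℚ) ^ (D.A - 1) * T D c p (p * j) - T D c 1 j = ∑ i ∈ Finset.Icc 1 D.A,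
      (a D 1 j i * Hs c i (j - st D c * 1) -
        (p : ℚ) ^ (D.A - 1) * (a D p (p * j) i * Hs c i (p * j - st D c * p))) := by
    unfold T
    rw [Finset.sum_sub_distrib, ← Finset.mul_sum]
    ring
  rw [e]
  refine padicNorm.sum_le' ?_ p_inv_nonneg
  intro i hi
  rw [Finset.mem_Icc] at hi
  by_cases hio : (i : ℤ) ≤ ord D 1 j
  · have h1 := a_mul (p := p) hD h5 j i (by omega) hio
    have h2 : p * j - st D c * p = p * (j - st D c) := by
      rw [Nat.mul_sub, mul_comm (st D c) p]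
    rw [h2, mul_one, h1]
    set b := PowerSeries.coeff (ord D 1 j - i).toNat (F D 1 j * EF D p j) with hb
    have h3 : (p : ℚ) ^ (D.A - 1) * ((p : ℚ) ^ ((i : ℤ) + 1 - D.A) * b *
        Hs c i (p * (j - st D c)))
        = b * ((p : ℚ) ^ i * Hs c i (p * (j - st D c))) := by
      have h4 : (p : ℚ) ^ (D.A - 1) * (p : ℚ) ^ ((i : ℤ) + 1 - D.A) = (p : ℚ) ^ i := by
        rw [← zpow_natCast, ← zpow_natCast, ← zpow_add₀ hpq]
        congr 1
        push_cast [Nat.cast_sub (show 1 ≤ D.A by omega)]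
        ring
      rw [← h4]; ring
    rw [h3, ← padicNorm.neg, neg_sub]
    have hF := F1_int (p := p) (D := D) (j := j) (by omega) (by omega) hpC
    have ha : a D 1 j i = PowerSeries.coeff (ord D 1 j - i).toNat (F D 1 j) := by
      unfold a; rw [if_pos hio]
    have hca : padicNorm p (b - a D 1 j i) ≤ (p : ℚ)⁻¹ := by
      rw [hb, ha]
      have e2 : PowerSeries.coeff (ord D 1 j - i).toNat (F D 1 j * EF D p j) -
          PowerSeries.coeff (ord D 1 j - i).toNat (F D 1 j)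
          = PowerSeries.coeff (ord D 1 j - i).toNat (F D 1 j * (EF D p j - 1)) := by
        rw [← map_sub]; congr 1; ring
      rw [e2]
      exact coeff_mul_le hF (EF_cong D h5 (okhHC hD) (okhGC hD) j) _
    refine close_mul (a1_int (by omega) (by omega) hpC) (Hs_int h5 ?_) hca (Hs_mul h5 _ _ _ (by omega))
    have : j - st D c ≤ D.C := by omega
    omega
  · have h1 : a D 1 j i = 0 := by unfold a; rw [if_neg hio]
    have h2 : a D p (p * j) i = 0 := by
      unfold a; rw [ord_mul hp0, if_neg hio]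
    rw [h1, h2]
    simp only [zero_mul, mul_zero, sub_zero, padicNorm.zero]
    exact p_inv_nonneg

/-! ### the other local contributions -/

omit hp in
theorem ediv_add_neg {q : ℤ} (hq : 0 < q) {x : ℤ} (hx : ¬ q ∣ x) : x / q + (-x) / q = -1 := by
  have h5 : 0 < x % q := by
    rcases (Int.emod_nonneg x hq.ne').lt_or_eq with h | h
    · exact h
    · exact absurd (Int.dvd_of_emod_eq_zero h.symm) hx
  have h6 := Int.emod_lt_of_pos x hq
  have h7 := Int.mul_ediv_add_emod x q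
  have h8 : -x = (q - x % q) + (-(x / q) - 1) * q := by
    linear_combination h7
  have h9 : (q - x % q) / q = 0 := Int.ediv_eq_zero_of_lt (by linarith) (by linarith)
  rw [h8, Int.add_mul_ediv_right _ _ hq.ne', h9]
  ring

theorem V_self_not_dvd (hD : D.OK) (h5 : 5 ≤ p) {l : ℕ} (hl : ¬ p ∣ l) :
    V D p l p = ord D p l := by
  have hp0 : 0 < p := hp.out.pos
  have hpz : (0 : ℤ) < p := by exact_mod_cast hp0
  have l1 : ¬ (p : ℤ) ∣ (l : ℤ) := by exact_mod_cast hl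
  have hp' : Prime (p : ℤ) := Nat.prime_iff_prime_int.1 hp.out
  have l2 : ¬ (p : ℤ) ∣ 2 * (l : ℤ) := by
    intro h
    rcases hp'.dvd_or_dvd h with h1 | h1
    · have := Int.le_of_dvd (by norm_num) h1; omega
    · exact l1 h1
  have l3 : ¬ (p : ℤ) ∣ 3 * (l : ℤ) := by
    intro h
    rcases hp'.dvd_or_dvd h with h1 | h1
    · have := Int.le_of_dvd (by norm_num) h1; omega
    · exact l1 h1
  have s1 := ediv_add_neg hpz l1
  have s2 := ediv_add_neg hpz l2
  have s3 := ediv_add_neg hpz l3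
  have hfA : ∀ h : ℕ, fA p l p h = (l : ℤ) / p - h := by
    intro h
    unfold fA
    rw [Int.sub_mul_ediv_right _ _ hpz.ne']
  have hfB : ∀ h : ℕ, fB D p l p h = (D.C - h : ℤ) + (-(l : ℤ)) / p := by
    intro h
    unfold fB
    have : (D.C - h : ℤ) * p - l = (-(l : ℤ)) + (D.C - h : ℤ) * p := by ring
    rw [this, Int.add_mul_ediv_right _ _ hpz.ne', add_comm]
  have q1 : (2 * ((l : ℤ) - D.hH * p)) / p = (2 * (l : ℤ)) / p - 2 * D.hH := by
    have : (2 * ((l : ℤ) - D.hH * p)) = 2 * (l : ℤ) - (2 * D.hH) * p := by ring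
    rw [this, Int.sub_mul_ediv_right _ _ hpz.ne']
  have q2 : (2 * ((D.C - D.hH : ℤ) * p - l)) / p = 2 * (D.C - D.hH : ℤ) + (-(2 * (l : ℤ))) / p := by
    have : (2 * ((D.C - D.hH : ℤ) * p - l)) = (-(2 * (l : ℤ))) + (2 * (D.C - D.hH : ℤ)) * p := by ring
    rw [this, Int.add_mul_ediv_right _ _ hpz.ne', add_comm]
  have q3 : (3 * ((l : ℤ) - D.hG * p)) / p = (3 * (l : ℤ)) / p - 3 * D.hG := by
    have : (3 * ((l : ℤ) - D.hG * p)) = 3 * (l : ℤ) - (3 * D.hG) * p := by ring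
    rw [this, Int.sub_mul_ediv_right _ _ hpz.ne']
  have q4 : (3 * ((D.C - D.hG : ℤ) * p - l)) / p = 3 * (D.C - D.hG : ℤ) + (-(3 * (l : ℤ))) / p := by
    have : (3 * ((D.C - D.hG : ℤ) * p - l)) = (-(3 * (l : ℤ))) + (3 * (D.C - D.hG : ℤ)) * p := by ring
    rw [this, Int.add_mul_ediv_right _ _ hpz.ne', add_comm]
  have hN : ∀ h : ℕ, 2 * h ≤ D.C → ((Nl D p h / p : ℕ) : ℤ) = D.C - 2 * h := by
    intro h hh
    unfold Nl
    rw [Nat.mul_div_cancel _ hp0]
    push_cast [Nat.cast_sub hh]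
    ring
  have hP : ∑ i ∈ D.P, ((Nl D p (D.h i) / p : ℕ) : ℤ) - ∑ i ∈ D.P, cnt D p l p (D.h i) =
      (#{i ∈ D.P | l ∈ blk D p (D.h i)} : ℤ) := by
    rw [← Finset.sum_sub_distrib, Finset.card_filter]
    push_cast
    refine Finset.sum_congr rfl (fun i hi => ?_)
    unfold cnt
    rw [hfA, hfB]
    have := hN (D.h i) (okhP hD hi)
    push_cast at this
    rw [this]
    split_ifs <;> linarith
  have hCn : ((D.C * p / p : ℕ) : ℤ) = D.C := by
    rw [Nat.mul_div_cancel _ hp0]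
  have hz : cntZ D p l p = D.C - 1 + (D.C - 2 * D.hH) + 2 * (D.C - 2 * D.hG) := by
    unfold cntZ
    rw [hfA, hfB, hfA, hfB, hfA, hfB, q1, q2, q3, q4]
    push_cast
    linarith
  have e1 := hN D.hH (okhHC hD)
  have e2 := hN D.hG (okhGC hD)
  unfold V E0 ord
  rw [hz, hCn, e1, e2]
  linarith

theorem Hs_le (h5 : 5 ≤ p) (c i M : ℕ) (hM : 6 * M < p ^ 2) :
    padicNorm p (Hs c i M) ≤ (p : ℚ) ^ i := by
  have hpos : (0 : ℚ) < p := by exact_mod_cast hp.out.pos
  unfold Hs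
  refine padicNorm.sum_le' ?_ (by positivity)
  intro u hu
  rw [Finset.mem_filter, Finset.mem_Icc] at hu
  have h6 : padicNorm p (6 : ℚ) = 1 := by
    have := norm_of_not_dvd (not_dvd_six (p := p) h5)
    simpa using this
  rw [padicNorm.div, padicNorm.one, norm_pow_eq, padicNorm.div, h6, div_one, one_div, ← inv_pow]
  have h1 : (p : ℚ)⁻¹ ≤ padicNorm p (u : ℚ) := by
    by_contra hcon
    push Not at hcon
    have h2 : ¬ p ^ 2 ∣ u := by
      intro h
      have := Nat.le_of_dvd (by omega) h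
      omega
    apply h2
    have h3 := (padicNorm.dvd_iff_norm_le (p := p) (n := 2) (z := (u : ℤ))).2 (by
      by_cases hu1 : p ∣ u
      · obtain ⟨v, rfl⟩ := hu1
        have hv : p ∣ v := by
          by_contra hv
          have : padicNorm p ((p * v : ℕ) : ℚ) = (p : ℚ)⁻¹ := by
            push_cast
            rw [padicNorm.mul, padicNorm_self, norm_of_not_dvd hv, mul_one]
          rw [this] at hcon
          exact lt_irrefl _ hcon
        obtain ⟨w, rfl⟩ := hv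
        push_cast
        rw [padicNorm.mul, padicNorm.mul, padicNorm_self]
        have hw := padicNorm.of_nat (p := p) w
        have : (p : ℚ) ^ (-2 : ℤ) = (p : ℚ)⁻¹ * (p : ℚ)⁻¹ := by
          rw [zpow_neg]; norm_cast; rw [pow_two]; push_cast; rw [mul_inv]
        rw [this]
        have hi : (0 : ℚ) ≤ (p : ℚ)⁻¹ := p_inv_nonneg
        nlinarith [mul_nonneg hi hi, padicNorm.nonneg (p := p) (w : ℚ)]
      · rw [Int.cast_natCast, norm_of_not_dvd hu1] at *
        exact absurd hcon (not_lt.2 p_inv_lt_one.le))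
    exact_mod_cast h3
  have h2 : (padicNorm p (u : ℚ))⁻¹ ≤ p := by
    have := inv_anti₀ (by positivity) h1
    rwa [inv_inv] at this
  exact pow_le_pow_left₀ (inv_nonneg.2 (padicNorm.nonneg _)) h2 i

theorem T_not_dvd (hD : D.OK) (hpC : 6 * D.C < p) {l : ℕ} (hl : l ∈ poles D p) (hpl : ¬ p ∣ l)
    (c : ℕ) : padicNorm p (T D c p l) ≤ 1 := by
  have hp0 : 0 < p := hp.out.pos
  have hpos : (0 : ℚ) < p := by exact_mod_cast hp0
  have hlo := hD.lo_lt
  have h5 : 5 ≤ p := by omega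
  have hsq : 6 * (D.C * p) < p ^ 2 := by nlinarith
  unfold T
  rw [padicNorm.neg]
  refine padicNorm.sum_le' ?_ zero_le_one
  intro i _
  have h1 := norm_a_le hD p l i p hp0 h5 hl hsq
  rw [V_self_not_dvd hD h5 hpl, sub_self, zero_sub] at h1
  have hlC : l ≤ D.C * p := by
    unfold poles at hl
    rw [Finset.mem_Icc] at hl
    exact hl.2.trans (Nat.mul_le_mul_right _ (Nat.sub_le _ _))
  have h2 := Hs_le (p := p) h5 c i (l - st D c * p) (by omega)
  rw [padicNorm.mul]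
  calc _ ≤ (p : ℚ) ^ (-(i : ℤ)) * (p : ℚ) ^ i :=
        mul_le_mul h1 h2 (padicNorm.nonneg _) (by positivity)
    _ = 1 := by
        rw [zpow_neg, zpow_natCast, inv_mul_cancel₀ (by positivity)]

theorem poles_filter : (poles D p).filter (fun l => p ∣ l) = (poles D 1).image (fun j => p * j) := by
  have hp0 : 0 < p := hp.out.pos
  ext m
  simp only [Finset.mem_filter, poles, Finset.mem_Icc, Finset.mem_image, mul_one]
  constructor
  · rintro ⟨⟨h1, h2⟩, m', rfl⟩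
    rw [mul_comm D.lo] at h1
    rw [mul_comm (D.C - D.lo)] at h2
    exact ⟨m', ⟨Nat.le_of_mul_le_mul_left h1 hp0, Nat.le_of_mul_le_mul_left h2 hp0⟩, rfl⟩
  · rintro ⟨m', ⟨h1, h2⟩, rfl⟩
    rw [mul_comm D.lo, mul_comm (D.C - D.lo)]
    exact ⟨⟨Nat.mul_le_mul_left _ h1, Nat.mul_le_mul_left _ h2⟩, Dvd.intro _ rfl⟩

theorem rho0_close (hD : D.OK) (hpC : 6 * D.C < p) (c : ℕ) :
    padicNorm p ((p : ℚ) ^ (D.A - 1) * rho0 D c p - rho0 D c 1) ≤ (p : ℚ)⁻¹ := by
  have hp0 : 0 < p := hp.out.pos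
  have hpq : (p : ℚ) ≠ 0 := by exact_mod_cast hp0.ne'
  have hA4 := hD.A4
  have e : (p : ℚ) ^ (D.A - 1) * rho0 D c p - rho0 D c 1 =
      (∑ j ∈ poles D 1, ((p : ℚ) ^ (D.A - 1) * T D c p (p * j) - T D c 1 j)) +
      ∑ l ∈ (poles D p).filter (fun l => ¬ p ∣ l), (p : ℚ) ^ (D.A - 1) * T D c p l := by
    unfold rho0
    rw [← Finset.sum_filter_add_sum_filter_not (poles D p) (fun l => p ∣ l), poles_filter,
      Finset.sum_image, Finset.sum_sub_distrib, mul_add, Finset.mul_sum, Finset.mul_sum]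
    · ring
    · intro x _ y _ hxy
      exact Nat.eq_of_mul_eq_mul_left hp0 hxy
  rw [e]
  refine (padicNorm.nonarchimedean).trans (max_le ?_ ?_)
  · refine padicNorm.sum_le' ?_ p_inv_nonneg
    intro j hj
    unfold poles at hj
    rw [Finset.mem_Icc] at hj
    exact T_mul hD (by omega) (by omega) hpC c
  · refine padicNorm.sum_le' ?_ p_inv_nonneg
    intro l hl
    rw [Finset.mem_filter] at hl
    have h1 := T_not_dvd hD hpC hl.1 hl.2 c
    rw [padicNorm.mul, norm_p_pow]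
    have hp1 : (1 : ℚ) ≤ p := by exact_mod_cast hp.out.one_lt.le
    calc ((p : ℚ) ^ (D.A - 1))⁻¹ * padicNorm p (T D c p l)
        ≤ ((p : ℚ) ^ (D.A - 1))⁻¹ * 1 := by
          exact mul_le_mul_of_nonneg_left h1 (by positivity)
      _ = ((p : ℚ) ^ (D.A - 1))⁻¹ := mul_one _
      _ ≤ (p : ℚ)⁻¹ := by
        rw [inv_le_inv₀ (by positivity) (by positivity)]
        calc (p : ℚ) = (p : ℚ) ^ 1 := (pow_one _).symm
          _ ≤ (p : ℚ) ^ (D.A - 1) := pow_le_pow_right₀ hp1 (by omega)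

end Pool.Agent.TwoOdd.NVx

namespace Pool.Agent.TwoOdd

open Pool.Agent.OddZeta (PInt PCong p_inv_nonneg padicNorm_self norm_eq_one_of_close pint_mul
  pint_of_pcong_one)
open Pool.Agent.OddZetaG (norm_p_pow norm_eq_one_of_large)
open Pool.Agent.TwoOdd.NVx

variable {D : Dat}

theorem rho0_norm (hD : D.OK) (w : ℕ → ℤ) (hw : ∑ c ∈ Finset.range 3, (w c : ℚ) * rho0 D c 1 ≠ 0) :
    ∃ N : ℕ, ∀ p ≥ N, p.Prime →
      padicNorm p (∑ c ∈ Finset.range 3, (w c : ℚ) * rho0 D c p) = (p : ℚ) ^ (D.A - 1) := by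
  set x := ∑ c ∈ Finset.range 3, (w c : ℚ) * rho0 D c 1 with hx
  refine ⟨6 * D.C + 1 + x.num.natAbs + 1 + x.den, fun p hpN hprime => ?_⟩
  have : Fact p.Prime := ⟨hprime⟩
  have hpC : 6 * D.C < p := by omega
  have hpq : (p : ℚ) ≠ 0 := by exact_mod_cast hprime.ne_zero
  have h1 : padicNorm p x = 1 := norm_eq_one_of_large hw (by omega) (by omega)
  have h2 : padicNorm p ((p : ℚ) ^ (D.A - 1) * (∑ c ∈ Finset.range 3, (w c : ℚ) * rho0 D c p) - x)
      ≤ (p : ℚ)⁻¹ := by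
    have e : (p : ℚ) ^ (D.A - 1) * (∑ c ∈ Finset.range 3, (w c : ℚ) * rho0 D c p) - x =
        ∑ c ∈ Finset.range 3, (w c : ℚ) * ((p : ℚ) ^ (D.A - 1) * rho0 D c p - rho0 D c 1) := by
      rw [hx, Finset.mul_sum, ← Finset.sum_sub_distrib]
      refine Finset.sum_congr rfl (fun c _ => ?_)
      ring
    rw [e]
    refine padicNorm.sum_le' ?_ p_inv_nonneg
    intro c _
    rw [padicNorm.mul]
    calc _ ≤ 1 * (p : ℚ)⁻¹ := mul_le_mul (padicNorm.of_int _) (rho0_close hD hpC c)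
          (padicNorm.nonneg _) zero_le_one
      _ = _ := one_mul _
  have h3 := norm_eq_one_of_close h1 h2
  rw [padicNorm.mul, norm_p_pow] at h3
  have h4 : (p : ℚ) ^ (D.A - 1) ≠ 0 := pow_ne_zero _ hpq
  field_simp at h3
  exact h3

theorem rho_norm_le (hD : D.OK) : ∃ N : ℕ, ∀ p ≥ N, p.Prime → ∀ j, 3 ≤ j →
      padicNorm p (rho D p j) ≤ (p : ℚ) ^ (D.A - 2) := by
  refine ⟨6 * D.C + 1, fun p hpN hprime j hj => ?_⟩
  have : Fact p.Prime := ⟨hprime⟩
  have hp0 : 0 < p := hprime.pos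
  have hpC : 6 * D.C < p := by omega
  have hA4 := hD.A4
  have hlo := hD.lo_lt
  have h5 : 5 ≤ p := by omega
  have hpos : (0 : ℚ) < p := by exact_mod_cast hp0
  have hp1 : (1 : ℚ) ≤ p := by exact_mod_cast hprime.one_lt.le
  have hsq : 6 * (D.C * p) < p ^ 2 := by nlinarith
  unfold rho
  refine padicNorm.sum_le' ?_ (by positivity)
  intro l hl
  by_cases hpl : p ∣ l
  · obtain ⟨k, rfl⟩ := hpl
    by_cases hio : (j : ℤ) ≤ ord D 1 k
    · have hk : k ≤ D.C := by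
        unfold poles at hl
        rw [Finset.mem_Icc, mul_comm (D.C - D.lo)] at hl
        have := Nat.le_of_mul_le_mul_left hl.2 hp0
        omega
      rw [a_mul hD h5 k j hk hio, padicNorm.mul]
      have h1 : padicNorm p ((p : ℚ) ^ ((j : ℤ) + 1 - D.A)) = (p : ℚ) ^ ((D.A : ℤ) - 1 - j) := by
        have e : ((j : ℤ) + 1 - D.A) = ((j + 1 : ℕ) : ℤ) - ((D.A : ℕ) : ℤ) := by push_cast; ring
        rw [e, zpow_sub₀ hpos.ne', zpow_natCast, zpow_natCast, padicNorm.div, norm_p_pow, norm_p_pow]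
        have e2 : ((D.A : ℤ) - 1 - j) = ((D.A : ℕ) : ℤ) - ((j + 1 : ℕ) : ℤ) := by push_cast; ring
        rw [e2, zpow_sub₀ hpos.ne', zpow_natCast, zpow_natCast]
        field_simp
      have h2 : padicNorm p (PowerSeries.coeff (ord D 1 k - j).toNat (F D 1 k * EF D p k)) ≤ 1 :=
        pint_mul (F1_int hk (by omega) hpC)
          (pint_of_pcong_one (EF_cong D h5 (okhHC hD) (okhGC hD) k)) _
      rw [h1]
      calc _ ≤ (p : ℚ) ^ ((D.A : ℤ) - 1 - j) * 1 := mul_le_mul_of_nonneg_left h2 (by positivity)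
        _ = (p : ℚ) ^ ((D.A : ℤ) - 1 - j) := mul_one _
        _ ≤ (p : ℚ) ^ (((D.A - 2 : ℕ)) : ℤ) := zpow_le_zpow_right₀ hp1 (by omega)
        _ = _ := zpow_natCast _ _
    · have h2 : a D p (p * k) j = 0 := by
        unfold a; rw [ord_mul hp0, if_neg hio]
      rw [h2, padicNorm.zero]
      positivity
  · have h1 := norm_a_le hD p l j p hp0 h5 hl hsq
    rw [V_self_not_dvd hD h5 hpl, sub_self, zero_sub] at h1
    refine h1.trans ?_
    rw [← zpow_natCast]
    exact zpow_le_zpow_right₀ hp1 (by omega)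

end Pool.Agent.TwoOdd
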