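import Mathlib
import Pool.Agent.TwoOdd.Defs

set_option autoImplicit false

/-!
# Module PF: partial fractions and sum rules
Adapted from OddZetaG/PartFrac (helper91) by helper40.
-/

open Finset

namespace Pool.Agent.TwoOdd.PF

variable {D : Dat}

/-- number of pole blocks containing `m` -/
def ee (D : Dat) (n m : ℕ) : ℕ := #{i ∈ D.P | m ∈ blk D n (D.h i)}

/-- positive part of the order -/
def oo (D : Dat) (n m : ℕ) : ℕ := (ord D n m).toNat

/-- negative part of the order -/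
def ww (D : Dat) (n m : ℕ) : ℕ := (-(ord D n m)).toNat

/-- all relevant integers -/
def II (D : Dat) (n : ℕ) : Finset ℕ := Finset.Icc 0 (D.C * n)

/-- the zeros which are not integers -/
def ZF (D : Dat) (n : ℕ) : Finset ℕ := (Z D n).filter fun u => u % 6 ≠ 0

lemma ord_eq (n m : ℕ) : ord D n m = (ee D n m : ℤ) - 1 := rfl

lemma oo_add_zz (n m : ℕ) : oo D n m + 1 = ww D n m + ee D n m := by
  unfold oo ww
  rw [ord_eq]
  omega

lemma mem_blk {n h m : ℕ} : m ∈ blk D n h ↔ h * n ≤ m ∧ m ≤ (D.C - h) * n := by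
  unfold blk
  rw [mem_Icc]

lemma blk_subset_II (n h : ℕ) : blk D n h ⊆ II D n := by
  intro m hm
  rw [mem_blk] at hm
  unfold II
  rw [mem_Icc]
  refine ⟨Nat.zero_le _, hm.2.trans (Nat.mul_le_mul_right n (Nat.sub_le D.C h))⟩

lemma blk_anti {n h h' : ℕ} (h1 : h ≤ h') : blk D n h' ⊆ blk D n h := by
  intro m hm
  rw [mem_blk] at hm ⊢
  refine ⟨(Nat.mul_le_mul_right n h1).trans hm.1, hm.2.trans (Nat.mul_le_mul_right n ?_)⟩
  omega

lemma ee_pos_mem (hD : D.OK) {n m : ℕ} (h : ee D n m ≠ 0) : m ∈ blk D n D.s := by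
  unfold ee at h
  rw [Finset.card_ne_zero] at h
  obtain ⟨x, hx⟩ := h
  rw [mem_filter] at hx
  exact blk_anti (hD.P_ge x hx.1) hx.2

lemma ee_pos_mem' (hD : D.OK) {n m : ℕ} (h : ee D n m ≠ 0) :
    m ∈ Finset.Icc (D.s * n) ((D.C - D.s) * n) := ee_pos_mem hD h

lemma ee_le (n m : ℕ) : ee D n m ≤ D.P.card := by
  unfold ee
  exact Finset.card_filter_le _ _

lemma ord_le_A (hD : D.OK) (n m : ℕ) : ord D n m ≤ D.A := by
  rw [ord_eq]
  have h2 := ee_le (D := D) n m
  have h3 := hD.cardP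
  omega

lemma oo_le_A (hD : D.OK) (n m : ℕ) : oo D n m ≤ D.A := by
  unfold oo
  have := ord_le_A hD n m
  omega

lemma mem_poles {n l : ℕ} : l ∈ poles D n ↔ l ∈ blk D n D.lo := by
  rw [mem_blk]
  unfold poles
  rw [mem_Icc]

lemma ord_nonpos_of_not_mem (hD : D.OK) {n l : ℕ} (h : l ∉ poles D n) : ord D n l ≤ 0 := by
  rw [mem_poles] at h
  rw [ord_eq]
  by_cases h0 : ee D n l = 0
  · omega
  · have h2 : ee D n l ≤ #{i ∈ D.P | D.h i < D.lo} := by
      unfold ee
      refine Finset.card_le_card ?_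
      intro x hx
      rw [mem_filter] at hx ⊢
      refine ⟨hx.1, ?_⟩
      by_contra hc
      exact h (blk_anti (by omega) hx.2)
    have h3 := hD.lo_ok
    omega

lemma oo_eq_zero (hD : D.OK) {n l : ℕ} (h : l ∉ poles D n) : oo D n l = 0 := by
  unfold oo
  have := ord_nonpos_of_not_mem hD h
  omega

lemma ww_eq_zero_of_pos {n l : ℕ} (h : 0 < oo D n l) : ww D n l = 0 := by
  unfold ww
  unfold oo at h
  omega

lemma oo_cast {n l : ℕ} (h : 0 < oo D n l) : (oo D n l : ℤ) = ord D n l := by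
  unfold oo at h ⊢
  omega

lemma poles_subset_II (n : ℕ) : poles D n ⊆ II D n := by
  intro l hl
  rw [mem_poles] at hl
  exact blk_subset_II n D.lo hl

/-- Rewriting a double product. -/
lemma prod_blocks {A : Type*} [CommMonoid A] (n : ℕ) (H : Finset ℕ) (f : ℕ → A) (s : Finset ℕ)
    (hs : ∀ i ∈ H, blk D n (D.h i) ⊆ s) :
    ∏ i ∈ H, ∏ m ∈ blk D n (D.h i), f m
      = ∏ m ∈ s, f m ^ #{i ∈ H | m ∈ blk D n (D.h i)} := by
  have e1 : ∀ i ∈ H, ∏ m ∈ blk D n (D.h i), f m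
      = ∏ m ∈ s, if m ∈ blk D n (D.h i) then f m else 1 := by
    intro i hi
    rw [Finset.prod_ite_mem, Finset.inter_eq_right.mpr (hs i hi)]
  rw [Finset.prod_congr rfl e1, Finset.prod_comm]
  refine Finset.prod_congr rfl (fun m _ => ?_)
  rw [Finset.prod_ite, Finset.prod_const, Finset.prod_const_one, mul_one]

lemma prod_blocks_erase {A : Type*} [CommMonoid A] (n : ℕ) (H : Finset ℕ) (f : ℕ → A)
    (s : Finset ℕ) (l : ℕ) (hs : ∀ i ∈ H, blk D n (D.h i) ⊆ s) :
    ∏ i ∈ H, ∏ m ∈ (blk D n (D.h i)).erase l, f m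
      = ∏ m ∈ s.erase l, f m ^ #{i ∈ H | m ∈ blk D n (D.h i)} := by
  have e1 : ∀ i ∈ H, ∏ m ∈ (blk D n (D.h i)).erase l, f m
      = ∏ m ∈ s.erase l, if m ∈ blk D n (D.h i) then f m else 1 := by
    intro i hi
    rw [Finset.prod_ite_mem]
    congr 1
    ext m
    simp only [mem_erase, mem_inter]
    constructor
    · rintro ⟨h1, h2⟩
      exact ⟨⟨h1, hs i hi h2⟩, h2⟩
    · rintro ⟨⟨h1, _⟩, h2⟩
      exact ⟨h1, h2⟩
  rw [Finset.prod_congr rfl e1, Finset.prod_comm]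
  refine Finset.prod_congr rfl (fun m _ => ?_)
  rw [Finset.prod_ite, Finset.prod_const, Finset.prod_const_one, mul_one]

/-! ### The zeros -/

lemma mem_Z {n u : ℕ} : u ∈ Z D n ↔ u ≤ 6 * (D.C * n) ∧ (u % 6 = 0 ∨
    (u % 6 = 3 ∧ 6 * (D.hH * n) < u ∧ u < 6 * ((D.C - D.hH) * n)) ∨
    ((u % 6 = 2 ∨ u % 6 = 4) ∧ 6 * (D.hG * n) < u ∧ u < 6 * ((D.C - D.hG) * n))) := by
  unfold Z
  rw [mem_filter, mem_Icc]
  constructor
  · rintro ⟨⟨_, h1⟩, h2⟩
    exact ⟨h1, h2⟩
  · rintro ⟨h1, h2⟩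
    exact ⟨⟨Nat.zero_le _, h1⟩, h2⟩

lemma Z_zero_part (n : ℕ) : (Z D n).filter (fun u => u % 6 = 0) = (II D n).image (fun m => 6 * m) := by
  ext u
  rw [mem_filter, mem_Z, mem_image]
  unfold II
  constructor
  · rintro ⟨⟨h1, _⟩, h2⟩
    exact ⟨u / 6, mem_Icc.mpr ⟨Nat.zero_le _, by omega⟩, by omega⟩
  · rintro ⟨m, hm, rfl⟩
    rw [mem_Icc] at hm
    refine ⟨⟨by omega, Or.inl (by omega)⟩, by omega⟩

lemma prod_Z {A : Type*} [CommMonoid A] (n : ℕ) (f : ℕ → A) :
    ∏ u ∈ Z D n, f u = (∏ m ∈ II D n, f (6 * m)) * ∏ u ∈ ZF D n, f u := by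
  rw [← Finset.prod_filter_mul_prod_filter_not (Z D n) (fun u => u % 6 = 0) f, Z_zero_part,
    Finset.prod_image]
  · rfl
  · intro a _ b _ hab
    have : 6 * a = 6 * b := hab
    omega

lemma prod_Z_erase {A : Type*} [CommMonoid A] (n l : ℕ) (f : ℕ → A) :
    ∏ u ∈ (Z D n).erase (6 * l), f u
      = (∏ m ∈ (II D n).erase l, f (6 * m)) * ∏ u ∈ ZF D n, f u := by
  have e0 : (Z D n).erase (6 * l) = ((II D n).erase l).image (fun m => 6 * m) ∪ ZF D n := by
    ext u
    have hz : u ∈ Z D n ↔ (u ∈ (II D n).image (fun m => 6 * m)) ∨ u ∈ ZF D n := by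
      rw [← Z_zero_part]
      unfold ZF
      rw [mem_filter, mem_filter]
      by_cases h : u % 6 = 0 <;> simp [h]
    have hzf : u ∈ ZF D n → u ≠ 6 * l := by
      intro h
      unfold ZF at h
      rw [mem_filter] at h
      rintro rfl
      exact h.2 (by omega)
    rw [mem_erase, mem_union, hz, mem_image, mem_image]
    constructor
    · rintro ⟨h1, h2 | h2⟩
      · obtain ⟨m, hm, rfl⟩ := h2
        exact Or.inl ⟨m, mem_erase.mpr ⟨fun h => h1 (by rw [h]), hm⟩, rfl⟩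
      · exact Or.inr h2
    · rintro (⟨m, hm, rfl⟩ | h2)
      · rw [mem_erase] at hm
        exact ⟨fun h => hm.1 (by omega), Or.inl ⟨m, hm.2, rfl⟩⟩
      · exact ⟨hzf h2, Or.inr h2⟩
  rw [e0, Finset.prod_union, Finset.prod_image]
  · intro a _ b _ hab
    have : 6 * a = 6 * b := hab
    omega
  · rw [Finset.disjoint_left]
    intro u hu hu'
    rw [mem_image] at hu
    obtain ⟨m, _, rfl⟩ := hu
    unfold ZF at hu'
    rw [mem_filter] at hu'
    exact hu'.2 (by omega)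

lemma card_res (a b r : ℕ) (hr : 0 < r) (hr6 : r < 6) :
    ((Finset.Icc 0 (6 * b)).filter fun u => u % 6 = r ∧ 6 * a < u ∧ u < 6 * b).card = b - a := by
  have : ((Finset.Icc 0 (6 * b)).filter fun u => u % 6 = r ∧ 6 * a < u ∧ u < 6 * b)
      = (Finset.Ico a b).image (fun m => 6 * m + r) := by
    ext u
    rw [mem_filter, mem_Icc, mem_image]
    constructor
    · rintro ⟨_, h1, h2, h3⟩
      exact ⟨u / 6, mem_Ico.mpr ⟨by omega, by omega⟩, by omega⟩
    · rintro ⟨m, hm, rfl⟩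
      rw [mem_Ico] at hm
      refine ⟨⟨Nat.zero_le _, by omega⟩, by omega, by omega, by omega⟩
  rw [this, Finset.card_image_of_injective, Nat.card_Ico]
  intro a b h
  have : 6 * a + r = 6 * b + r := h
  omega

lemma card_ZF (hD : D.OK) (n : ℕ) :
    (ZF D n).card = (D.C - 2 * D.hH) * n + 2 * ((D.C - 2 * D.hG) * n) := by
  have h1 := hD.hH_lt
  have h2 := hD.hG_lt
  have h3 := hD.s_le
  have h4 := hD.lo_lt
  obtain ⟨k1, hk1⟩ : ∃ k, D.C = D.hH + k + D.hH := ⟨D.C - 2 * D.hH, by omega⟩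
  obtain ⟨k2, hk2⟩ : ∃ k, D.C = D.hG + k + D.hG := ⟨D.C - 2 * D.hG, by omega⟩
  have hb1 : (D.C - D.hH) * n ≤ D.C * n := Nat.mul_le_mul_right n (Nat.sub_le _ _)
  have hb2 : (D.C - D.hG) * n ≤ D.C * n := Nat.mul_le_mul_right n (Nat.sub_le _ _)
  have e : ZF D n =
      ((Finset.Icc 0 (6 * ((D.C - D.hH) * n))).filter fun u => u % 6 = 3 ∧ 6 * (D.hH * n) < u ∧
        u < 6 * ((D.C - D.hH) * n)) ∪
      (((Finset.Icc 0 (6 * ((D.C - D.hG) * n))).filter fun u => u % 6 = 2 ∧ 6 * (D.hG * n) < u ∧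
        u < 6 * ((D.C - D.hG) * n)) ∪
      ((Finset.Icc 0 (6 * ((D.C - D.hG) * n))).filter fun u => u % 6 = 4 ∧ 6 * (D.hG * n) < u ∧
        u < 6 * ((D.C - D.hG) * n))) := by
    ext u
    unfold ZF
    rw [mem_filter, mem_Z, mem_union, mem_union, mem_filter, mem_filter, mem_filter, mem_Icc,
      mem_Icc]
    omega
  rw [e, Finset.card_union_of_disjoint, Finset.card_union_of_disjoint, card_res, card_res, card_res]
  · have e1 : D.C - D.hH = D.hH + k1 := by omega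
    have e2 : D.C - 2 * D.hH = k1 := by omega
    have e3 : D.C - D.hG = D.hG + k2 := by omega
    have e4 : D.C - 2 * D.hG = k2 := by omega
    rw [e1, e2, e3, e4, Nat.add_mul, Nat.add_mul]
    omega
  · norm_num
  · norm_num
  · norm_num
  · norm_num
  · norm_num
  · norm_num
  · rw [Finset.disjoint_left]
    intro u hu hu'
    rw [mem_filter] at hu hu'
    omega
  · rw [Finset.disjoint_left]
    intro u hu hu'
    rw [mem_union, mem_filter, mem_filter] at hu'
    rw [mem_filter] at hu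
    omega

/-! ### The degree count -/

lemma card_blk {n h : ℕ} (hh : 2 * h ≤ D.C) : (blk D n h).card = (D.C - 2 * h) * n + 1 := by
  unfold blk
  rw [Nat.card_Icc]
  obtain ⟨k, hk⟩ : ∃ k, D.C - h = h + k := ⟨D.C - 2 * h, by omega⟩
  have hk' : D.C - 2 * h = k := by omega
  rw [hk, hk', Nat.add_mul]
  omega

lemma sum_card_filter (n : ℕ) (H : Finset ℕ) :
    ∑ m ∈ II D n, #{i ∈ H | m ∈ blk D n (D.h i)} = ∑ i ∈ H, (blk D n (D.h i)).card := by
  simp_rw [Finset.card_filter]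
  rw [Finset.sum_comm]
  refine Finset.sum_congr rfl (fun i _ => ?_)
  rw [← Finset.card_filter]
  congr 1
  ext m
  simp only [mem_filter]
  exact ⟨fun h => h.2, fun h' => ⟨blk_subset_II n (D.h i) h', h'⟩⟩

lemma P_le (hD : D.OK) : ∀ i ∈ D.P, 2 * D.h i ≤ D.C := fun i hi => (hD.P_lt i hi).le

lemma sum_card_of_le (n : ℕ) (H : Finset ℕ) (hH : ∀ i ∈ H, 2 * D.h i ≤ D.C) :
    ∑ i ∈ H, (blk D n (D.h i)).card = (∑ i ∈ H, (D.C - 2 * D.h i)) * n + H.card := by
  rw [Finset.sum_congr rfl (g := fun i => (D.C - 2 * D.h i) * n + 1)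
    (fun i hi => card_blk (hH i hi)), Finset.sum_add_distrib, ← Finset.sum_mul,
    Finset.sum_const, smul_eq_mul, mul_one]

lemma sum_ee (hD : D.OK) (n : ℕ) :
    ∑ m ∈ II D n, ee D n m = (∑ i ∈ D.P, (D.C - 2 * D.h i)) * n + D.P.card := by
  unfold ee
  rw [sum_card_filter, sum_card_of_le n D.P (P_le hD)]

lemma card_II (n : ℕ) : (II D n).card = D.C * n + 1 := by
  unfold II
  rw [Nat.card_Icc]
  omega

lemma sum_oo_ww (hD : D.OK) (n : ℕ) :
    ∑ m ∈ II D n, ww D n m + (ZF D n).card + D.A ≤ ∑ m ∈ II D n, oo D n m := by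
  have h1 : ∑ m ∈ II D n, (oo D n m + 1) = ∑ m ∈ II D n, (ww D n m + ee D n m) :=
    Finset.sum_congr rfl (fun m _ => oo_add_zz n m)
  rw [Finset.sum_add_distrib, Finset.sum_add_distrib, sum_ee hD, Finset.sum_const, smul_eq_mul,
    mul_one, card_II] at h1
  have h2 := Nat.mul_le_mul_right n hD.deg
  have h3 := hD.cardP
  have h4 := card_ZF hD n
  have h5 : (D.C + (D.C - 2 * D.hH) + 2 * (D.C - 2 * D.hG)) * n
      = D.C * n + (D.C - 2 * D.hH) * n + 2 * ((D.C - 2 * D.hG) * n) := by ring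
  omega

/-! ### The polynomials -/

open Polynomial in
/-- linear factors -/
noncomputable def gg (m : ℕ) : ℚ[X] := Polynomial.X + Polynomial.C (m : ℚ)

open Polynomial in
/-- linear factors, `X + u / 6` -/
noncomputable def g6 (u : ℕ) : ℚ[X] := Polynomial.X + Polynomial.C ((u : ℚ) / 6)

open Polynomial in
/-- the numerator -/
noncomputable def Nu (D : Dat) (n : ℕ) : ℚ[X] :=
  Polynomial.C (K D n) * (2 * Polynomial.X + Polynomial.C (D.C * (n : ℚ))) *
    ((∏ m ∈ II D n, gg m ^ ww D n m) * ∏ u ∈ ZF D n, g6 u)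

lemma gg_monic (m : ℕ) : (gg m).Monic := Polynomial.monic_X_add_C _

lemma g6_monic (m : ℕ) : (g6 m).Monic := Polynomial.monic_X_add_C _

lemma natDegree_gg (m : ℕ) : (gg m).natDegree = 1 := Polynomial.natDegree_X_add_C _

lemma natDegree_g6 (m : ℕ) : (g6 m).natDegree = 1 := Polynomial.natDegree_X_add_C _

lemma degree_gg (m : ℕ) : (gg m).degree = 1 := Polynomial.degree_X_add_C _

lemma gg_coprime {l m : ℕ} (h : l ≠ m) : IsCoprime (gg l) (gg m) := by
  have h1 : ((m : ℚ) - (l : ℚ)) ≠ 0 := by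
    rw [sub_ne_zero]
    exact_mod_cast h.symm
  refine ⟨Polynomial.C (-((m : ℚ) - l)⁻¹), Polynomial.C (((m : ℚ) - l)⁻¹), ?_⟩
  unfold gg
  have : Polynomial.C (-((m : ℚ) - l)⁻¹) * (Polynomial.X + Polynomial.C (l : ℚ)) +
      Polynomial.C (((m : ℚ) - l)⁻¹) * (Polynomial.X + Polynomial.C (m : ℚ))
      = Polynomial.C (((m : ℚ) - l)⁻¹ * ((m : ℚ) - l)) := by
    simp only [map_mul, map_sub, map_neg]
    ring
  rw [this, inv_mul_cancel₀ h1, map_one]

lemma natDegree_prod_gg (s : Finset ℕ) (e : ℕ → ℕ) :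
    (∏ m ∈ s, gg m ^ e m).natDegree = ∑ m ∈ s, e m := by
  rw [Polynomial.natDegree_prod_of_monic _ _ (fun m _ => (gg_monic m).pow _)]
  refine Finset.sum_congr rfl (fun m _ => ?_)
  rw [(gg_monic m).natDegree_pow, natDegree_gg, mul_one]

lemma natDegree_prod_g6 (s : Finset ℕ) : (∏ m ∈ s, g6 m).natDegree = s.card := by
  rw [Polynomial.natDegree_prod_of_monic _ _ (fun m _ => (g6_monic m))]
  rw [Finset.sum_congr rfl (fun m _ => natDegree_g6 m), Finset.sum_const, smul_eq_mul, mul_one]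

lemma monic_prod_gg (s : Finset ℕ) (e : ℕ → ℕ) : (∏ m ∈ s, gg m ^ e m).Monic :=
  Polynomial.monic_prod_of_monic _ _ (fun m _ => (gg_monic m).pow _)

lemma natDegree_Nu_le (n : ℕ) :
    (Nu D n).natDegree ≤ 1 + (∑ m ∈ II D n, ww D n m + (ZF D n).card) := by
  unfold Nu
  refine Polynomial.natDegree_mul_le.trans ?_
  have h1 : ((∏ m ∈ II D n, gg m ^ ww D n m) * ∏ u ∈ ZF D n, g6 u).natDegree
      ≤ ∑ m ∈ II D n, ww D n m + (ZF D n).card := by
    refine Polynomial.natDegree_mul_le.trans ?_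
    rw [natDegree_prod_gg, natDegree_prod_g6]
  refine Nat.add_le_add ?_ h1
  refine Polynomial.natDegree_mul_le.trans ?_
  rw [Polynomial.natDegree_C, zero_add]
  refine Polynomial.natDegree_add_le_of_degree_le ?_ ?_
  · refine Polynomial.natDegree_mul_le.trans ?_
    have : (2 : Polynomial ℚ) = Polynomial.C 2 := rfl
    rw [this, Polynomial.natDegree_C, Polynomial.natDegree_X]
  · rw [Polynomial.natDegree_C]
    norm_num

/-- Abstract partial fraction identity, in polynomial form. -/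
lemma exists_pf (hD : D.OK) (n : ℕ) :
    ∃ c : ℕ → ℕ → ℚ, Nu D n = ∑ l ∈ II D n, ∑ j ∈ Finset.range (oo D n l),
      Polynomial.C (c l j) * gg l ^ j * ∏ k ∈ (II D n).erase l, gg k ^ oo D n k := by
  obtain ⟨q, r, hr, hf⟩ := Polynomial.eq_quo_mul_prod_pow_add_sum_rem_mul_prod_pow (s := II D n)
    (Nu D n) (g := gg) (fun m _ => gg_monic m) (fun i _ j _ hij => gg_coprime hij) (oo D n)
  have hr' : ∀ l ∈ II D n, ∀ j, r l j = Polynomial.C ((r l j).coeff 0) := by
    intro l hl j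
    apply Polynomial.eq_C_of_degree_le_zero
    have := hr l hl j
    rw [degree_gg] at this
    exact Nat.WithBot.lt_one_iff_le_zero.mp this
  have hDs : ∀ l ∈ II D n,
      ∑ k ∈ (II D n).erase l, oo D n k + oo D n l = ∑ k ∈ II D n, oo D n k := by
    intro l hl
    exact Finset.sum_erase_add _ _ hl
  have hdeg1 : ∀ l ∈ II D n, ∀ j : Fin (oo D n l),
      (r l j * gg l ^ (j : ℕ) * ∏ k ∈ (II D n).erase l, gg k ^ oo D n k).natDegree
        ≤ ∑ k ∈ II D n, oo D n k - 1 := by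
    intro l hl j
    refine Polynomial.natDegree_mul_le.trans ?_
    rw [natDegree_prod_gg]
    have h1 : (r l j * gg l ^ (j : ℕ)).natDegree ≤ j := by
      refine Polynomial.natDegree_mul_le.trans ?_
      rw [hr' l hl j, Polynomial.natDegree_C, (gg_monic l).natDegree_pow, natDegree_gg]
      omega
    have h2 := hDs l hl
    have h3 := j.2
    omega
  have hdeg2 : (∑ l ∈ II D n, ∑ j : Fin (oo D n l), r l j * gg l ^ (j : ℕ) *
      ∏ k ∈ (II D n).erase l, gg k ^ oo D n k).natDegree ≤ ∑ k ∈ II D n, oo D n k - 1 := by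
    refine Polynomial.natDegree_sum_le_of_forall_le _ _ (fun l hl => ?_)
    exact Polynomial.natDegree_sum_le_of_forall_le _ _ (fun j _ => hdeg1 l hl j)
  have hq : q = 0 := by
    by_contra hq
    have h1 : (q * ∏ i ∈ II D n, gg i ^ oo D n i).natDegree
        = q.natDegree + ∑ k ∈ II D n, oo D n k := by
      rw [mul_comm, (monic_prod_gg (II D n) (oo D n)).natDegree_mul' hq, natDegree_prod_gg,
        add_comm]
    have h2 : q * ∏ i ∈ II D n, gg i ^ oo D n i = Nu D n - ∑ l ∈ II D n,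
      ∑ j : Fin (oo D n l), r l j * gg l ^ (j : ℕ) *
        ∏ k ∈ (II D n).erase l, gg k ^ oo D n k := by
      rw [eq_sub_iff_add_eq]
      exact hf.symm
    have h3 := Polynomial.natDegree_sub_le (Nu D n) (∑ l ∈ II D n, ∑ j : Fin (oo D n l),
      r l j * gg l ^ (j : ℕ) * ∏ k ∈ (II D n).erase l, gg k ^ oo D n k)
    rw [← h2, h1] at h3
    have h4 := natDegree_Nu_le (D := D) n
    have h5 := sum_oo_ww hD n
    have h7 := hD.A4
    have h6 : max (Nu D n).natDegree (∑ l ∈ II D n, ∑ j : Fin (oo D n l),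
      r l j * gg l ^ (j : ℕ) * ∏ k ∈ (II D n).erase l, gg k ^ oo D n k).natDegree
        ≤ ∑ k ∈ II D n, oo D n k - 1 := max_le (by omega) hdeg2
    omega
  refine ⟨fun l j => if h : j < oo D n l then (r l ⟨j, h⟩).coeff 0 else 0, ?_⟩
  rw [hf, hq, zero_mul, zero_add]
  refine Finset.sum_congr rfl (fun l hl => ?_)
  rw [Finset.sum_range]
  refine Finset.sum_congr rfl (fun j _ => ?_)
  beta_reduce
  rw [dif_pos j.2, ← hr' l hl j]

/-! ### Power series -/

/-- substitution `X ↦ X - l` into power series -/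
noncomputable def sh (l : ℕ) : Polynomial ℚ →ₐ[ℚ] PowerSeries ℚ :=
  Polynomial.aeval (PowerSeries.X - PowerSeries.C (l : ℚ))

lemma sh_X (l : ℕ) : sh l Polynomial.X = PowerSeries.X - PowerSeries.C (l : ℚ) := by
  unfold sh
  rw [Polynomial.aeval_X]

lemma sh_C (l : ℕ) (c : ℚ) : sh l (Polynomial.C c) = PowerSeries.C c := by
  unfold sh
  rw [Polynomial.aeval_C]
  rfl

lemma sh_gg (l m : ℕ) : sh l (gg m) = PowerSeries.C ((m : ℚ) - l) + PowerSeries.X := by
  unfold gg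
  rw [map_add, sh_X, sh_C, map_sub]
  ring

lemma sh_g6 (l u : ℕ) : sh l (g6 u) = PowerSeries.C ((u : ℚ) / 6 - l) + PowerSeries.X := by
  unfold g6
  rw [map_add, sh_X, sh_C, map_sub]
  ring

lemma sh_gg_self (l : ℕ) : sh l (gg l) = PowerSeries.X := by
  rw [sh_gg, sub_self, map_zero, zero_add]

lemma sh_prod (l : ℕ) (s : Finset ℕ) (e : ℕ → ℕ) :
    sh l (∏ k ∈ s, gg k ^ e k) = ∏ k ∈ s, (PowerSeries.C ((k : ℚ) - l) + PowerSeries.X) ^ e k := by
  rw [map_prod]
  refine Finset.prod_congr rfl (fun k _ => ?_)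
  rw [map_pow, sh_gg]

lemma sh_prod6 (l : ℕ) (s : Finset ℕ) :
    sh l (∏ k ∈ s, g6 k) = ∏ k ∈ s, (PowerSeries.C ((k : ℚ) / 6 - l) + PowerSeries.X) := by
  rw [map_prod]
  refine Finset.prod_congr rfl (fun k _ => ?_)
  rw [sh_g6]

lemma constCoeff_prod_ne (l : ℕ) (s : Finset ℕ) (hs : l ∉ s) (e : ℕ → ℕ) :
    PowerSeries.constantCoeff (∏ k ∈ s, (PowerSeries.C ((k : ℚ) - l) + PowerSeries.X) ^ e k)
      ≠ 0 := by
  rw [map_prod, Finset.prod_ne_zero_iff]
  intro k hk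
  rw [map_pow, map_add, PowerSeries.constantCoeff_X, add_zero, PowerSeries.constantCoeff_C]
  refine pow_ne_zero _ ?_
  rw [sub_ne_zero]
  have : k ≠ l := fun h => hs (h ▸ hk)
  exact_mod_cast this

lemma prod_B (n l : ℕ) (H : Finset ℕ) : ∏ i ∈ H, B D n (D.h i) l
    = ∏ m ∈ (II D n).erase l, (PowerSeries.C ((m : ℚ) - l) + PowerSeries.X) ^
        #{i ∈ H | m ∈ blk D n (D.h i)} := by
  unfold B
  exact prod_blocks_erase n H _ (II D n) l (fun i _ => blk_subset_II n (D.h i))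

lemma BZ_eq (n l : ℕ) (hl : l ∈ II D n) : BZ D n l =
    (∏ m ∈ (II D n).erase l, (PowerSeries.C ((m : ℚ) - l) + PowerSeries.X)) *
      ∏ u ∈ ZF D n, (PowerSeries.C ((u : ℚ) / 6 - l) + PowerSeries.X) := by
  unfold BZ
  rw [prod_Z_erase n l]
  congr 1
  refine Finset.prod_congr rfl (fun m _ => ?_)
  congr 3
  push_cast
  ring

lemma sh_Nu (n l : ℕ) (hl : l ∈ II D n) : sh l (Nu D n) =
    sh l (∏ k ∈ (II D n).erase l, gg k ^ oo D n k) * F D n l * PowerSeries.X ^ ww D n l := by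
  unfold Nu F
  rw [map_mul, map_mul, map_mul (sh l) (∏ m ∈ II D n, gg m ^ ww D n m), sh_prod, sh_prod,
    sh_prod6, prod_B, BZ_eq n l hl, map_add, map_mul, sh_X, sh_C, sh_C,
    ← Finset.mul_prod_erase _ _ hl, sub_self, map_zero, zero_add]
  set P := ∏ m ∈ (II D n).erase l, (PowerSeries.C ((m : ℚ) - l) + PowerSeries.X) ^
        #{i ∈ D.P | m ∈ blk D n (D.h i)} with hP
  set Q := ∏ u ∈ ZF D n, (PowerSeries.C ((u : ℚ) / 6 - l) + PowerSeries.X) with hQ
  have hP0 : PowerSeries.constantCoeff P ≠ 0 :=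
    constCoeff_prod_ne l _ (Finset.notMem_erase _ _) _
  have hPP : P * P⁻¹ = 1 := PowerSeries.mul_inv_cancel P hP0
  have key : (∏ k ∈ (II D n).erase l,
      (PowerSeries.C ((k : ℚ) - l) + PowerSeries.X) ^ oo D n k) *
      (∏ m ∈ (II D n).erase l, (PowerSeries.C ((m : ℚ) - l) + PowerSeries.X)) =
      (∏ k ∈ (II D n).erase l,
        (PowerSeries.C ((k : ℚ) - l) + PowerSeries.X) ^ ww D n k) * P := by
    rw [hP, ← Finset.prod_mul_distrib, ← Finset.prod_mul_distrib]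
    refine Finset.prod_congr rfl (fun k _ => ?_)
    rw [← pow_succ, ← pow_add]
    congr 1
    exact oo_add_zz n k
  have h2 : (sh l) 2 = 2 := map_ofNat (sh l) 2
  have h3 : 2 * (PowerSeries.X - PowerSeries.C (l : ℚ)) + PowerSeries.C (D.C * (n : ℚ))
      = PowerSeries.C (D.C * (n : ℚ) - 2 * (l : ℚ)) + 2 * PowerSeries.X := by
    rw [map_sub, map_mul PowerSeries.C 2 (l : ℚ)]
    have : PowerSeries.C (2 : ℚ) = 2 := map_ofNat _ 2
    rw [this]
    ring
  rw [h2, h3]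
  linear_combination (-PowerSeries.C (K D n) *
    (PowerSeries.C (D.C * (n : ℚ) - 2 * (l : ℚ)) + 2 * PowerSeries.X) *
    PowerSeries.X ^ ww D n l * P⁻¹ * Q) * key - (PowerSeries.C (K D n) *
    (PowerSeries.C (D.C * (n : ℚ) - 2 * (l : ℚ)) + 2 * PowerSeries.X) *
    PowerSeries.X ^ ww D n l * Q *
    (∏ k ∈ (II D n).erase l, (PowerSeries.C ((k : ℚ) - l) + PowerSeries.X) ^ ww D n k)) * hPP

lemma pf_coeff (n : ℕ) (c : ℕ → ℕ → ℚ) (hc : Nu D n = ∑ l ∈ II D n,
    ∑ j ∈ Finset.range (oo D n l),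
    Polynomial.C (c l j) * gg l ^ j * ∏ k ∈ (II D n).erase l, gg k ^ oo D n k)
    (l : ℕ) (hl' : l ∈ II D n) (j : ℕ) (hj : j < oo D n l) :
    c l j = PowerSeries.coeff j (F D n l) := by
  have h1 := sh_Nu n l hl'
  rw [ww_eq_zero_of_pos (by omega), pow_zero, mul_one, hc, map_sum,
    ← Finset.add_sum_erase _ _ hl'] at h1
  set U := sh l (∏ k ∈ (II D n).erase l, gg k ^ oo D n k) with hU
  have hU0 : PowerSeries.constantCoeff U ≠ 0 := by
    rw [hU, sh_prod]
    exact constCoeff_prod_ne l _ (Finset.notMem_erase _ _) _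
  have h2 : PowerSeries.X ^ oo D n l ∣ ∑ x ∈ (II D n).erase l,
      sh l (∑ j ∈ Finset.range (oo D n x),
      Polynomial.C (c x j) * gg x ^ j * ∏ k ∈ (II D n).erase x, gg k ^ oo D n k) := by
    refine Finset.dvd_sum (fun x hx => ?_)
    rw [map_sum]
    refine Finset.dvd_sum (fun j _ => ?_)
    rw [map_mul]
    refine dvd_mul_of_dvd_right ?_ _
    have hlx : l ∈ (II D n).erase x := by
      rw [mem_erase] at hx ⊢
      exact ⟨hx.1.symm, hl'⟩
    rw [← Finset.mul_prod_erase _ _ hlx, map_mul, map_pow, sh_gg_self]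
    exact dvd_mul_right _ _
  obtain ⟨G, hG⟩ := h2
  rw [hG] at h1
  have h3 : sh l (∑ j ∈ Finset.range (oo D n l), Polynomial.C (c l j) * gg l ^ j *
      ∏ k ∈ (II D n).erase l, gg k ^ oo D n k)
      = (∑ j ∈ Finset.range (oo D n l), PowerSeries.C (c l j) * PowerSeries.X ^ j) * U := by
    rw [map_sum, Finset.sum_mul]
    refine Finset.sum_congr rfl (fun j _ => ?_)
    rw [map_mul, map_mul, map_pow, sh_gg_self, sh_C]
  rw [h3] at h1
  have hUU : U * U⁻¹ = 1 := PowerSeries.mul_inv_cancel U hU0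
  have h4 : F D n l = (∑ j ∈ Finset.range (oo D n l), PowerSeries.C (c l j) * PowerSeries.X ^ j)
      + PowerSeries.X ^ oo D n l * (G * U⁻¹) := by
    linear_combination (-F D n l + (∑ j ∈ Finset.range (oo D n l),
      PowerSeries.C (c l j) * PowerSeries.X ^ j)) * hUU - U⁻¹ * h1
  rw [h4, map_add, PowerSeries.coeff_X_pow_mul', if_neg (by omega), add_zero, map_sum,
    Finset.sum_eq_single j]
  · rw [PowerSeries.coeff_C_mul, PowerSeries.coeff_X_pow, if_pos rfl, mul_one]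
  · intro i _ hij
    rw [PowerSeries.coeff_C_mul, PowerSeries.coeff_X_pow, if_neg (Ne.symm hij), mul_zero]
  · intro h
    exact absurd (Finset.mem_range.mpr hj) h

lemma pf_main (hD : D.OK) (n : ℕ) : Nu D n = ∑ l ∈ poles D n, ∑ j ∈ Finset.range (oo D n l),
    Polynomial.C (PowerSeries.coeff j (F D n l)) * gg l ^ j *
      ∏ k ∈ (II D n).erase l, gg k ^ oo D n k := by
  obtain ⟨c, hc⟩ := exists_pf hD n
  conv_lhs => rw [hc]
  symm
  rw [Finset.sum_subset_zero_on_sdiff (poles_subset_II n)]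
  · intro l hl
    rw [mem_sdiff] at hl
    rw [oo_eq_zero hD hl.2, Finset.sum_range_zero]
  · intro l hl
    refine Finset.sum_congr rfl (fun j hj => ?_)
    rw [mem_range] at hj
    rw [pf_coeff n c hc l (poles_subset_II n hl) j hj]

lemma a_eq (n l : ℕ) {i : ℕ} (hi : 1 ≤ i) :
    a D n l i = if i ≤ oo D n l then PowerSeries.coeff (oo D n l - i) (F D n l) else 0 := by
  unfold a
  by_cases h : i ≤ oo D n l
  · have h0 : 0 < oo D n l := by omega
    rw [if_pos h, if_pos (by rw [← oo_cast h0]; exact_mod_cast h), ← oo_cast h0]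
    congr 2
    omega
  · rw [if_neg h, if_neg]
    intro hc
    apply h
    unfold oo
    omega

lemma a_eq_zero {n l i : ℕ} (hi0 : 1 ≤ i) (hi : oo D n l < i) : a D n l i = 0 := by
  rw [a_eq n l hi0, if_neg (by omega)]

lemma sum_a (hD : D.OK) {A : Type*} [AddCommMonoid A] (u : ℚ → ℕ → A) (hu : ∀ i, u 0 i = 0)
    (n l : ℕ) :
    ∑ i ∈ Finset.Icc 1 D.A, u (a D n l i) i
      = ∑ j ∈ Finset.range (oo D n l), u (PowerSeries.coeff j (F D n l)) (oo D n l - j) := by
  have h8 := oo_le_A hD n l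
  have h1 : ∑ i ∈ Finset.Icc 1 (oo D n l), u (a D n l i) i
      = ∑ i ∈ Finset.Icc 1 D.A, u (a D n l i) i := by
    refine Finset.sum_subset (Finset.Icc_subset_Icc_right h8) ?_
    intro i hi hi'
    rw [mem_Icc] at hi hi'
    rw [a_eq_zero hi.1 (by omega), hu]
  rw [← h1]
  refine Finset.sum_nbij' (fun i => oo D n l - i) (fun j => oo D n l - j) ?_ ?_ ?_ ?_ ?_
  · intro i hi
    rw [mem_Icc] at hi
    rw [mem_range]
    omega
  · intro j hj
    rw [mem_range] at hj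
    rw [mem_Icc]
    omega
  · intro i hi
    rw [mem_Icc] at hi
    omega
  · intro j hj
    rw [mem_range] at hj
    omega
  · intro i hi
    rw [mem_Icc] at hi
    rw [a_eq n l hi.1, if_pos hi.2]
    congr 1
    omega

/-- Partial fraction identity, cleared of denominators. -/
lemma pf_a (hD : D.OK) (n : ℕ) : Nu D n = ∑ l ∈ poles D n, ∑ i ∈ Finset.Icc 1 D.A,
    Polynomial.C (a D n l i) * gg l ^ (oo D n l - i) *
      ∏ k ∈ (II D n).erase l, gg k ^ oo D n k := by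
  rw [pf_main hD]
  refine Finset.sum_congr rfl (fun l _ => ?_)
  rw [sum_a hD (fun x i => Polynomial.C x * gg l ^ (oo D n l - i) *
    ∏ k ∈ (II D n).erase l, gg k ^ oo D n k)
    (fun i => by rw [map_zero, zero_mul, zero_mul]) n l]
  refine Finset.sum_congr rfl (fun j hj => ?_)
  rw [mem_range] at hj
  have : oo D n l - (oo D n l - j) = j := by omega
  rw [this]

/-! ### Evaluation -/

lemma aeval_gg (t : ℝ) (m : ℕ) : Polynomial.aeval t (gg m) = t + m := by
  unfold gg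
  rw [map_add, Polynomial.aeval_X, Polynomial.aeval_C]
  simp

lemma aeval_g6 (t : ℝ) (m : ℕ) : Polynomial.aeval t (g6 m) = t + (m : ℝ) / 6 := by
  unfold g6
  rw [map_add, Polynomial.aeval_X, Polynomial.aeval_C]
  simp

lemma aeval_prod_gg (t : ℝ) (s : Finset ℕ) (e : ℕ → ℕ) :
    Polynomial.aeval t (∏ k ∈ s, gg k ^ e k) = ∏ k ∈ s, (t + k) ^ e k := by
  rw [map_prod]
  refine Finset.prod_congr rfl (fun k _ => ?_)
  rw [map_pow, aeval_gg]

lemma aeval_prod_g6 (t : ℝ) (s : Finset ℕ) :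
    Polynomial.aeval t (∏ k ∈ s, g6 k) = ∏ k ∈ s, (t + (k : ℝ) / 6) := by
  rw [map_prod]
  refine Finset.prod_congr rfl (fun k _ => ?_)
  rw [aeval_g6]

lemma aeval_Nu (n : ℕ) (t : ℝ) : Polynomial.aeval t (Nu D n)
    = (K D n : ℝ) * (2 * t + D.C * n) * ((∏ m ∈ II D n, (t + m) ^ ww D n m) *
      ∏ u ∈ ZF D n, (t + (u : ℝ) / 6)) := by
  unfold Nu
  rw [map_mul, map_mul, map_mul (Polynomial.aeval t) (∏ m ∈ II D n, gg m ^ ww D n m),
    aeval_prod_gg, aeval_prod_g6, map_add, map_mul, Polynomial.aeval_C, Polynomial.aeval_X,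
    Polynomial.aeval_C, map_ofNat]
  simp

lemma poles_subset_Icc (hD : D.OK) (n : ℕ) :
    poles D n ⊆ Finset.Icc (D.s * n) ((D.C - D.s) * n) := by
  have h1 := hD.s_le
  unfold poles
  exact Finset.Icc_subset_Icc (Nat.mul_le_mul_right n h1) (Nat.mul_le_mul_right n (by omega))

end Pool.Agent.TwoOdd.PF

namespace Pool.Agent.TwoOdd

open PF

variable {D : Dat}

theorem partial_fractions (hD : D.OK) (n : ℕ) (hn : 0 < n) (x : ℝ)
    (hx : ∀ m ∈ Finset.Icc (D.s * n) ((D.C - D.s) * n), x + (m : ℝ) ≠ 0) :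
    R D n x = ∑ l ∈ poles D n, ∑ i ∈ Finset.Icc 1 D.A, ((a D n l i : ℚ) : ℝ) / (x + l) ^ i := by
  have hDD : ∏ k ∈ II D n, (x + k) ^ oo D n k ≠ 0 := by
    rw [Finset.prod_ne_zero_iff]
    intro k _
    by_cases hk : k ∈ poles D n
    · exact pow_ne_zero _ (hx k (poles_subset_Icc hD n hk))
    · rw [oo_eq_zero hD hk, pow_zero]
      exact one_ne_zero
  have hE : ∏ k ∈ II D n, (x + k) ^ ee D n k ≠ 0 := by
    rw [Finset.prod_ne_zero_iff]
    intro k _
    by_cases hk : ee D n k = 0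
    · rw [hk, pow_zero]
      exact one_ne_zero
    · exact pow_ne_zero _ (hx k (ee_pos_mem' hD hk))
  have h1 : R D n x * ∏ k ∈ II D n, (x + k) ^ oo D n k = Polynomial.aeval x (Nu D n) := by
    unfold R
    rw [prod_blocks n D.P (fun m => x + (m : ℝ)) (II D n)
        (fun i _ => blk_subset_II n (D.h i)), aeval_Nu, prod_Z]
    have hE' : ∏ k ∈ II D n, (x + k) ^ #{i ∈ D.P | k ∈ blk D n (D.h i)} ≠ 0 := hE
    have h6 : ∏ m ∈ II D n, (x + ((6 * m : ℕ) : ℝ) / 6) = ∏ m ∈ II D n, (x + (m : ℝ)) := by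
      refine Finset.prod_congr rfl (fun m _ => ?_)
      push_cast
      ring
    rw [h6, div_mul_eq_mul_div, div_eq_iff hE']
    have key : (∏ k ∈ II D n, (x + (k : ℝ))) * ∏ k ∈ II D n, (x + k) ^ oo D n k =
        (∏ k ∈ II D n, (x + k) ^ ww D n k) *
          ∏ k ∈ II D n, (x + k) ^ #{i ∈ D.P | k ∈ blk D n (D.h i)} := by
      rw [← Finset.prod_mul_distrib, ← Finset.prod_mul_distrib]
      refine Finset.prod_congr rfl (fun k _ => ?_)
      rw [← pow_succ', ← pow_add]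
      congr 1
      exact oo_add_zz (D := D) n k
    linear_combination ((K D n : ℝ) * (2 * x + D.C * n) * ∏ u ∈ ZF D n, (x + (u : ℝ) / 6)) * key
  rw [← mul_left_inj' hDD, h1, pf_a hD, map_sum, Finset.sum_mul]
  refine Finset.sum_congr rfl (fun l hl => ?_)
  rw [map_sum, Finset.sum_mul]
  refine Finset.sum_congr rfl (fun i hi => ?_)
  rw [mem_Icc] at hi
  rw [map_mul, map_mul, map_pow, aeval_prod_gg, aeval_gg, Polynomial.aeval_C,
    ← Finset.mul_prod_erase _ _ (poles_subset_II n hl)]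
  have hl0 : x + (l : ℝ) ≠ 0 := hx l (poles_subset_Icc hD n hl)
  by_cases hio : i ≤ oo D n l
  · have : (x + (l : ℝ)) ^ oo D n l = (x + l) ^ i * (x + l) ^ (oo D n l - i) := by
      rw [← pow_add]
      congr 1
      omega
    rw [this, div_mul_eq_mul_div, eq_div_iff (pow_ne_zero _ hl0)]
    simp only [eq_ratCast]
    ring
  · rw [a_eq_zero hi.1 (by omega)]
    simp

theorem zero_sum (hD : D.OK) (n : ℕ) (hn : 0 < n) (u : ℕ) (hu : u ∈ Z D n)
    (hu' : u % 6 ≠ 0 ∨ u < 6 * (D.s * n)) :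
    ∑ l ∈ poles D n, ∑ i ∈ Finset.Icc 1 D.A, a D n l i / ((l : ℚ) - (u : ℚ) / 6) ^ i = 0 := by
  have hx : ∀ m ∈ Finset.Icc (D.s * n) ((D.C - D.s) * n), -((u : ℝ) / 6) + (m : ℝ) ≠ 0 := by
    intro m hm h
    rw [mem_Icc] at hm
    have h1 : (u : ℝ) = 6 * m := by linarith
    have h2 : u = 6 * m := by exact_mod_cast h1
    rcases hu' with h3 | h3
    · exact h3 (by omega)
    · omega
  have h1 := partial_fractions hD n hn (-((u : ℝ) / 6)) hx
  have h0 : R D n (-((u : ℝ) / 6)) = 0 := by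
    unfold R
    rw [Finset.prod_eq_zero hu (by ring), mul_zero, zero_div]
  rw [h0] at h1
  have h2 : ((∑ l ∈ poles D n, ∑ i ∈ Finset.Icc 1 D.A,
      a D n l i / ((l : ℚ) - (u : ℚ) / 6) ^ i : ℚ) : ℝ) = 0 := by
    rw [h1]
    push_cast
    refine Finset.sum_congr rfl (fun l _ => Finset.sum_congr rfl (fun i _ => ?_))
    congr 2
    ring
  exact_mod_cast h2

theorem sum_a_one (hD : D.OK) (n : ℕ) (hn : 0 < n) : ∑ l ∈ poles D n, a D n l 1 = 0 := by
  set T := ∑ k ∈ II D n, oo D n k with hT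
  have h4 := natDegree_Nu_le (D := D) n
  have h5 := sum_oo_ww hD n
  have h7 := hD.A4
  have h0 : (Nu D n).coeff (T - 1) = 0 :=
    Polynomial.coeff_eq_zero_of_natDegree_lt (by omega)
  rw [pf_a hD, Polynomial.finsetSum_coeff] at h0
  rw [← h0]
  refine Finset.sum_congr rfl (fun l hl => ?_)
  have hlI := poles_subset_II n hl
  have hDs : ∑ k ∈ (II D n).erase l, oo D n k + oo D n l = T := Finset.sum_erase_add _ _ hlI
  rw [Polynomial.finsetSum_coeff]
  have hmon : ∀ j : ℕ, (gg l ^ j * ∏ k ∈ (II D n).erase l, gg k ^ oo D n k).Monic := fun j =>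
    ((gg_monic l).pow j).mul (monic_prod_gg _ _)
  have hdeg : ∀ j : ℕ, (gg l ^ j * ∏ k ∈ (II D n).erase l, gg k ^ oo D n k).natDegree
      = j + ∑ k ∈ (II D n).erase l, oo D n k := by
    intro j
    rw [((gg_monic l).pow j).natDegree_mul (monic_prod_gg _ _), natDegree_prod_gg,
      (gg_monic l).natDegree_pow, natDegree_gg, mul_one]
  rw [Finset.sum_eq_single 1]
  · rw [mul_assoc, Polynomial.coeff_C_mul]
    by_cases h1 : 1 ≤ oo D n l
    · have e1 : T - 1 = (gg l ^ (oo D n l - 1) *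
          ∏ k ∈ (II D n).erase l, gg k ^ oo D n k).natDegree := by
        rw [hdeg]
        omega
      rw [e1, (hmon _).coeff_natDegree, mul_one]
    · rw [a_eq_zero le_rfl (by omega), zero_mul]
  · intro i hi hi1
    rw [mem_Icc] at hi
    rw [mul_assoc, Polynomial.coeff_C_mul]
    by_cases h1 : i ≤ oo D n l
    · rw [Polynomial.coeff_eq_zero_of_natDegree_lt, mul_zero]
      rw [hdeg]
      omega
    · rw [a_eq_zero hi.1 (by omega), zero_mul]
  · intro h
    exact absurd (mem_Icc.mpr ⟨le_rfl, by omega⟩) h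

/-! ### parity -/

namespace PF

lemma refl_blk (h : ℕ) (hh : 2 * h ≤ D.C) (n l : ℕ) (hl : l ≤ D.C * n) :
    D.C * n - l ∈ blk D n h ↔ l ∈ blk D n h := by
  rw [mem_blk, mem_blk]
  obtain ⟨k, hk⟩ : ∃ k, D.C = h + k + h := ⟨D.C - 2 * h, by omega⟩
  have e1 : D.C - h = h + k := by omega
  have e2 : D.C * n = h * n + k * n + h * n := by rw [hk]; ring
  rw [e1, Nat.add_mul, e2]
  rw [e2] at hl
  omega

lemma refl_Z (hD : D.OK) (n u : ℕ) (hu : u ≤ 6 * (D.C * n)) :
    6 * (D.C * n) - u ∈ Z D n ↔ u ∈ Z D n := by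
  have h1 := hD.hH_lt
  have h2 := hD.hG_lt
  have h3 := hD.s_le
  have h4 := hD.lo_lt
  obtain ⟨k1, hk1⟩ : ∃ k, D.C = D.hH + k + D.hH := ⟨D.C - 2 * D.hH, by omega⟩
  obtain ⟨k2, hk2⟩ : ∃ k, D.C = D.hG + k + D.hG := ⟨D.C - 2 * D.hG, by omega⟩
  have e1 : D.C - D.hH = D.hH + k1 := by omega
  have e2 : D.C - D.hG = D.hG + k2 := by omega
  have e3 : D.C * n = D.hH * n + k1 * n + D.hH * n := by
    conv_lhs => rw [hk1]
    ring
  have e4 : D.C * n = D.hG * n + k2 * n + D.hG * n := by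
    conv_lhs => rw [hk2]
    ring
  rw [mem_Z, mem_Z, e1, e2, Nat.add_mul, Nat.add_mul]
  generalize D.C * n = a at *
  generalize D.hH * n = b at *
  generalize D.hG * n = c at *
  generalize k1 * n = d at *
  generalize k2 * n = e at *
  omega

/-- the substitution `X ↦ -X` -/
noncomputable def ng : PowerSeries ℚ →+* PowerSeries ℚ := PowerSeries.rescale (-1 : ℚ)

lemma ng_C (c : ℚ) : ng (PowerSeries.C c) = PowerSeries.C c := by
  unfold ng
  ext m
  rw [PowerSeries.coeff_rescale, PowerSeries.coeff_C]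
  by_cases h : m = 0
  · simp [h]
  · simp [h]

lemma ng_X : ng PowerSeries.X = -PowerSeries.X := by
  unfold ng
  rw [PowerSeries.rescale_X]
  simp

lemma ng_fac (b c : ℚ) (h : c = -b) :
    PowerSeries.C c + PowerSeries.X = (-1) * ng (PowerSeries.C b + PowerSeries.X) := by
  rw [map_add, ng_C, ng_X, h, map_neg]
  ring

lemma coeff_ng (f : PowerSeries ℚ) (m : ℕ) :
    PowerSeries.coeff m (ng f) = (-1) ^ m * PowerSeries.coeff m f := by
  unfold ng
  rw [PowerSeries.coeff_rescale]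

lemma B_refl (n h l : ℕ) (hh : 2 * h ≤ D.C) (hl : l ≤ D.C * n) :
    B D n h (D.C * n - l) = (-1) ^ ((blk D n h).erase l).card * ng (B D n h l) := by
  unfold B
  rw [map_prod, ← Finset.prod_const, ← Finset.prod_mul_distrib]
  have hle : ∀ m ∈ blk D n h, m ≤ D.C * n := fun m hm =>
    (mem_Icc.mp (blk_subset_II n h hm)).2
  refine Finset.prod_nbij' (fun m => D.C * n - m) (fun m => D.C * n - m) ?_ ?_ ?_ ?_ ?_
  · intro m hm
    rw [mem_erase] at hm ⊢
    have h1 := hle m hm.2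
    exact ⟨by omega, (refl_blk h hh n m h1).mpr hm.2⟩
  · intro m hm
    rw [mem_erase] at hm ⊢
    have h1 := hle m hm.2
    exact ⟨by omega, (refl_blk h hh n m h1).mpr hm.2⟩
  · intro m hm
    rw [mem_erase] at hm
    have h1 := hle m hm.2
    omega
  · intro m hm
    rw [mem_erase] at hm
    have h1 := hle m hm.2
    omega
  · intro m hm
    rw [mem_erase] at hm
    have h1 := hle m hm.2
    apply ng_fac
    rw [Nat.cast_sub h1, Nat.cast_sub hl]
    ring

lemma BZ_refl (hD : D.OK) (n l : ℕ) (hl : l ≤ D.C * n) :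
    BZ D n (D.C * n - l) = (-1) ^ ((Z D n).erase (6 * l)).card * ng (BZ D n l) := by
  unfold BZ
  rw [map_prod, ← Finset.prod_const, ← Finset.prod_mul_distrib]
  have hle : ∀ u ∈ Z D n, u ≤ 6 * (D.C * n) := fun u hu => (mem_Z.mp hu).1
  refine Finset.prod_nbij' (fun m => 6 * (D.C * n) - m) (fun m => 6 * (D.C * n) - m) ?_ ?_ ?_ ?_ ?_
  · intro m hm
    rw [mem_erase] at hm ⊢
    have h1 := hle m hm.2
    exact ⟨by omega, (refl_Z hD n m h1).mpr hm.2⟩
  · intro m hm
    rw [mem_erase] at hm ⊢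
    have h1 := hle m hm.2
    exact ⟨by omega, (refl_Z hD n m h1).mpr hm.2⟩
  · intro m hm
    rw [mem_erase] at hm
    have h1 := hle m hm.2
    omega
  · intro m hm
    rw [mem_erase] at hm
    have h1 := hle m hm.2
    omega
  · intro m hm
    rw [mem_erase] at hm
    have h1 := hle m hm.2
    apply ng_fac
    rw [Nat.cast_sub h1, Nat.cast_sub hl]
    push_cast
    ring

lemma card_Z_erase (hD : D.OK) (n l : ℕ) (hl : l ≤ D.C * n) :
    Even ((Z D n).erase (6 * l)).card := by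
  have h1 : 6 * l ∈ Z D n := mem_Z.mpr ⟨by omega, Or.inl (by omega)⟩
  have h2 : (Z D n).card = (II D n).card + (ZF D n).card := by
    unfold ZF
    rw [← Finset.card_filter_add_card_filter_not (s := Z D n) (fun u => u % 6 = 0),
      Z_zero_part, Finset.card_image_of_injective]
    intro a b h
    have : 6 * a = 6 * b := h
    omega
  rw [Finset.card_erase_of_mem h1, h2, card_II, card_ZF hD]
  have h3 := hD.Ceven
  have e1 := hD.hH_lt
  have e2 := hD.hG_lt
  have e3 := hD.s_le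
  have e4 := hD.lo_lt
  have h4 : Even (D.C - 2 * D.hH) := by
    rw [Nat.even_sub (by omega)]
    simp [h3]
  have h5 : Even (D.C * n) := h3.mul_right n
  have h6 : Even ((D.C - 2 * D.hH) * n) := h4.mul_right n
  have h7 : D.C * n + 1 + ((D.C - 2 * D.hH) * n + 2 * ((D.C - 2 * D.hG) * n)) - 1
    = D.C * n + ((D.C - 2 * D.hH) * n + 2 * ((D.C - 2 * D.hG) * n)) := by omega
  rw [h7]
  exact h5.add (h6.add (even_two_mul _))

lemma sum_card_erase (hD : D.OK) (n l : ℕ) :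
    ∃ k, ∑ i ∈ D.P, ((blk D n (D.h i)).erase l).card + ee D n l = 2 * k + 1 := by
  have h1 : ∑ i ∈ D.P, ((blk D n (D.h i)).erase l).card + ee D n l
      = ∑ i ∈ D.P, (blk D n (D.h i)).card := by
    unfold ee
    rw [Finset.card_filter, ← Finset.sum_add_distrib]
    refine Finset.sum_congr rfl (fun i _ => ?_)
    by_cases h : l ∈ blk D n (D.h i)
    · rw [if_pos h]
      exact Finset.card_erase_add_one h
    · rw [if_neg h, Finset.erase_eq_of_notMem h, add_zero]
  rw [h1, sum_card_of_le n D.P (P_le hD), hD.cardP]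
  have h2 : Even (∑ i ∈ D.P, (D.C - 2 * D.h i)) := by
    refine Finset.even_sum _ (fun i hi => ?_)
    have := hD.P_lt i hi
    rw [Nat.even_sub (by omega)]
    simp [hD.Ceven]
  obtain ⟨a, ha⟩ := h2.mul_right n
  obtain ⟨b, hb⟩ := hD.Aeven
  exact ⟨a + b, by omega⟩

lemma F_refl (hD : D.OK) (n l : ℕ) (hl : l ≤ D.C * n) :
    F D n (D.C * n - l) = (-1) ^ ee D n l * ng (F D n l) := by
  have hP0 : ∀ l' : ℕ, PowerSeries.constantCoeff (∏ i ∈ D.P, B D n (D.h i) l') ≠ 0 := by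
    intro l'
    rw [prod_B]
    exact constCoeff_prod_ne l' _ (Finset.notMem_erase _ _) _
  have hne : ∀ l' : ℕ, (∏ i ∈ D.P, B D n (D.h i) l') ≠ 0 := by
    intro l' h
    apply hP0 l'
    rw [h, map_zero]
  have hF : ∀ l' : ℕ, F D n l' * (∏ i ∈ D.P, B D n (D.h i) l') = PowerSeries.C (K D n) *
      (PowerSeries.C (D.C * (n : ℚ) - 2 * (l' : ℚ)) + 2 * PowerSeries.X) * BZ D n l' := by
    intro l'
    unfold F
    rw [mul_assoc, PowerSeries.inv_mul_cancel _ (hP0 l'), mul_one]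
  have h1 := hF (D.C * n - l)
  have h2 := congrArg ng (hF l)
  have hB : (∏ i ∈ D.P, B D n (D.h i) (D.C * n - l)) =
      (-1) ^ (∑ i ∈ D.P, ((blk D n (D.h i)).erase l).card) * ng (∏ i ∈ D.P, B D n (D.h i) l) := by
    rw [map_prod, ← Finset.prod_pow_eq_pow_sum, ← Finset.prod_mul_distrib]
    refine Finset.prod_congr rfl (fun i hi => ?_)
    exact B_refl n (D.h i) l (P_le hD i hi) hl
  have hlin : PowerSeries.C (D.C * (n : ℚ) - 2 * ((D.C * n - l : ℕ) : ℚ)) + 2 * PowerSeries.X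
      = (-1) * ng (PowerSeries.C (D.C * (n : ℚ) - 2 * (l : ℚ)) + 2 * PowerSeries.X) := by
    have e1 : (D.C * (n : ℚ) - 2 * ((D.C * n - l : ℕ) : ℚ)) = -(D.C * (n : ℚ) - 2 * (l : ℚ)) := by
      rw [Nat.cast_sub hl]
      push_cast
      ring
    rw [e1, map_neg, map_add ng, ng_C, map_mul ng, ng_X, map_ofNat]
    ring
  rw [hlin, BZ_refl hD n l hl, (card_Z_erase hD n l hl).neg_one_pow, one_mul] at h1
  rw [map_mul, map_mul, map_mul, ng_C] at h2
  apply mul_right_cancel₀ (hne (D.C * n - l))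
  rw [h1, hB]
  obtain ⟨k, hk⟩ := sum_card_erase hD n l
  have hs : ((-1 : PowerSeries ℚ)) ^ ee D n l *
      (-1) ^ (∑ i ∈ D.P, ((blk D n (D.h i)).erase l).card) = -1 := by
    rw [← pow_add, add_comm, hk, pow_succ, pow_mul]
    norm_num
  linear_combination h2 - (ng (F D n l)) * ng (∏ i ∈ D.P, B D n (D.h i) l) * hs

lemma ee_refl (hD : D.OK) (n l : ℕ) (hl : l ≤ D.C * n) : ee D n (D.C * n - l) = ee D n l := by
  unfold ee
  congr 1
  refine Finset.filter_congr (fun i hi => ?_)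
  exact refl_blk (D.h i) (P_le hD i hi) n l hl

lemma a_refl (hD : D.OK) (n l : ℕ) (hl : l ≤ D.C * n) (i : ℕ) (hi : Even i) :
    a D n (D.C * n - l) i = - a D n l i := by
  have ho : ord D n (D.C * n - l) = ord D n l := by
    rw [ord_eq, ord_eq, ee_refl hD n l hl]
  unfold a
  rw [ho]
  by_cases h : (i : ℤ) ≤ ord D n l
  · rw [if_pos h, if_pos h, F_refl hD n l hl]
    have e0 : ((-1 : PowerSeries ℚ)) ^ ee D n l = PowerSeries.C ((-1 : ℚ) ^ ee D n l) := by
      rw [map_pow, map_neg, map_one]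
    rw [e0, PowerSeries.coeff_C_mul, coeff_ng, ← mul_assoc, ← pow_add]
    obtain ⟨j, hj⟩ := hi
    rw [ord_eq] at h
    have e1 : ee D n l + (ord D n l - i).toNat = 2 * (ord D n l - j).toNat + 1 := by
      rw [ord_eq]
      omega
    rw [e1, pow_succ, pow_mul]
    norm_num
  · rw [if_neg h, if_neg h, neg_zero]

end PF

theorem sum_a_even (hD : D.OK) (n : ℕ) (hn : 0 < n) (i : ℕ) (hi : Even i) :
    ∑ l ∈ poles D n, a D n l i = 0 := by
  have hlo : 2 * D.lo ≤ D.C := hD.lo_lt.le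
  have hle : ∀ l ∈ poles D n, l ≤ D.C * n := fun l hl => (mem_Icc.mp (poles_subset_II n hl)).2
  have h1 : ∑ l ∈ poles D n, a D n l i = ∑ l ∈ poles D n, (- a D n l i) := by
    refine Finset.sum_nbij' (fun l => D.C * n - l) (fun l => D.C * n - l) ?_ ?_ ?_ ?_ ?_
    · intro l hl
      have h0 := hle l hl
      rw [mem_poles] at hl ⊢
      exact (PF.refl_blk D.lo hlo n l h0).mpr hl
    · intro l hl
      have h0 := hle l hl
      rw [mem_poles] at hl ⊢
      exact (PF.refl_blk D.lo hlo n l h0).mpr hl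
    · intro l hl
      have h0 := hle l hl
      omega
    · intro l hl
      have h0 := hle l hl
      omega
    · intro l hl
      rw [PF.a_refl hD n l (hle l hl) i hi, neg_neg]
  rw [Finset.sum_neg_distrib] at h1
  linarith

end Pool.Agent.TwoOdd
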