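import Pool.Agent.TwoOdd.PB
import Pool.Agent.TwoOdd.PF

/-!
p-adic bounds for the linear forms.  Seat: helper30.
-/

open Finset

namespace Pool.Agent.TwoOdd

variable {D : Dat}

theorem mem_poles {n l : ℕ} : l ∈ poles D n ↔ D.lo * n ≤ l ∧ l ≤ (D.C - D.lo) * n := by
  unfold poles; rw [Finset.mem_Icc]

theorem poles_leC {n l : ℕ} (hl : l ∈ poles D n) : l ≤ D.C * n := by
  rw [mem_poles] at hl
  exact hl.2.trans (Nat.mul_le_mul_right _ (Nat.sub_le _ _))

theorem norm_pow' (p : ℕ) [Fact p.Prime] (x : ℚ) (i : ℕ) :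
    padicNorm p (x ^ i) = padicNorm p x ^ i := by
  induction i with
  | zero => simp
  | succ i ih => rw [pow_succ, padicNorm.mul, ih, pow_succ]

/-- norm of a positive integer below `p ^ 2` -/
theorem norm_ge {p : ℕ} [hp : Fact p.Prime] {m : ℤ} (hm : m ≠ 0) (hlt : m.natAbs < p ^ 2) :
    (p : ℚ) ^ (-1 : ℤ) ≤ padicNorm p (m : ℚ) := by
  by_contra hcon
  rw [not_le] at hcon
  have h1 : padicNorm p (m : ℚ) ≤ (p : ℚ) ^ (-(2 : ℕ) : ℤ) := by
    have hp1 : (1 : ℚ) < p := by exact_mod_cast hp.out.one_lt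
    have hp0 : (0 : ℚ) < p := by linarith
    have hm' : (m : ℚ) ≠ 0 := by exact_mod_cast hm
    rw [padicNorm.eq_zpow_of_nonzero hm'] at hcon ⊢
    have := (zpow_lt_zpow_iff_right₀ hp1).1 hcon
    apply zpow_le_zpow_right₀ hp1.le
    push_cast
    omega
  rw [← padicNorm.dvd_iff_norm_le] at h1
  have h2 : p ^ 2 ∣ m.natAbs := by
    have : ((p ^ 2 : ℕ) : ℤ) ∣ m := by exact_mod_cast h1
    exact Int.natCast_dvd.1 this
  have := Nat.le_of_dvd (Int.natAbs_pos.2 hm) h2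
  omega

theorem norm_sixC {p : ℕ} [hp : Fact p.Prime] (h5 : 5 ≤ p) : padicNorm p (6 : ℚ) = 1 := by
  have : padicNorm p ((6 : ℕ) : ℚ) = 1 := by
    rw [padicNorm.nat_eq_one_iff]
    intro h
    have h6 : p ∣ 2 * 3 := h
    rcases (Nat.Prime.dvd_mul hp.out).1 h6 with h | h
    · have := Nat.le_of_dvd (by norm_num) h; omega
    · have := Nat.le_of_dvd (by norm_num) h; omega
  exact_mod_cast this

/-- norm of `(m / 6) ^ (-i)` -/
theorem norm_inv_le {p : ℕ} [hp : Fact p.Prime] (h5 : 5 ≤ p) {m : ℤ} (hm : m ≠ 0)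
    (hlt : m.natAbs < p ^ 2) (i : ℕ) : padicNorm p (((m : ℚ) / 6) ^ i)⁻¹ ≤ (p : ℚ) ^ i := by
  have hp0 : (0 : ℚ) < p := by exact_mod_cast hp.out.pos
  have h1 := norm_ge hm hlt
  have hpos : 0 < padicNorm p (m : ℚ) := lt_of_lt_of_le (by positivity) h1
  rw [inv_eq_one_div, padicNorm.div, padicNorm.one, norm_pow', padicNorm.div, norm_sixC h5, div_one,
    div_le_iff₀ (by positivity), ← mul_pow]
  apply one_le_pow₀
  calc (1 : ℚ) = (p : ℚ) * (p : ℚ) ^ (-1 : ℤ) := by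
        rw [zpow_neg_one, mul_inv_cancel₀ hp0.ne']
    _ ≤ (p : ℚ) * padicNorm p (m : ℚ) := mul_le_mul_of_nonneg_left h1 hp0.le

/-- norm of `(m / 6) ^ (-i)` for `m` prime to `p` -/
theorem norm_inv_unit {p : ℕ} [hp : Fact p.Prime] (h5 : 5 ≤ p) {m : ℤ} (hm : ¬ (p : ℤ) ∣ m)
    (i : ℕ) : padicNorm p (((m : ℚ) / 6) ^ i)⁻¹ = 1 := by
  rw [inv_eq_one_div, padicNorm.div, padicNorm.one, norm_pow', padicNorm.div, norm_sixC h5, div_one,
    (padicNorm.int_eq_one_iff m).2 hm, one_pow, div_one]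

/-- polar part at `-v/6` of the pole `-l` -/
noncomputable def pol (D : Dat) (n l v : ℕ) : ℚ :=
  ∑ i ∈ Finset.Icc 1 D.A, a D n l i / ((l : ℚ) - (v : ℚ) / 6) ^ i

section bounds

variable {n p : ℕ} [hp : Fact p.Prime]

/-- every coefficient is bounded by the local bound -/
theorem a_le_bnd (hD : D.OK) (hn : 0 < n) (h5 : 5 ≤ p) (hp2 : 6 * (D.C * n) < p ^ 2) {d : ℤ}
    {l : ℕ} (hl : l ∈ poles D n) (hd : bnd D n l p ≤ d) {i : ℕ} (hi : 1 ≤ i) :
    padicNorm p (a D n l i) ≤ (p : ℚ) ^ d := by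
  have hp1 : (1 : ℚ) < p := by exact_mod_cast hp.out.one_lt
  have h1 := norm_a_le hD n l i p hn h5 hl hp2
  have h1' : padicNorm p (a D n l i) ≤ (p : ℚ) ^ (ord D n l - V D n l p - 1) :=
    h1.trans (zpow_le_zpow_right₀ hp1.le (by omega))
  unfold bnd at hd
  split_ifs at hd with hf hno
  · exact h1'.trans (zpow_le_zpow_right₀ hp1.le (by omega))
  · have h2 := norm_a_le_noP hD n l i p hn h5 hl hp2 hno
    rcases min_le_iff.1 hd with h | h
    · exact h1'.trans (zpow_le_zpow_right₀ hp1.le h)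
    · exact h2.trans (zpow_le_zpow_right₀ hp1.le h)
  · exact h1'.trans (zpow_le_zpow_right₀ hp1.le hd)

/-- a full term -/
theorem full_le (hD : D.OK) (hn : 0 < n) (h5 : 5 ≤ p) (hp2 : 6 * (D.C * n) < p ^ 2) {d : ℤ}
    {l : ℕ} (hl : l ∈ poles D n) (hd : bnd D n l p ≤ d) (hf : p ≤ l - D.s * n) {m : ℤ}
    (hm : m ≠ 0) (hlt : m.natAbs < p ^ 2) (i : ℕ) :
    padicNorm p (a D n l i / ((m : ℚ) / 6) ^ i) ≤ (p : ℚ) ^ d := by
  have hp1 : (1 : ℚ) < p := by exact_mod_cast hp.out.one_lt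
  have hp0 : (0 : ℚ) < p := by linarith
  have h1 := norm_a_le hD n l i p hn h5 hl hp2
  unfold bnd at hd
  rw [if_pos hf] at hd
  rw [div_eq_mul_inv, padicNorm.mul]
  calc padicNorm p (a D n l i) * padicNorm p (((m : ℚ) / 6) ^ i)⁻¹
      ≤ (p : ℚ) ^ (ord D n l - V D n l p - i) * (p : ℚ) ^ i :=
        mul_le_mul h1 (norm_inv_le h5 hm hlt i) (padicNorm.nonneg _) (by positivity)
    _ = (p : ℚ) ^ (ord D n l - V D n l p) := by
        rw [← zpow_natCast, ← zpow_add₀ hp0.ne']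
        congr 1
        ring
    _ ≤ (p : ℚ) ^ d := zpow_le_zpow_right₀ hp1.le hd

/-- a term with a unit denominator -/
theorem unit_le (hD : D.OK) (hn : 0 < n) (h5 : 5 ≤ p) (hp2 : 6 * (D.C * n) < p ^ 2) {d : ℤ}
    {l : ℕ} (hl : l ∈ poles D n) (hd : bnd D n l p ≤ d) {m : ℤ} (hm : ¬ (p : ℤ) ∣ m)
    {i : ℕ} (hi : 1 ≤ i) :
    padicNorm p (a D n l i / ((m : ℚ) / 6) ^ i) ≤ (p : ℚ) ^ d := by
  rw [div_eq_mul_inv, padicNorm.mul, norm_inv_unit h5 hm, mul_one]
  exact a_le_bnd hD hn h5 hp2 hl hd hi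

theorem pol_eq (n l v : ℕ) : pol D n l v =
    ∑ i ∈ Finset.Icc 1 D.A, a D n l i / (((6 * (l : ℤ) - v : ℤ) : ℚ) / 6) ^ i := by
  unfold pol
  apply Finset.sum_congr rfl
  intro i _
  congr 2
  push_cast
  ring

theorem pol_unit (hD : D.OK) (hn : 0 < n) (h5 : 5 ≤ p) (hp2 : 6 * (D.C * n) < p ^ 2) {d : ℤ}
    {l v : ℕ} (hl : l ∈ poles D n) (hd : bnd D n l p ≤ d) (hv : ¬ (p : ℤ) ∣ 6 * (l : ℤ) - v) :
    padicNorm p (pol D n l v) ≤ (p : ℚ) ^ d := by
  rw [pol_eq]
  have hp0 : (0 : ℚ) < p := by exact_mod_cast hp.out.pos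
  apply padicNorm.sum_le' _ (by positivity)
  intro i hi
  exact unit_le hD hn h5 hp2 hl hd hv (Finset.mem_Icc.1 hi).1

theorem pol_full (hD : D.OK) (hn : 0 < n) (h5 : 5 ≤ p) (hp2 : 6 * (D.C * n) < p ^ 2) {d : ℤ}
    {l v : ℕ} (hl : l ∈ poles D n) (hd : bnd D n l p ≤ d) (hf : p ≤ l - D.s * n)
    (hv : v < 6 * l) :
    padicNorm p (pol D n l v) ≤ (p : ℚ) ^ d := by
  rw [pol_eq]
  have hp0 : (0 : ℚ) < p := by exact_mod_cast hp.out.pos
  have hlC := poles_leC hl
  apply padicNorm.sum_le' _ (by positivity)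
  intro i _
  exact full_le hD hn h5 hp2 hl hd hf (by omega) (by omega) i

/-- the class trick: for a zero `-v/6` which is not an integer -/
theorem class_le (hD : D.OK) (hn : 0 < n) (h5 : 5 ≤ p) (hp2 : 6 * (D.C * n) < p ^ 2) {d : ℤ}
    (hd : ∀ l ∈ poles D n, bnd D n l p ≤ d) {v : ℕ} (hv : v ∈ Z D n) (hv6 : v % 6 ≠ 0) :
    padicNorm p (∑ l ∈ (poles D n).filter (fun l => v < 6 * l ∧ (p : ℤ) ∣ 6 * (l : ℤ) - v),
      pol D n l v) ≤ (p : ℚ) ^ d := by
  have hp0 : (0 : ℚ) < p := by exact_mod_cast hp.out.pos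
  by_cases hc : ∃ l1 ∈ poles D n, (p : ℤ) ∣ 6 * (l1 : ℤ) - v ∧ ¬ v < 6 * l1
  · obtain ⟨l1, hl1, hdv, hvl⟩ := hc
    apply padicNorm.sum_le' _ (by positivity)
    intro l hl
    rw [Finset.mem_filter] at hl
    obtain ⟨hl, hvl2, hdv2⟩ := hl
    apply pol_full hD hn h5 hp2 hl (hd l hl) _ hvl2
    have h1 : (p : ℤ) ∣ 6 * ((l : ℤ) - l1) := by
      have := dvd_sub hdv2 hdv
      have e : 6 * (l : ℤ) - v - (6 * (l1 : ℤ) - v) = 6 * ((l : ℤ) - l1) := by ring
      rwa [e] at this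
    have hcop : IsCoprime (p : ℤ) 6 := by
      have : Nat.Coprime p 6 := by
        rw [hp.out.coprime_iff_not_dvd]
        intro h
        have h6 : p ∣ 2 * 3 := h
        rcases (Nat.Prime.dvd_mul hp.out).1 h6 with h | h
        · have := Nat.le_of_dvd (by norm_num) h; omega
        · have := Nat.le_of_dvd (by norm_num) h; omega
      exact_mod_cast Nat.isCoprime_iff_coprime.2 this
    have h2 : (p : ℤ) ∣ (l : ℤ) - l1 := hcop.dvd_of_dvd_mul_left h1
    have h3 : (p : ℤ) ≤ (l : ℤ) - l1 := Int.le_of_dvd (by omega) h2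
    have h4 := (mem_poles.1 hl1).1
    have h5' : D.s * n ≤ D.lo * n := Nat.mul_le_mul_right _ hD.s_le
    omega
  · push Not at hc
    have h0 := zero_sum hD n hn v hv (Or.inl hv6)
    have h1 : ∑ l ∈ poles D n, pol D n l v = 0 := h0
    rw [← Finset.sum_filter_add_sum_filter_not (poles D n)
      (fun l => v < 6 * l ∧ (p : ℤ) ∣ 6 * (l : ℤ) - v)] at h1
    rw [eq_neg_of_add_eq_zero_left h1, padicNorm.neg]
    apply padicNorm.sum_le' _ (by positivity)
    intro l hl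
    rw [Finset.mem_filter] at hl
    obtain ⟨hl, hno⟩ := hl
    apply pol_unit hD hn h5 hp2 hl (hd l hl)
    intro hdv
    exact hno ⟨hc l hl hdv, hdv⟩

theorem T_eq (c n l : ℕ) : T D c n l =
    -∑ u ∈ (Finset.Icc 1 (6 * (l - st D c * n))).filter (cls c),
      ∑ i ∈ Finset.Icc 1 D.A, a D n l i / ((((u : ℕ) : ℤ) : ℚ) / 6) ^ i := by
  unfold T Hs
  congr 1
  rw [Finset.sum_comm]
  apply Finset.sum_congr rfl
  intro i _
  rw [Finset.mul_sum]
  apply Finset.sum_congr rfl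
  intro u _
  push_cast
  rw [mul_one_div]

/-- part with `p ∤ u` -/
noncomputable def NP (D : Dat) (p c n l : ℕ) : ℚ :=
  ∑ u ∈ ((Finset.Icc 1 (6 * (l - st D c * n))).filter (cls c)).filter (fun u => ¬ p ∣ u),
      ∑ i ∈ Finset.Icc 1 D.A, a D n l i / ((((u : ℕ) : ℤ) : ℚ) / 6) ^ i

/-- part with `p ∣ u` -/
noncomputable def PP (D : Dat) (p c n l : ℕ) : ℚ :=
  ∑ u ∈ ((Finset.Icc 1 (6 * (l - st D c * n))).filter (cls c)).filter (fun u => p ∣ u),
      ∑ i ∈ Finset.Icc 1 D.A, a D n l i / ((((u : ℕ) : ℤ) : ℚ) / 6) ^ i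

omit hp in
theorem T_split (c n l : ℕ) : T D c n l = -(PP D p c n l + NP D p c n l) := by
  rw [T_eq]
  unfold PP NP
  rw [Finset.sum_filter_add_sum_filter_not]

theorem NP_le (hD : D.OK) (hn : 0 < n) (h5 : 5 ≤ p) (hp2 : 6 * (D.C * n) < p ^ 2) {d : ℤ}
    {l : ℕ} (c : ℕ) (hl : l ∈ poles D n) (hd : bnd D n l p ≤ d) :
    padicNorm p (NP D p c n l) ≤ (p : ℚ) ^ d := by
  have hp0 : (0 : ℚ) < p := by exact_mod_cast hp.out.pos
  unfold NP
  apply padicNorm.sum_le' _ (by positivity)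
  intro u hu
  rw [Finset.mem_filter] at hu
  apply padicNorm.sum_le' _ (by positivity)
  intro i hi
  refine unit_le hD hn h5 hp2 hl hd ?_ (Finset.mem_Icc.1 hi).1
  rw [Int.natCast_dvd_natCast]
  exact hu.2

theorem coprime_six (h5 : 5 ≤ p) : Nat.Coprime p 6 := by
  rw [hp.out.coprime_iff_not_dvd]
  intro h
  have h6 : p ∣ 2 * 3 := h
  rcases (Nat.Prime.dvd_mul hp.out).1 h6 with h | h
  · have := Nat.le_of_dvd (by norm_num) h; omega
  · have := Nat.le_of_dvd (by norm_num) h; omega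

theorem PP_zero_le (hD : D.OK) (hn : 0 < n) (h5 : 5 ≤ p) (hp2 : 6 * (D.C * n) < p ^ 2) {d : ℤ}
    {l : ℕ} (hl : l ∈ poles D n) (hd : bnd D n l p ≤ d) :
    padicNorm p (PP D p 0 n l) ≤ (p : ℚ) ^ d := by
  have hp0 : (0 : ℚ) < p := by exact_mod_cast hp.out.pos
  have hlC := poles_leC hl
  unfold PP
  apply padicNorm.sum_le' _ (by positivity)
  intro u hu
  rw [Finset.mem_filter, Finset.mem_filter, Finset.mem_Icc] at hu
  obtain ⟨⟨⟨hu1, hu2⟩, hcl⟩, hpu⟩ := hu
  have hcl' : u % 6 = 0 := hcl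
  obtain ⟨m, hm⟩ := Nat.dvd_of_mod_eq_zero hcl'
  have hpm : p ∣ m := by
    rw [hm] at hpu
    exact (coprime_six h5).dvd_of_dvd_mul_left hpu
  have hst : st D 0 = D.s := rfl
  rw [hst] at hu2
  have hple : p ≤ m := Nat.le_of_dvd (by omega) hpm
  apply padicNorm.sum_le' _ (by positivity)
  intro i _
  refine full_le hD hn h5 hp2 hl hd (by omega) (m := (u : ℤ)) (by omega) ?_ i
  rw [Int.natAbs_natCast]
  omega

theorem st_lt (hD : D.OK) {c : ℕ} (hc : c = 1 ∨ c = 2) : st D c < D.s := by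
  rcases hc with rfl | rfl
  · exact hD.hH_lt
  · exact hD.hG_lt

omit hp in
theorem PP_reflect (hD : D.OK) {l c : ℕ} (hc : c = 1 ∨ c = 2) (hl : l ∈ poles D n) :
    PP D p c n l = ∑ v ∈ (Finset.Ico (6 * (st D c * n)) (6 * ((D.C - D.lo) * n))).filter (cls c),
      if v < 6 * l ∧ (p : ℤ) ∣ 6 * (l : ℤ) - v then pol D n l v else 0 := by
  obtain ⟨hl1, hl2⟩ := mem_poles.1 hl
  have hst : st D c * n ≤ l := by
    have h1 := st_lt hD hc
    have h2 := hD.s_le
    have : st D c * n ≤ D.lo * n := Nat.mul_le_mul_right _ (by omega)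
    omega
  rw [← Finset.sum_filter]
  unfold PP
  generalize st D c * n = s0 at *
  generalize (D.C - D.lo) * n = hi0 at *
  have hcls : ∀ w : ℕ, w ≤ 6 * l → (cls c (6 * l - w) ↔ cls c w) := by
    intro w hw
    rcases hc with rfl | rfl
    · show (6 * l - w) % 6 = 3 ↔ w % 6 = 3
      omega
    · show ((6 * l - w) % 6 = 2 ∨ (6 * l - w) % 6 = 4) ↔ (w % 6 = 2 ∨ w % 6 = 4)
      omega
  refine Finset.sum_nbij' (fun u => 6 * l - u) (fun v => 6 * l - v) ?_ ?_ ?_ ?_ ?_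
  · intro u hu
    simp only [Finset.mem_filter, Finset.mem_Icc] at hu
    obtain ⟨⟨⟨hu1, hu2⟩, hcl⟩, hpu⟩ := hu
    simp only [Finset.mem_filter, Finset.mem_Ico]
    refine ⟨⟨⟨by omega, by omega⟩, (hcls u (by omega)).2 hcl⟩, by omega, ?_⟩
    have e : 6 * (l : ℤ) - ((6 * l - u : ℕ) : ℤ) = u := by omega
    rw [e, Int.natCast_dvd_natCast]
    exact hpu
  · intro v hv
    simp only [Finset.mem_filter, Finset.mem_Ico] at hv
    obtain ⟨⟨⟨hv1, hv2⟩, hcl⟩, hvl, hpv⟩ := hv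
    simp only [Finset.mem_filter, Finset.mem_Icc]
    refine ⟨⟨⟨by omega, by omega⟩, (hcls v hvl.le).2 hcl⟩, ?_⟩
    have e : 6 * (l : ℤ) - v = ((6 * l - v : ℕ) : ℤ) := by omega
    rw [e, Int.natCast_dvd_natCast] at hpv
    exact hpv
  · intro u hu
    simp only [Finset.mem_filter, Finset.mem_Icc] at hu
    omega
  · intro v hv
    simp only [Finset.mem_filter, Finset.mem_Ico] at hv
    omega
  · intro u hu
    simp only [Finset.mem_filter, Finset.mem_Icc] at hu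
    rw [pol_eq]
    apply Finset.sum_congr rfl
    intro i _
    have e : 6 * (l : ℤ) - ((6 * l - u : ℕ) : ℤ) = u := by omega
    rw [e]

theorem mem_Z_of (hD : D.OK) {c v : ℕ} (hc : c = 1 ∨ c = 2)
    (h1 : 6 * (st D c * n) ≤ v) (h2 : v < 6 * ((D.C - D.lo) * n)) (hcl : cls c v) :
    v ∈ Z D n ∧ v % 6 ≠ 0 := by
  have hlo : D.lo ≤ D.C := by have := hD.lo_lt; omega
  have hlt := st_lt hD hc
  have hs := hD.s_le
  have hm : (D.C - D.lo) * n ≤ (D.C - st D c) * n := Nat.mul_le_mul_right _ (by omega)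
  have hm2 : (D.C - D.lo) * n ≤ D.C * n := Nat.mul_le_mul_right _ (by omega)
  unfold Z
  rw [Finset.mem_filter, Finset.mem_Icc]
  rcases hc with rfl | rfl
  · have hcl' : v % 6 = 3 := hcl
    have hst : st D 1 = D.hH := rfl
    rw [hst] at h1 hm
    refine ⟨⟨⟨by omega, by omega⟩, Or.inr (Or.inl ⟨hcl', by omega, by omega⟩)⟩, by omega⟩
  · have hcl' : v % 6 = 2 ∨ v % 6 = 4 := hcl
    have hst : st D 2 = D.hG := rfl
    rw [hst] at h1 hm
    refine ⟨⟨⟨by omega, by omega⟩, Or.inr (Or.inr ⟨hcl', by omega, by omega⟩)⟩, by omega⟩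

end bounds

theorem rho0_le (hD : D.OK) (c : ℕ) (hc : c < 3) (n p : ℕ) [Fact p.Prime] (hn : 0 < n) (h5 : 5 ≤ p)
    (hp : 6 * (D.C * n) < p ^ 2) (d : ℤ)
    (hd : ∀ l ∈ poles D n, bnd D n l p ≤ d) : padicNorm p (rho0 D c n) ≤ (p : ℚ) ^ d := by
  have hp0 : (0 : ℚ) < p := by exact_mod_cast (Fact.out : p.Prime).pos
  have h1 : rho0 D c n = -(∑ l ∈ poles D n, PP D p c n l + ∑ l ∈ poles D n, NP D p c n l) := by
    unfold rho0
    rw [← Finset.sum_add_distrib, ← Finset.sum_neg_distrib]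
    exact Finset.sum_congr rfl (fun l _ => T_split c n l)
  rw [h1, padicNorm.neg]
  refine padicNorm.nonarchimedean.trans (max_le ?_ ?_)
  · by_cases hc0 : c = 0
    · subst hc0
      exact padicNorm.sum_le' (fun l hl => PP_zero_le hD hn h5 hp hl (hd l hl)) (by positivity)
    · have hc' : c = 1 ∨ c = 2 := by omega
      rw [Finset.sum_congr rfl (fun l hl => PP_reflect hD hc' hl), Finset.sum_comm]
      apply padicNorm.sum_le' _ (by positivity)
      intro v hv
      rw [Finset.mem_filter, Finset.mem_Ico] at hv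
      obtain ⟨hZ, h6⟩ := mem_Z_of hD hc' hv.1.1 hv.1.2 hv.2
      have := class_le hD hn h5 hp hd hZ h6
      rwa [Finset.sum_filter] at this
  · exact padicNorm.sum_le' (fun l hl => NP_le hD hn h5 hp c hl (hd l hl)) (by positivity)

theorem rho_le (hD : D.OK) (n p j : ℕ) [Fact p.Prime] (hn : 0 < n) (h5 : 5 ≤ p)
    (hp : 6 * (D.C * n) < p ^ 2) (d : ℤ) (hj : 3 ≤ j)
    (hd : ∀ l ∈ poles D n, bnd D n l p ≤ d) :
    padicNorm p (rho D n j) ≤ (p : ℚ) ^ d := by
  have hp0 : (0 : ℚ) < p := by exact_mod_cast (Fact.out : p.Prime).pos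
  exact padicNorm.sum_le' (fun l hl => a_le_bnd hD hn h5 hp hl (hd l hl) (by omega)) (by positivity)

theorem norm_nat_inv_le (p : ℕ) [hp : Fact p.Prime] {u : ℕ} (hu : 0 < u) :
    (padicNorm p (u : ℚ))⁻¹ ≤ u := by
  have hp1 : (1 : ℚ) < p := by exact_mod_cast hp.out.one_lt
  have hu' : (u : ℚ) ≠ 0 := by exact_mod_cast hu.ne'
  rw [padicNorm.eq_zpow_of_nonzero hu', ← zpow_neg, neg_neg, padicValRat.of_nat, zpow_natCast]
  have : p ^ padicValNat p u ≤ u := Nat.le_of_dvd hu pow_padicValNat_dvd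
  exact_mod_cast this

theorem crude (hD : D.OK) : ∃ E : ℕ, ∀ (n p : ℕ) [Fact p.Prime], 0 < n → ∀ c : ℕ,
    padicNorm p (rho0 D c n) ≤ ((6 * D.C : ℕ) * (n : ℚ)) ^ E ∧
      ∀ j : ℕ, padicNorm p (rho D n j) ≤ ((6 * D.C : ℕ) * (n : ℚ)) ^ E := by
  obtain ⟨E, hE⟩ := crude_a hD
  have hC : 0 < D.C := by have := hD.lo_lt; omega
  refine ⟨E + D.A, fun n p hp hn c => ?_⟩
  have hb : (1 : ℚ) ≤ (6 * D.C : ℕ) * (n : ℚ) := by
    have : 1 ≤ 6 * D.C * n := Nat.mul_pos (by omega) hn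
    exact_mod_cast this
  have hb0 : (0 : ℚ) ≤ (6 * D.C : ℕ) * (n : ℚ) := by linarith
  constructor
  · unfold rho0
    apply padicNorm.sum_le' _ (by positivity)
    intro l hl
    rw [T_eq, padicNorm.neg]
    apply padicNorm.sum_le' _ (by positivity)
    intro u hu
    rw [Finset.mem_filter, Finset.mem_Icc] at hu
    have hu0 : 0 < u := by omega
    have hul : u ≤ 6 * D.C * n := by
      have h1 := poles_leC hl
      have h2 := hu.1.2
      calc u ≤ 6 * (l - st D c * n) := h2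
        _ ≤ 6 * (D.C * n) := by omega
        _ = 6 * D.C * n := by ring
    apply padicNorm.sum_le' _ (by positivity)
    intro i hi
    rw [div_eq_mul_inv, padicNorm.mul, pow_add]
    apply mul_le_mul (hE n p l i hn hl) _ (padicNorm.nonneg _) (by positivity)
    have h3 : padicNorm p (((((u : ℕ) : ℤ) : ℚ) / 6) ^ i)⁻¹ ≤ ((u : ℚ)) ^ i := by
      rw [inv_eq_one_div, padicNorm.div, padicNorm.one, norm_pow', padicNorm.div]
      have h6 : padicNorm p (6 : ℚ) ≤ 1 := by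
        have := padicNorm.of_nat (p := p) 6
        exact_mod_cast this
      have hupos : 0 < padicNorm p (((u : ℕ) : ℤ) : ℚ) := by
        apply lt_of_le_of_ne (padicNorm.nonneg _)
        symm
        apply padicNorm.nonzero
        exact_mod_cast hu0.ne'
      have h6pos : 0 < padicNorm p (6 : ℚ) := by
        apply lt_of_le_of_ne (padicNorm.nonneg _)
        symm
        exact padicNorm.nonzero (by norm_num)
      rw [one_div, ← inv_pow]
      apply pow_le_pow_left₀ (by positivity)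
      rw [inv_div]
      calc padicNorm p 6 / padicNorm p (((u : ℕ) : ℤ) : ℚ)
          ≤ 1 / padicNorm p (((u : ℕ) : ℤ) : ℚ) := by gcongr
        _ = (padicNorm p (u : ℚ))⁻¹ := by rw [one_div]; norm_cast
        _ ≤ u := norm_nat_inv_le p hu0
    refine h3.trans ?_
    have h4 : (u : ℚ) ≤ (6 * D.C : ℕ) * (n : ℚ) := by exact_mod_cast hul
    calc (u : ℚ) ^ i ≤ ((6 * D.C : ℕ) * (n : ℚ)) ^ i := pow_le_pow_left₀ (by positivity) h4 i
      _ ≤ ((6 * D.C : ℕ) * (n : ℚ)) ^ D.A := pow_le_pow_right₀ hb (Finset.mem_Icc.1 hi).2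
  · intro j
    unfold rho
    apply padicNorm.sum_le' _ (by positivity)
    intro l hl
    exact (hE n p l j hn hl).trans (pow_le_pow_right₀ hb (by omega))

/-- for `C n < p` nothing is needed -/
theorem bnd_large (hD : D.OK) (n l p : ℕ) (hn : 0 < n) (hp : D.C * n < p) (hl : l ∈ poles D n) :
    bnd D n l p ≤ 0 := by
  have hlC := poles_leC hl
  have hpz : (0 : ℤ) < p := by omega
  have hE : E0 D n p = 0 := by
    have h1 : ∀ h, Nl D n h / p = 0 := by
      intro h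
      apply Nat.div_eq_of_lt
      refine lt_of_le_of_lt ?_ hp
      unfold Nl
      exact Nat.mul_le_mul_right _ (Nat.sub_le _ _)
    unfold E0
    simp only [h1, Nat.div_eq_of_lt hp]
    simp
  have hno : noP D n l p := by
    intro i hi
    have h1 := hD.P_lt i hi
    have h2 : D.h i * n ≤ D.C * n := Nat.mul_le_mul_right _ (by omega)
    unfold cnt fA fB
    have hlz : (l : ℤ) ≤ D.C * n := by exact_mod_cast hlC
    have hpz' : (D.C : ℤ) * n < p := by exact_mod_cast hp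
    have h2' : (D.h i : ℤ) * n ≤ D.C * n := by exact_mod_cast h2
    have h3 : (0 : ℤ) ≤ D.h i * n := by positivity
    have hl0 : (0 : ℤ) ≤ l := by positivity
    split_ifs with hb
    · unfold blk at hb
      rw [Finset.mem_Icc] at hb
      have e1 : ((l : ℤ) - D.h i * n) / p = 0 := by
        apply Int.ediv_eq_zero_of_lt
        · have : ((D.h i * n : ℕ) : ℤ) ≤ l := by exact_mod_cast hb.1
          push_cast at this
          linarith
        · linarith
      have e2 : ((D.C - D.h i : ℤ) * n - l) / p = 0 := by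
        apply Int.ediv_eq_zero_of_lt
        · have : (l : ℤ) ≤ (((D.C - D.h i) * n : ℕ) : ℤ) := by exact_mod_cast hb.2
          rw [Nat.cast_mul, Nat.cast_sub (by omega)] at this
          linarith
        · have : (D.C - D.h i : ℤ) * n = D.C * n - D.h i * n := by ring
          rw [this]
          linarith
      rw [e1, e2]
      simp
    · have hb' : (l : ℤ) < D.h i * n ∨ (D.C - D.h i : ℤ) * n < l := by
        unfold blk at hb
        rw [Finset.mem_Icc, not_and_or, not_le, not_le] at hb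
        rcases hb with hb | hb
        · left; exact_mod_cast hb
        · right
          have : (((D.C - D.h i) * n : ℕ) : ℤ) < l := by exact_mod_cast hb
          rwa [Nat.cast_mul, Nat.cast_sub (by omega)] at this
      have e0 : (D.C - D.h i : ℤ) * n = D.C * n - D.h i * n := by ring
      rcases hb' with hb' | hb'
      · have e1 : ((l : ℤ) - D.h i * n) / p < 0 := by
          apply Int.ediv_lt_of_lt_mul hpz
          linarith
        have e2 : ((D.C - D.h i : ℤ) * n - l) / p ≤ 0 := by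
          apply Int.lt_add_one_iff.1
          apply Int.ediv_lt_of_lt_mul hpz
          rw [e0]
          linarith
        omega
      · have e1 : ((l : ℤ) - D.h i * n) / p ≤ 0 := by
          apply Int.lt_add_one_iff.1
          apply Int.ediv_lt_of_lt_mul hpz
          linarith
        have e2 : ((D.C - D.h i : ℤ) * n - l) / p < 0 := by
          apply Int.ediv_lt_of_lt_mul hpz
          linarith
        omega
  unfold bnd
  rw [if_neg (by omega), if_pos hno, hE]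
  simp

end Pool.Agent.TwoOdd
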