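import Mathlib
import Pool.Agent.TwoOdd.Defs
import Pool.Agent.TwoOdd.PF

set_option autoImplicit false

/-!
# Module SQ: the linear forms
Seat: helper92.
-/

open Finset Filter Topology

namespace Pool.Agent.TwoOdd

variable {D : Dat}

/-- `1 / y ^ i` at the point `y = (w + 1) / 6`, if it belongs to the class `c` -/
noncomputable def psi (c i w : ℕ) : ℝ :=
  if cls c (w + 1) then 1 / (((w + 1 : ℕ) : ℝ) / 6) ^ i else 0

lemma cls_add (c u k : ℕ) : cls c (u + 6 * k) ↔ cls c u := by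
  match c with
  | 0 => simp only [cls]; omega
  | 1 => simp only [cls]; omega
  | (c + 2) => simp only [cls]; omega

lemma psi_nonneg (c i w : ℕ) : 0 ≤ psi c i w := by
  unfold psi
  split_ifs
  · positivity
  · exact le_rfl

lemma psi_shift (c i w L : ℕ) : psi c i (w + 6 * L) =
    if cls c (w + 1) then 1 / (((w + 1 : ℕ) : ℝ) / 6 + L) ^ i else 0 := by
  unfold psi
  have h1 : w + 6 * L + 1 = w + 1 + 6 * L := by ring
  rw [h1]
  by_cases h : cls c (w + 1)
  · rw [if_pos ((cls_add c (w + 1) L).2 h), if_pos h]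
    congr 2
    push_cast
    ring
  · rw [if_neg (fun h2 => h ((cls_add c (w + 1) L).1 h2)), if_neg h]

lemma sum_psi_range (c i L : ℕ) : ∑ w ∈ Finset.range (6 * L), psi c i w = (Hs c i L : ℝ) := by
  unfold Hs psi
  rw [Rat.cast_sum, ← Finset.sum_filter]
  refine Finset.sum_nbij' (fun w => w + 1) (fun u => u - 1) ?_ ?_ ?_ ?_ ?_
  · intro w hw
    rw [mem_filter, mem_range] at hw
    rw [mem_filter, mem_Icc]
    exact ⟨by omega, hw.2⟩
  · intro u hu
    rw [mem_filter, mem_Icc] at hu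
    rw [mem_filter, mem_range]
    refine ⟨by omega, ?_⟩
    rw [Nat.sub_add_cancel (by omega)]
    exact hu.2
  · intro w _
    exact Nat.add_sub_cancel w 1
  · intro u hu
    rw [mem_filter, mem_Icc] at hu
    exact Nat.sub_add_cancel (by omega)
  · intro w _
    push_cast
    ring

/-! ### The full sums -/

lemma summable_zt {i : ℕ} (hi : 2 ≤ i) : Summable fun m : ℕ => 1 / ((m : ℝ) + 1) ^ i := by
  have h1 : Summable (fun m : ℕ => 1 / (m : ℝ) ^ i) :=
    Real.summable_one_div_nat_pow.mpr (by omega)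
  have h2 := (summable_nat_add_iff 1).mpr h1
  refine h2.congr (fun m => ?_)
  push_cast
  rfl

lemma hasSum_dvd {i d : ℕ} (hi : 2 ≤ i) (hd : 0 < d) :
    HasSum (fun w : ℕ => if d ∣ w + 1 then 1 / (((w + 1 : ℕ) : ℝ) / 6) ^ i else 0)
      ((6 / (d : ℝ)) ^ i * zt i) := by
  have h1 : HasSum (fun m : ℕ => 1 / ((m : ℝ) + 1) ^ i) (zt i) := (summable_zt hi).hasSum
  have h2 := h1.mul_left ((6 / (d : ℝ)) ^ i)
  have hinj : Function.Injective (fun m : ℕ => d * (m + 1) - 1) := by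
    intro x y hxy
    have hx : 1 ≤ d * (x + 1) := Nat.mul_pos hd (Nat.succ_pos x)
    have hy : 1 ≤ d * (y + 1) := Nat.mul_pos hd (Nat.succ_pos y)
    have h3 : d * (x + 1) = d * (y + 1) := by
      simp only at hxy
      omega
    have h4 := Nat.eq_of_mul_eq_mul_left hd h3
    omega
  refine (hinj.hasSum_iff ?_).1 ?_
  · intro w hw
    rw [if_neg]
    rintro ⟨k, hk⟩
    apply hw
    refine ⟨k - 1, ?_⟩
    have hk0 : k ≠ 0 := by
      rintro rfl
      omega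
    simp only
    rw [Nat.sub_add_cancel (by omega), ← hk]
    omega
  · have e : ((fun w : ℕ => if d ∣ w + 1 then 1 / (((w + 1 : ℕ) : ℝ) / 6) ^ i else 0) ∘
        fun m : ℕ => d * (m + 1) - 1) =
        fun m : ℕ => (6 / (d : ℝ)) ^ i * (1 / ((m : ℝ) + 1) ^ i) := by
      funext m
      have hm : 1 ≤ d * (m + 1) := Nat.mul_pos hd (Nat.succ_pos m)
      have h3 : d * (m + 1) - 1 + 1 = d * (m + 1) := Nat.sub_add_cancel hm
      have hd' : (d : ℝ) ≠ 0 := by exact_mod_cast hd.ne'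
      have hm' : (m : ℝ) + 1 ≠ 0 := by positivity
      simp only [Function.comp]
      rw [h3, if_pos (Dvd.intro _ rfl), ← one_div_pow, ← one_div_pow, ← mul_pow]
      congr 1
      push_cast
      field_simp
    rw [e]
    exact h2

lemma psi_eq_zero_class (i w : ℕ) : psi 0 i w =
    if 6 ∣ w + 1 then 1 / (((w + 1 : ℕ) : ℝ) / 6) ^ i else 0 := by
  unfold psi
  have h : cls 0 (w + 1) ↔ 6 ∣ w + 1 := by simp only [cls]; omega
  by_cases h1 : 6 ∣ w + 1
  · rw [if_pos (h.2 h1), if_pos h1]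
  · rw [if_neg (fun h2 => h1 (h.1 h2)), if_neg h1]

lemma psi_eq_one_class (i w : ℕ) : psi 1 i w =
    (if 3 ∣ w + 1 then 1 / (((w + 1 : ℕ) : ℝ) / 6) ^ i else 0) -
    (if 6 ∣ w + 1 then 1 / (((w + 1 : ℕ) : ℝ) / 6) ^ i else 0) := by
  unfold psi
  have h : cls 1 (w + 1) ↔ 3 ∣ w + 1 ∧ ¬ 6 ∣ w + 1 := by simp only [cls]; omega
  by_cases h6 : 6 ∣ w + 1
  · have h3 : 3 ∣ w + 1 := by omega
    rw [if_neg (fun h2 => (h.1 h2).2 h6), if_pos h3, if_pos h6, sub_self]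
  · by_cases h3 : 3 ∣ w + 1
    · rw [if_pos (h.2 ⟨h3, h6⟩), if_pos h3, if_neg h6, sub_zero]
    · rw [if_neg (fun h2 => h3 (h.1 h2).1), if_neg h3, if_neg h6, sub_zero]

lemma psi_eq_two_class (c i w : ℕ) : psi (c + 2) i w =
    (if 2 ∣ w + 1 then 1 / (((w + 1 : ℕ) : ℝ) / 6) ^ i else 0) -
    (if 6 ∣ w + 1 then 1 / (((w + 1 : ℕ) : ℝ) / 6) ^ i else 0) := by
  unfold psi
  have h : cls (c + 2) (w + 1) ↔ 2 ∣ w + 1 ∧ ¬ 6 ∣ w + 1 := by simp only [cls]; omega
  by_cases h6 : 6 ∣ w + 1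
  · have h3 : 2 ∣ w + 1 := by omega
    rw [if_neg (fun h2 => (h.1 h2).2 h6), if_pos h3, if_pos h6, sub_self]
  · by_cases h3 : 2 ∣ w + 1
    · rw [if_pos (h.2 ⟨h3, h6⟩), if_pos h3, if_neg h6, sub_zero]
    · rw [if_neg (fun h2 => h3 (h.1 h2).1), if_neg h3, if_neg h6, sub_zero]

lemma hasSum_psi (c : ℕ) {i : ℕ} (hi : 2 ≤ i) : HasSum (psi c i) ((cc c i : ℝ) * zt i) := by
  have h6 := hasSum_dvd (d := 6) hi (by norm_num)
  have h3 := hasSum_dvd (d := 3) hi (by norm_num)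
  have h2 := hasSum_dvd (d := 2) hi (by norm_num)
  have e6 : ((6 : ℝ) / ((6 : ℕ) : ℝ)) ^ i = 1 := by
    rw [show (6 : ℝ) / ((6 : ℕ) : ℝ) = 1 by norm_num, one_pow]
  have e3 : ((6 : ℝ) / ((3 : ℕ) : ℝ)) ^ i = 2 ^ i := by
    rw [show (6 : ℝ) / ((3 : ℕ) : ℝ) = 2 by norm_num]
  have e2 : ((6 : ℝ) / ((2 : ℕ) : ℝ)) ^ i = 3 ^ i := by
    rw [show (6 : ℝ) / ((2 : ℕ) : ℝ) = 3 by norm_num]
  rw [e6, one_mul] at h6
  rw [e3] at h3
  rw [e2] at h2
  match c with
  | 0 =>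
    have : psi 0 i = fun w : ℕ => if 6 ∣ w + 1 then 1 / (((w + 1 : ℕ) : ℝ) / 6) ^ i else 0 := by
      funext w; exact psi_eq_zero_class i w
    rw [this]
    simpa only [cc, Nat.cast_one, one_mul] using h6
  | 1 =>
    have : psi 1 i = fun w : ℕ => (if 3 ∣ w + 1 then 1 / (((w + 1 : ℕ) : ℝ) / 6) ^ i else 0) -
        (if 6 ∣ w + 1 then 1 / (((w + 1 : ℕ) : ℝ) / 6) ^ i else 0) := by
      funext w; exact psi_eq_one_class i w
    rw [this]
    have h := h3.sub h6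
    have e : ((cc 1 i : ℕ) : ℝ) * zt i = 2 ^ i * zt i - zt i := by
      simp only [cc]
      rw [Nat.cast_sub Nat.one_le_two_pow]
      push_cast
      ring
    rw [e]
    exact h
  | (c + 2) =>
    have : psi (c + 2) i = fun w : ℕ =>
        (if 2 ∣ w + 1 then 1 / (((w + 1 : ℕ) : ℝ) / 6) ^ i else 0) -
        (if 6 ∣ w + 1 then 1 / (((w + 1 : ℕ) : ℝ) / 6) ^ i else 0) := by
      funext w; exact psi_eq_two_class c i w
    rw [this]
    have h := h2.sub h6
    have e : ((cc (c + 2) i : ℕ) : ℝ) * zt i = 3 ^ i * zt i - zt i := by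
      simp only [cc]
      rw [Nat.cast_sub (Nat.one_le_pow _ _ (by norm_num))]
      push_cast
      ring
    rw [e]
    exact h

lemma hasSum_psi_shift (c : ℕ) {i : ℕ} (hi : 2 ≤ i) (L : ℕ) :
    HasSum (fun w => psi c i (w + 6 * L)) ((cc c i : ℝ) * zt i - (Hs c i L : ℝ)) := by
  refine (hasSum_nat_add_iff (6 * L)).2 ?_
  rw [sum_psi_range, sub_add_cancel]
  exact hasSum_psi c hi

/-! ### The first powers -/

lemma psi_le (c w : ℕ) : psi c 1 w ≤ 6 / ((w : ℝ) + 1) := by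
  unfold psi
  split_ifs
  · rw [pow_one]
    push_cast
    rw [one_div_div]
  · positivity

lemma tendsto_psi (c : ℕ) : Tendsto (psi c 1) atTop (𝓝 0) := by
  have h1 : Tendsto (fun w : ℕ => 6 / ((w : ℝ) + 1)) atTop (𝓝 0) := by
    have h := (tendsto_one_div_add_atTop_nhds_zero_nat (𝕜 := ℝ)).const_mul 6
    rw [mul_zero] at h
    refine h.congr fun w => ?_
    rw [mul_one_div]
  exact squeeze_zero (psi_nonneg c 1) (psi_le c) h1

lemma psi_shift_le (c w L : ℕ) : psi c 1 (w + 6 * L) ≤ psi c 1 w := by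
  rw [psi_shift]
  unfold psi
  by_cases h : cls c (w + 1)
  · rw [if_pos h, if_pos h, pow_one, pow_one]
    apply one_div_le_one_div_of_le
    · positivity
    · have : (0 : ℝ) ≤ L := Nat.cast_nonneg L
      linarith
  · rw [if_neg h, if_neg h]

lemma hasSum_psi_one (c L : ℕ) :
    HasSum (fun w => psi c 1 w - psi c 1 (w + 6 * L)) (Hs c 1 L : ℝ) := by
  refine (hasSum_iff_tendsto_nat_of_nonneg (fun w => sub_nonneg.2 (psi_shift_le c w L)) _).2 ?_
  have h1 : ∀ N : ℕ, ∑ w ∈ Finset.range N, (psi c 1 w - psi c 1 (w + 6 * L)) =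
      (Hs c 1 L : ℝ) - ∑ k ∈ Finset.range (6 * L), psi c 1 (N + k) := by
    intro N
    rw [← sum_psi_range, Finset.sum_sub_distrib]
    have h2 := Finset.sum_range_add (psi c 1) N (6 * L)
    have h3 := Finset.sum_range_add (psi c 1) (6 * L) N
    rw [add_comm (6 * L) N] at h3
    have h4 : ∑ w ∈ Finset.range N, psi c 1 (w + 6 * L) =
        ∑ w ∈ Finset.range N, psi c 1 (6 * L + w) :=
      Finset.sum_congr rfl fun w _ => by rw [add_comm]
    rw [h4]
    linarith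
  have h2 : Tendsto (fun N : ℕ => (Hs c 1 L : ℝ) - ∑ k ∈ Finset.range (6 * L), psi c 1 (N + k))
      atTop (𝓝 ((Hs c 1 L : ℝ) - ∑ k ∈ Finset.range (6 * L), 0)) := by
    refine tendsto_const_nhds.sub (tendsto_finsetSum _ fun k _ => ?_)
    exact (tendsto_psi c).comp (tendsto_add_atTop_nat k)
  rw [Finset.sum_const_zero, sub_zero] at h2
  exact h2.congr fun N => (h1 N).symm

/-! ### The linear form -/

lemma st_le (hD : D.OK) (c : ℕ) : st D c ≤ D.s := by
  match c with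
  | 0 => exact le_rfl
  | 1 => exact hD.hH_lt.le
  | (c + 2) => exact hD.hG_lt.le

lemma st_mul_le (hD : D.OK) (c n l : ℕ) (hl : l ∈ poles D n) : st D c * n ≤ l := by
  unfold poles at hl
  rw [mem_Icc] at hl
  exact le_trans (Nat.mul_le_mul_right n ((st_le hD c).trans hD.s_le)) hl.1

/-- the summand of the class `c` -/
noncomputable def summand (D : Dat) (c n u : ℕ) : ℝ :=
  if cls c u ∧ 0 < u then R D n ((u : ℝ) / 6 - (st D c * n : ℕ)) else 0

lemma R_class (hD : D.OK) (c n w : ℕ) (hn : 0 < n) (hc : cls c (w + 1)) :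
    R D n (((w + 1 : ℕ) : ℝ) / 6 - (st D c * n : ℕ)) = ∑ l ∈ poles D n, ∑ i ∈ Finset.Icc 1 D.A,
      ((a D n l i : ℚ) : ℝ) * psi c i (w + 6 * (l - st D c * n)) := by
  rw [partial_fractions hD n hn]
  · refine Finset.sum_congr rfl fun l hl => Finset.sum_congr rfl fun i _ => ?_
    rw [psi_shift, if_pos hc, Nat.cast_sub (st_mul_le hD c n l hl), mul_one_div]
    congr 2
    ring
  · intro m hm h0
    rw [mem_Icc] at hm
    have h1 : ((w + 1 : ℕ) : ℝ) + 6 * m = 6 * (st D c * n : ℕ) := by linarith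
    have h2 : w + 1 + 6 * m = 6 * (st D c * n) := by exact_mod_cast h1
    have h3 : st D c * n ≤ D.s * n := Nat.mul_le_mul_right n (st_le hD c)
    omega

lemma summand_succ (hD : D.OK) (c n w : ℕ) (hn : 0 < n) :
    summand D c n (w + 1) = ∑ l ∈ poles D n,
      (((a D n l 1 : ℚ) : ℝ) * -(psi c 1 w - psi c 1 (w + 6 * (l - st D c * n))) +
        ∑ i ∈ Finset.Icc 2 D.A, ((a D n l i : ℚ) : ℝ) * psi c i (w + 6 * (l - st D c * n))) := by
  have hA := hD.A4
  have h1 : ∀ l : ℕ, ∑ i ∈ Finset.Icc 1 D.A,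
      ((a D n l i : ℚ) : ℝ) * psi c i (w + 6 * (l - st D c * n)) =
      ((a D n l 1 : ℚ) : ℝ) * psi c 1 (w + 6 * (l - st D c * n)) +
      ∑ i ∈ Finset.Icc 2 D.A, ((a D n l i : ℚ) : ℝ) * psi c i (w + 6 * (l - st D c * n)) := by
    intro l
    rw [← Finset.add_sum_Ioc_eq_sum_Icc (by omega : 1 ≤ D.A)]
    rfl
  have h2 : ∑ l ∈ poles D n, (((a D n l 1 : ℚ) : ℝ) * psi c 1 w) = 0 := by
    rw [← Finset.sum_mul, ← Rat.cast_sum, sum_a_one hD n hn, Rat.cast_zero, zero_mul]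
  have h3 : ∑ l ∈ poles D n,
      (((a D n l 1 : ℚ) : ℝ) * -(psi c 1 w - psi c 1 (w + 6 * (l - st D c * n))) +
        ∑ i ∈ Finset.Icc 2 D.A, ((a D n l i : ℚ) : ℝ) * psi c i (w + 6 * (l - st D c * n))) =
      ∑ l ∈ poles D n, ∑ i ∈ Finset.Icc 1 D.A,
        ((a D n l i : ℚ) : ℝ) * psi c i (w + 6 * (l - st D c * n)) := by
    have h4 : ∑ l ∈ poles D n, ∑ i ∈ Finset.Icc 1 D.A,
        ((a D n l i : ℚ) : ℝ) * psi c i (w + 6 * (l - st D c * n)) =
        ∑ l ∈ poles D n, ∑ i ∈ Finset.Icc 1 D.A,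
        ((a D n l i : ℚ) : ℝ) * psi c i (w + 6 * (l - st D c * n)) -
        ∑ l ∈ poles D n, (((a D n l 1 : ℚ) : ℝ) * psi c 1 w) := by
      rw [h2, sub_zero]
    rw [h4, ← Finset.sum_sub_distrib]
    refine Finset.sum_congr rfl fun l _ => ?_
    rw [h1 l]
    ring
  rw [h3]
  unfold summand
  by_cases hc : cls c (w + 1)
  · rw [if_pos ⟨hc, Nat.succ_pos w⟩]
    exact R_class hD c n w hn hc
  · rw [if_neg (fun h => hc h.1)]
    symm
    refine Finset.sum_eq_zero fun l _ => Finset.sum_eq_zero fun i _ => ?_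
    rw [psi_shift, if_neg hc, mul_zero]

lemma hasSum_summand (hD : D.OK) (c n : ℕ) (hn : 0 < n) :
    HasSum (summand D c n) (∑ l ∈ poles D n,
      (((a D n l 1 : ℚ) : ℝ) * -(Hs c 1 (l - st D c * n) : ℝ) +
        ∑ i ∈ Finset.Icc 2 D.A, ((a D n l i : ℚ) : ℝ) *
          ((cc c i : ℝ) * zt i - (Hs c i (l - st D c * n) : ℝ)))) := by
  have h0 : summand D c n 0 = 0 := by
    unfold summand
    rw [if_neg (fun h => absurd h.2 (lt_irrefl 0))]
  have h1 : HasSum (fun w => summand D c n (w + 1)) (∑ l ∈ poles D n,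
      (((a D n l 1 : ℚ) : ℝ) * -(Hs c 1 (l - st D c * n) : ℝ) +
        ∑ i ∈ Finset.Icc 2 D.A, ((a D n l i : ℚ) : ℝ) *
          ((cc c i : ℝ) * zt i - (Hs c i (l - st D c * n) : ℝ)))) := by
    have h2 : (fun w => summand D c n (w + 1)) = fun w => ∑ l ∈ poles D n,
        (((a D n l 1 : ℚ) : ℝ) * -(psi c 1 w - psi c 1 (w + 6 * (l - st D c * n))) +
        ∑ i ∈ Finset.Icc 2 D.A, ((a D n l i : ℚ) : ℝ) * psi c i (w + 6 * (l - st D c * n))) := by
      funext w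
      exact summand_succ hD c n w hn
    rw [h2]
    refine hasSum_sum fun l _ => HasSum.add ?_ ?_
    · exact ((hasSum_psi_one c (l - st D c * n)).neg).mul_left _
    · refine hasSum_sum fun i hi => HasSum.mul_left _ ?_
      rw [mem_Icc] at hi
      exact hasSum_psi_shift c hi.1 (l - st D c * n)
  have h3 := (hasSum_nat_add_iff 1).1 h1
  rw [Finset.sum_range_one, h0, add_zero] at h3
  exact h3

theorem S_summable (hD : D.OK) (c n : ℕ) (hn : 0 < n) :
    Summable fun u : ℕ => if cls c u ∧ 0 < u then R D n ((u : ℝ) / 6 - (st D c * n : ℕ)) else 0 :=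
  (hasSum_summand hD c n hn).summable

theorem S_eq (hD : D.OK) (c : ℕ) (_hc : c < 3) (n : ℕ) (hn : 0 < n) :
    S D c n = (rho0 D c n : ℝ) + ∑ j ∈ Js D, (rho D n j : ℝ) * (cc c j * zt j) := by
  have hA := hD.A4
  have h1 : S D c n = ∑ l ∈ poles D n,
      (((a D n l 1 : ℚ) : ℝ) * -(Hs c 1 (l - st D c * n) : ℝ) +
        ∑ i ∈ Finset.Icc 2 D.A, ((a D n l i : ℚ) : ℝ) *
          ((cc c i : ℝ) * zt i - (Hs c i (l - st D c * n) : ℝ))) :=
    (hasSum_summand hD c n hn).tsum_eq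
  have h2 : ∀ l : ℕ, (((a D n l 1 : ℚ) : ℝ) * -(Hs c 1 (l - st D c * n) : ℝ) +
        ∑ i ∈ Finset.Icc 2 D.A, ((a D n l i : ℚ) : ℝ) *
          ((cc c i : ℝ) * zt i - (Hs c i (l - st D c * n) : ℝ))) =
      (T D c n l : ℝ) + ∑ i ∈ Finset.Icc 2 D.A, ((a D n l i : ℚ) : ℝ) * ((cc c i : ℝ) * zt i) := by
    intro l
    unfold T
    rw [← Finset.add_sum_Ioc_eq_sum_Icc (by omega : 1 ≤ D.A)]
    have h3 : Finset.Ioc 1 D.A = Finset.Icc 2 D.A := rfl
    rw [h3]
    push_cast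
    simp only [mul_sub, Finset.sum_sub_distrib]
    ring
  rw [h1, Finset.sum_congr rfl fun l _ => h2 l, Finset.sum_add_distrib]
  have h0 : (rho0 D c n : ℝ) = ∑ l ∈ poles D n, (T D c n l : ℝ) := by
    unfold rho0
    rw [Rat.cast_sum]
  rw [h0]
  congr 1
  rw [Finset.sum_comm]
  have h4 : ∀ i ∈ Finset.Icc 2 D.A,
      ∑ l ∈ poles D n, ((a D n l i : ℚ) : ℝ) * ((cc c i : ℝ) * zt i) =
        (rho D n i : ℝ) * ((cc c i : ℝ) * zt i) := by
    intro i _
    unfold rho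
    rw [Rat.cast_sum, Finset.sum_mul]
  rw [Finset.sum_congr rfl h4]
  symm
  refine Finset.sum_subset ?_ ?_
  · intro j hj
    unfold Js at hj
    rw [mem_filter, mem_Icc] at hj
    rw [mem_Icc]
    omega
  · intro j hj hj'
    rw [mem_Icc] at hj
    have he : Even j := by
      by_contra ho
      rw [Nat.not_even_iff_odd] at ho
      apply hj'
      unfold Js
      rw [mem_filter, mem_Icc]
      obtain ⟨r, hr⟩ := ho
      obtain ⟨q, hq⟩ := hD.Aeven
      exact ⟨by omega, ⟨r, hr⟩⟩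
    have : rho D n j = 0 := sum_a_even hD n hn j he
    rw [this, Rat.cast_zero, zero_mul]

end Pool.Agent.TwoOdd
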