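import Pool.Agent.TwoOdd.MNAux
import Pool.Agent.TwoOdd.SQ
import Pool.Agent.TwoOdd.PadicForms
import Pool.Agent.TwoOdd.NV

/-!
Main theorem of the construction (module MN), all modules plugged in.
Seat: helper59.
-/

open Finset

namespace Pool.Agent.TwoOdd

theorem main_of {D : Dat} (hD : D.OK) {al be : ℝ} (hab : be < al)
    (hS : ∃ N : ℕ, ∀ n ≥ N, ∀ c : ℕ, |S D c n| ≤ Real.exp (-al * n))
    (hsum : ∃ d : ℕ → ℕ → ℕ, ∃ N : ℕ, ∀ n ≥ N, n.Prime →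
      (∀ p : ℕ, p.Prime → p ≠ n → 6 * (D.C * n) < p ^ 2 → p ≤ D.C * n →
        ∀ l ∈ poles D n, bnd D n l p ≤ d n p) ∧
      ∑ p ∈ (Finset.Icc 1 (D.C * n)).filter (fun p => p.Prime ∧ 6 * (D.C * n) < p ^ 2 ∧ p ≠ n),
        (d n p : ℝ) * Real.log p ≤ be * n)
    (i : ℕ) (hne : ∑ c ∈ Finset.range 3, (wt i c : ℚ) * rho0 D c 1 ≠ 0) :
    ∃ j ∈ Js D, j ≠ 3 ∧ j ≠ i ∧ Irrational (zt j) :=
  main_of_aux hD (S_eq hD)
    (fun c hc n p _ hn h5 hp d hd => rho0_le hD c hc n p hn h5 hp d hd)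
    (fun n p j _ hn h5 hp d hj hd => rho_le hD n p j hn h5 hp d hj hd)
    (crude hD) (bnd_large hD) (rho0_norm hD) (rho_norm_le hD) hab hS hsum i hne

end Pool.Agent.TwoOdd
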