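import Pool.Agent.TwoOdd.Wt
import Pool.Agent.OddZetaG.Crit

/-!
Main theorem of the construction (module MN), the other modules being hypotheses.
Seat: helper59.
-/

open Finset

namespace Pool.Agent.TwoOdd

variable {D : Dat}

/-- coefficient of `zt j` in the combination -/
def cw (i j : ℕ) : ℤ := ∑ c ∈ Finset.range 3, wt i c * (cc c j : ℤ)

theorem cw_eq (i j : ℕ) : cw i j = (7 * (3 ^ i - 1) - 26 * (2 ^ i - 1)) +
    (27 - 3 ^ i) * (2 ^ j - 1) + (2 ^ i - 8) * (3 ^ j - 1) := by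
  have h2 : ((2 ^ j - 1 : ℕ) : ℤ) = 2 ^ j - 1 := by
    rw [Nat.cast_sub (Nat.one_le_pow _ _ (by norm_num))]; push_cast; ring
  have h3 : ((3 ^ j - 1 : ℕ) : ℤ) = 3 ^ j - 1 := by
    rw [Nat.cast_sub (Nat.one_le_pow _ _ (by norm_num))]; push_cast; ring
  simp only [cw, Finset.sum_range_succ, Finset.sum_range_zero, wt, cc, h2, h3]
  push_cast
  ring

theorem cw_three (i : ℕ) : cw i 3 = 0 := by rw [cw_eq]; ring

theorem cw_self (i : ℕ) : cw i i = 0 := by rw [cw_eq]; ring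

theorem main_of_aux (hD : D.OK)
    (S_eq : ∀ (c : ℕ), c < 3 → ∀ (n : ℕ), 0 < n →
      S D c n = (rho0 D c n : ℝ) + ∑ j ∈ Js D, (rho D n j : ℝ) * (cc c j * zt j))
    (rho0_le : ∀ (c : ℕ), c < 3 → ∀ (n p : ℕ) [Fact p.Prime], 0 < n → 5 ≤ p →
      6 * (D.C * n) < p ^ 2 → ∀ (d : ℤ), (∀ l ∈ poles D n, bnd D n l p ≤ d) →
      padicNorm p (rho0 D c n) ≤ (p : ℚ) ^ d)
    (rho_le : ∀ (n p j : ℕ) [Fact p.Prime], 0 < n → 5 ≤ p →
      6 * (D.C * n) < p ^ 2 → ∀ (d : ℤ), 3 ≤ j → (∀ l ∈ poles D n, bnd D n l p ≤ d) →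
      padicNorm p (rho D n j) ≤ (p : ℚ) ^ d)
    (crude : ∃ E : ℕ, ∀ (n p : ℕ) [Fact p.Prime], 0 < n → ∀ c : ℕ,
      padicNorm p (rho0 D c n) ≤ ((6 * D.C : ℕ) * (n : ℚ)) ^ E ∧
        ∀ j : ℕ, padicNorm p (rho D n j) ≤ ((6 * D.C : ℕ) * (n : ℚ)) ^ E)
    (bnd_large : ∀ (n l p : ℕ), 0 < n → D.C * n < p → l ∈ poles D n → bnd D n l p ≤ 0)
    (rho0_norm : ∀ (w : ℕ → ℤ), ∑ c ∈ Finset.range 3, (w c : ℚ) * rho0 D c 1 ≠ 0 →
      ∃ N : ℕ, ∀ p ≥ N, p.Prime →
        padicNorm p (∑ c ∈ Finset.range 3, (w c : ℚ) * rho0 D c p) = (p : ℚ) ^ (D.A - 1))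
    (rho_norm_le : ∃ N : ℕ, ∀ p ≥ N, p.Prime → ∀ j, 3 ≤ j →
      padicNorm p (rho D p j) ≤ (p : ℚ) ^ (D.A - 2))
    {al be : ℝ} (hab : be < al)
    (hS : ∃ N : ℕ, ∀ n ≥ N, ∀ c : ℕ, |S D c n| ≤ Real.exp (-al * n))
    (hsum : ∃ d : ℕ → ℕ → ℕ, ∃ N : ℕ, ∀ n ≥ N, n.Prime →
      (∀ p : ℕ, p.Prime → p ≠ n → 6 * (D.C * n) < p ^ 2 → p ≤ D.C * n →
        ∀ l ∈ poles D n, bnd D n l p ≤ d n p) ∧
      ∑ p ∈ (Finset.Icc 1 (D.C * n)).filter (fun p => p.Prime ∧ 6 * (D.C * n) < p ^ 2 ∧ p ≠ n),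
        (d n p : ℝ) * Real.log p ≤ be * n)
    (i : ℕ) (hne : ∑ c ∈ Finset.range 3, (wt i c : ℚ) * rho0 D c 1 ≠ 0) :
    ∃ j ∈ Js D, j ≠ 3 ∧ j ≠ i ∧ Irrational (zt j) := by
  classical
  have hC : 0 < D.C := by have := hD.lo_lt; omega
  have hA := hD.A4
  have hJ3 : ∀ j ∈ Js D, 3 ≤ j := by
    intro j hj
    unfold Js at hj
    rw [Finset.mem_filter, Finset.mem_Icc] at hj
    exact hj.1.1
  set J : Finset ℕ := (Js D).filter (fun j => j ≠ 3 ∧ j ≠ i) with hJdef
  have hJs : ∀ j ∈ J, 3 ≤ j := fun j hj => hJ3 j (Finset.mem_filter.mp hj).1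
  obtain ⟨E, hE⟩ := crude
  -- the combined forms
  set r0 : ℕ → ℚ := fun n => ∑ c ∈ Finset.range 3, (wt i c : ℚ) * rho0 D c n with hr0
  set r : ℕ → ℕ → ℚ := fun n j => (cw i j : ℚ) * rho D n j with hr
  set SS : ℕ → ℝ := fun n => ∑ c ∈ Finset.range 3, (wt i c : ℝ) * S D c n with hSS
  have hint : ∀ (p : ℕ) [Fact p.Prime] (x : ℚ) (m : ℤ) (b : ℚ), padicNorm p x ≤ b →
      padicNorm p ((m : ℚ) * x) ≤ b := by
    intro p _ x m b h
    rw [mul_comm]
    exact OddZetaG.padicNorm_mul_int_le p x m h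
  have hr0le : ∀ (p : ℕ) [Fact p.Prime] (n : ℕ) (b : ℚ), 0 ≤ b →
      (∀ c < 3, padicNorm p (rho0 D c n) ≤ b) → padicNorm p (r0 n) ≤ b := by
    intro p _ n b hb h
    refine padicNorm.sum_le' (fun c hc => hint p _ _ _ (h c ?_)) hb
    exact Finset.mem_range.mp hc
  have hSeq : ∀ n, 0 < n → SS n = (r0 n : ℝ) + ∑ j ∈ J, (r n j : ℝ) * zt j := by
    intro n hn
    have h1 : SS n = ∑ c ∈ Finset.range 3, (wt i c : ℝ) * ((rho0 D c n : ℝ) +
        ∑ j ∈ Js D, (rho D n j : ℝ) * (cc c j * zt j)) := by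
      refine Finset.sum_congr rfl (fun c hc => ?_)
      rw [S_eq c (Finset.mem_range.mp hc) n hn]
    have h2 : ∑ c ∈ Finset.range 3, (wt i c : ℝ) * ∑ j ∈ Js D, (rho D n j : ℝ) * (cc c j * zt j) =
        ∑ j ∈ Js D, (r n j : ℝ) * zt j := by
      simp only [Finset.mul_sum]
      rw [Finset.sum_comm]
      refine Finset.sum_congr rfl (fun j _ => ?_)
      simp only [hr, cw]
      push_cast
      rw [Finset.sum_mul, Finset.sum_mul]
      refine Finset.sum_congr rfl (fun c _ => ?_)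
      ring
    have h3 : ∑ j ∈ Js D, (r n j : ℝ) * zt j = ∑ j ∈ J, (r n j : ℝ) * zt j := by
      symm
      apply Finset.sum_subset (Finset.filter_subset _ _)
      intro j hj hj'
      have : j = 3 ∨ j = i := by
        by_contra hcon
        push Not at hcon
        exact hj' (Finset.mem_filter.mpr ⟨hj, hcon⟩)
      have hz : cw i j = 0 := by
        rcases this with rfl | rfl
        · exact cw_three i
        · exact cw_self _
      simp [hr, hz]
    rw [h1]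
    simp only [mul_add, Finset.sum_add_distrib]
    rw [h2, h3]
    congr 1
    simp only [hr0]
    push_cast
    rfl
  suffices key : ∃ j ∈ J, Irrational (zt j) by
    obtain ⟨j, hj, hirr⟩ := key
    rw [hJdef, Finset.mem_filter] at hj
    exact ⟨j, hj.1, hj.2.1, hj.2.2, hirr⟩
  refine OddZetaG.crit J (6 * D.C) E (D.A - 2) (by omega) zt r0 r SS hSeq
    (al := (al + be) / 2) (be := be) (by linarith) ?_ ?_ ?_ ?_ ?_ ?_
  · -- size
    obtain ⟨N, hN⟩ := hS
    set Wt : ℝ := ∑ c ∈ Finset.range 3, |(wt i c : ℝ)| with hWt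
    have hWt0 : 0 ≤ Wt := Finset.sum_nonneg (fun c _ => abs_nonneg _)
    obtain ⟨N', hN'⟩ := exists_nat_gt (Wt / ((al - be) / 2))
    refine ⟨N + N' + 1, fun n hn _ => ?_⟩
    have h1 : |SS n| ≤ Wt * Real.exp (-al * n) := by
      rw [hSS, hWt, Finset.sum_mul]
      refine le_trans (Finset.abs_sum_le_sum_abs _ _) (Finset.sum_le_sum (fun c _ => ?_))
      rw [abs_mul]
      exact mul_le_mul_of_nonneg_left (hN n (by omega) c) (abs_nonneg _)
    have h2 : Wt ≤ Real.exp ((al - be) / 2 * n) := by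
      have hpos : 0 < (al - be) / 2 := by linarith
      have h3 : (N' : ℝ) ≤ n := by exact_mod_cast (by omega : N' ≤ n)
      have h4 : Wt < (al - be) / 2 * n := by
        rw [div_lt_iff₀ hpos] at hN'
        nlinarith
      have h5 := Real.add_one_le_exp ((al - be) / 2 * n)
      linarith
    calc |SS n| ≤ Wt * Real.exp (-al * n) := h1
      _ ≤ Real.exp ((al - be) / 2 * n) * Real.exp (-al * n) :=
        mul_le_mul_of_nonneg_right h2 (Real.exp_pos _).le
      _ = Real.exp (-((al + be) / 2) * n) := by rw [← Real.exp_add]; ring_nf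
  · -- crude bounds
    intro n p _ hn
    have hb : (0 : ℚ) ≤ (((6 * D.C : ℕ) : ℚ) * (n : ℚ)) ^ E := by positivity
    refine ⟨hr0le p n _ hb (fun c _ => (hE n p hn c).1), fun j _ => ?_⟩
    exact hint p _ _ _ ((hE n p hn 0).2 j)
  · -- large primes
    intro n p hpf hn hp
    have hCn : D.C * n < p := by nlinarith
    have hC1 : 1 ≤ D.C * n := Nat.mul_pos hC hn
    have h6 : 6 * D.C * n = 6 * (D.C * n) := by ring
    have hp5 : 5 ≤ p := by omega
    have hpp : 6 * (D.C * n) < p ^ 2 := by nlinarith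
    have hb : ∀ l ∈ poles D n, bnd D n l p ≤ 0 := fun l hl => bnd_large n l p hn hCn hl
    refine ⟨hr0le p n _ (by norm_num) (fun c hc => ?_), fun j hj => ?_⟩
    · have := rho0_le c hc n p hn hp5 hpp 0 hb
      simpa using this
    · have := rho_le n p j hn hp5 hpp 0 (hJs j hj) hb
      exact hint p _ _ _ (by simpa using this)
  · -- middle primes
    obtain ⟨d, N, hd⟩ := hsum
    refine ⟨fun n p => if p ≤ D.C * n then d n p else 0, N + 4, fun n hn hnp => ⟨?_, ?_⟩⟩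
    · intro p hpf hpn hpp hpl
      have hn0 : 0 < n := hnp.pos
      have hpp' : 6 * (D.C * n) < p ^ 2 := by rw [← mul_assoc]; exact hpp
      have hCn : n ≤ D.C * n := Nat.le_mul_of_pos_left n hC
      have hp5 : 5 ≤ p := by
        by_contra hcon
        have : p ≤ 4 := by omega
        have : p ^ 2 ≤ 16 := by nlinarith
        omega
      have hbd : ∀ l ∈ poles D n, bnd D n l p ≤
          (((if p ≤ D.C * n then d n p else 0 : ℕ)) : ℤ) := by
        intro l hl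
        by_cases hle : p ≤ D.C * n
        · rw [if_pos hle]
          exact (hd n (by omega) hnp).1 p hpf.out hpn hpp' hle l hl
        · rw [if_neg hle]
          exact_mod_cast bnd_large n l p hn0 (by omega) hl
      refine ⟨hr0le p n _ (by positivity) (fun c hc => ?_), fun j hj => ?_⟩
      · have := rho0_le c hc n p hn0 hp5 hpp' _ hbd
        rwa [zpow_natCast] at this
      · have := rho_le n p j hn0 hp5 hpp' _ (hJs j hj) hbd
        rw [zpow_natCast] at this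
        exact hint p _ _ _ this
    · refine le_trans (le_of_eq ?_) (hd n (by omega) hnp).2
      symm
      refine Finset.sum_subset_zero_on_sdiff ?_ ?_ ?_
      · intro p hp
        simp only [Finset.mem_filter, Finset.mem_Icc] at hp ⊢
        refine ⟨⟨hp.1.1, ?_⟩, hp.2.1, ?_, hp.2.2.2⟩
        · have : D.C * n ≤ 6 * D.C * n := by nlinarith
          omega
        · rw [mul_assoc]; exact hp.2.2.1
      · intro p hp
        simp only [Finset.mem_sdiff, Finset.mem_filter, Finset.mem_Icc, not_and] at hp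
        have : ¬ p ≤ D.C * n := by
          intro hle
          refine hp.2 ⟨hp.1.1.1, hle⟩ hp.1.2.1 ?_ hp.1.2.2.2
          rw [← mul_assoc]; exact hp.1.2.2.1
        simp [this]
      · intro p hp
        simp only [Finset.mem_filter, Finset.mem_Icc] at hp
        simp [hp.1.2]
  · obtain ⟨N, hN⟩ := rho0_norm (wt i) hne
    refine ⟨N, fun n hn hnp => ?_⟩
    have hexp : D.A - 2 + 1 = D.A - 1 := by omega
    rw [hexp]
    exact hN n hn hnp
  · obtain ⟨N, hN⟩ := rho_norm_le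
    refine ⟨N, fun n hn hnp j hj => ?_⟩
    have : Fact n.Prime := ⟨hnp⟩
    exact hint n _ _ _ (hN n hn hnp j (hJs j hj))

end Pool.Agent.TwoOdd
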