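import Pool.Agent.TwoOdd.N1Rel

/-!
Kronecker substitution: coefficients of a product of linear factors modulo a prime, read off from
one natural number (module N1, helper86).
-/

set_option autoImplicit false

open Finset

namespace Pool.Agent.TwoOdd.N1

/-- the digits of `P(B)` in base `B` are the coefficients of `P` -/
lemma kron_digit (P : Polynomial ℕ) (B k : ℕ) (hB : ∀ j, P.coeff j < B) :
    P.eval B / B ^ k % B = P.coeff k := by
  induction k generalizing P with
  | zero =>
    have h := Polynomial.divX_mul_X_add P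
    have h1 : P.eval B = P.divX.eval B * B + P.coeff 0 := by
      conv_lhs => rw [← h]
      simp
    rw [h1, pow_zero, Nat.div_one, Nat.add_comm, Nat.add_mul_mod_self_right]
    exact Nat.mod_eq_of_lt (hB 0)
  | succ k ih =>
    have h := Polynomial.divX_mul_X_add P
    have h1 : P.eval B = P.divX.eval B * B + P.coeff 0 := by
      conv_lhs => rw [← h]
      simp
    have hBpos : 0 < B := lt_of_le_of_lt (Nat.zero_le _) (hB 0)
    have h2 : P.eval B / B ^ (k + 1) = P.divX.eval B / B ^ k := by
      rw [pow_succ', ← Nat.div_div_eq_div_mul, h1]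
      congr 1
      rw [Nat.add_comm, Nat.add_mul_div_right _ _ hBpos, Nat.div_eq_of_lt (hB 0), zero_add]
    rw [h2, ih P.divX (fun j => by rw [Polynomial.coeff_divX]; exact hB _), Polynomial.coeff_divX]

lemma coeff_le_eval_one (P : Polynomial ℕ) (j : ℕ) : P.coeff j ≤ P.eval 1 := by
  rw [Polynomial.eval_eq_sum_range]
  simp only [one_pow, mul_one]
  by_cases hj : j ≤ P.natDegree
  · exact Finset.single_le_sum (f := fun i => P.coeff i) (fun i _ => Nat.zero_le _)
      (Finset.mem_range.2 (Nat.lt_succ_of_le hj))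
  · rw [Polynomial.coeff_eq_zero_of_natDegree_lt (not_le.1 hj)]
    exact Nat.zero_le _

lemma trunc_digit (N B n k : ℕ) (hk : k < n) : N % B ^ n / B ^ k % B = N / B ^ k % B := by
  have h1 : B ^ n = B ^ k * B ^ (n - k) := by
    rw [← pow_add]
    congr 1
    omega
  rw [h1, Nat.mod_mul_right_div_self]
  apply Nat.mod_mod_of_dvd
  have h2 : B ^ (n - k) = B * B ^ (n - k - 1) := by
    rw [← pow_succ']
    congr 1
    omega
  rw [h2]
  exact dvd_mul_right _ _

/-- coefficients of a product of linear power series modulo `q` -/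
lemma kron_prod {q : ℕ} [Fact q.Prime] {ι : Type*} (s : Finset ι) (x w : ι → ℕ) (a B n k : ℕ)
    (hk : k < n) (hB : ∏ i ∈ s, (x i + a) ^ w i < B) (N : ℕ)
    (hN : N % B ^ n = (∏ i ∈ s, (x i + a * B) ^ w i) % B ^ n) :
    PowerSeries.coeff k (∏ i ∈ s, (PowerSeries.C (x i : ZMod q) +
      PowerSeries.C (a : ZMod q) * PowerSeries.X) ^ w i) = ((N / B ^ k % B : ℕ) : ZMod q) := by
  set P : Polynomial ℕ := ∏ i ∈ s, (Polynomial.C (x i) + Polynomial.C a * Polynomial.X) ^ w i with hP
  have h1 : P.eval 1 = ∏ i ∈ s, (x i + a) ^ w i := by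
    rw [hP, Polynomial.eval_prod]
    apply Finset.prod_congr rfl
    intro i _
    simp
  have h2 : P.eval B = ∏ i ∈ s, (x i + a * B) ^ w i := by
    rw [hP, Polynomial.eval_prod]
    apply Finset.prod_congr rfl
    intro i _
    simp
  have h3 : N / B ^ k % B = P.coeff k := by
    rw [← trunc_digit N B n k hk, hN, trunc_digit _ B n k hk, ← h2]
    apply kron_digit
    intro j
    exact lt_of_le_of_lt (coeff_le_eval_one P j) (h1 ▸ hB)
  rw [h3]
  have h4 : (∏ i ∈ s, (PowerSeries.C (x i : ZMod q) +
      PowerSeries.C (a : ZMod q) * PowerSeries.X) ^ w i) =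
      ((P.map (Nat.castRingHom (ZMod q)) : Polynomial (ZMod q)) : PowerSeries (ZMod q)) := by
    rw [hP, Polynomial.map_prod, ← Polynomial.coeToPowerSeries.ringHom_apply, map_prod]
    apply Finset.prod_congr rfl
    intro i _
    rw [Polynomial.coeToPowerSeries.ringHom_apply, Polynomial.map_pow, Polynomial.map_add,
      Polynomial.map_mul, Polynomial.map_C, Polynomial.map_C, Polynomial.map_X, Polynomial.coe_pow,
      Polynomial.coe_add, Polynomial.coe_mul, Polynomial.coe_C, Polynomial.coe_C, Polynomial.coe_X]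
    rfl
  rw [h4, Polynomial.coeff_coe, Polynomial.coeff_map]
  simp

/-- product over `[a, a + 2 ^ d)`, modulo `M`, as a binary tree -/
def bpT (M : ℕ) (g : ℕ → ℕ) : ℕ → ℕ → ℕ
  | 0, a => g a
  | d + 1, a => bpT M g d a * bpT M g d (a + 2 ^ d) % M

lemma bpT_mod (M : ℕ) (g : ℕ → ℕ) (d a : ℕ) :
    bpT M g d a % M = (∏ j ∈ Finset.range (2 ^ d), g (a + j)) % M := by
  induction d generalizing a with
  | zero => simp [bpT]
  | succ d ih =>
    rw [bpT, Nat.mod_mod, Nat.mul_mod, ih, ih, ← Nat.mul_mod, pow_succ, mul_two,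
      Finset.prod_range_add]
    congr 2
    apply Finset.prod_congr rfl
    intro j _
    rw [add_assoc]

/-- evaluate the first argument before going on (for the kernel) -/
def force {α : Type} (n : ℕ) (f : ℕ → α) : α := Nat.rec (f 0) (fun m _ => f (m + 1)) n

lemma force_eq {α : Type} (n : ℕ) (f : ℕ → α) : force n f = f n := by
  cases n <;> rfl

/-- quotients of power series are determined by the convolution identity -/
lemma quot_unique {K : Type*} [Field K] (f g h : PowerSeries K) (hg : PowerSeries.constantCoeff g ≠ 0)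
    (L : ℕ) (c : ℕ → K) (hc : ∀ k < L, ∑ j ∈ Finset.range (k + 1), c j * PowerSeries.coeff (k - j) g =
      PowerSeries.coeff k f) (hh : h = f * g⁻¹) : ∀ k < L, PowerSeries.coeff k h = c k := by
  have hhg : h * g = f := by
    rw [hh, mul_assoc, PowerSeries.inv_mul_cancel _ hg, mul_one]
  intro k
  induction k using Nat.strong_induction_on with
  | _ k ih =>
    intro hk
    have h1 := hc k hk
    rw [← hhg, PowerSeries.coeff_mul, Finset.Nat.sum_antidiagonal_eq_sum_range_succ
      (fun i j => PowerSeries.coeff i h * PowerSeries.coeff j g), Finset.sum_range_succ,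
      Finset.sum_range_succ] at h1
    have h2 : ∑ j ∈ Finset.range k, c j * PowerSeries.coeff (k - j) g =
        ∑ j ∈ Finset.range k, PowerSeries.coeff j h * PowerSeries.coeff (k - j) g := by
      apply Finset.sum_congr rfl
      intro j hj
      rw [Finset.mem_range] at hj
      rw [ih j hj (by omega)]
    rw [h2] at h1
    have h3 := add_left_cancel h1
    rw [Nat.sub_self, PowerSeries.coeff_zero_eq_constantCoeff] at h3
    exact (mul_right_cancel₀ hg h3).symm

end Pool.Agent.TwoOdd.N1
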