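import Pool.Agent.TwoOdd.Defs

/-!
The weights of the combination of the three forms (shared by the modules MN and N1).
Seat: helper59.
-/

namespace Pool.Agent.TwoOdd

/-- the combination killing `ζ(3)` and `ζ(i)` -/
def wt (i : ℕ) : ℕ → ℤ
  | 0 => 7 * (3 ^ i - 1) - 26 * (2 ^ i - 1)
  | 1 => 27 - 3 ^ i
  | _ => 2 ^ i - 8

end Pool.Agent.TwoOdd
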