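import Pool.Agent.TwoOdd.N1Tab
import Pool.Agent.TwoOdd.Wt

/-!
Nonvanishing at `n = 1` modulo `1289`: the link between the objects of the construction and the
computable functions (module N1, helper86).
-/

set_option autoImplicit false

open Finset

namespace Pool.Agent.TwoOdd.N1

open Pool.Agent.TwoOdd

abbrev D : Dat := D29.D

instance fact_q : Fact (Nat.Prime 1289) := ⟨by norm_num⟩

lemma q_zero : ((1289 : ℕ) : ZMod 1289) = 0 := ZMod.natCast_self 1289

/-! ### rational side -/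

/-- scaled version of `F D 1 l` -/
noncomputable def Fs (l : ℕ) : PowerSeries ℚ :=
  (PowerSeries.C (214 - 2 * (l : ℚ)) + PowerSeries.C 2 * PowerSeries.X) *
  (∏ u ∈ (Z D 1).erase (6 * l), (PowerSeries.C ((u : ℚ) - 6 * l) +
    PowerSeries.C 6 * PowerSeries.X)) * (∏ i ∈ D.P, B D 1 (D.h i) l)⁻¹

lemma card_Z : (Z D 1).card = 723 := by decide +kernel

lemma mem_Z_six (l : ℕ) (hl : l ≤ 214) : 6 * l ∈ Z D 1 := by
  unfold Z
  rw [Finset.mem_filter, Finset.mem_Icc]
  refine ⟨⟨Nat.zero_le _, ?_⟩, Or.inl (by omega)⟩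
  show 6 * l ≤ 6 * (214 * 1)
  omega

/-- the scaling factor -/
noncomputable def e6 : ℚ := (1 / 6) ^ 722

lemma BZ_eq (l : ℕ) (hl : l ≤ 214) : BZ D 1 l = PowerSeries.C e6 *
    ∏ u ∈ (Z D 1).erase (6 * l), (PowerSeries.C ((u : ℚ) - 6 * l) +
      PowerSeries.C 6 * PowerSeries.X) := by
  have h1 : BZ D 1 l = ∏ u ∈ (Z D 1).erase (6 * l), (PowerSeries.C (1 / 6 : ℚ) *
      (PowerSeries.C ((u : ℚ) - 6 * l) + PowerSeries.C 6 * PowerSeries.X)) := by
    unfold BZ
    apply Finset.prod_congr rfl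
    intro u _
    rw [mul_add, ← mul_assoc, ← map_mul, ← map_mul]
    have h2 : (1 / 6 : ℚ) * ((u : ℚ) - 6 * l) = (u : ℚ) / 6 - l := by ring
    have h3 : (1 / 6 : ℚ) * 6 = 1 := by norm_num
    rw [h2, h3, map_one, one_mul]
  rw [h1, Finset.prod_mul_distrib, Finset.prod_const, Finset.card_erase_of_mem (mem_Z_six l hl),
    card_Z, ← map_pow]
  rfl

/-- the common factor -/
noncomputable def kap : ℚ := K D 1 * e6

lemma F_eq (l : ℕ) (hl : l ≤ 214) : F D 1 l = PowerSeries.C kap * Fs l := by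
  unfold F Fs kap
  rw [BZ_eq l hl, map_mul]
  have h1 : (PowerSeries.C ((D.C : ℚ) * ((1 : ℕ) : ℚ) - 2 * (l : ℚ)) : PowerSeries ℚ) =
      PowerSeries.C (214 - 2 * (l : ℚ)) := by
    congr 1
    show ((214 : ℕ) : ℚ) * ((1 : ℕ) : ℚ) - 2 * (l : ℚ) = _
    norm_num
  have h2 : (PowerSeries.C (2 : ℚ) : PowerSeries ℚ) = 2 := by
    rw [show (2 : ℚ) = 1 + 1 by norm_num, map_add, map_one]
    norm_num
  rw [h1, h2]
  generalize PowerSeries.C (K D 1) = k
  generalize PowerSeries.C (214 - 2 * (l : ℚ)) = k2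
  generalize PowerSeries.C e6 = k3
  generalize (∏ i ∈ D.P, B D 1 (D.h i) l)⁻¹ = k4
  generalize (∏ u ∈ (Z D 1).erase (6 * l), (PowerSeries.C ((u : ℚ) - 6 * l) +
      PowerSeries.C 6 * PowerSeries.X)) = k5
  ring

lemma kap_ne : kap ≠ 0 := by
  unfold kap K e6
  have h1 : ∏ i ∈ D.P, ((Nl D 1 (D.h i)).factorial : ℚ) ≠ 0 :=
    Finset.prod_ne_zero_iff.2 fun i _ => by exact_mod_cast Nat.factorial_ne_zero _
  have h2 : ((D.C * 1).factorial : ℚ) ≠ 0 := by exact_mod_cast Nat.factorial_ne_zero _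
  have h3 : ((Nl D 1 D.hH).factorial : ℚ) ≠ 0 := by exact_mod_cast Nat.factorial_ne_zero _
  have h4 : ((Nl D 1 D.hG).factorial : ℚ) ≠ 0 := by exact_mod_cast Nat.factorial_ne_zero _
  positivity

/-- scaled coefficient -/
noncomputable def b (l i : ℕ) : ℚ :=
  if (i : ℤ) ≤ ord D 1 l then PowerSeries.coeff (ord D 1 l - i).toNat (Fs l) else 0

lemma a_eq (l i : ℕ) (hl : l ≤ 214) : a D 1 l i = kap * b l i := by
  unfold a b
  split_ifs with h
  · rw [F_eq l hl, PowerSeries.coeff_C_mul]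
  · ring

lemma mem_poles (l : ℕ) : l ∈ poles D 1 ↔ 68 ≤ l ∧ l ≤ 146 := by
  unfold poles
  rw [Finset.mem_Icc]
  exact Iff.rfl

lemma rho0_eq (c : ℕ) : rho0 D c 1 = kap * ∑ l ∈ poles D 1,
    -∑ i ∈ Finset.Icc 1 30, b l i * Hs c i (l - st D c) := by
  unfold rho0
  rw [Finset.mul_sum]
  apply Finset.sum_congr rfl
  intro l hl
  rw [mem_poles] at hl
  unfold T
  rw [mul_neg, Finset.mul_sum]
  congr 1
  apply Finset.sum_congr rfl
  intro i _
  rw [a_eq l i (by omega), mul_one]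
  ring

/-! ### the side modulo `1289` -/

/-- zeros -/
noncomputable def gZ (l : ℕ) : PowerSeries (ZMod 1289) :=
  ∏ u ∈ (Z D 1).erase (6 * l), (PowerSeries.C ((u + (1289 - 6 * l) : ℕ) : ZMod 1289) +
    PowerSeries.C ((6 : ℕ) : ZMod 1289) * PowerSeries.X) ^ 1

/-- poles -/
noncomputable def gB (l : ℕ) : PowerSeries (ZMod 1289) :=
  ∏ m ∈ (Finset.range 256).erase l, (PowerSeries.C ((m + (1289 - l) : ℕ) : ZMod 1289) +
    PowerSeries.C ((1 : ℕ) : ZMod 1289) * PowerSeries.X) ^ wN m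

noncomputable def gL (l : ℕ) : PowerSeries (ZMod 1289) :=
  PowerSeries.C ((1503 - 2 * l : ℕ) : ZMod 1289) + PowerSeries.C ((2 : ℕ) : ZMod 1289) * PowerSeries.X

noncomputable def gF (l : ℕ) : PowerSeries (ZMod 1289) := gL l * gZ l * (gB l)⁻¹

lemma card_P (m : ℕ) (hm : m < 256) : #{i ∈ D.P | m ∈ blk D 1 (D.h i)} = wN m := by
  have key : ∀ m < 256, #{i ∈ D.P | D.h i * 1 ≤ m ∧ m ≤ (D.C - D.h i) * 1} = wN m := by
    decide +kernel
  rw [← key m hm]
  congr 1
  apply Finset.filter_congr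
  intro i _
  unfold blk
  rw [Finset.mem_Icc]

lemma exch {M : Type*} [CommMonoid M] (f : ℕ → M) (l : ℕ) :
    ∏ i ∈ D.P, ∏ m ∈ (blk D 1 (D.h i)).erase l, f m =
      ∏ m ∈ (Finset.range 256).erase l, f m ^ wN m := by
  rw [Finset.prod_comm' (s := D.P) (t := fun i => (blk D 1 (D.h i)).erase l)
    (t' := (Finset.range 256).erase l) (s' := fun m => {i ∈ D.P | m ∈ blk D 1 (D.h i)})]
  · apply Finset.prod_congr rfl
    intro m hm
    rw [Finset.prod_const, card_P m (Finset.mem_range.1 (Finset.mem_of_mem_erase hm))]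
  · intro i m
    rw [Finset.mem_erase, Finset.mem_erase, Finset.mem_filter, Finset.mem_range]
    constructor
    · rintro ⟨h1, h2, h3⟩
      refine ⟨⟨h1, h3⟩, h2, ?_⟩
      unfold blk at h3
      rw [Finset.mem_Icc] at h3
      have h4 : (D.C - D.h i) * 1 ≤ 214 := by
        show (214 - D.h i) * 1 ≤ 214
        omega
      omega
    · rintro ⟨⟨h1, h2⟩, h3, h4⟩
      exact ⟨h1, h3, h2⟩

lemma rel_shift (x : ℤ) (y : ℕ) (h : ((x : ℤ) : ZMod 1289) = (y : ZMod 1289)) (z : ℚ) (hz : z = x) :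
    Rel 1289 z (y : ZMod 1289) := by
  rw [hz, ← h]
  exact Rel.int x

lemma rel_gL (l : ℕ) (hl : l ≤ 146) : RelPS 1289
    (PowerSeries.C (214 - 2 * (l : ℚ)) + PowerSeries.C 2 * PowerSeries.X) (gL l) := by
  unfold gL
  apply RelPS.add
  · apply RelPS.C
    apply rel_shift (214 - 2 * (l : ℤ))
    · have h1 : ((1503 - 2 * l : ℕ) : ZMod 1289) = (((1503 - 2 * l : ℕ) : ℤ) : ZMod 1289) := by simp
      rw [h1, Nat.cast_sub (by omega)]
      push_cast
      have h2 : (1503 : ZMod 1289) = 214 := by decide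
      rw [h2]
    · push_cast
      ring
  · apply RelPS.mul _ RelPS.X
    apply RelPS.C
    have := Rel.nat (q := 1289) 2
    simpa using this

lemma rel_gZ (l : ℕ) (hl : l ≤ 146) : RelPS 1289
    (∏ u ∈ (Z D 1).erase (6 * l), (PowerSeries.C ((u : ℚ) - 6 * l) +
      PowerSeries.C 6 * PowerSeries.X)) (gZ l) := by
  unfold gZ
  apply RelPS.prod
  intro u _
  rw [pow_one]
  apply RelPS.add
  · apply RelPS.C
    apply rel_shift ((u : ℤ) - 6 * (l : ℤ))
    · have h1 : ((u + (1289 - 6 * l) : ℕ) : ZMod 1289) =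
        (((u + (1289 - 6 * l) : ℕ) : ℤ) : ZMod 1289) := by simp
      rw [h1, Nat.cast_add, Nat.cast_sub (by omega)]
      push_cast
      have h2 : (1289 : ZMod 1289) = 0 := by decide
      rw [h2]
      ring
    · push_cast
      ring
  · apply RelPS.mul _ RelPS.X
    apply RelPS.C
    have := Rel.nat (q := 1289) 6
    simpa using this

lemma rel_gB (l : ℕ) (hl : l ≤ 146) : RelPS 1289 (∏ i ∈ D.P, B D 1 (D.h i) l) (gB l) := by
  have h0 : gB l = ∏ i ∈ D.P, ∏ m ∈ (blk D 1 (D.h i)).erase l,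
      (PowerSeries.C ((m + (1289 - l) : ℕ) : ZMod 1289) +
        PowerSeries.C ((1 : ℕ) : ZMod 1289) * PowerSeries.X) := by
    rw [exch]
    rfl
  rw [h0]
  apply RelPS.prod
  intro i _
  unfold B
  apply RelPS.prod
  intro m _
  apply RelPS.add
  · apply RelPS.C
    apply rel_shift ((m : ℤ) - (l : ℤ))
    · have h1 : ((m + (1289 - l) : ℕ) : ZMod 1289) =
        (((m + (1289 - l) : ℕ) : ℤ) : ZMod 1289) := by simp
      rw [h1, Nat.cast_add, Nat.cast_sub (by omega)]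
      push_cast
      have h2 : (1289 : ZMod 1289) = 0 := by decide
      rw [h2]
      ring
    · push_cast
      ring
  · simpa using RelPS.X (q := 1289)

lemma rel_Fs (l : ℕ) (hl : l ≤ 146) (hc : PowerSeries.constantCoeff (gB l) ≠ 0) :
    RelPS 1289 (Fs l) (gF l) := by
  unfold Fs gF
  exact ((rel_gL l hl).mul (rel_gZ l hl)).mul ((rel_gB l hl).inv hc)

end Pool.Agent.TwoOdd.N1
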