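import Pool.Agent.TwoOdd.Defs

/-!
Reduction modulo a prime for rational numbers and rational power series (module N1, helper86).
-/

set_option autoImplicit false

open Finset

namespace Pool.Agent.TwoOdd.N1

section rel

variable {q : ℕ} [Fact q.Prime]

/-- `x` is `q`-integral and reduces to `a` modulo `q` -/
def Rel (q : ℕ) (x : ℚ) (a : ZMod q) : Prop :=
  ∃ n d : ℤ, (d : ZMod q) ≠ 0 ∧ x * d = n ∧ a * (d : ZMod q) = (n : ZMod q)

lemma Rel.den_ne {d : ℤ} (h : (d : ZMod q) ≠ 0) : (d : ℚ) ≠ 0 := by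
  intro h0
  apply h
  have : d = 0 := by exact_mod_cast h0
  rw [this]
  simp

lemma Rel.int (n : ℤ) : Rel q (n : ℚ) (n : ZMod q) := ⟨n, 1, by simp, by simp, by simp⟩

lemma Rel.nat (n : ℕ) : Rel q (n : ℚ) (n : ZMod q) := by
  have := Rel.int (q := q) (n : ℤ)
  simpa using this

lemma Rel.zero : Rel q (0 : ℚ) (0 : ZMod q) := by simpa using Rel.int (q := q) 0

lemma Rel.one : Rel q (1 : ℚ) (1 : ZMod q) := by simpa using Rel.int (q := q) 1

lemma Rel.add {x y : ℚ} {a b : ZMod q} (hx : Rel q x a) (hy : Rel q y b) : Rel q (x + y) (a + b) := by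
  obtain ⟨n, d, hd, h1, h2⟩ := hx
  obtain ⟨m, e, he, h3, h4⟩ := hy
  refine ⟨n * e + m * d, d * e, ?_, ?_, ?_⟩
  · push_cast
    exact mul_ne_zero hd he
  · push_cast
    rw [← h1, ← h3]
    ring
  · push_cast
    rw [← h2, ← h4]
    ring

lemma Rel.mul {x y : ℚ} {a b : ZMod q} (hx : Rel q x a) (hy : Rel q y b) : Rel q (x * y) (a * b) := by
  obtain ⟨n, d, hd, h1, h2⟩ := hx
  obtain ⟨m, e, he, h3, h4⟩ := hy
  refine ⟨n * m, d * e, ?_, ?_, ?_⟩
  · push_cast
    exact mul_ne_zero hd he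
  · push_cast
    rw [← h1, ← h3]
    ring
  · push_cast
    rw [← h2, ← h4]
    ring

lemma Rel.neg {x : ℚ} {a : ZMod q} (hx : Rel q x a) : Rel q (-x) (-a) := by
  have := (Rel.int (q := q) (-1)).mul hx
  simpa using this

lemma Rel.sub {x y : ℚ} {a b : ZMod q} (hx : Rel q x a) (hy : Rel q y b) : Rel q (x - y) (a - b) := by
  rw [sub_eq_add_neg, sub_eq_add_neg]
  exact hx.add hy.neg

lemma Rel.inv {x : ℚ} {a : ZMod q} (hx : Rel q x a) (ha : a ≠ 0) : Rel q x⁻¹ a⁻¹ := by
  obtain ⟨n, d, hd, h1, h2⟩ := hx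
  have hn : (n : ZMod q) ≠ 0 := by
    rw [← h2]
    exact mul_ne_zero ha hd
  have hx0 : x ≠ 0 := by
    intro h0
    rw [h0, zero_mul] at h1
    exact Rel.den_ne hn h1.symm
  refine ⟨d, n, hn, ?_, ?_⟩
  · rw [← h1, ← mul_assoc, inv_mul_cancel₀ hx0, one_mul]
  · rw [← h2, ← mul_assoc, inv_mul_cancel₀ ha, one_mul]

lemma Rel.pow {x : ℚ} {a : ZMod q} (hx : Rel q x a) (k : ℕ) : Rel q (x ^ k) (a ^ k) := by
  induction k with
  | zero => simpa using Rel.one
  | succ k ih =>
    rw [pow_succ, pow_succ]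
    exact ih.mul hx

lemma Rel.div {x y : ℚ} {a b : ZMod q} (hx : Rel q x a) (hy : Rel q y b) (hb : b ≠ 0) :
    Rel q (x / y) (a / b) := by
  rw [div_eq_mul_inv, div_eq_mul_inv]
  exact hx.mul (hy.inv hb)

lemma Rel.sum {ι : Type*} (s : Finset ι) (f : ι → ℚ) (g : ι → ZMod q)
    (h : ∀ i ∈ s, Rel q (f i) (g i)) : Rel q (∑ i ∈ s, f i) (∑ i ∈ s, g i) := by
  classical
  induction s using Finset.induction_on with
  | empty => simpa using Rel.zero
  | insert a s ha ih =>
    rw [Finset.sum_insert ha, Finset.sum_insert ha]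
    exact (h a (Finset.mem_insert_self a s)).add (ih fun i hi => h i (Finset.mem_insert_of_mem hi))

/-- nonvanishing from the reduction -/
lemma Rel.ne_zero {x : ℚ} {a : ZMod q} (hx : Rel q x a) (ha : a ≠ 0) : x ≠ 0 := by
  obtain ⟨n, d, hd, h1, h2⟩ := hx
  intro h0
  rw [h0, zero_mul] at h1
  have hn : n = 0 := by exact_mod_cast h1.symm
  rw [hn] at h2
  simp only [Int.cast_zero, mul_eq_zero] at h2
  rcases h2 with h | h
  · exact ha h
  · exact hd h

end rel

section ps

variable {q : ℕ} [Fact q.Prime]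

/-- coefficientwise reduction -/
def RelPS (q : ℕ) (f : PowerSeries ℚ) (g : PowerSeries (ZMod q)) : Prop :=
  ∀ k, Rel q (PowerSeries.coeff k f) (PowerSeries.coeff k g)

lemma RelPS.mul {f f' : PowerSeries ℚ} {g g' : PowerSeries (ZMod q)} (h : RelPS q f g)
    (h' : RelPS q f' g') : RelPS q (f * f') (g * g') := by
  intro k
  rw [PowerSeries.coeff_mul, PowerSeries.coeff_mul]
  exact Rel.sum _ _ _ fun i _ => (h _).mul (h' _)

lemma RelPS.add {f f' : PowerSeries ℚ} {g g' : PowerSeries (ZMod q)} (h : RelPS q f g)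
    (h' : RelPS q f' g') : RelPS q (f + f') (g + g') := by
  intro k
  rw [map_add, map_add]
  exact (h k).add (h' k)

lemma RelPS.C {x : ℚ} {a : ZMod q} (h : Rel q x a) : RelPS q (PowerSeries.C x) (PowerSeries.C a) := by
  intro k
  rw [PowerSeries.coeff_C, PowerSeries.coeff_C]
  split_ifs
  · exact h
  · exact Rel.zero

lemma RelPS.X : RelPS q (PowerSeries.X) (PowerSeries.X) := by
  intro k
  rw [PowerSeries.coeff_X, PowerSeries.coeff_X]
  split_ifs
  · exact Rel.one
  · exact Rel.zero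

lemma RelPS.one : RelPS q 1 1 := by
  have := RelPS.C (Rel.one (q := q))
  simpa using this

lemma RelPS.prod {ι : Type*} (s : Finset ι) (f : ι → PowerSeries ℚ) (g : ι → PowerSeries (ZMod q))
    (h : ∀ i ∈ s, RelPS q (f i) (g i)) : RelPS q (∏ i ∈ s, f i) (∏ i ∈ s, g i) := by
  classical
  induction s using Finset.induction_on with
  | empty => simpa using RelPS.one
  | insert a s ha ih =>
    rw [Finset.prod_insert ha, Finset.prod_insert ha]
    exact (h a (Finset.mem_insert_self a s)).mul (ih fun i hi => h i (Finset.mem_insert_of_mem hi))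

lemma RelPS.inv {f : PowerSeries ℚ} {g : PowerSeries (ZMod q)} (h : RelPS q f g)
    (hg : PowerSeries.constantCoeff g ≠ 0) : RelPS q f⁻¹ g⁻¹ := by
  have h0 : Rel q (PowerSeries.constantCoeff f)⁻¹ (PowerSeries.constantCoeff g)⁻¹ := by
    have := (h 0)
    rw [PowerSeries.coeff_zero_eq_constantCoeff, PowerSeries.coeff_zero_eq_constantCoeff] at this
    exact this.inv hg
  intro k
  induction k using Nat.strong_induction_on with
  | _ k ih =>
    rw [PowerSeries.coeff_inv, PowerSeries.coeff_inv]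
    split_ifs with hk
    · exact h0
    · apply h0.neg.mul
      apply Rel.sum
      intro x _
      split_ifs with hx
      · exact (h _).mul (ih _ hx)
      · exact Rel.zero

end ps

end Pool.Agent.TwoOdd.N1
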