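import Pool.Agent.TwoOdd.NvZ

/-!
The local expansions at multiples of the prime `n = p`.
Seat: helper55.
-/

open Finset

namespace Pool.Agent.TwoOdd.NVx

open Pool.Agent.TwoOdd

open Pool.Agent.OddZeta (PInt PCong p_inv_nonneg padicNorm_self padicNorm_inv pint_one pint_add
  pint_mul pint_C pint_X pint_prod pint_inv pcong_refl pcong_symm pcong_trans coeff_mul_le pcong_mul
  pint_of_pcong_one p_inv_lt_one norm_eq_one_of_close constantCoeff_norm_of_pcong_one
  ne_zero_of_norm_one pcong_one_prod pcong_one_inv ps_prod_inv rescale_inv rescale_C rescale_X')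
open Pool.Agent.OddZetaG (norm_of_not_dvd G G_const_ne Ecor Ecor_cong eh rescale_G ps_C_inv
  factorial_split)

variable (D : Dat)

/-- the same data, for the pole blocks -/
def toG : Pool.Agent.OddZetaG.Dat where
  C := D.C
  P := D.P
  M := ∅
  h := D.h
  k := 0
  A := D.A
  s := D.s
  lo := D.lo

/-- normalisation of the zeros -/
def KZ (n : ℕ) : ℚ := (4 ^ Nl D n D.hH * 27 ^ Nl D n D.hG) /
  (((D.C * n).factorial : ℚ) * (Nl D n D.hH).factorial * (Nl D n D.hG).factorial ^ 2)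

/-- normalised product over the zeros -/
noncomputable def GZ (n l : ℕ) : PowerSeries ℚ := BZ D n l * PowerSeries.C (KZ D n)

theorem F_eq (n l : ℕ) :
    F D n l = (PowerSeries.C (D.C * (n : ℚ) - 2 * (l : ℚ)) + 2 * PowerSeries.X) * GZ D n l *
      (∏ i ∈ D.P, G (toG D) n (D.h i) l)⁻¹ := by
  have hG : ∀ i, G (toG D) n (D.h i) l = B D n (D.h i) l *
      PowerSeries.C (((Nl D n (D.h i)).factorial : ℚ)⁻¹) := fun i => rfl
  unfold F GZ
  simp only [hG]
  rw [Finset.prod_mul_distrib, PowerSeries.mul_inv_rev, ← map_prod, ps_C_inv]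
  have hK : PowerSeries.C (K D n) = PowerSeries.C (KZ D n) *
      PowerSeries.C (∏ i ∈ D.P, ((Nl D n (D.h i)).factorial : ℚ)⁻¹)⁻¹ := by
    rw [← map_mul]
    congr 1
    unfold K KZ
    rw [Finset.prod_inv_distrib, inv_inv]
    ring
  rw [hK]
  ring

theorem card_Z (n : ℕ) : (Z D n).card = (D.C * n + 1) + ((D.C - D.hH) * n - D.hH * n) +
    2 * ((D.C - D.hG) * n - D.hG * n) := by
  have h := Z_prod D n (fun _ => (2 : ℕ))
  simp only [Finset.prod_const, Finset.card_range, Nat.card_Ico, ← pow_add] at h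
  have := Nat.pow_right_injective (le_refl 2) h
  omega

variable {p : ℕ} [hp : Fact p.Prime]

theorem p_mod_six (h5 : 5 ≤ p) : p % 6 = 1 ∨ p % 6 = 5 := by
  have h2 : ¬ 2 ∣ p := by
    intro h
    have := (Nat.prime_dvd_prime_iff_eq Nat.prime_two hp.out).1 h
    omega
  have h3 : ¬ 3 ∣ p := by
    intro h
    have := (Nat.prime_dvd_prime_iff_eq Nat.prime_three hp.out).1 h
    omega
  omega

theorem Z_mul_iff (h5 : 5 ≤ p) (v : ℕ) : p * v ∈ Z D p ↔ v ∈ Z D 1 := by
  have hp0 : 0 < p := hp.out.pos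
  have e1 : ∀ a b : ℕ, 6 * (a * p) < p * b ↔ 6 * a < b := by
    intro a b
    have : 6 * (a * p) = p * (6 * a) := by ring
    rw [this]
    exact Nat.mul_lt_mul_left hp0
  have e2 : ∀ a b : ℕ, p * b < 6 * (a * p) ↔ b < 6 * a := by
    intro a b
    have : 6 * (a * p) = p * (6 * a) := by ring
    rw [this]
    exact Nat.mul_lt_mul_left hp0
  have e3 : ∀ a b : ℕ, p * b ≤ 6 * (a * p) ↔ b ≤ 6 * a := by
    intro a b
    have : 6 * (a * p) = p * (6 * a) := by ring
    rw [this]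
    exact Nat.mul_le_mul_left_iff hp0
  have hm : (p * v) % 6 = ((p % 6) * (v % 6)) % 6 := Nat.mul_mod _ _ _
  have m0 : (p * v) % 6 = 0 ↔ v % 6 = 0 := by
    rcases p_mod_six (p := p) h5 with h | h <;> rw [hm, h] <;> omega
  have m3 : (p * v) % 6 = 3 ↔ v % 6 = 3 := by
    rcases p_mod_six (p := p) h5 with h | h <;> rw [hm, h] <;> omega
  have m2 : ((p * v) % 6 = 2 ∨ (p * v) % 6 = 4) ↔ (v % 6 = 2 ∨ v % 6 = 4) := by
    rcases p_mod_six (p := p) h5 with h | h <;> rw [hm, h] <;> omega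
  simp only [Z, Finset.mem_filter, Finset.mem_Icc, m0, m3, m2, e1, e2, e3, mul_one, Nat.zero_le,
    true_and]

theorem Z_filter_dvd (h5 : 5 ≤ p) (j : ℕ) : ((Z D p).erase (6 * (p * j))).filter (fun u => p ∣ u) =
    ((Z D 1).erase (6 * j)).image (fun v => p * v) := by
  have hp0 : 0 < p := hp.out.pos
  ext u
  simp only [Finset.mem_filter, Finset.mem_erase, Finset.mem_image]
  constructor
  · rintro ⟨⟨h1, h2⟩, v, rfl⟩
    refine ⟨v, ⟨?_, (Z_mul_iff D h5 v).1 h2⟩, rfl⟩
    rintro rfl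
    apply h1; ring
  · rintro ⟨v, ⟨h1, h2⟩, rfl⟩
    refine ⟨⟨?_, (Z_mul_iff D h5 v).2 h2⟩, Dvd.intro _ rfl⟩
    intro h
    apply h1
    have : 6 * (p * j) = p * (6 * j) := by ring
    rw [this] at h
    exact Nat.eq_of_mul_eq_mul_left hp0 h

omit hp in
theorem Z_filter_not_dvd (j : ℕ) : ((Z D p).erase (6 * (p * j))).filter (fun u => ¬ p ∣ u) =
    (Z D p).filter (fun u => ¬ p ∣ u) := by
  ext u
  simp only [Finset.mem_filter, Finset.mem_erase]
  constructor
  · rintro ⟨⟨h1, h2⟩, h3⟩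
    exact ⟨h2, h3⟩
  · rintro ⟨h2, h3⟩
    refine ⟨⟨?_, h2⟩, h3⟩
    rintro rfl
    exact h3 ⟨6 * j, by ring⟩

/-- the correction factor of the zeros -/
noncomputable def EZ (p j : ℕ) : PowerSeries ℚ :=
  PowerSeries.C ((cA D p : ℚ) / cB D p) * ∏ u ∈ (Z D p).filter (fun u => ¬ p ∣ u),
    (PowerSeries.C (1 - 6 * (j : ℚ) * p / u) + PowerSeries.C (6 * (p : ℚ) / u) * PowerSeries.X)

theorem EZ_cong (h5 : 5 ≤ p) (hH : 2 * D.hH ≤ D.C) (hG : 2 * D.hG ≤ D.C) (j : ℕ) :
    PCong p (EZ D p j) 1 := by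
  unfold EZ
  have h1 : PCong p (PowerSeries.C ((cA D p : ℚ) / cB D p)) 1 := by
    intro k
    have e : PowerSeries.C ((cA D p : ℚ) / cB D p) - 1
        = PowerSeries.C ((cA D p : ℚ) / cB D p - 1) := by
      rw [map_sub, map_one]
    rw [e, PowerSeries.coeff_C]
    split_ifs
    · exact cAB_close D h5 hH hG
    · rw [padicNorm.zero]; exact p_inv_nonneg
  have h2 : PCong p (∏ u ∈ (Z D p).filter (fun u => ¬ p ∣ u),
      (PowerSeries.C (1 - 6 * (j : ℚ) * p / u) + PowerSeries.C (6 * (p : ℚ) / u) * PowerSeries.X)) 1 := by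
    refine pcong_one_prod _ _ ?_
    intro u hu
    have hr' : padicNorm p (u : ℚ) = 1 := norm_of_not_dvd (Finset.mem_filter.1 hu).2
    intro k
    have e : (PowerSeries.C (1 - 6 * (j : ℚ) * p / u) + PowerSeries.C (6 * (p : ℚ) / u) *
        PowerSeries.X) - 1
        = PowerSeries.C (((p : ℚ) / u) * ((-(6 * j : ℤ) : ℤ) : ℚ)) +
          PowerSeries.C (((p : ℚ) / u) * ((6 : ℤ) : ℚ)) * PowerSeries.X := by
      have : (1 : PowerSeries ℚ) = PowerSeries.C 1 := by simp
      rw [this, add_sub_right_comm, ← map_sub]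
      congr 2
      · push_cast; ring
      · congr 1; push_cast; ring
    rw [e, map_add, PowerSeries.coeff_C, PowerSeries.coeff_C_mul, PowerSeries.coeff_X]
    have hpr : padicNorm p ((p : ℚ) / u) = (p : ℚ)⁻¹ := by
      rw [padicNorm.div, hr', padicNorm_self, div_one]
    refine (padicNorm.nonarchimedean).trans (max_le ?_ ?_)
    · split_ifs
      · rw [padicNorm.mul, hpr]
        exact mul_le_of_le_one_right p_inv_nonneg (padicNorm.of_int _)
      · rw [padicNorm.zero]; exact p_inv_nonneg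
    · split_ifs
      · rw [mul_one, padicNorm.mul, hpr]
        exact mul_le_of_le_one_right p_inv_nonneg (padicNorm.of_int _)
      · rw [mul_zero, padicNorm.zero]; exact p_inv_nonneg
  have := pcong_mul (pint_of_pcong_one h1) pint_one h1 h2
  simpa using this

omit hp in
theorem fac'_eq (N : ℕ) : (fac' p N : ℚ) = ∏ r ∈ (Finset.Icc 1 N).filter (fun r => ¬ p ∣ r), (r : ℚ) := by
  unfold fac'
  rw [Finset.prod_filter]
  push_cast
  refine Finset.prod_congr rfl (fun r _ => ?_)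
  unfold nz
  by_cases h : p ∣ r <;> simp [h]

theorem fac_split (h : ℕ) : ((Nl D p h).factorial : ℚ) =
    (p : ℚ) ^ (D.C - 2 * h) * ((D.C - 2 * h).factorial : ℚ) * fac' p ((D.C - 2 * h) * p) := by
  rw [fac'_eq]
  exact factorial_split (toG D) hp.out.pos h

omit hp in
theorem prod_Z_div : ∏ u ∈ (Z D p).filter (fun u => ¬ p ∣ u), ((u : ℚ) / 6) =
    ((∏ u ∈ Z D p, nz p u : ℕ) : ℚ) / ((∏ u ∈ Z D p, if p ∣ u then 1 else 6 : ℕ) : ℚ) := by
  rw [Finset.prod_filter]
  push_cast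
  rw [← Finset.prod_div_distrib]
  refine Finset.prod_congr rfl (fun u _ => ?_)
  unfold nz
  by_cases h : p ∣ u <;> simp [h]

theorem KZ_mul : (p : ℚ) ^ (D.C + (D.C - 2 * D.hH) + 2 * (D.C - 2 * D.hG)) *
    (∏ u ∈ (Z D p).filter (fun u => ¬ p ∣ u), ((u : ℚ) / 6)) * KZ D p =
      KZ D 1 * ((cA D p : ℚ) / cB D p) := by
  have hp0 : 0 < p := hp.out.pos
  have hpq : (p : ℚ) ≠ 0 := by exact_mod_cast hp0.ne'
  have hC := fac_split D (p := p) 0
  have e0 : Nl D p 0 = D.C * p := by unfold Nl; simp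
  rw [e0, mul_zero, Nat.sub_zero] at hC
  have hH := fac_split D (p := p) D.hH
  have hG := fac_split D (p := p) D.hG
  have hf : ∀ N, (fac' p N : ℚ) ≠ 0 := by
    intro N h
    have h1 : fac' p N = 0 := by exact_mod_cast h
    exact fac'_not_dvd (p := p) N (h1 ▸ dvd_zero p)
  have h6 : ((∏ u ∈ Z D p, if p ∣ u then 1 else 6 : ℕ) : ℚ) ≠ 0 := by
    push_cast
    rw [Finset.prod_ne_zero_iff]
    intro u _
    split_ifs <;> norm_num
  rw [prod_Z_div]
  unfold KZ cA cB
  rw [hC, hH, hG]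
  have n1 : ∀ h, Nl D 1 h = D.C - 2 * h := by intro h; unfold Nl; rw [mul_one]
  have n2 : ∀ h, Nl D p h = (D.C - 2 * h) + (p - 1) * (D.C - 2 * h) := by
    intro h; unfold Nl
    obtain ⟨q, hq⟩ : ∃ q, p = q + 1 := ⟨p - 1, by omega⟩
    rw [hq]
    simp only [Nat.add_sub_cancel]
    ring
  rw [n1, n1, n2, n2, mul_one]
  generalize D.C - 2 * D.hH = x at *
  generalize D.C - 2 * D.hG = y at *
  have i1 := hf (D.C * p)
  have i2 := hf (x * p)
  have i3 := hf (y * p)
  push_cast at h6 ⊢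
  rw [pow_add, pow_add, pow_add, pow_add]
  field_simp
  ring

theorem rescale_GZ (h5 : 5 ≤ p) (hH : 2 * D.hH ≤ D.C) (hG : 2 * D.hG ≤ D.C) (j : ℕ) (hj : j ≤ D.C) :
    PowerSeries.rescale (p : ℚ) (GZ D p (p * j)) = GZ D 1 j * EZ D p j := by
  have hp0 : 0 < p := hp.out.pos
  have hpq : (p : ℚ) ≠ 0 := by exact_mod_cast hp0.ne'
  have hmem : 6 * j ∈ Z D 1 := by
    unfold Z
    rw [Finset.mem_filter, Finset.mem_Icc]
    refine ⟨⟨Nat.zero_le _, by omega⟩, Or.inl (by omega)⟩
  have hcard : ((Z D 1).erase (6 * j)).card = D.C + (D.C - 2 * D.hH) + 2 * (D.C - 2 * D.hG) := by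
    rw [Finset.card_erase_of_mem hmem, card_Z]
    omega
  have h1 : PowerSeries.rescale (p : ℚ) (BZ D p (p * j))
      = PowerSeries.C ((p : ℚ) ^ (D.C + (D.C - 2 * D.hH) + 2 * (D.C - 2 * D.hG))) * BZ D 1 j *
        (PowerSeries.C (∏ u ∈ (Z D p).filter (fun u => ¬ p ∣ u), ((u : ℚ) / 6)) *
          ∏ u ∈ (Z D p).filter (fun u => ¬ p ∣ u),
          (PowerSeries.C (1 - 6 * (j : ℚ) * p / u) + PowerSeries.C (6 * (p : ℚ) / u) *
            PowerSeries.X)) := by
    unfold BZ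
    rw [map_prod, ← Finset.prod_filter_mul_prod_filter_not ((Z D p).erase (6 * (p * j)))
      (fun u => p ∣ u), Z_filter_dvd D h5, Z_filter_not_dvd D, Finset.prod_image]
    · congr 1
      · have : ∀ v ∈ (Z D 1).erase (6 * j), PowerSeries.rescale (p : ℚ)
            (PowerSeries.C (((p * v : ℕ) : ℚ) / 6 - ((p * j : ℕ) : ℚ)) + PowerSeries.X)
            = PowerSeries.C (p : ℚ) * (PowerSeries.C ((v : ℚ) / 6 - (j : ℚ)) + PowerSeries.X) := by
          intro v _
          rw [map_add, rescale_C, rescale_X', mul_add, ← map_mul]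
          congr 3
          push_cast; ring
        rw [Finset.prod_congr rfl this, Finset.prod_mul_distrib, Finset.prod_const, map_pow, hcard]
      · rw [map_prod, ← Finset.prod_mul_distrib]
        refine Finset.prod_congr rfl ?_
        intro u hu
        have hu0 : (u : ℚ) ≠ 0 := by
          have h3 := (Finset.mem_filter.1 hu).2
          intro h4
          have h5 : u = 0 := by exact_mod_cast h4
          exact h3 (h5 ▸ dvd_zero p)
        rw [map_add, rescale_C, rescale_X', mul_add, ← map_mul, ← mul_assoc, ← map_mul]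
        congr 3
        · push_cast; field_simp
        · field_simp
    · intro x _ y _ hxy
      exact Nat.eq_of_mul_eq_mul_left hp0 hxy
  unfold GZ EZ
  rw [map_mul, rescale_C, h1]
  have key := congrArg (PowerSeries.C (R := ℚ)) (KZ_mul D (p := p))
  rw [map_mul, map_mul, map_mul] at key
  linear_combination (BZ D 1 j * ∏ u ∈ (Z D p).filter (fun u => ¬ p ∣ u),
          (PowerSeries.C (1 - 6 * (j : ℚ) * p / u) + PowerSeries.C (6 * (p : ℚ) / u) *
            PowerSeries.X)) * key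

end Pool.Agent.TwoOdd.NVx
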