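import Pool.Agent.TwoOdd.Defs
import Pool.Agent.OddZetaG.Nonvan

/-!
The zero blocks at multiples of the prime `n = p`.
Seat: helper55.
-/

open Finset

namespace Pool.Agent.TwoOdd.NVx

open Pool.Agent.TwoOdd

open Pool.Agent.OddZeta (PInt PCong p_inv_nonneg padicNorm_self padicNorm_inv pint_one pint_add
  pint_mul pint_C pint_X pint_prod pint_inv pcong_refl pcong_symm pcong_trans coeff_mul_le pcong_mul
  pint_of_pcong_one p_inv_lt_one norm_eq_one_of_close constantCoeff_norm_of_pcong_one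
  ne_zero_of_norm_one pcong_one_prod pcong_one_inv ps_prod_inv rescale_inv rescale_C rescale_X')
open Pool.Agent.OddZetaG (norm_of_not_dvd)

variable (D : Dat)

/-! ### products over the zeros -/

theorem Z_prod {β : Type*} [CommMonoid β] (n : ℕ) (f : ℕ → β) :
    ∏ u ∈ Z D n, f u = (∏ m ∈ Finset.range (D.C * n + 1), f (6 * m)) *
      (∏ m ∈ Finset.Ico (D.hH * n) ((D.C - D.hH) * n), f (6 * m + 3)) *
      (∏ m ∈ Finset.Ico (D.hG * n) ((D.C - D.hG) * n), f (6 * m + 2)) *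
      (∏ m ∈ Finset.Ico (D.hG * n) ((D.C - D.hG) * n), f (6 * m + 4)) := by
  have hb : ∀ h : ℕ, (D.C - h) * n ≤ D.C * n := fun h => Nat.mul_le_mul_right _ (Nat.sub_le _ _)
  have hH := hb D.hH
  have hG := hb D.hG
  have hs : Z D n = (((Finset.range (D.C * n + 1)).image (fun m => 6 * m)).disjUnion
      ((Finset.Ico (D.hH * n) ((D.C - D.hH) * n)).image (fun m => 6 * m + 3)) (by
        rw [Finset.disjoint_left]
        intro x hx hy
        simp only [Finset.mem_image] at hx hy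
        obtain ⟨a, _, rfl⟩ := hx
        obtain ⟨b, _, hb⟩ := hy
        omega)).disjUnion
      (((Finset.Ico (D.hG * n) ((D.C - D.hG) * n)).image (fun m => 6 * m + 2)).disjUnion
      ((Finset.Ico (D.hG * n) ((D.C - D.hG) * n)).image (fun m => 6 * m + 4)) (by
        rw [Finset.disjoint_left]
        intro x hx hy
        simp only [Finset.mem_image] at hx hy
        obtain ⟨a, _, rfl⟩ := hx
        obtain ⟨b, _, hb⟩ := hy
        omega)) (by
        rw [Finset.disjoint_left]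
        intro x hx hy
        simp only [Finset.mem_disjUnion, Finset.mem_image] at hx hy
        rcases hx with ⟨a, _, rfl⟩ | ⟨a, _, rfl⟩ <;> rcases hy with ⟨b, _, hb⟩ | ⟨b, _, hb⟩ <;> omega) := by
    ext u
    simp only [Z, Finset.mem_filter, Finset.mem_Icc, Finset.mem_disjUnion, Finset.mem_image,
      Finset.mem_range, Finset.mem_Ico]
    generalize D.C * n = a at *
    generalize (D.C - D.hH) * n = b at *
    generalize D.hH * n = c at *
    generalize (D.C - D.hG) * n = d at *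
    generalize D.hG * n = e at *
    constructor
    · rintro ⟨⟨h1, h2⟩, h3 | ⟨h3, h4, h5⟩ | ⟨h3, h4, h5⟩⟩
      · exact Or.inl (Or.inl ⟨u / 6, by omega, by omega⟩)
      · exact Or.inl (Or.inr ⟨u / 6, by omega, by omega⟩)
      · rcases h3 with h3 | h3
        · exact Or.inr (Or.inl ⟨u / 6, by omega, by omega⟩)
        · exact Or.inr (Or.inr ⟨u / 6, by omega, by omega⟩)
    · rintro ((⟨m, h1, rfl⟩ | ⟨m, h1, rfl⟩) | (⟨m, h1, rfl⟩ | ⟨m, h1, rfl⟩)) <;> omega
  rw [hs, Finset.prod_disjUnion, Finset.prod_disjUnion, Finset.prod_disjUnion, Finset.prod_image,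
    Finset.prod_image, Finset.prod_image, Finset.prod_image]
  · simp only [mul_assoc]
  all_goals
    intro x _ y _ hxy
    simp only at hxy
    omega

/-- products of periodic functions -/
theorem prod_blocks {p : ℕ} [NeZero p] {β : Type*} [CommMonoid β] (φ : ZMod p → β)
    (A N : ℕ) :
    ∏ m ∈ Finset.Ico (A * p) ((A + N) * p), φ (m : ZMod p) = (∏ x : ZMod p, φ x) ^ N := by
  induction N with
  | zero => simp
  | succ N ih =>
    rw [← Finset.prod_Ico_consecutive _ (show A * p ≤ (A + N) * p by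
        exact Nat.mul_le_mul_right _ (by omega))
      (show (A + N) * p ≤ (A + (N + 1)) * p by exact Nat.mul_le_mul_right _ (by omega)), ih, pow_succ]
    congr 1
    have e : (A + (N + 1)) * p = (A + N) * p + p := by ring
    rw [e, Finset.prod_Ico_eq_prod_range, Nat.add_sub_cancel_left]
    have e2 : ∀ k : ℕ, (((A + N) * p + k : ℕ) : ZMod p) = (k : ZMod p) := by
      intro k
      push_cast
      rw [ZMod.natCast_self]
      ring
    simp only [e2]
    refine Finset.prod_bij (fun k _ => (k : ZMod p)) (fun _ _ => Finset.mem_univ _) ?_ ?_ ?_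
    · intro a ha b hb hab
      rw [Finset.mem_range] at ha hb
      have := (ZMod.natCast_eq_natCast_iff' a b p).1 hab
      rwa [Nat.mod_eq_of_lt ha, Nat.mod_eq_of_lt hb] at this
    · intro x _
      exact ⟨x.val, Finset.mem_range.2 (ZMod.val_lt x), ZMod.natCast_zmod_val x⟩
    · intro _ _
      rfl

variable {p : ℕ} [hp : Fact p.Prime]

theorem prod_affine {β : Type*} [CommMonoid β] (g : ZMod p → β) (d a : ℕ) (hd : ¬ p ∣ d) :
    ∏ x : ZMod p, g ((d : ZMod p) * x + a) = ∏ x : ZMod p, g x := by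
  have hd0 : (d : ZMod p) ≠ 0 := by
    rw [Ne, ZMod.natCast_eq_zero_iff]
    exact hd
  refine Fintype.prod_bijective (fun x : ZMod p => (d : ZMod p) * x + a) ?_ _ _ (fun _ => rfl)
  refine (Finite.injective_iff_bijective).1 ?_
  intro x y hxy
  simp only at hxy
  exact mul_left_cancel₀ hd0 (add_right_cancel hxy)

theorem prod_ap {β : Type*} [CommMonoid β] (g : ZMod p → β) (d a : ℕ) (hd : ¬ p ∣ d) (A N : ℕ) :
    ∏ m ∈ Finset.Ico (A * p) ((A + N) * p), g ((d * m + a : ℕ) : ZMod p) = (∏ x : ZMod p, g x) ^ N := by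
  rw [← prod_affine g d a hd]
  refine Eq.trans ?_ (prod_blocks (fun x : ZMod p => g ((d : ZMod p) * x + (a : ZMod p))) A N)
  refine Finset.prod_congr rfl (fun m _ => ?_)
  push_cast
  rfl

theorem not_dvd_six (h5 : 5 ≤ p) : ¬ p ∣ 6 := by
  intro h
  have h2 : p ∣ 2 * 3 := h
  rcases (Nat.Prime.dvd_mul hp.out).1 h2 with h3 | h3
  · have := Nat.le_of_dvd (by norm_num) h3; omega
  · have := Nat.le_of_dvd (by norm_num) h3; omega

/-- product of a function with `g 0 = 1` over the zeros, modulo `p` -/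
theorem prod_Z_zmod (h5 : 5 ≤ p) (g : ZMod p → ZMod p) (g0 : g 0 = 1) (hH : 2 * D.hH ≤ D.C)
    (hG : 2 * D.hG ≤ D.C) :
    ∏ u ∈ Z D p, g (u : ZMod p) =
      (∏ x : ZMod p, g x) ^ (D.C + (D.C - 2 * D.hH) + 2 * (D.C - 2 * D.hG)) := by
  have h6 := not_dvd_six h5
  have e1 : ∏ m ∈ Finset.range (D.C * p + 1), g ((6 * m : ℕ) : ZMod p) = (∏ x : ZMod p, g x) ^ D.C := by
    have := prod_ap g 6 0 h6 0 D.C
    rw [Finset.prod_range_succ, ← this]
    have e : ((6 * (D.C * p) : ℕ) : ZMod p) = 0 := by push_cast; simp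
    rw [e, g0, mul_one, Finset.range_eq_Ico, zero_mul, zero_add]
    rfl
  have e2 : ∏ m ∈ Finset.Ico (D.hH * p) ((D.C - D.hH) * p), g ((6 * m + 3 : ℕ) : ZMod p) =
      (∏ x : ZMod p, g x) ^ (D.C - 2 * D.hH) := by
    rw [← prod_ap g 6 3 h6 D.hH (D.C - 2 * D.hH)]
    congr 2
    congr 1
    omega
  have e3 : ∀ a, ∏ m ∈ Finset.Ico (D.hG * p) ((D.C - D.hG) * p), g ((6 * m + a : ℕ) : ZMod p) =
      (∏ x : ZMod p, g x) ^ (D.C - 2 * D.hG) := by
    intro a
    rw [← prod_ap g 6 a h6 D.hG (D.C - 2 * D.hG)]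
    congr 2
    congr 1
    omega
  rw [Z_prod D p (fun u => g (u : ZMod p)), e1, e2, e3, e3]
  ring

/-- the factor itself, or one if it is divisible by `p` -/
def nz (p x : ℕ) : ℕ := if p ∣ x then 1 else x

/-- the factorial without the multiples of `p` -/
def fac' (p N : ℕ) : ℕ := ∏ r ∈ Finset.Icc 1 N, nz p r

/-- all units -/
noncomputable def WW (p : ℕ) [Fact p.Prime] : ZMod p := ∏ x : ZMod p, if x = 0 then 1 else x

theorem nz_cast (x : ℕ) : ((nz p x : ℕ) : ZMod p) = if (x : ZMod p) = 0 then 1 else (x : ZMod p) := by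
  unfold nz
  by_cases h : p ∣ x
  · have h' := (ZMod.natCast_eq_zero_iff x p).2 h
    rw [if_pos h, if_pos h', Nat.cast_one]
  · have h' := fun h2 => h ((ZMod.natCast_eq_zero_iff x p).1 h2)
    rw [if_neg h, if_neg h']

theorem nz_not_dvd (x : ℕ) : ¬ p ∣ nz p x := by
  unfold nz
  split_ifs with h
  · exact hp.out.one_lt.ne' ∘ Nat.dvd_one.1
  · exact h

theorem fac'_cast (N : ℕ) : ((fac' p (N * p) : ℕ) : ZMod p) = WW p ^ N := by
  unfold fac' WW
  have h1 : ¬ p ∣ 1 := hp.out.one_lt.ne' ∘ Nat.dvd_one.1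
  rw [← prod_ap (fun x : ZMod p => if x = 0 then 1 else x) 1 1 h1 0 N]
  push_cast
  rw [zero_mul, zero_add, Finset.prod_Ico_eq_prod_range]
  rw [show Finset.Icc 1 (N * p) = Finset.Ico 1 (N * p + 1) by
    ext x; simp only [Finset.mem_Icc, Finset.mem_Ico]; omega, Finset.prod_Ico_eq_prod_range]
  simp only [Nat.add_sub_cancel, Nat.sub_zero]
  refine Finset.prod_congr rfl (fun m _ => ?_)
  rw [nz_cast]
  push_cast
  have e : (1 : ZMod p) * (0 + m) + 1 = 1 + m := by ring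
  rw [e]

theorem fac'_not_dvd (N : ℕ) : ¬ p ∣ fac' p N := by
  unfold fac'
  intro h
  obtain ⟨r, _, h2⟩ := (Prime.dvd_finsetProd_iff hp.out.prime _).1 h
  exact nz_not_dvd r h2

/-- numerator of the constant -/
def cA (p : ℕ) : ℕ := (∏ u ∈ Z D p, nz p u) * (4 ^ ((p - 1) * (D.C - 2 * D.hH)) *
  27 ^ ((p - 1) * (D.C - 2 * D.hG)))

/-- denominator of the constant -/
def cB (p : ℕ) : ℕ := (∏ u ∈ Z D p, if p ∣ u then 1 else 6) * (fac' p (D.C * p) *
  fac' p ((D.C - 2 * D.hH) * p) * fac' p ((D.C - 2 * D.hG) * p) ^ 2)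

theorem cA_cast (h5 : 5 ≤ p) (hH : 2 * D.hH ≤ D.C) (hG : 2 * D.hG ≤ D.C) :
    ((cA D p : ℕ) : ZMod p) = WW p ^ (D.C + (D.C - 2 * D.hH) + 2 * (D.C - 2 * D.hG)) := by
  have h1 := prod_Z_zmod D h5 (fun x : ZMod p => if x = 0 then 1 else x) (if_pos rfl) hH hG
  have h4 : ((4 : ℕ) : ZMod p) ≠ 0 := by
    rw [Ne, ZMod.natCast_eq_zero_iff]
    intro h
    have := Nat.le_of_dvd (by norm_num) h; omega
  have h27 : ((27 : ℕ) : ZMod p) ≠ 0 := by
    rw [Ne, ZMod.natCast_eq_zero_iff]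
    intro h
    have h3 : p ∣ 3 ^ 3 := h
    have h4 := Nat.le_of_dvd (by norm_num) (hp.out.dvd_of_dvd_pow h3)
    omega
  have f4 := ZMod.pow_card_sub_one_eq_one h4
  have f27 := ZMod.pow_card_sub_one_eq_one h27
  unfold cA
  rw [Nat.cast_mul, Nat.cast_mul, Nat.cast_pow, Nat.cast_pow, pow_mul, pow_mul, f4, f27, one_pow,
    one_pow, mul_one, mul_one, Nat.cast_prod]
  simp only [nz_cast]
  exact h1

theorem cB_cast (h5 : 5 ≤ p) (hH : 2 * D.hH ≤ D.C) (hG : 2 * D.hG ≤ D.C) :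
    ((cB D p : ℕ) : ZMod p) = WW p ^ (D.C + (D.C - 2 * D.hH) + 2 * (D.C - 2 * D.hG)) := by
  have h1 := prod_Z_zmod D h5 (fun x : ZMod p => if x = 0 then 1 else ((6 : ℕ) : ZMod p))
    (if_pos rfl) hH hG
  have h6 : ((6 : ℕ) : ZMod p) ≠ 0 := by
    rw [Ne, ZMod.natCast_eq_zero_iff]
    exact not_dvd_six h5
  have f6 := ZMod.pow_card_sub_one_eq_one h6
  have h2 : ∏ x : ZMod p, (if x = 0 then 1 else ((6 : ℕ) : ZMod p)) = 1 := by
    rw [Finset.prod_ite, Finset.prod_const_one, one_mul, Finset.prod_const]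
    have h3 : (Finset.univ.filter (fun x : ZMod p => ¬ x = 0)).card = p - 1 := by
      have h4 : (Finset.univ.filter (fun x : ZMod p => ¬ x = 0)) = Finset.univ.erase 0 := by
        ext x; simp
      rw [h4, Finset.card_erase_of_mem (Finset.mem_univ _), Finset.card_univ, ZMod.card]
    rw [h3, f6]
  rw [h2, one_pow] at h1
  unfold cB
  rw [Nat.cast_mul, Nat.cast_mul, Nat.cast_mul, Nat.cast_pow, fac'_cast, fac'_cast, fac'_cast,
    Nat.cast_prod]
  have h3 : ∏ u ∈ Z D p, (((if p ∣ u then 1 else 6 : ℕ)) : ZMod p) = 1 := by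
    rw [← h1]
    refine Finset.prod_congr rfl (fun u _ => ?_)
    by_cases h : p ∣ u
    · have h' := (ZMod.natCast_eq_zero_iff u p).2 h
      rw [if_pos h, if_pos h', Nat.cast_one]
    · have h' := fun h2 => h ((ZMod.natCast_eq_zero_iff u p).1 h2)
      rw [if_neg h, if_neg h']
  rw [h3]
  ring

theorem cB_not_dvd (h5 : 5 ≤ p) : ¬ p ∣ cB D p := by
  unfold cB
  rw [hp.out.dvd_mul, hp.out.dvd_mul, hp.out.dvd_mul, not_or, not_or, not_or]
  refine ⟨?_, ⟨fac'_not_dvd _, fac'_not_dvd _⟩, ?_⟩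
  · intro h
    obtain ⟨r, _, h2⟩ := (Prime.dvd_finsetProd_iff hp.out.prime _).1 h
    split_ifs at h2
    · exact hp.out.one_lt.ne' (Nat.dvd_one.1 h2)
    · exact not_dvd_six h5 h2
  · intro h
    exact fac'_not_dvd _ (hp.out.dvd_of_dvd_pow h)

/-- the constant is congruent to one -/
theorem cAB_close (h5 : 5 ≤ p) (hH : 2 * D.hH ≤ D.C) (hG : 2 * D.hG ≤ D.C) :
    padicNorm p ((cA D p : ℚ) / cB D p - 1) ≤ (p : ℚ)⁻¹ := by
  have hB := cB_not_dvd D h5
  have hBn : padicNorm p (cB D p : ℚ) = 1 := norm_of_not_dvd hB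
  have hB0 : (cB D p : ℚ) ≠ 0 := by
    intro h
    rw [h, padicNorm.zero] at hBn
    exact zero_ne_one hBn
  have e : (cA D p : ℚ) / cB D p - 1 = (((cA D p : ℤ) - cB D p : ℤ) : ℚ) / cB D p := by
    push_cast
    field_simp
  rw [e, padicNorm.div, hBn, div_one]
  have h1 : (((cA D p : ℤ) - cB D p : ℤ) : ZMod p) = 0 := by
    push_cast
    rw [cA_cast D h5 hH hG, cB_cast D h5 hH hG, sub_self]
  have h2 : (p : ℤ) ∣ (cA D p : ℤ) - cB D p := (ZMod.intCast_zmod_eq_zero_iff_dvd _ _).1 h1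
  have h3 := (padicNorm.dvd_iff_norm_le (p := p) (n := 1) (z := (cA D p : ℤ) - cB D p)).1 (by simpa using h2)
  simpa using h3

end Pool.Agent.TwoOdd.NVx
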