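import Pool.Agent.TwoOdd.SizeDefs
import Pool.Agent.OddZetaG.RealSize

set_option autoImplicit false

/-!
# Real size of `R D n` (module SZ1: `R_bound`)

Seat: helper96.
-/

open Finset

namespace Pool.Agent.TwoOdd

open Real
open Pool.Agent.OddZetaG (fact_geR fact_leR)

/-! ### the function `y log |y| - y` -/

/-- `y log |y| - y` -/
noncomputable def Ps (y : ℝ) : ℝ := XL y - y

theorem Ps_neg (y : ℝ) : Ps (-y) = -Ps y := by
  unfold Ps XL
  rw [abs_neg]
  ring

theorem Ps_zero : Ps 0 = 0 := by simp [Ps, XL]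

theorem Ps_one : Ps 1 = -1 := by simp [Ps, XL]

theorem Ps_of_pos {y : ℝ} (hy : 0 < y) : Ps y = y * log y - y := by
  unfold Ps XL
  rw [abs_of_pos hy]

theorem Ps_diff_le {a b : ℝ} (ha : 0 < a) (hb : 0 < b) : Ps b - Ps a ≤ (b - a) * log b := by
  rw [Ps_of_pos ha, Ps_of_pos hb]
  have h1 : log (b / a) ≤ b / a - 1 := log_le_sub_one_of_pos (by positivity)
  rw [log_div hb.ne' ha.ne'] at h1
  have h2 : a * (log b - log a) ≤ a * (b / a - 1) := mul_le_mul_of_nonneg_left h1 ha.le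
  have h3 : a * (b / a - 1) = b - a := by field_simp
  nlinarith

theorem Ps_diff_ge {a b : ℝ} (ha : 0 < a) (hb : 0 < b) : (b - a) * log a ≤ Ps b - Ps a := by
  have := Ps_diff_le hb ha
  linarith

theorem Ps_ge {y : ℝ} (hy : 0 ≤ y) : -1 ≤ Ps y := by
  rcases eq_or_lt_of_le hy with h | h
  · rw [← h, Ps_zero]; norm_num
  · have h1 := Ps_diff_ge (a := 1) (b := y) one_pos h
    rw [Ps_one, log_one, mul_zero] at h1
    linarith

theorem Ps_le {y : ℝ} (hy : 0 ≤ y) (hy2 : y ≤ 2) : Ps y ≤ 0 := by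
  rcases eq_or_lt_of_le hy with h | h
  · rw [← h, Ps_zero]
  · rw [Ps_of_pos h]
    have h1 : log y ≤ log 2 := log_le_log h hy2
    have h2 := log_two_lt_d9
    nlinarith

theorem Ps_lip_pos {a b Y : ℝ} (ha : 0 ≤ a) (hb : 0 ≤ b) (hY : 1 ≤ Y) (hbY : b ≤ Y)
    (hab : b ≤ a + 1) : Ps b - Ps a ≤ log Y + 1 := by
  have hl : 0 ≤ log Y := log_nonneg hY
  rcases le_or_gt b 2 with h | h
  · have h1 := Ps_le hb h
    have h2 := Ps_ge ha
    linarith
  · have ha0 : 0 < a := by linarith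
    have h1 := Ps_diff_le ha0 (show 0 < b by linarith)
    have h2 : log b ≤ log Y := log_le_log (by linarith) hbY
    have h3 : 0 ≤ log b := log_nonneg (by linarith)
    rcases le_or_gt b a with h4 | h4
    · have : (b - a) * log b ≤ 0 := mul_nonpos_of_nonpos_of_nonneg (by linarith) h3
      linarith
    · have : (b - a) * log b ≤ 1 * log b := mul_le_mul_of_nonneg_right (by linarith) h3
      linarith

theorem Ps_lip {a b Y : ℝ} (hY : 1 ≤ Y) (haY : |a| ≤ Y) (hbY : |b| ≤ Y) (hab : |a - b| ≤ 1) :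
    Ps b - Ps a ≤ log Y + 2 := by
  have hl : 0 ≤ log Y := log_nonneg hY
  rw [abs_le] at haY hbY hab
  rcases le_or_gt 0 a with ha | ha <;> rcases le_or_gt 0 b with hb | hb
  · have := Ps_lip_pos ha hb hY (by linarith) (by linarith)
    linarith
  · have h1 := Ps_ge ha
    have h2 := Ps_ge (show 0 ≤ -b by linarith)
    rw [Ps_neg] at h2
    linarith
  · have h1 := Ps_le hb (by linarith)
    have h2 := Ps_le (show 0 ≤ -a by linarith) (by linarith)
    rw [Ps_neg] at h2
    linarith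
  · have := Ps_lip_pos (a := -b) (b := -a) (by linarith) (by linarith) hY (by linarith) (by linarith)
    rw [Ps_neg, Ps_neg] at this
    linarith

/-! ### products over arithmetic progressions -/

/-- potential -/
noncomputable def Ph (y : ℝ) : ℝ := if 0 ≤ y then Ps y + 2 else -Ps (1 - y)

theorem Ph_step (y : ℝ) : |y| ≤ exp (Ph (y + 1) - Ph y) := by
  have up : ∀ z : ℝ, 0 ≤ z → z ≤ exp (Ps (z + 1) - Ps z) := by
    intro z hz
    rcases eq_or_lt_of_le hz with h | h
    · rw [← h]; positivity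
    · have h1 := Ps_diff_ge h (show 0 < z + 1 by linarith)
      calc z = exp (log z) := (exp_log h).symm
        _ ≤ _ := exp_le_exp.2 (by linarith)
  rcases le_or_gt 0 y with h | h
  · rw [abs_of_nonneg h, Ph, Ph, if_pos h, if_pos (by linarith)]
    have := up y h
    refine this.trans (exp_le_exp.2 (by linarith))
  · rw [abs_of_neg h]
    rcases lt_or_ge (y + 1) 0 with h1 | h1
    · rw [Ph, Ph, if_neg (by linarith), if_neg (by linarith)]
      have := up (-y) (by linarith)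
      refine this.trans (exp_le_exp.2 (le_of_eq ?_))
      have e1 : (1 : ℝ) - (y + 1) = -y := by ring
      have e2 : (1 : ℝ) - y = -y + 1 := by ring
      rw [e1, e2]
      ring
    · rw [Ph, Ph, if_pos h1, if_neg (by linarith)]
      have g1 := Ps_ge h1
      have g2 := Ps_ge (show 0 ≤ 1 - y by linarith)
      have : (0 : ℝ) ≤ Ps (y + 1) + 2 - -Ps (1 - y) := by linarith
      have h2 := one_le_exp this
      linarith

theorem prod_le_Ph (y0 : ℝ) (M : ℕ) : ∏ j ∈ range M, |y0 + j| ≤ exp (Ph (y0 + M) - Ph y0) := by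
  induction M with
  | zero => simp
  | succ M ih =>
    rw [Finset.prod_range_succ]
    have h1 := Ph_step (y0 + M)
    calc _ ≤ exp (Ph (y0 + M) - Ph y0) * exp (Ph (y0 + M + 1) - Ph (y0 + M)) := by gcongr
      _ = _ := by
        rw [← exp_add]
        congr 1
        push_cast
        ring_nf

theorem Ph_sub_Ps {y Y : ℝ} (hY : |y| + 1 ≤ Y) : |Ph y - Ps y| ≤ log Y + 2 := by
  have h0 := abs_nonneg y
  have hY1 : 1 ≤ Y := by linarith
  have hl := log_nonneg hY1
  rw [Ph]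
  split_ifs with h
  · have : Ps y + 2 - Ps y = 2 := by ring
    rw [this, abs_of_pos (by norm_num)]
    linarith
  · push Not at h
    have e : -Ps (1 - y) - Ps y = Ps (-y) - Ps (1 - y) := by rw [Ps_neg]; ring
    have h3 : |y| = -y := abs_of_neg h
    have b1 : |(1 : ℝ) - y| ≤ Y := by rw [abs_of_pos (by linarith)]; linarith
    have b2 : |-y| ≤ Y := by rw [abs_neg]; linarith
    rw [e, abs_le]
    constructor
    · have := Ps_lip (a := -y) (b := 1 - y) hY1 b2 b1 (by
        have : -y - (1 - y) = -1 := by ring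
        rw [this, abs_neg, abs_one])
      linarith
    · exact Ps_lip (a := 1 - y) (b := -y) hY1 b1 b2 (by
        have : (1 - y) - -y = 1 := by ring
        rw [this, abs_one])

/-- upper bound for products over arithmetic progressions with difference one -/
theorem prod_le_Ps {y0 Y : ℝ} (M : ℕ) (h0 : |y0| + 1 ≤ Y) (h1 : |y0 + M| + 1 ≤ Y) :
    ∏ j ∈ range M, |y0 + j| ≤ exp (Ps (y0 + M) - Ps y0 + 2 * (log Y + 2)) := by
  refine (prod_le_Ph y0 M).trans (exp_le_exp.2 ?_)
  have a1 := abs_le.1 (Ph_sub_Ps h0)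
  have a2 := abs_le.1 (Ph_sub_Ps h1)
  linarith

/-- lower bound for products of numbers at least one -/
theorem le_prod_Ps {y0 : ℝ} (h0 : 1 ≤ y0) (M : ℕ) :
    exp (Ps (y0 + M) - Ps y0) ≤ ∏ j ∈ range (M + 1), (y0 + j) := by
  induction M with
  | zero => simpa using h0
  | succ M ih =>
    rw [Finset.prod_range_succ]
    have hM : (0 : ℝ) ≤ M := Nat.cast_nonneg M
    have h1 : exp (Ps (y0 + M + 1) - Ps (y0 + M)) ≤ y0 + M + 1 := by
      have h2 := Ps_diff_le (a := y0 + M) (b := y0 + M + 1) (by linarith) (by linarith)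
      calc _ ≤ exp (log (y0 + M + 1)) := exp_le_exp.2 (by linarith)
        _ = _ := exp_log (by linarith)
    calc exp (Ps (y0 + ((M + 1 : ℕ) : ℝ)) - Ps y0)
        = exp (Ps (y0 + M) - Ps y0) * exp (Ps (y0 + M + 1) - Ps (y0 + M)) := by
          rw [← exp_add]
          congr 1
          push_cast
          ring_nf
      _ ≤ (∏ j ∈ range (M + 1), (y0 + j)) * (y0 + M + 1) := by
          have : 0 ≤ ∏ j ∈ range (M + 1), (y0 + (j : ℝ)) :=
            Finset.prod_nonneg fun j _ => by positivity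
          gcongr
      _ = _ := by push_cast; ring


/-! ### blocks -/

variable (D : Dat)

/-- `n * FB` -/
theorem n_FB (h : ℕ) (hh : 2 * h < D.C) (n : ℕ) (hn : 0 < n) (x : ℝ) :
    (n : ℝ) * FB D h (x / n) = (Nl D n h : ℝ) * log (Nl D n h : ℝ) -
      XL (x + h * n + Nl D n h) + XL (x + h * n) := by
  have hn0 : (0 : ℝ) < n := by exact_mod_cast hn
  have key : ∀ c : ℝ, (n : ℝ) * XL (x / n + c) = XL (x + c * n) - (x + c * n) * log n := by
    intro c
    unfold XL
    have e : x / n + c = (x + c * n) / n := by field_simp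
    rw [e, abs_div, abs_of_pos hn0]
    rcases eq_or_ne (x + c * n) 0 with h0 | h0
    · rw [h0]; simp
    · rw [Real.log_div (abs_pos.2 h0).ne' hn0.ne']
      field_simp
  have hc : (Nl D n h : ℝ) = ((D.C : ℝ) - 2 * h) * n := by
    unfold Nl
    rw [Nat.cast_mul, Nat.cast_sub hh.le]; push_cast; ring
  have hc0 : (0 : ℝ) < (D.C : ℝ) - 2 * h := by
    have : ((2 * h : ℕ) : ℝ) < D.C := by exact_mod_cast hh
    push_cast at this; linarith
  unfold FB
  rw [hc, Real.log_mul hc0.ne' hn0.ne']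
  have e1 := key ((D.C : ℝ) - h)
  have e2 := key (h : ℝ)
  have e3 : x + (h : ℝ) * n + ((D.C : ℝ) - 2 * h) * n = x + ((D.C : ℝ) - h) * n := by ring
  rw [mul_add, mul_sub, e1, e2, e3]
  ring

theorem prod_blk (n h : ℕ) (hh : 2 * h ≤ D.C) (f : ℕ → ℝ) :
    ∏ m ∈ blk D n h, f m = ∏ i ∈ range (Nl D n h + 1), f (h * n + i) := by
  have h1 : blk D n h = Finset.Ico (h * n) ((D.C - h) * n + 1) := by
    ext m
    simp only [blk, Finset.mem_Icc, Finset.mem_Ico]
    omega
  have h2 : (D.C - h) * n + 1 - h * n = Nl D n h + 1 := by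
    have : (D.C - h) * n = h * n + (D.C - 2 * h) * n := by
      rw [← Nat.add_mul]
      congr 1
      omega
    unfold Nl
    omega
  rw [h1, Finset.prod_Ico_eq_prod_range, h2]

/-- pole blocks -/
theorem blockP (n h : ℕ) (x : ℝ) (hn : 0 < n) (hh : 2 * h < D.C) (hx : 1 ≤ x + h * n) {Y : ℝ}
    (hY : (Nl D n h : ℝ) + 1 ≤ Y) :
    ((Nl D n h).factorial : ℝ) / |∏ m ∈ blk D n h, (x + m)| ≤
      exp (n * FB D h (x / n) + (log Y + 1)) := by
  have h1 := le_prod_Ps hx (Nl D n h)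
  have e : ∏ m ∈ blk D n h, (x + (m : ℝ)) = ∏ j ∈ range (Nl D n h + 1), (x + h * n + j) := by
    rw [prod_blk D n h hh.le (fun m => x + (m : ℝ))]
    refine Finset.prod_congr rfl fun j _ => ?_
    push_cast
    ring
  have hpos : 0 < ∏ j ∈ range (Nl D n h + 1), (x + h * n + (j : ℝ)) :=
    Finset.prod_pos fun j _ => by positivity
  rw [e, abs_of_pos hpos]
  have b1 := fact_leR (Nl D n h) hY
  calc ((Nl D n h).factorial : ℝ) / ∏ j ∈ range (Nl D n h + 1), (x + h * n + (j : ℝ))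
      ≤ exp (Nl D n h * log (Nl D n h) - Nl D n h + (log Y + 1)) /
          exp (Ps (x + h * n + Nl D n h) - Ps (x + h * n)) := by gcongr
    _ = _ := by
        rw [← exp_sub, n_FB D h hh n hn]
        unfold Ps
        congr 1
        ring

/-- zero blocks, shifted by `θ` -/
theorem blockZ (n h M : ℕ) (x θ : ℝ) (hn : 0 < n) (hh : 2 * h < D.C) (hθ0 : 0 ≤ θ) (hθ1 : θ ≤ 1)
    (hM : |θ + M - Nl D n h| ≤ 1) {Y : ℝ} (hY : |x| + D.C * n + 2 ≤ Y) :
    (∏ j ∈ range M, |x + h * n + θ + j|) / ((Nl D n h).factorial : ℝ) ≤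
      exp (-(n * FB D h (x / n)) + 4 * (log Y + 2)) := by
  have hc : (Nl D n h : ℝ) = ((D.C : ℝ) - 2 * h) * n := by
    unfold Nl
    rw [Nat.cast_mul, Nat.cast_sub hh.le]; push_cast; ring
  have hn0 : (0 : ℝ) < n := by exact_mod_cast hn
  have hh0 : (0 : ℝ) ≤ (h : ℝ) * n := by positivity
  have hc0 : (0 : ℝ) < (D.C : ℝ) - 2 * h := by
    have : ((2 * h : ℕ) : ℝ) < D.C := by exact_mod_cast hh
    push_cast at this; linarith
  have hN0 : 0 ≤ (Nl D n h : ℝ) := Nat.cast_nonneg _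
  have hsum : (h : ℝ) * n + Nl D n h ≤ D.C * n := by rw [hc]; nlinarith
  have hx0 := abs_nonneg x
  have hx1 := le_abs_self x
  have hx2 := neg_abs_le x
  have hY1 : 1 ≤ Y := by nlinarith
  rw [abs_le] at hM
  have h1 := prod_le_Ps (y0 := x + h * n + θ) (Y := Y) M
    (by
      have : |x + h * n + θ| ≤ |x| + h * n + θ := by
        rw [abs_le]; constructor <;> linarith
      linarith)
    (by
      have : |x + h * n + θ + M| ≤ |x| + h * n + (θ + M) := by
        have : (0 : ℝ) ≤ M := Nat.cast_nonneg M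
        rw [abs_le]; constructor <;> linarith
      linarith)
  have h2 := Ps_lip (a := x + h * n + Nl D n h) (b := x + h * n + θ + M) (Y := Y) hY1
    (by rw [abs_le]; constructor <;> linarith)
    (by
      have : (0 : ℝ) ≤ M := Nat.cast_nonneg M
      rw [abs_le]; constructor <;> linarith)
    (by rw [abs_le]; constructor <;> linarith)
  have h3 := Ps_lip (a := x + h * n + θ) (b := x + h * n) (Y := Y) hY1
    (by rw [abs_le]; constructor <;> linarith)
    (by rw [abs_le]; constructor <;> linarith)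
    (by rw [abs_le]; constructor <;> linarith)
  have hfg := fact_geR (Nl D n h)
  have hf0 : (0 : ℝ) < (Nl D n h).factorial := by positivity
  calc (∏ j ∈ range M, |x + h * n + θ + j|) / ((Nl D n h).factorial : ℝ)
      ≤ exp (Ps (x + h * n + θ + M) - Ps (x + h * n + θ) + 2 * (log Y + 2)) /
          exp (Nl D n h * log (Nl D n h) - Nl D n h) := by gcongr
    _ ≤ _ := by
        rw [← exp_sub, n_FB D h hh n hn]
        apply exp_le_exp.2
        have e1 : Ps (x + h * n + Nl D n h) = XL (x + h * n + Nl D n h) - (x + h * n + Nl D n h) := rfl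
        have e2 : Ps (x + h * n) = XL (x + h * n) - (x + h * n) := rfl
        linarith

/-- decomposition of the zeros -/
theorem prod_Z (hD : D.OK) (n : ℕ) (f : ℕ → ℝ) :
    ∏ u ∈ Z D n, f u = (∏ j ∈ range (Nl D n 0 + 1), f (6 * j)) *
      (∏ j ∈ range (Nl D n D.hH), f (6 * (D.hH * n + j) + 3)) *
      ((∏ j ∈ range (Nl D n D.hG), f (6 * (D.hG * n + j) + 2)) *
        ∏ j ∈ range (Nl D n D.hG), f (6 * (D.hG * n + j) + 4)) := by
  have hs2 : 2 * D.s < D.C := lt_of_le_of_lt (Nat.mul_le_mul_left 2 hD.s_le) hD.lo_lt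
  have hH2 : 2 * D.hH < D.C := by have := hD.hH_lt; omega
  have hG2 : 2 * D.hG < D.C := by have := hD.hG_lt; omega
  have eH : (D.C - D.hH) * n = D.hH * n + Nl D n D.hH := by
    unfold Nl
    rw [← Nat.add_mul]
    congr 1
    omega
  have eG : (D.C - D.hG) * n = D.hG * n + Nl D n D.hG := by
    unfold Nl
    rw [← Nat.add_mul]
    congr 1
    omega
  have eH' : (D.C - D.hH) * n ≤ D.C * n := Nat.mul_le_mul_right n (by omega)
  have eG' : (D.C - D.hG) * n ≤ D.C * n := Nat.mul_le_mul_right n (by omega)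
  have e0 : Nl D n 0 = D.C * n := by unfold Nl; simp
  set a := D.hH * n
  set b := D.hG * n
  set c := D.C * n
  set N1 := Nl D n D.hH
  set N2 := Nl D n D.hG
  have hZ : Z D n = ((range (c + 1)).image fun j => 6 * j) ∪ ((range N1).image fun j => 6 * (a + j) + 3) ∪
      (((range N2).image fun j => 6 * (b + j) + 2) ∪ ((range N2).image fun j => 6 * (b + j) + 4)) := by
    ext u
    simp only [Z, Finset.mem_filter, Finset.mem_Icc, Finset.mem_union, Finset.mem_image, Finset.mem_range]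
    rw [eH, eG]
    rw [eH] at eH'
    rw [eG] at eG'
    constructor
    · rintro ⟨⟨-, h1⟩, h2 | ⟨h2, h3, h4⟩ | ⟨h2, h3, h4⟩⟩
      · exact Or.inl (Or.inl ⟨u / 6, by omega, by omega⟩)
      · exact Or.inl (Or.inr ⟨u / 6 - a, by omega, by omega⟩)
      · rcases h2 with h2 | h2
        · exact Or.inr (Or.inl ⟨u / 6 - b, by omega, by omega⟩)
        · exact Or.inr (Or.inr ⟨u / 6 - b, by omega, by omega⟩)
    · rintro ((⟨j, h1, h2⟩ | ⟨j, h1, h2⟩) | (⟨j, h1, h2⟩ | ⟨j, h1, h2⟩)) <;> omega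
  rw [hZ, e0, Finset.prod_union, Finset.prod_union, Finset.prod_union, Finset.prod_image,
    Finset.prod_image, Finset.prod_image, Finset.prod_image]
  · intro i _ j _ h
    simp only at h
    omega
  · intro i _ j _ h
    simp only at h
    omega
  · intro i _ j _ h
    simp only at h
    omega
  · intro i _ j _ h
    simp only at h
    omega
  · rw [Finset.disjoint_left]
    intro u hu hu'
    simp only [Finset.mem_image, Finset.mem_range] at hu hu'
    obtain ⟨i, -, h1⟩ := hu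
    obtain ⟨j, -, h2⟩ := hu'
    omega
  · rw [Finset.disjoint_left]
    intro u hu hu'
    simp only [Finset.mem_image, Finset.mem_range] at hu hu'
    obtain ⟨i, -, h1⟩ := hu
    obtain ⟨j, -, h2⟩ := hu'
    omega
  · rw [Finset.disjoint_left]
    intro u hu hu'
    simp only [Finset.mem_image, Finset.mem_range, Finset.mem_union] at hu hu'
    rcases hu with ⟨i, -, h1⟩ | ⟨i, -, h1⟩ <;> rcases hu' with ⟨j, -, h2⟩ | ⟨j, -, h2⟩ <;> omega


theorem abs_R (hD : D.OK) (n : ℕ) (x : ℝ) :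
    |R D n x| = |2 * x + D.C * n| *
      (∏ i ∈ D.P, (((Nl D n (D.h i)).factorial : ℝ) / |∏ m ∈ blk D n (D.h i), (x + m)|)) *
      ((∏ j ∈ range (Nl D n 0 + 1), |x + (0 : ℕ) * n + 0 + j|) / (Nl D n 0).factorial) *
      (4 ^ Nl D n D.hH * ((∏ j ∈ range (Nl D n D.hH), |x + D.hH * n + 1 / 2 + j|) /
        (Nl D n D.hH).factorial)) *
      (27 ^ Nl D n D.hG * (((∏ j ∈ range (Nl D n D.hG), |x + D.hG * n + 1 / 3 + j|) /
        (Nl D n D.hG).factorial) * ((∏ j ∈ range (Nl D n D.hG), |x + D.hG * n + 2 / 3 + j|) /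
        (Nl D n D.hG).factorial))) := by
  have e0 : Nl D n 0 = D.C * n := by unfold Nl; simp
  have hK : ((K D n : ℚ) : ℝ) = ((∏ i ∈ D.P, ((Nl D n (D.h i)).factorial : ℝ)) * 4 ^ Nl D n D.hH *
      27 ^ Nl D n D.hG) / (((Nl D n 0).factorial : ℝ) * (Nl D n D.hH).factorial *
      (Nl D n D.hG).factorial ^ 2) := by
    unfold K
    rw [e0]
    push_cast
    rfl
  have f1 : ∏ j ∈ range (Nl D n 0 + 1), |x + ((6 * j : ℕ) : ℝ) / 6| =
      ∏ j ∈ range (Nl D n 0 + 1), |x + (0 : ℕ) * n + 0 + j| := by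
    refine Finset.prod_congr rfl fun j _ => ?_
    congr 1
    push_cast
    ring
  have f2 : ∏ j ∈ range (Nl D n D.hH), |x + ((6 * (D.hH * n + j) + 3 : ℕ) : ℝ) / 6| =
      ∏ j ∈ range (Nl D n D.hH), |x + D.hH * n + 1 / 2 + j| := by
    refine Finset.prod_congr rfl fun j _ => ?_
    congr 1
    push_cast
    ring
  have f3 : ∏ j ∈ range (Nl D n D.hG), |x + ((6 * (D.hG * n + j) + 2 : ℕ) : ℝ) / 6| =
      ∏ j ∈ range (Nl D n D.hG), |x + D.hG * n + 1 / 3 + j| := by
    refine Finset.prod_congr rfl fun j _ => ?_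
    congr 1
    push_cast
    ring
  have f4 : ∏ j ∈ range (Nl D n D.hG), |x + ((6 * (D.hG * n + j) + 4 : ℕ) : ℝ) / 6| =
      ∏ j ∈ range (Nl D n D.hG), |x + D.hG * n + 2 / 3 + j| := by
    refine Finset.prod_congr rfl fun j _ => ?_
    congr 1
    push_cast
    ring
  unfold R
  rw [abs_div, abs_mul, abs_mul, Finset.abs_prod, Finset.abs_prod,
    prod_Z D hD n (fun u => |x + (u : ℝ) / 6|), f1, f2, f3, f4, Finset.prod_div_distrib, hK,
    abs_of_nonneg (show (0 : ℝ) ≤ ((∏ i ∈ D.P, ((Nl D n (D.h i)).factorial : ℝ)) * 4 ^ Nl D n D.hH *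
      27 ^ Nl D n D.hG) / (((Nl D n 0).factorial : ℝ) * (Nl D n D.hH).factorial *
      (Nl D n D.hG).factorial ^ 2) by positivity)]
  have g0 : ((Nl D n 0).factorial : ℝ) ≠ 0 := by positivity
  have g1 : ((Nl D n D.hH).factorial : ℝ) ≠ 0 := by positivity
  have g2 : ((Nl D n D.hG).factorial : ℝ) ≠ 0 := by positivity
  generalize ∏ j ∈ range (Nl D n 0 + 1), |x + (0 : ℕ) * n + 0 + (j : ℝ)| = p0
  generalize ∏ j ∈ range (Nl D n D.hH), |x + D.hH * n + 1 / 2 + (j : ℝ)| = p1
  generalize ∏ j ∈ range (Nl D n D.hG), |x + D.hG * n + 1 / 3 + (j : ℝ)| = p2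
  generalize ∏ j ∈ range (Nl D n D.hG), |x + D.hG * n + 2 / 3 + (j : ℝ)| = p3
  generalize (∏ i ∈ D.P, ((Nl D n (D.h i)).factorial : ℝ)) = q0
  generalize (∏ i ∈ D.P, |∏ m ∈ blk D n (D.h i), (x + (m : ℝ))|) = q1
  field_simp

theorem poly_aux (c X E W : ℝ) (e : ℕ) :
    c * X * (c * X * E) ^ e * W = c * (c * E) ^ e * X ^ (1 + e) * W := by
  have : (c * X * E) ^ e = (c * E) ^ e * X ^ e := by
    rw [← mul_pow]
    congr 1
    ring
  rw [this, pow_add X 1, pow_one]
  ring

/-- SZ1 -/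
theorem R_bound {D : Dat} (hD : D.OK) : ∃ (Cst : ℝ) (A : ℕ), ∀ n : ℕ, 0 < n → ∀ x : ℝ,
    -((max D.hH D.hG : ℕ) * n : ℝ) ≤ x →
    |R D n x| ≤ Cst * ((n : ℝ) + |x| + 1) ^ A * Real.exp (n * FF D (x / n)) := by
  have hs2 : 2 * D.s < D.C := lt_of_le_of_lt (Nat.mul_le_mul_left 2 hD.s_le) hD.lo_lt
  have hH2 : 2 * D.hH < D.C := by have := hD.hH_lt; omega
  have hG2 : 2 * D.hG < D.C := by have := hD.hG_lt; omega
  set e : ℕ := D.P.card + 16 with he
  refine ⟨((D.C : ℝ) + 2) * (((D.C : ℝ) + 2) * Real.exp 2) ^ e, 1 + e, ?_⟩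
  intro n hn x hx
  have hn0 : (0 : ℝ) < n := by exact_mod_cast hn
  have hn1 : (1 : ℝ) ≤ n := by exact_mod_cast hn
  set X : ℝ := (n : ℝ) + |x| + 1 with hX
  have habs : 0 ≤ |x| := abs_nonneg _
  have hX1 : 1 ≤ X := by rw [hX]; linarith
  have hC0 : (0 : ℝ) ≤ D.C := Nat.cast_nonneg _
  set Y : ℝ := ((D.C : ℝ) + 2) * X with hY
  have hY0 : 0 < Y := by rw [hY]; positivity
  have hYge : |x| + D.C * n + 2 ≤ Y := by
    have h1 : (D.C : ℝ) * n ≤ D.C * X := mul_le_mul_of_nonneg_left (by rw [hX]; linarith) hC0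
    rw [hY, add_mul]
    rw [hX] at h1 ⊢
    linarith
  have hlin : |2 * x + D.C * n| ≤ Y := by
    have h2 : |2 * x + D.C * n| ≤ 2 * |x| + D.C * n := by
      refine (abs_add_le _ _).trans ?_
      rw [abs_mul, abs_of_nonneg (show (0 : ℝ) ≤ D.C * n by positivity)]
      norm_num
    have h1 : (D.C : ℝ) * n ≤ D.C * X := mul_le_mul_of_nonneg_left (by rw [hX]; linarith) hC0
    rw [hY, add_mul]
    rw [hX] at h1 ⊢
    linarith
  have hPb : ∏ i ∈ D.P, (((Nl D n (D.h i)).factorial : ℝ) / |∏ m ∈ blk D n (D.h i), (x + m)|) ≤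
      ∏ i ∈ D.P, Real.exp (n * FB D (D.h i) (x / n) + (Real.log Y + 1)) := by
    refine Finset.prod_le_prod (fun h _ => by positivity) fun i hi => ?_
    have h1 := hD.P_lt i hi
    have h2 := hD.P_ge i hi
    have h4 : (Nl D n (D.h i) : ℝ) ≤ D.C * n := by
      have : Nl D n (D.h i) ≤ D.C * n := Nat.mul_le_mul_right n (by omega)
      exact_mod_cast this
    refine blockP D n (D.h i) x hn h1 ?_ (by linarith)
    have h5 : ((max D.hH D.hG : ℕ) : ℝ) + 1 ≤ D.h i := by
      have : max D.hH D.hG + 1 ≤ D.h i := by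
        have := hD.hH_lt; have := hD.hG_lt; omega
      exact_mod_cast this
    nlinarith
  have hb0 := blockZ D n 0 (Nl D n 0 + 1) x 0 hn (by omega) le_rfl zero_le_one (by
    push_cast
    have : (0 : ℝ) + ((Nl D n 0 : ℝ) + 1) - Nl D n 0 = 1 := by ring
    rw [this, abs_one]) hYge
  have hbH := blockZ D n D.hH (Nl D n D.hH) x (1 / 2) hn hH2 (by norm_num) (by norm_num) (by
    have : (1 / 2 : ℝ) + (Nl D n D.hH : ℝ) - Nl D n D.hH = 1 / 2 := by ring
    rw [this]; norm_num) hYge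
  have hb2 := blockZ D n D.hG (Nl D n D.hG) x (1 / 3) hn hG2 (by norm_num) (by norm_num) (by
    have : (1 / 3 : ℝ) + (Nl D n D.hG : ℝ) - Nl D n D.hG = 1 / 3 := by ring
    rw [this]; norm_num) hYge
  have hb4 := blockZ D n D.hG (Nl D n D.hG) x (2 / 3) hn hG2 (by norm_num) (by norm_num) (by
    have : (2 / 3 : ℝ) + (Nl D n D.hG : ℝ) - Nl D n D.hG = 2 / 3 := by ring
    rw [this]; norm_num) hYge
  rw [← Real.exp_sum, Finset.sum_add_distrib, Finset.sum_const, ← Finset.mul_sum] at hPb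
  have h4 : (4 : ℝ) ^ Nl D n D.hH = Real.exp (n * (((D.C : ℝ) - 2 * D.hH) * (2 * Real.log 2))) := by
    have hc : (Nl D n D.hH : ℝ) = ((D.C : ℝ) - 2 * D.hH) * n := by
      unfold Nl
      rw [Nat.cast_mul, Nat.cast_sub hH2.le]; push_cast; ring
    have : (4 : ℝ) = Real.exp (2 * Real.log 2) := by
      rw [two_mul, Real.exp_add, Real.exp_log (by norm_num)]
      norm_num
    rw [this, ← Real.exp_nat_mul, hc]
    congr 1
    ring
  have h27 : (27 : ℝ) ^ Nl D n D.hG = Real.exp (n * (((D.C : ℝ) - 2 * D.hG) * (3 * Real.log 3))) := by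
    have hc : (Nl D n D.hG : ℝ) = ((D.C : ℝ) - 2 * D.hG) * n := by
      unfold Nl
      rw [Nat.cast_mul, Nat.cast_sub hG2.le]; push_cast; ring
    have : (27 : ℝ) = Real.exp (3 * Real.log 3) := by
      have h3 : (3 : ℝ) * Real.log 3 = ((3 : ℕ) : ℝ) * Real.log 3 := by norm_num
      rw [h3, Real.exp_nat_mul, Real.exp_log (by norm_num)]
      norm_num
    rw [this, ← Real.exp_nat_mul, hc]
    congr 1
    ring
  rw [abs_R D hD n x]
  have hY1 : 1 ≤ Y := by
    have : 0 ≤ (D.C : ℝ) * n := by positivity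
    linarith
  have hl : 0 ≤ Real.log Y := Real.log_nonneg hY1
  have step1 : |2 * x + D.C * n| *
      (∏ i ∈ D.P, (((Nl D n (D.h i)).factorial : ℝ) / |∏ m ∈ blk D n (D.h i), (x + m)|)) *
      ((∏ j ∈ range (Nl D n 0 + 1), |x + (0 : ℕ) * n + 0 + j|) / (Nl D n 0).factorial) *
      (4 ^ Nl D n D.hH * ((∏ j ∈ range (Nl D n D.hH), |x + D.hH * n + 1 / 2 + j|) /
        (Nl D n D.hH).factorial)) *
      (27 ^ Nl D n D.hG * (((∏ j ∈ range (Nl D n D.hG), |x + D.hG * n + 1 / 3 + j|) /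
        (Nl D n D.hG).factorial) * ((∏ j ∈ range (Nl D n D.hG), |x + D.hG * n + 2 / 3 + j|) /
        (Nl D n D.hG).factorial))) ≤
      Y * Real.exp (n * ∑ i ∈ D.P, FB D (D.h i) (x / n) + D.P.card • (Real.log Y + 1)) *
        Real.exp (-(n * FB D 0 (x / n)) + 4 * (Real.log Y + 2)) *
        (Real.exp (n * (((D.C : ℝ) - 2 * D.hH) * (2 * Real.log 2))) *
          Real.exp (-(n * FB D D.hH (x / n)) + 4 * (Real.log Y + 2))) *
        (Real.exp (n * (((D.C : ℝ) - 2 * D.hG) * (3 * Real.log 3))) *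
          (Real.exp (-(n * FB D D.hG (x / n)) + 4 * (Real.log Y + 2)) *
          Real.exp (-(n * FB D D.hG (x / n)) + 4 * (Real.log Y + 2)))) := by
    rw [h4, h27]
    gcongr
  refine step1.trans ?_
  have step2 : Y * Real.exp (n * ∑ i ∈ D.P, FB D (D.h i) (x / n) + D.P.card • (Real.log Y + 1)) *
        Real.exp (-(n * FB D 0 (x / n)) + 4 * (Real.log Y + 2)) *
        (Real.exp (n * (((D.C : ℝ) - 2 * D.hH) * (2 * Real.log 2))) *
          Real.exp (-(n * FB D D.hH (x / n)) + 4 * (Real.log Y + 2))) *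
        (Real.exp (n * (((D.C : ℝ) - 2 * D.hG) * (3 * Real.log 3))) *
          (Real.exp (-(n * FB D D.hG (x / n)) + 4 * (Real.log Y + 2)) *
          Real.exp (-(n * FB D D.hG (x / n)) + 4 * (Real.log Y + 2)))) =
      Y * Real.exp ((D.P.card : ℝ) * (Real.log Y + 1) + 16 * (Real.log Y + 2) + n * FF D (x / n)) := by
    simp only [mul_assoc Y, ← Real.exp_add]
    congr 2
    unfold FF
    simp only [nsmul_eq_mul]
    ring
  rw [step2]
  have step3 : Y * Real.exp ((D.P.card : ℝ) * (Real.log Y + 1) + 16 * (Real.log Y + 2) + n * FF D (x / n)) ≤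
      Y * Real.exp ((e : ℝ) * (Real.log Y + 2) + n * FF D (x / n)) := by
    refine mul_le_mul_of_nonneg_left (Real.exp_le_exp.2 ?_) hY0.le
    rw [he]
    push_cast
    have : (0 : ℝ) ≤ D.P.card := Nat.cast_nonneg _
    nlinarith
  refine step3.trans (le_of_eq ?_)
  rw [Real.exp_add, Real.exp_nat_mul, Real.exp_add, Real.exp_log hY0, ← mul_assoc, hY]
  exact poly_aux _ _ _ _ _

end Pool.Agent.TwoOdd
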