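import Pool.Agent.TwoOdd.TabData
import Pool.Agent.TwoOdd.Data

/-!
Finite table: the data `D29`, the functions, the cells of the explicit range.  Seat: helper61.
-/

open Finset

namespace Pool.Agent.TwoOdd.D29

open Pool.Agent.TwoOdd Pool.Agent.TwoOdd.Tab

theorem lists : Lists D hs where
  P_eq := by decide
  lt := by decide
  ltH := by decide
  ltG := by decide
  Cpos := by decide

set_option maxRecDepth 100000 in
theorem forms_ok : OD.all (fun e => frmOK 214 (GT D hs e.1) 34 e.2.1 &&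
    (frmOK 214 (PhT D e.1) 0 e.2.2.1 && (frmOK 214 (OmT D e.1) 0 e.2.2.2.1 &&
      frmOK 214 (PsT D e.1) 0 e.2.2.2.2))) = true := by decide +kernel

set_option maxRecDepth 100000 in
theorem EF_ok : frmOK 214 (ET D hs) 0 EF = true := by decide +kernel

set_option maxRecDepth 100000 in
theorem ups_ok : (ups D hs).all (fun o => OD.any (fun e => decide (e.1 = o))) = true := by
  decide +kernel

/-- balanced, so periodic in `n / p` -/
def balb (f : FForm) : Bool :=
  Nat.beq (f.1.map fun t => t.1 / 6).sum (f.2.1.map fun t => t.1 / 6).sum &&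
    (f.1 ++ f.2.1).all (fun t => Nat.beq (t.1 % 6) 0 && Nat.blt 0 t.1)

set_option maxRecDepth 100000 in
theorem bal_ok : OD.all (fun e => balb e.2.1) = true := by decide +kernel

/-! ### cells of the explicit range -/

def cellA (e : ℕ × ℕ × ℕ × ℕ × ℕ) : Bool :=
  Nat.ble (79 * e.2.2.1) e.2.2.2.1 && fle e.1 e.2.1 e.2.2.1 e.2.2.2.1 EF 0 e.2.2.2.2

def cellB (e : ℕ × ℕ × ℕ × ℕ × ℕ) : Bool :=
  OD.all fun o =>
    (fle e.1 e.2.1 e.2.2.1 e.2.2.2.1 o.2.2.1 0 0 ||
      fle e.1 e.2.1 e.2.2.1 e.2.2.2.1 o.2.1 0 e.2.2.2.2) &&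
    ((fle e.1 e.2.1 e.2.2.1 e.2.2.2.1 o.2.2.2.1 0 0 ||
      fle e.1 e.2.1 e.2.2.1 e.2.2.2.1 o.2.1 0 (e.2.2.2.2 + 1)) &&
    (fle e.1 e.2.1 e.2.2.1 e.2.2.2.1 o.2.2.2.2 1 0 ||
      (fle e.1 e.2.1 e.2.2.1 e.2.2.2.1 o.2.1 0 (e.2.2.2.2 + 1) ||
        fle e.1 e.2.1 e.2.2.1 e.2.2.2.1 EF 0 e.2.2.2.2)))

/-- the cell is nonempty and the bound holds on it -/
def cellE (e : ℕ × ℕ × ℕ × ℕ × ℕ) : Bool :=
  Nat.blt 0 e.1 && (Nat.blt 0 e.2.1 && (Nat.blt 0 e.2.2.2.1 &&
    (Nat.blt (e.1 * e.2.2.2.1) (e.2.2.1 * e.2.1) && (cellA e || cellB e))))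

theorem form_G {n p : ℕ} (hp : 0 < p) (hg : Gen n p 214)
    {e : (ℤ × ℤ) × FForm × FForm × FForm × FForm} (he : e ∈ OD) :
    (hs.length : ℤ) + 3 + tv n p (GT D hs e.1) = fv n p e.2.1 ∧ (∀ t ∈ e.2.1.1, 0 < t.1) ∧
      (∀ t ∈ e.2.1.2.1, 0 < t.1) := by
  have h := forms_ok
  rw [List.all_eq_true] at h
  have h1 := h e he
  rw [Bool.and_eq_true] at h1
  exact frm_eq hp hg h1.1

theorem form_Ph {n p : ℕ} (hp : 0 < p) (hg : Gen n p 214)
    {e : (ℤ × ℤ) × FForm × FForm × FForm × FForm} (he : e ∈ OD) :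
    tv n p (PhT D e.1) = fv n p e.2.2.1 ∧ (∀ t ∈ e.2.2.1.1, 0 < t.1) := by
  have h := forms_ok
  rw [List.all_eq_true] at h
  have h1 := h e he
  rw [Bool.and_eq_true, Bool.and_eq_true] at h1
  have h2 := frm_eq hp hg h1.2.1
  rw [zero_add] at h2
  exact ⟨h2.1, h2.2.1⟩

theorem form_Om {n p : ℕ} (hp : 0 < p) (hg : Gen n p 214)
    {e : (ℤ × ℤ) × FForm × FForm × FForm × FForm} (he : e ∈ OD) :
    tv n p (OmT D e.1) = fv n p e.2.2.2.1 ∧ (∀ t ∈ e.2.2.2.1.1, 0 < t.1) := by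
  have h := forms_ok
  rw [List.all_eq_true] at h
  have h1 := h e he
  rw [Bool.and_eq_true, Bool.and_eq_true, Bool.and_eq_true] at h1
  have h2 := frm_eq hp hg h1.2.2.1
  rw [zero_add] at h2
  exact ⟨h2.1, h2.2.1⟩

theorem form_Ps {n p : ℕ} (hp : 0 < p) (hg : Gen n p 214)
    {e : (ℤ × ℤ) × FForm × FForm × FForm × FForm} (he : e ∈ OD) :
    tv n p (PsT D e.1) = fv n p e.2.2.2.2 ∧ (∀ t ∈ e.2.2.2.2.1, 0 < t.1) := by
  have h := forms_ok
  rw [List.all_eq_true] at h
  have h1 := h e he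
  rw [Bool.and_eq_true, Bool.and_eq_true, Bool.and_eq_true] at h1
  have h2 := frm_eq hp hg h1.2.2.2
  rw [zero_add] at h2
  exact ⟨h2.1, h2.2.1⟩

theorem form_E {n p : ℕ} (hp : 0 < p) (hg : Gen n p 214) :
    tv n p (ET D hs) = fv n p EF ∧ (∀ t ∈ EF.1, 0 < t.1) := by
  have h2 := frm_eq hp hg EF_ok
  rw [zero_add] at h2
  exact ⟨h2.1, h2.2.1⟩

theorem ups_mem {o : ℤ × ℤ} (ho : o ∈ ups D hs) : ∃ e ∈ OD, e.1 = o := by
  have h := ups_ok
  rw [List.all_eq_true] at h
  have h1 := h o ho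
  rw [List.any_eq_true] at h1
  obtain ⟨e, he, h2⟩ := h1
  exact ⟨e, he, of_decide_eq_true h2⟩

theorem cellE_spec {e : ℕ × ℕ × ℕ × ℕ × ℕ} (h : cellE e = true) {n p l : ℕ} (hp : 0 < p)
    (hg : Gen n p 214) (h1 : e.1 * p ≤ n * e.2.1) (h2 : n * e.2.2.2.1 < e.2.2.1 * p)
    (hl : l ∈ poles D n) : bnd D n l p ≤ (e.2.2.2.2 : ℤ) := by
  obtain ⟨a1, b1, a2, b2, d⟩ := e
  unfold cellE at h
  simp only [Bool.and_eq_true, Bool.or_eq_true, Nat.blt_eq] at h h1 h2 ⊢
  obtain ⟨-, hb1, hb2, -, h⟩ := h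
  have g1 : a1 * p ≤ b1 * n := by rw [mul_comm b1]; exact h1
  have g2 : b2 * n < a2 * p := by rw [mul_comm b2]; exact h2
  have sp : ∀ {f : FForm} {u v : ℕ}, (∀ t ∈ f.1, 0 < t.1) → fle a1 b1 a2 b2 f u v = true →
      fv n p f + u ≤ v := fun hf hh => fle_spec hp hb1 hb2 g1 g2 hf hh
  have hsle : ∀ h ∈ hs, D.s ≤ h := by decide
  rcases h with h | h
  · unfold cellA at h
    simp only [Bool.and_eq_true] at h
    obtain ⟨h3, h4⟩ := h
    have h3 := Nat.le_of_ble_eq_true h3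
    have h5 : 79 * n < p := by
      have : 79 * n * b2 < p * b2 := by
        calc 79 * n * b2 = 79 * (n * b2) := by ring
          _ < 79 * (a2 * p) := Nat.mul_lt_mul_of_pos_left h2 (by norm_num)
          _ = (79 * a2) * p := by ring
          _ ≤ b2 * p := Nat.mul_le_mul_right _ h3
          _ = p * b2 := by ring
      exact Nat.lt_of_mul_lt_mul_right this
    have h6 := bnd_small lists hsle (by decide) (by decide) hp hl (show (D.C - D.lo - D.s) * n < p from h5)
    rw [neg_E0_eq lists] at h6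
    obtain ⟨e1, e2⟩ := form_E hp hg
    rw [e1] at h6
    have h7 := sp e2 h4
    simp only [Nat.cast_zero, add_zero] at h7
    exact h6.trans h7
  · apply bnd_explicit lists hsle (by decide) (by decide) hp hl
    intro o ho
    obtain ⟨e, he, rfl⟩ := ups_mem ho
    unfold cellB at h
    rw [List.all_eq_true] at h
    have h3 := h e he
    simp only [Bool.and_eq_true, Bool.or_eq_true] at h3
    obtain ⟨k1, k2, k3⟩ := h3
    obtain ⟨G1, G2, -⟩ := form_G hp hg he
    obtain ⟨P1, P2⟩ := form_Ph hp hg he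
    obtain ⟨O1, O2⟩ := form_Om hp hg he
    obtain ⟨S1, S2⟩ := form_Ps hp hg he
    obtain ⟨E1, E2⟩ := form_E hp hg
    rw [G1, P1, O1, S1, E1]
    refine ⟨?_, ?_, ?_⟩
    · rcases k1 with k | k
      · left
        have := sp P2 k
        simpa using this
      · right
        have := sp G2 k
        simpa using this
    · rcases k2 with k | k
      · left
        have := sp O2 k
        simpa using this
      · right
        have := sp G2 k
        push_cast at this
        linarith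
    · rcases k3 with k | k | k
      · left
        have := sp S2 k
        push_cast at this
        linarith
      · right
        left
        have := sp G2 k
        push_cast at this
        linarith
      · right
        right
        have := sp E2 k
        push_cast at this
        linarith

end Pool.Agent.TwoOdd.D29
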