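import Pool.Agent.TwoOdd.TabPack

/-!
Finite table: the functions of the data `D29` in normal form.  Seat: helper61.
-/

namespace Pool.Agent.TwoOdd.D29

open Pool.Agent.TwoOdd.Tab

def o0 : (ℤ × ℤ) × FForm × FForm × FForm × FForm :=
  ((67, 0), ([(474, 0), (462, 0), (456, 0), (450, 0), (438, 0), (426, 0), (414, 0), (402, 0),
  (390, 0), (378, 0), (378, 0), (366, 0), (354, 0), (342, 0), (330, 0), (318, 0), (1284, 0),
  (1008, 0), (1020, 0), (1020, 0)], [(6, 0), (12, 0), (18, 0), (24, 0), (24, 0), (30, 0), (36,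
  0), (42, 0), (48, 0), (54, 0), (60, 0), (66, 0), (72, 0), (78, 0), (78, 0), (84, 0), (90, 0),
  (96, 0), (102, 0), (102, 0), (108, 0), (114, 0), (120, 0), (126, 0), (132, 0), (138, 0), (144,
  0), (150, 0), (156, 0), (162, 0), (432, 0), (324, 0), (312, 0), (300, 0), (288, 0), (276, 0),
  (276, 0), (264, 0), (252, 0), (240, 0), (228, 0), (216, 0), (204, 0), (192, 0), (180, 0), (168,
  0), (156, 0), (264, 3), (270, 2), (270, 4), (882, 0), (744, 3), (750, 4), (750, 2)], 0, 0),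
  ([(474, 0)], [], 0, 0), ([(480, 0)], [(6, 0)], 0, 1), ([(474, 0)], [(6, 0)], 0, 1))

def o1 : (ℤ × ℤ) × FForm × FForm × FForm × FForm :=
  ((68, 0), ([(474, 0), (462, 0), (450, 0), (450, 0), (438, 0), (426, 0), (414, 0), (402, 0),
  (396, 0), (390, 0), (378, 0), (372, 0), (366, 0), (354, 0), (342, 0), (330, 0), (318, 0),
  (1284, 0), (1008, 0), (1020, 0), (1020, 0)], [(12, 0), (18, 0), (18, 0), (24, 0), (30, 0), (36,
  0), (42, 0), (48, 0), (54, 0), (60, 0), (66, 0), (72, 0), (72, 0), (78, 0), (84, 0), (90, 0),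
  (96, 0), (96, 0), (102, 0), (108, 0), (114, 0), (120, 0), (126, 0), (132, 0), (138, 0), (144,
  0), (150, 0), (156, 0), (480, 0), (432, 0), (324, 0), (300, 0), (288, 0), (276, 0), (276, 0),
  (264, 0), (252, 0), (240, 0), (228, 0), (216, 0), (204, 0), (192, 0), (180, 0), (168, 0), (156,
  0), (408, 0), (270, 3), (276, 2), (276, 4), (876, 0), (738, 3), (744, 4), (744, 2)], 1, 0),
  ([(6, 0), (468, 0)], [], 0, 0), ([(474, 0)], [], 0, 0), ([(468, 0)], [], 0, 0))

def o2 : (ℤ × ℤ) × FForm × FForm × FForm × FForm :=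
  ((69, 0), ([(462, 0), (450, 0), (444, 0), (438, 0), (426, 0), (402, 0), (390, 0), (390, 0),
  (378, 0), (366, 0), (366, 0), (354, 0), (342, 0), (330, 0), (318, 0), (306, 0), (1284, 0),
  (1008, 0), (1020, 0), (1020, 0)], [(12, 0), (18, 0), (24, 0), (30, 0), (36, 0), (42, 0), (48,
  0), (54, 0), (60, 0), (66, 0), (66, 0), (72, 0), (78, 0), (84, 0), (90, 0), (90, 0), (96, 0),
  (102, 0), (108, 0), (114, 0), (120, 0), (126, 0), (132, 0), (138, 0), (144, 0), (150, 0), (480,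
  0), (432, 0), (324, 0), (300, 0), (288, 0), (276, 0), (276, 0), (264, 0), (252, 0), (240, 0),
  (228, 0), (216, 0), (204, 0), (192, 0), (180, 0), (168, 0), (156, 0), (276, 3), (282, 2), (282,
  4), (870, 0), (732, 3), (738, 4), (738, 2)], 2, 0), ([(12, 0), (462, 0)], [], 0, 0), ([(6, 0),
  (468, 0)], [], 0, 0), ([(6, 0), (462, 0)], [], 0, 0))

def o3 : (ℤ × ℤ) × FForm × FForm × FForm × FForm :=
  ((70, 0), ([(462, 0), (450, 0), (438, 0), (438, 0), (426, 0), (414, 0), (402, 0), (390, 0),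
  (384, 0), (378, 0), (366, 0), (360, 0), (354, 0), (342, 0), (330, 0), (318, 0), (306, 0),
  (1284, 0), (1008, 0), (1020, 0), (1020, 0)], [(6, 0), (24, 0), (30, 0), (36, 0), (42, 0), (48,
  0), (54, 0), (60, 0), (60, 0), (66, 0), (72, 0), (78, 0), (84, 0), (84, 0), (90, 0), (96, 0),
  (102, 0), (108, 0), (114, 0), (120, 0), (126, 0), (132, 0), (138, 0), (144, 0), (480, 0), (468,
  0), (432, 0), (324, 0), (288, 0), (276, 0), (276, 0), (264, 0), (252, 0), (240, 0), (228, 0),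
  (216, 0), (204, 0), (192, 0), (180, 0), (168, 0), (156, 0), (420, 0), (282, 3), (288, 2), (288,
  4), (864, 0), (726, 3), (732, 4), (732, 2)], 3, 0), ([(18, 0), (456, 0)], [], 0, 0), ([(12, 0),
  (462, 0)], [], 0, 0), ([(12, 0), (456, 0)], [], 0, 0))

def o4 : (ℤ × ℤ) × FForm × FForm × FForm × FForm :=
  ((71, 0), ([(450, 0), (438, 0), (414, 0), (402, 0), (390, 0), (378, 0), (378, 0), (366, 0),
  (354, 0), (354, 0), (342, 0), (330, 0), (318, 0), (306, 0), (294, 0), (1284, 0), (1008, 0),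
  (1020, 0), (1020, 0)], [(30, 0), (36, 0), (42, 0), (48, 0), (54, 0), (54, 0), (60, 0), (66, 0),
  (72, 0), (78, 0), (78, 0), (84, 0), (90, 0), (96, 0), (102, 0), (108, 0), (114, 0), (120, 0),
  (126, 0), (132, 0), (138, 0), (480, 0), (468, 0), (324, 0), (288, 0), (276, 0), (276, 0), (264,
  0), (252, 0), (240, 0), (228, 0), (216, 0), (204, 0), (192, 0), (180, 0), (168, 0), (156, 0),
  (288, 3), (294, 2), (294, 4), (858, 0), (720, 3), (726, 4), (726, 2)], 5, 0), ([(24, 0), (450,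
  0)], [], 0, 0), ([(18, 0), (456, 0)], [], 0, 0), ([(18, 0), (450, 0)], [], 0, 0))

def o5 : (ℤ × ℤ) × FForm × FForm × FForm × FForm :=
  ((72, 0), ([(6, 0), (450, 0), (438, 0), (426, 0), (426, 0), (414, 0), (402, 0), (390, 0), (378,
  0), (372, 0), (366, 0), (354, 0), (348, 0), (342, 0), (330, 0), (318, 0), (306, 0), (294, 0),
  (1284, 0), (1008, 0), (1020, 0), (1020, 0)], [(36, 0), (42, 0), (48, 0), (48, 0), (54, 0), (60,
  0), (66, 0), (72, 0), (72, 0), (78, 0), (84, 0), (90, 0), (96, 0), (102, 0), (108, 0), (114,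
  0), (120, 0), (126, 0), (132, 0), (480, 0), (468, 0), (456, 0), (432, 0), (324, 0), (276, 0),
  (276, 0), (264, 0), (252, 0), (240, 0), (228, 0), (216, 0), (204, 0), (192, 0), (180, 0), (168,
  0), (156, 0), (432, 0), (294, 3), (300, 2), (300, 4), (852, 0), (714, 3), (720, 4), (720, 2)],
  6, 0), ([(30, 0), (444, 0)], [], 0, 0), ([(24, 0), (450, 0)], [], 0, 0), ([(24, 0), (444, 0)],
  [], 0, 0))

def o6 : (ℤ × ℤ) × FForm × FForm × FForm × FForm :=
  ((73, 0), ([(12, 0), (426, 0), (420, 0), (414, 0), (402, 0), (390, 0), (378, 0), (366, 0),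
  (366, 0), (354, 0), (342, 0), (342, 0), (330, 0), (318, 0), (306, 0), (294, 0), (282, 0),
  (1284, 0), (1008, 0), (1020, 0), (1020, 0)], [(42, 0), (42, 0), (48, 0), (54, 0), (60, 0), (66,
  0), (66, 0), (72, 0), (78, 0), (84, 0), (90, 0), (96, 0), (102, 0), (108, 0), (114, 0), (120,
  0), (126, 0), (480, 0), (468, 0), (456, 0), (432, 0), (324, 0), (276, 0), (276, 0), (264, 0),
  (252, 0), (240, 0), (228, 0), (216, 0), (204, 0), (192, 0), (180, 0), (168, 0), (156, 0), (300,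
  3), (306, 2), (306, 4), (846, 0), (708, 3), (714, 4), (714, 2)], 7, 0), ([(36, 0), (438, 0)],
  [], 0, 0), ([(30, 0), (444, 0)], [], 0, 0), ([(30, 0), (438, 0)], [], 0, 0))

def o7 : (ℤ × ℤ) × FForm × FForm × FForm × FForm :=
  ((74, 0), ([(18, 0), (438, 0), (426, 0), (414, 0), (414, 0), (402, 0), (390, 0), (378, 0),
  (366, 0), (360, 0), (354, 0), (342, 0), (336, 0), (330, 0), (318, 0), (306, 0), (294, 0), (282,
  0), (1284, 0), (1008, 0), (1020, 0), (1020, 0)], [(36, 0), (48, 0), (54, 0), (60, 0), (60, 0),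
  (66, 0), (72, 0), (78, 0), (84, 0), (90, 0), (96, 0), (102, 0), (108, 0), (114, 0), (120, 0),
  (480, 0), (468, 0), (456, 0), (444, 0), (432, 0), (324, 0), (276, 0), (264, 0), (252, 0), (240,
  0), (228, 0), (216, 0), (204, 0), (192, 0), (180, 0), (168, 0), (156, 0), (444, 0), (306, 3),
  (312, 2), (312, 4), (840, 0), (702, 3), (708, 4), (708, 2)], 8, 0), ([(42, 0), (432, 0)], [],
  0, 0), ([(36, 0), (438, 0)], [], 0, 0), ([(36, 0), (432, 0)], [], 0, 0))

def o8 : (ℤ × ℤ) × FForm × FForm × FForm × FForm :=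
  ((75, 0), ([(24, 0), (426, 0), (414, 0), (408, 0), (402, 0), (390, 0), (378, 0), (366, 0),
  (354, 0), (354, 0), (342, 0), (330, 0), (330, 0), (318, 0), (306, 0), (294, 0), (282, 0), (270,
  0), (1284, 0), (1008, 0), (1020, 0), (1020, 0)], [(30, 0), (54, 0), (54, 0), (60, 0), (66, 0),
  (72, 0), (78, 0), (84, 0), (90, 0), (96, 0), (102, 0), (108, 0), (114, 0), (480, 0), (468, 0),
  (456, 0), (444, 0), (432, 0), (324, 0), (276, 0), (264, 0), (252, 0), (240, 0), (228, 0), (216,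
  0), (204, 0), (192, 0), (180, 0), (168, 0), (156, 0), (450, 0), (312, 3), (318, 2), (318, 4),
  (834, 0), (696, 3), (702, 4), (702, 2)], 9, 0), ([(48, 0), (426, 0)], [], 0, 0), ([(42, 0),
  (432, 0)], [], 0, 0), ([(42, 0), (426, 0)], [], 0, 0))

def o9 : (ℤ × ℤ) × FForm × FForm × FForm × FForm :=
  ((76, 0), ([(30, 0), (426, 0), (414, 0), (402, 0), (402, 0), (390, 0), (378, 0), (366, 0),
  (354, 0), (348, 0), (342, 0), (330, 0), (318, 0), (306, 0), (294, 0), (282, 0), (270, 0),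
  (1284, 0), (1008, 0), (1020, 0), (1020, 0)], [(24, 0), (48, 0), (60, 0), (66, 0), (72, 0), (78,
  0), (84, 0), (90, 0), (96, 0), (102, 0), (108, 0), (480, 0), (468, 0), (456, 0), (444, 0),
  (432, 0), (432, 0), (276, 0), (252, 0), (240, 0), (228, 0), (216, 0), (204, 0), (192, 0), (180,
  0), (168, 0), (156, 0), (456, 0), (318, 3), (324, 2), (324, 4), (828, 0), (690, 3), (696, 4),
  (696, 2)], 10, 0), ([(54, 0), (420, 0)], [], 0, 0), ([(48, 0), (426, 0)], [], 0, 0), ([(48, 0),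
  (420, 0)], [], 0, 0))

def o10 : (ℤ × ℤ) × FForm × FForm × FForm × FForm :=
  ((77, 0), ([(36, 0), (414, 0), (402, 0), (396, 0), (390, 0), (378, 0), (366, 0), (354, 0),
  (342, 0), (342, 0), (330, 0), (318, 0), (318, 0), (306, 0), (294, 0), (282, 0), (270, 0), (258,
  0), (1284, 0), (1008, 0), (1020, 0), (1020, 0)], [(18, 0), (42, 0), (66, 0), (72, 0), (78, 0),
  (84, 0), (90, 0), (96, 0), (102, 0), (480, 0), (468, 0), (456, 0), (444, 0), (432, 0), (432,
  0), (324, 0), (276, 0), (252, 0), (240, 0), (228, 0), (216, 0), (204, 0), (192, 0), (180, 0),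
  (168, 0), (156, 0), (462, 0), (324, 3), (330, 2), (330, 4), (822, 0), (684, 3), (690, 4), (690,
  2)], 11, 0), ([(60, 0), (414, 0)], [], 0, 0), ([(54, 0), (420, 0)], [], 0, 0), ([(54, 0), (414,
  0)], [], 0, 0))

def o11 : (ℤ × ℤ) × FForm × FForm × FForm × FForm :=
  ((78, 0), ([(42, 0), (414, 0), (402, 0), (390, 0), (390, 0), (378, 0), (366, 0), (354, 0),
  (342, 0), (336, 0), (330, 0), (318, 0), (312, 0), (306, 0), (294, 0), (282, 0), (270, 0), (258,
  0), (1284, 0), (1008, 0), (1020, 0), (1020, 0)], [(12, 0), (36, 0), (72, 0), (78, 0), (84, 0),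
  (90, 0), (96, 0), (480, 0), (468, 0), (456, 0), (444, 0), (432, 0), (432, 0), (420, 0), (324,
  0), (276, 0), (240, 0), (228, 0), (216, 0), (204, 0), (192, 0), (180, 0), (168, 0), (156, 0),
  (468, 0), (330, 3), (336, 2), (336, 4), (816, 0), (678, 3), (684, 4), (684, 2)], 12, 0), ([(66,
  0), (408, 0)], [], 0, 0), ([(60, 0), (414, 0)], [], 0, 0), ([(60, 0), (408, 0)], [], 0, 0))

def o12 : (ℤ × ℤ) × FForm × FForm × FForm × FForm :=
  ((79, 0), ([(48, 0), (402, 0), (390, 0), (384, 0), (378, 0), (366, 0), (354, 0), (342, 0),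
  (330, 0), (330, 0), (318, 0), (306, 0), (306, 0), (294, 0), (282, 0), (270, 0), (258, 0), (246,
  0), (1284, 0), (1008, 0), (1020, 0), (1020, 0)], [(6, 0), (30, 0), (78, 0), (84, 0), (90, 0),
  (480, 0), (468, 0), (456, 0), (444, 0), (432, 0), (432, 0), (420, 0), (324, 0), (276, 0), (240,
  0), (228, 0), (216, 0), (204, 0), (192, 0), (180, 0), (168, 0), (156, 0), (474, 0), (336, 3),
  (342, 2), (342, 4), (810, 0), (672, 3), (678, 4), (678, 2)], 13, 0), ([(72, 0), (402, 0)], [],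
  0, 0), ([(66, 0), (408, 0)], [], 0, 0), ([(66, 0), (402, 0)], [], 0, 0))

def o13 : (ℤ × ℤ) × FForm × FForm × FForm × FForm :=
  ((80, 0), ([(54, 0), (402, 0), (390, 0), (378, 0), (378, 0), (366, 0), (354, 0), (342, 0),
  (330, 0), (318, 0), (306, 0), (300, 0), (294, 0), (282, 0), (270, 0), (258, 0), (246, 0),
  (1284, 0), (1008, 0), (1020, 0), (1020, 0)], [(24, 0), (84, 0), (480, 0), (468, 0), (456, 0),
  (444, 0), (432, 0), (432, 0), (420, 0), (408, 0), (276, 0), (228, 0), (216, 0), (204, 0), (192,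
  0), (180, 0), (168, 0), (156, 0), (480, 0), (342, 3), (348, 2), (348, 4), (804, 0), (666, 3),
  (672, 4), (672, 2)], 15, 0), ([(78, 0), (396, 0)], [], 0, 0), ([(72, 0), (402, 0)], [], 0, 0),
  ([(72, 0), (396, 0)], [], 0, 0))

def o14 : (ℤ × ℤ) × FForm × FForm × FForm × FForm :=
  ((81, 0), ([(84, 0), (60, 0), (6, 0), (390, 0), (378, 0), (372, 0), (366, 0), (354, 0), (342,
  0), (330, 0), (318, 0), (318, 0), (306, 0), (294, 0), (294, 0), (282, 0), (270, 0), (258, 0),
  (246, 0), (234, 0), (1284, 0), (1008, 0), (1020, 0), (1020, 0)], [(18, 0), (480, 0), (468, 0),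
  (456, 0), (444, 0), (432, 0), (432, 0), (420, 0), (408, 0), (324, 0), (276, 0), (228, 0), (216,
  0), (204, 0), (192, 0), (180, 0), (168, 0), (156, 0), (486, 0), (348, 3), (354, 2), (354, 4),
  (798, 0), (660, 3), (666, 4), (666, 2)], 16, 0), ([(84, 0), (390, 0)], [], 0, 0), ([(78, 0),
  (396, 0)], [], 0, 0), ([(78, 0), (390, 0)], [], 0, 0))

def o15 : (ℤ × ℤ) × FForm × FForm × FForm × FForm :=
  ((82, 0), ([(90, 0), (84, 0), (78, 0), (66, 0), (390, 0), (378, 0), (366, 0), (366, 0), (354,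
  0), (342, 0), (330, 0), (318, 0), (312, 0), (306, 0), (294, 0), (288, 0), (282, 0), (270, 0),
  (258, 0), (246, 0), (234, 0), (1284, 0), (1008, 0), (1020, 0), (1020, 0)], [(480, 0), (468, 0),
  (456, 0), (444, 0), (432, 0), (432, 0), (420, 0), (408, 0), (396, 0), (324, 0), (276, 0), (216,
  0), (204, 0), (192, 0), (180, 0), (168, 0), (156, 0), (492, 0), (354, 3), (360, 2), (360, 4),
  (792, 0), (654, 3), (660, 4), (660, 2)], 17, 0), ([(90, 0), (384, 0)], [], 0, 0), ([(84, 0),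
  (390, 0)], [], 0, 0), ([(84, 0), (384, 0)], [], 0, 0))

def o16 : (ℤ × ℤ) × FForm × FForm × FForm × FForm :=
  ((83, 0), ([(96, 0), (90, 0), (84, 0), (78, 0), (72, 0), (72, 0), (18, 0), (378, 0), (366, 0),
  (360, 0), (354, 0), (342, 0), (330, 0), (318, 0), (306, 0), (306, 0), (294, 0), (282, 0), (282,
  0), (270, 0), (258, 0), (246, 0), (234, 0), (222, 0), (1284, 0), (1008, 0), (1020, 0), (1020,
  0)], [(6, 0), (480, 0), (468, 0), (456, 0), (444, 0), (432, 0), (432, 0), (420, 0), (408, 0),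
  (396, 0), (324, 0), (276, 0), (216, 0), (204, 0), (192, 0), (180, 0), (168, 0), (156, 0), (498,
  0), (360, 3), (366, 2), (366, 4), (786, 0), (648, 3), (654, 4), (654, 2)], 18, 0), ([(96, 0),
  (378, 0)], [], 0, 0), ([(90, 0), (384, 0)], [], 0, 0), ([(90, 0), (378, 0)], [], 0, 0))

def o17 : (ℤ × ℤ) × FForm × FForm × FForm × FForm :=
  ((84, 0), ([(102, 0), (96, 0), (90, 0), (84, 0), (78, 0), (78, 0), (72, 0), (66, 0), (24, 0),
  (378, 0), (366, 0), (354, 0), (354, 0), (342, 0), (330, 0), (318, 0), (306, 0), (300, 0), (294,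
  0), (282, 0), (270, 0), (258, 0), (246, 0), (234, 0), (222, 0), (1284, 0), (1008, 0), (1020,
  0), (1020, 0)], [(480, 0), (468, 0), (456, 0), (444, 0), (432, 0), (432, 0), (420, 0), (408,
  0), (396, 0), (384, 0), (324, 0), (204, 0), (192, 0), (180, 0), (168, 0), (156, 0), (504, 0),
  (366, 3), (372, 2), (372, 4), (780, 0), (642, 3), (648, 4), (648, 2)], 20, 0), ([(102, 0),
  (372, 0)], [], 0, 0), ([(96, 0), (378, 0)], [], 0, 0), ([(96, 0), (372, 0)], [], 0, 0))

def o18 : (ℤ × ℤ) × FForm × FForm × FForm × FForm :=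
  ((85, 0), ([(108, 0), (102, 0), (96, 0), (90, 0), (84, 0), (84, 0), (78, 0), (72, 0), (66, 0),
  (60, 0), (30, 0), (6, 0), (366, 0), (354, 0), (348, 0), (342, 0), (330, 0), (318, 0), (306, 0),
  (294, 0), (294, 0), (282, 0), (270, 0), (270, 0), (258, 0), (246, 0), (234, 0), (222, 0), (210,
  0), (1284, 0), (1008, 0), (1020, 0), (1020, 0)], [(480, 0), (468, 0), (456, 0), (444, 0), (432,
  0), (432, 0), (420, 0), (408, 0), (396, 0), (384, 0), (324, 0), (276, 0), (204, 0), (192, 0),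
  (180, 0), (168, 0), (156, 0), (510, 0), (372, 3), (378, 2), (378, 4), (774, 0), (636, 3), (642,
  4), (642, 2)], 21, 0), ([(108, 0), (366, 0)], [], 0, 0), ([(102, 0), (372, 0)], [], 0, 0),
  ([(102, 0), (366, 0)], [], 0, 0))

def o19 : (ℤ × ℤ) × FForm × FForm × FForm × FForm :=
  ((86, 0), ([(114, 0), (108, 0), (102, 0), (96, 0), (90, 0), (90, 0), (84, 0), (78, 0), (72, 0),
  (66, 0), (60, 0), (54, 0), (36, 0), (12, 0), (366, 0), (354, 0), (342, 0), (342, 0), (330, 0),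
  (318, 0), (306, 0), (294, 0), (288, 0), (282, 0), (270, 0), (264, 0), (258, 0), (246, 0), (234,
  0), (222, 0), (210, 0), (1284, 0), (1008, 0), (1020, 0), (1020, 0)], [(480, 0), (468, 0), (456,
  0), (444, 0), (432, 0), (432, 0), (420, 0), (408, 0), (396, 0), (384, 0), (372, 0), (324, 0),
  (276, 0), (192, 0), (180, 0), (168, 0), (156, 0), (516, 0), (378, 3), (384, 2), (384, 4), (768,
  0), (630, 3), (636, 4), (636, 2)], 22, 0), ([(114, 0), (360, 0)], [], 0, 0), ([(108, 0), (366,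
  0)], [], 0, 0), ([(108, 0), (360, 0)], [], 0, 0))

def o20 : (ℤ × ℤ) × FForm × FForm × FForm × FForm :=
  ((87, 0), ([(120, 0), (114, 0), (108, 0), (102, 0), (96, 0), (96, 0), (90, 0), (84, 0), (78,
  0), (72, 0), (66, 0), (60, 0), (54, 0), (48, 0), (42, 0), (18, 0), (354, 0), (342, 0), (336,
  0), (330, 0), (318, 0), (306, 0), (294, 0), (282, 0), (282, 0), (270, 0), (258, 0), (258, 0),
  (246, 0), (234, 0), (222, 0), (210, 0), (198, 0), (1284, 0), (1008, 0), (1020, 0), (1020, 0)],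
  [(480, 0), (468, 0), (456, 0), (444, 0), (432, 0), (432, 0), (420, 0), (408, 0), (396, 0),
  (384, 0), (372, 0), (324, 0), (276, 0), (192, 0), (180, 0), (168, 0), (156, 0), (522, 0), (384,
  3), (390, 2), (390, 4), (762, 0), (624, 3), (630, 4), (630, 2)], 23, 0), ([(120, 0), (354, 0)],
  [], 0, 0), ([(114, 0), (360, 0)], [], 0, 0), ([(114, 0), (354, 0)], [], 0, 0))

def o21 : (ℤ × ℤ) × FForm × FForm × FForm × FForm :=
  ((88, 0), ([(126, 0), (120, 0), (114, 0), (108, 0), (102, 0), (102, 0), (96, 0), (90, 0), (84,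
  0), (78, 0), (72, 0), (66, 0), (60, 0), (54, 0), (48, 0), (48, 0), (42, 0), (24, 0), (354, 0),
  (342, 0), (330, 0), (330, 0), (318, 0), (306, 0), (294, 0), (282, 0), (270, 0), (258, 0), (252,
  0), (246, 0), (234, 0), (222, 0), (210, 0), (198, 0), (1284, 0), (1008, 0), (1020, 0), (1020,
  0)], [(480, 0), (468, 0), (456, 0), (444, 0), (432, 0), (432, 0), (420, 0), (408, 0), (396, 0),
  (384, 0), (372, 0), (360, 0), (324, 0), (180, 0), (168, 0), (156, 0), (528, 0), (390, 3), (396,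
  2), (396, 4), (756, 0), (618, 3), (624, 4), (624, 2)], 24, 0), ([(126, 0), (348, 0)], [], 0,
  0), ([(120, 0), (354, 0)], [], 0, 0), ([(120, 0), (348, 0)], [], 0, 0))

def o22 : (ℤ × ℤ) × FForm × FForm × FForm × FForm :=
  ((89, 0), ([(132, 0), (126, 0), (120, 0), (114, 0), (108, 0), (108, 0), (102, 0), (96, 0), (90,
  0), (84, 0), (78, 0), (72, 0), (66, 0), (60, 0), (54, 0), (54, 0), (48, 0), (42, 0), (36, 0),
  (30, 0), (342, 0), (330, 0), (318, 0), (306, 0), (294, 0), (282, 0), (270, 0), (270, 0), (258,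
  0), (246, 0), (246, 0), (234, 0), (222, 0), (210, 0), (198, 0), (186, 0), (1284, 0), (1008, 0),
  (1020, 0), (1020, 0)], [(480, 0), (468, 0), (456, 0), (444, 0), (432, 0), (432, 0), (420, 0),
  (408, 0), (396, 0), (384, 0), (372, 0), (360, 0), (276, 0), (180, 0), (168, 0), (156, 0), (534,
  0), (396, 3), (402, 2), (402, 4), (750, 0), (612, 3), (618, 4), (618, 2)], 25, 0), ([(132, 0),
  (342, 0)], [], 0, 0), ([(126, 0), (348, 0)], [], 0, 0), ([(126, 0), (342, 0)], [], 0, 0))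

def o23 : (ℤ × ℤ) × FForm × FForm × FForm × FForm :=
  ((90, 0), ([(138, 0), (132, 0), (126, 0), (120, 0), (114, 0), (114, 0), (108, 0), (102, 0),
  (96, 0), (90, 0), (84, 0), (78, 0), (72, 0), (66, 0), (60, 0), (60, 0), (54, 0), (48, 0), (42,
  0), (36, 0), (36, 0), (30, 0), (342, 0), (330, 0), (318, 0), (318, 0), (306, 0), (294, 0),
  (282, 0), (270, 0), (264, 0), (258, 0), (246, 0), (240, 0), (234, 0), (222, 0), (210, 0), (198,
  0), (186, 0), (1284, 0), (1008, 0), (1020, 0), (1020, 0)], [(480, 0), (468, 0), (456, 0), (444,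
  0), (432, 0), (432, 0), (420, 0), (408, 0), (396, 0), (384, 0), (372, 0), (360, 0), (348, 0),
  (324, 0), (276, 0), (168, 0), (156, 0), (540, 0), (402, 3), (408, 2), (408, 4), (744, 0), (606,
  3), (612, 4), (612, 2)], 26, 0), ([(138, 0), (336, 0)], [], 0, 0), ([(132, 0), (342, 0)], [],
  0, 0), ([(132, 0), (336, 0)], [], 0, 0))

def o24 : (ℤ × ℤ) × FForm × FForm × FForm × FForm :=
  ((91, 0), ([(144, 0), (138, 0), (132, 0), (126, 0), (120, 0), (120, 0), (114, 0), (108, 0),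
  (102, 0), (96, 0), (90, 0), (84, 0), (78, 0), (72, 0), (66, 0), (66, 0), (60, 0), (54, 0), (48,
  0), (42, 0), (42, 0), (36, 0), (30, 0), (24, 0), (330, 0), (318, 0), (312, 0), (306, 0), (294,
  0), (282, 0), (270, 0), (258, 0), (258, 0), (246, 0), (234, 0), (234, 0), (222, 0), (210, 0),
  (198, 0), (186, 0), (174, 0), (1284, 0), (1008, 0), (1020, 0), (1020, 0)], [(480, 0), (468, 0),
  (456, 0), (444, 0), (432, 0), (432, 0), (420, 0), (408, 0), (396, 0), (384, 0), (372, 0), (360,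
  0), (348, 0), (324, 0), (276, 0), (168, 0), (156, 0), (546, 0), (408, 3), (414, 2), (414, 4),
  (738, 0), (600, 3), (606, 4), (606, 2)], 27, 0), ([(144, 0), (330, 0)], [], 0, 0), ([(138, 0),
  (336, 0)], [], 0, 0), ([(138, 0), (330, 0)], [], 0, 0))

def o25 : (ℤ × ℤ) × FForm × FForm × FForm × FForm :=
  ((92, 0), ([(150, 0), (144, 0), (138, 0), (132, 0), (126, 0), (126, 0), (120, 0), (114, 0),
  (108, 0), (102, 0), (96, 0), (90, 0), (84, 0), (78, 0), (72, 0), (72, 0), (66, 0), (60, 0),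
  (54, 0), (48, 0), (48, 0), (42, 0), (36, 0), (30, 0), (24, 0), (18, 0), (330, 0), (318, 0),
  (306, 0), (306, 0), (294, 0), (282, 0), (270, 0), (258, 0), (252, 0), (246, 0), (234, 0), (228,
  0), (222, 0), (210, 0), (198, 0), (186, 0), (174, 0), (1284, 0), (1008, 0), (1020, 0), (1020,
  0)], [(480, 0), (468, 0), (456, 0), (444, 0), (432, 0), (432, 0), (420, 0), (408, 0), (396, 0),
  (384, 0), (372, 0), (360, 0), (348, 0), (336, 0), (324, 0), (276, 0), (156, 0), (552, 0), (414,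
  3), (420, 2), (420, 4), (732, 0), (594, 3), (600, 4), (600, 2)], 28, 0), ([(150, 0), (324, 0)],
  [], 0, 0), ([(144, 0), (330, 0)], [], 0, 0), ([(144, 0), (324, 0)], [], 0, 0))

def o26 : (ℤ × ℤ) × FForm × FForm × FForm × FForm :=
  ((93, 0), ([(150, 0), (144, 0), (138, 0), (132, 0), (132, 0), (126, 0), (120, 0), (114, 0),
  (108, 0), (102, 0), (96, 0), (90, 0), (84, 0), (78, 0), (78, 0), (72, 0), (66, 0), (60, 0),
  (54, 0), (54, 0), (48, 0), (42, 0), (36, 0), (30, 0), (24, 0), (18, 0), (12, 0), (318, 0),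
  (306, 0), (300, 0), (294, 0), (282, 0), (270, 0), (258, 0), (246, 0), (246, 0), (234, 0), (222,
  0), (222, 0), (210, 0), (198, 0), (186, 0), (174, 0), (162, 0), (1284, 0), (1008, 0), (1020,
  0), (1020, 0)], [(480, 0), (468, 0), (456, 0), (444, 0), (432, 0), (432, 0), (420, 0), (408,
  0), (396, 0), (384, 0), (372, 0), (360, 0), (348, 0), (336, 0), (324, 0), (276, 0), (558, 0),
  (420, 3), (426, 2), (426, 4), (726, 0), (588, 3), (594, 4), (594, 2)], 29, 0), ([(156, 0),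
  (318, 0)], [], 0, 0), ([(150, 0), (324, 0)], [], 0, 0), ([(150, 0), (318, 0)], [], 0, 0))

def o27 : (ℤ × ℤ) × FForm × FForm × FForm × FForm :=
  ((94, 0), ([(162, 0), (150, 0), (144, 0), (138, 0), (138, 0), (132, 0), (126, 0), (120, 0),
  (114, 0), (108, 0), (102, 0), (96, 0), (90, 0), (84, 0), (84, 0), (78, 0), (72, 0), (66, 0),
  (60, 0), (60, 0), (54, 0), (48, 0), (42, 0), (36, 0), (30, 0), (24, 0), (18, 0), (12, 0), (6,
  0), (318, 0), (306, 0), (294, 0), (294, 0), (282, 0), (270, 0), (258, 0), (246, 0), (240, 0),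
  (234, 0), (222, 0), (216, 0), (210, 0), (198, 0), (186, 0), (174, 0), (162, 0), (156, 0),
  (1284, 0), (1008, 0), (1020, 0), (1020, 0)], [(480, 0), (468, 0), (456, 0), (444, 0), (432, 0),
  (432, 0), (420, 0), (408, 0), (396, 0), (384, 0), (372, 0), (360, 0), (348, 0), (336, 0), (324,
  0), (324, 0), (276, 0), (564, 0), (426, 3), (432, 2), (432, 4), (720, 0), (582, 3), (588, 4),
  (588, 2)], 30, 0), ([(162, 0), (312, 0)], [], 0, 0), ([(156, 0), (318, 0)], [], 0, 0), ([(156,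
  0), (312, 0)], [], 0, 0))

def o28 : (ℤ × ℤ) × FForm × FForm × FForm × FForm :=
  ((214, 0), ([(882, 0), (876, 0), (870, 0), (864, 0), (858, 0), (858, 0), (852, 0), (846, 0),
  (840, 0), (834, 0), (828, 0), (822, 0), (816, 0), (810, 0), (804, 0), (804, 0), (798, 0), (792,
  0), (786, 0), (780, 0), (780, 0), (774, 0), (768, 0), (762, 0), (756, 0), (750, 0), (744, 0),
  (738, 0), (732, 0), (726, 0), (720, 0), (1008, 0), (1020, 0), (1020, 0), (138, 3), (132, 2),
  (132, 4)], [(402, 0), (408, 0), (414, 0), (420, 0), (426, 0), (426, 0), (432, 0), (438, 0),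
  (444, 0), (450, 0), (456, 0), (462, 0), (468, 0), (474, 0), (480, 0), (480, 0), (486, 0), (492,
  0), (498, 0), (504, 0), (504, 0), (510, 0), (516, 0), (522, 0), (528, 0), (534, 0), (540, 0),
  (546, 0), (552, 0), (558, 0), (564, 0), (480, 0), (468, 0), (456, 0), (444, 0), (432, 0), (432,
  0), (420, 0), (408, 0), (396, 0), (384, 0), (372, 0), (360, 0), (348, 0), (336, 0), (324, 0),
  (324, 0), (312, 0), (300, 0), (288, 0), (276, 0), (276, 0), (264, 0), (252, 0), (240, 0), (228,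
  0), (216, 0), (204, 0), (192, 0), (180, 0), (168, 0), (156, 0), (1146, 3), (1152, 2), (1152,
  4)], 0, 0), ([(882, 0)], [(408, 0)], 0, 1), ([(876, 0)], [(402, 0)], 0, 1), ([(876, 0)], [(408,
  0)], 0, 1))

def o29 : (ℤ × ℤ) × FForm × FForm × FForm × FForm :=
  ((191, 3), ([(744, 3), (738, 3), (732, 3), (726, 3), (720, 3), (720, 3), (714, 3), (708, 3),
  (702, 3), (696, 3), (690, 3), (684, 3), (678, 3), (672, 3), (666, 3), (666, 3), (660, 3), (654,
  3), (648, 3), (642, 3), (642, 3), (636, 3), (630, 3), (624, 3), (618, 3), (612, 3), (606, 3),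
  (600, 3), (594, 3), (588, 3), (582, 3), (1284, 0), (1020, 0), (1020, 0)], [(264, 3), (270, 3),
  (276, 3), (282, 3), (288, 3), (288, 3), (294, 3), (300, 3), (306, 3), (312, 3), (318, 3), (324,
  3), (330, 3), (336, 3), (342, 3), (342, 3), (348, 3), (354, 3), (360, 3), (366, 3), (366, 3),
  (372, 3), (378, 3), (384, 3), (390, 3), (396, 3), (402, 3), (408, 3), (414, 3), (420, 3), (426,
  3), (480, 0), (468, 0), (456, 0), (444, 0), (432, 0), (432, 0), (420, 0), (408, 0), (396, 0),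
  (384, 0), (372, 0), (360, 0), (348, 0), (336, 0), (324, 0), (324, 0), (312, 0), (300, 0), (288,
  0), (276, 0), (276, 0), (264, 0), (252, 0), (240, 0), (228, 0), (216, 0), (204, 0), (192, 0),
  (180, 0), (168, 0), (156, 0), (1146, 3), (1014, 5), (1014, 1), (138, 3), (6, 1), (6, 5)], 0,
  0), ([(744, 3)], [(270, 3)], 0, 1), ([(738, 3)], [(264, 3)], 0, 1), ([(738, 3)], [(270, 3)], 0,
  1))

def o30 : (ℤ × ℤ) × FForm × FForm × FForm × FForm :=
  ((192, 4), ([(750, 4), (744, 4), (738, 4), (732, 4), (726, 4), (726, 4), (720, 4), (714, 4),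
  (708, 4), (702, 4), (696, 4), (690, 4), (684, 4), (678, 4), (672, 4), (672, 4), (666, 4), (660,
  4), (654, 4), (648, 4), (648, 4), (642, 4), (636, 4), (630, 4), (624, 4), (618, 4), (612, 4),
  (606, 4), (600, 4), (594, 4), (588, 4), (1284, 0), (1008, 0), (1020, 0), (6, 1)], [(270, 4),
  (276, 4), (282, 4), (288, 4), (294, 4), (294, 4), (300, 4), (306, 4), (312, 4), (318, 4), (324,
  4), (330, 4), (336, 4), (342, 4), (348, 4), (348, 4), (354, 4), (360, 4), (366, 4), (372, 4),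
  (372, 4), (378, 4), (384, 4), (390, 4), (396, 4), (402, 4), (408, 4), (414, 4), (420, 4), (426,
  4), (432, 4), (480, 0), (468, 0), (456, 0), (444, 0), (432, 0), (432, 0), (420, 0), (408, 0),
  (396, 0), (384, 0), (372, 0), (360, 0), (348, 0), (336, 0), (324, 0), (324, 0), (312, 0), (300,
  0), (288, 0), (276, 0), (276, 0), (264, 0), (252, 0), (240, 0), (228, 0), (216, 0), (204, 0),
  (192, 0), (180, 0), (168, 0), (156, 0), (1152, 4), (1014, 1), (1020, 2), (132, 2)], 0, 0),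
  ([(750, 4)], [(276, 4)], 0, 1), ([(744, 4)], [(270, 4)], 0, 1), ([(744, 4)], [(276, 4)], 0, 1))

def o31 : (ℤ × ℤ) × FForm × FForm × FForm × FForm :=
  ((192, 2), ([(750, 2), (744, 2), (738, 2), (732, 2), (726, 2), (726, 2), (720, 2), (714, 2),
  (708, 2), (702, 2), (696, 2), (690, 2), (684, 2), (678, 2), (672, 2), (672, 2), (666, 2), (660,
  2), (654, 2), (648, 2), (648, 2), (642, 2), (636, 2), (630, 2), (624, 2), (618, 2), (612, 2),
  (606, 2), (600, 2), (594, 2), (588, 2), (1284, 0), (1008, 0), (1020, 0), (6, 5)], [(270, 2),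
  (276, 2), (282, 2), (288, 2), (294, 2), (294, 2), (300, 2), (306, 2), (312, 2), (318, 2), (324,
  2), (330, 2), (336, 2), (342, 2), (348, 2), (348, 2), (354, 2), (360, 2), (366, 2), (372, 2),
  (372, 2), (378, 2), (384, 2), (390, 2), (396, 2), (402, 2), (408, 2), (414, 2), (420, 2), (426,
  2), (432, 2), (480, 0), (468, 0), (456, 0), (444, 0), (432, 0), (432, 0), (420, 0), (408, 0),
  (396, 0), (384, 0), (372, 0), (360, 0), (348, 0), (336, 0), (324, 0), (324, 0), (312, 0), (300,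
  0), (288, 0), (276, 0), (276, 0), (264, 0), (252, 0), (240, 0), (228, 0), (216, 0), (204, 0),
  (192, 0), (180, 0), (168, 0), (156, 0), (1152, 2), (1014, 5), (1020, 4), (132, 4)], 0, 0),
  ([(750, 2)], [(276, 2)], 0, 1), ([(744, 2)], [(270, 2)], 0, 1), ([(744, 2)], [(276, 2)], 0, 1))

/-- all thresholds with their functions -/
def OD : List ((ℤ × ℤ) × FForm × FForm × FForm × FForm) :=
  [o0, o1, o2, o3, o4, o5, o6, o7, o8, o9, o10, o11, o12, o13, o14, o15, o16, o17, o18, o19, o20,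
  o21, o22, o23, o24, o25, o26, o27, o28, o29, o30, o31]

/-- minus `E0` -/
def EF : FForm :=
  ([(1284, 0), (1008, 0), (1020, 0), (1020, 0)], [(480, 0), (468, 0), (456, 0), (444, 0), (432,
  0), (432, 0), (420, 0), (408, 0), (396, 0), (384, 0), (372, 0), (360, 0), (348, 0), (336, 0),
  (324, 0), (324, 0), (312, 0), (300, 0), (288, 0), (276, 0), (276, 0), (264, 0), (252, 0), (240,
  0), (228, 0), (216, 0), (204, 0), (192, 0), (180, 0), (168, 0), (156, 0)], 0, 0)

end Pool.Agent.TwoOdd.D29
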