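import Pool.Agent.TwoOdd.TabForm

/-!
Finite table, step 2: the bounds for `bnd` from the values at the thresholds.  Seat: helper61.
-/

open Finset

namespace Pool.Agent.TwoOdd.Tab

variable {D : Dat} {PL : List ℕ}

/-- first case possible (`≥ 1`) -/
def PhT (D : Dat) (o : ℤ × ℤ) : List (Bool × ℤ × ℤ) :=
  [(true, o.1 - D.s, o.2), (true, (D.C : ℤ) - D.lo - o.1, -o.2)]

/-- third case possible (`≥ 1`) -/
def OmT (D : Dat) (o : ℤ × ℤ) : List (Bool × ℤ × ℤ) :=
  [(true, o.1 - D.lo, o.2), (true, (D.C : ℤ) - D.s - o.1, -o.2)]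

/-- a pole in the range (`≥ 0`) -/
def PsT (D : Dat) (o : ℤ × ℤ) : List (Bool × ℤ × ℤ) :=
  [(true, o.1 - D.lo, o.2), (true, (D.C : ℤ) - D.lo - o.1, -o.2)]

/-- minus `E0` -/
def ET (D : Dat) (PL : List ℕ) : List (Bool × ℤ × ℤ) :=
  (PL.map fun h : ℕ => (false, (D.C : ℤ) - 2 * h, (0 : ℤ))) ++
  [(true, (D.C : ℤ), 0), (true, (D.C : ℤ) - 2 * D.hH, 0), (true, (D.C : ℤ) - 2 * D.hG, 0),
    (true, (D.C : ℤ) - 2 * D.hG, 0)]

theorem neg_E0_eq (hL : Lists D PL) (n p : ℕ) : - E0 D n p = tv n p (ET D PL) := by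
  rw [E0_fl hL]
  unfold ET
  simp only [tv_append, tv_cons, tv_nil, if_true, add_zero]
  have h : ∀ L : List ℕ, tv n p (L.map fun h : ℕ => (false, (D.C : ℤ) - 2 * h, (0 : ℤ))) =
      - (L.map fun h : ℕ => fl n p (D.C - 2 * h) 0).sum := by
    intro L
    induction L with
    | nil => simp [tv]
    | cons x L ih =>
      simp only [List.map_cons, List.sum_cons, tv_cons, Bool.false_eq_true, if_false]
      rw [ih]
      ring
  rw [h]
  ring

theorem noP_of (hL : Lists D PL) (hs : ∀ h ∈ PL, D.s ≤ h) {n l p : ℕ} (hp : 0 < p)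
    (h1 : l < D.s * n + p) (h2 : (D.C - D.s) * n < l + p) : noP D n l p := by
  have hp' : (0 : ℤ) < p := by exact_mod_cast hp
  intro i hi
  have hh := h_mem hL hi
  have hlt := hL.lt _ hh
  have hge := hs _ hh
  generalize D.h i = h at *
  have hn1 : D.s * n ≤ h * n := Nat.mul_le_mul_right _ hge
  have hn2 : (D.C - h) * n ≤ (D.C - D.s) * n := Nat.mul_le_mul_right _ (by omega)
  have a1 : fA n l p h ≤ 0 := by
    unfold fA
    apply Int.lt_add_one_iff.1
    apply Int.ediv_lt_of_lt_mul hp'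
    have : (l : ℤ) < D.s * n + p := by exact_mod_cast h1
    have : (D.s : ℤ) * n ≤ h * n := by exact_mod_cast hn1
    linarith
  have e2 : (((D.C - h) * n : ℕ) : ℤ) = (D.C - h : ℤ) * n := by
    rw [Nat.cast_mul, Nat.cast_sub (by omega)]
  have a2 : fB D n l p h ≤ 0 := by
    unfold fB
    apply Int.lt_add_one_iff.1
    apply Int.ediv_lt_of_lt_mul hp'
    have : (((D.C - h) * n : ℕ) : ℤ) < l + p := by exact_mod_cast lt_of_le_of_lt hn2 h2
    rw [e2] at this
    linarith
  unfold cnt
  split_ifs with hb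
  · omega
  · unfold blk at hb
    rw [Finset.mem_Icc, not_and_or, not_le, not_le] at hb
    rcases hb with hb | hb
    · have a3 : fA n l p h < 0 := by
        unfold fA
        apply Int.ediv_neg_of_neg_of_pos _ hp'
        have : (l : ℤ) < h * n := by exact_mod_cast hb
        linarith
      omega
    · have a3 : fB D n l p h < 0 := by
        unfold fB
        apply Int.ediv_neg_of_neg_of_pos _ hp'
        have : (((D.C - h) * n : ℕ) : ℤ) < l := by exact_mod_cast hb
        rw [e2] at this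
        linarith
      omega

/-- for small `n / p` only the constant matters -/
theorem bnd_small (hL : Lists D PL) (hs : ∀ h ∈ PL, D.s ≤ h) (hslo : D.s ≤ D.lo)
    (hlo : 2 * D.lo < D.C) {n l p : ℕ} (hp : 0 < p) (hl : l ∈ poles D n)
    (h79 : (D.C - D.lo - D.s) * n < p) : bnd D n l p ≤ - E0 D n p := by
  obtain ⟨l1, l2⟩ := Finset.mem_Icc.1 hl
  have e1 : (D.C - D.lo) * n = (D.C - D.lo - D.s) * n + D.s * n := by
    rw [← Nat.add_mul]
    congr 1
    omega
  have e2 : (D.C - D.s) * n = (D.C - D.lo - D.s) * n + D.lo * n := by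
    rw [← Nat.add_mul]
    congr 1
    omega
  have h1 : l < D.s * n + p := by omega
  have h2 : (D.C - D.s) * n < l + p := by omega
  unfold bnd
  rw [if_neg (by omega), if_pos (noP_of hL hs hp h1 h2)]
  exact min_le_right _ _

/-- the explicit bound from the values at the thresholds -/
theorem bnd_explicit (hL : Lists D PL) (hs : ∀ h ∈ PL, D.s ≤ h) (hsm : D.s ∈ PL) (hlom : D.lo ∈ PL)
    {n l p : ℕ} (hp : 0 < p) (hl : l ∈ poles D n) (d : ℤ)
    (h : ∀ o ∈ ups D PL,
      (tv n p (PhT D o) ≤ 0 ∨ PL.length + 3 + tv n p (GT D PL o) ≤ d) ∧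
      (tv n p (OmT D o) ≤ 0 ∨ PL.length + 3 + tv n p (GT D PL o) ≤ d + 1) ∧
      (tv n p (PsT D o) ≤ -1 ∨ PL.length + 3 + tv n p (GT D PL o) ≤ d + 1 ∨
        tv n p (ET D PL) ≤ d)) : bnd D n l p ≤ d := by
  have hQ : (0 : ℤ) < 6 * p := by positivity
  have hn0 : (0 : ℤ) ≤ n := Nat.cast_nonneg n
  obtain ⟨o, ho, m, H⟩ := exists_thr D PL n l p hp
  have hG := le_GT hL hp H
  obtain ⟨l1, l2⟩ := Finset.mem_Icc.1 hl
  have hClo := hL.lt _ hlom
  have hCs := hL.lt _ hsm
  have l1' : (D.lo : ℤ) * n ≤ l := by exact_mod_cast l1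
  have l2' : (l : ℤ) ≤ (D.C - D.lo) * n := by
    have : (l : ℤ) ≤ (((D.C - D.lo) * n : ℕ) : ℤ) := by exact_mod_cast l2
    rwa [Nat.cast_mul, Nat.cast_sub (by omega)] at this
  have memUp : ∀ x ∈ PL, ((x : ℤ), (0 : ℤ)) ∈ ups D PL := by
    intro x hx
    unfold ups
    rw [List.mem_append, List.mem_map]
    exact Or.inl ⟨x, hx, rfl⟩
  -- in the range
  have r1 : 0 ≤ fl n p (o.1 - D.lo) o.2 + m := by
    have u := H.up _ (memUp _ hlom)
    simp only [sub_zero] at u
    rw [← u]
    apply Int.ediv_nonneg _ hQ.le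
    unfold Yv
    linarith
  have r2 : 0 ≤ fl n p ((D.C : ℤ) - D.lo - o.1) (-o.2) - m := by
    have u := H.en ((D.C : ℤ) - D.lo) 0
    simp only [zero_sub] at u
    refine le_trans ?_ u
    apply Int.ediv_nonneg _ hQ.le
    unfold Yv
    linarith
  have hPs : 0 ≤ tv n p (PsT D o) := by
    unfold PsT
    simp only [tv_cons, tv_nil, if_true, add_zero]
    linarith
  obtain ⟨c1, c2, c3⟩ := h o ho
  unfold bnd
  split_ifs with hf hno
  · -- first case
    have hPh : 1 ≤ tv n p (PhT D o) := by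
      have u := H.up _ (memUp _ hsm)
      simp only [sub_zero] at u
      have : 1 ≤ fl n p (o.1 - D.s) o.2 + m := by
        rw [← u]
        rw [Int.le_ediv_iff_mul_le hQ]
        unfold Yv
        have h1 : D.s * n + p ≤ l := by omega
        have h1' : (D.s : ℤ) * n + p ≤ l := by exact_mod_cast h1
        linarith
      unfold PhT
      simp only [tv_cons, tv_nil, if_true, add_zero]
      linarith
    rcases c1 with c1 | c1
    · omega
    · exact hG.trans c1
  · rcases c3 with c3 | c3 | c3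
    · omega
    · exact le_trans (min_le_left _ _) (by omega)
    · rw [← neg_E0_eq hL] at c3
      exact le_trans (min_le_right _ _) c3
  · -- third case
    have h1 : l < D.s * n + p := by omega
    have h2 : l + p ≤ (D.C - D.s) * n := by
      by_contra hcon
      exact hno (noP_of hL hs hp h1 (not_le.1 hcon))
    have h2' : (l : ℤ) + p ≤ (D.C - D.s) * n := by
      have : ((l + p : ℕ) : ℤ) ≤ (((D.C - D.s) * n : ℕ) : ℤ) := by exact_mod_cast h2
      rw [Nat.cast_mul, Nat.cast_sub (by omega)] at this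
      push_cast at this
      exact this
    have hOm : 1 ≤ tv n p (OmT D o) := by
      have u := H.en ((D.C : ℤ) - D.s) 0
      simp only [zero_sub] at u
      have : 1 ≤ fl n p ((D.C : ℤ) - D.s - o.1) (-o.2) - m := by
        refine le_trans ?_ u
        rw [Int.le_ediv_iff_mul_le hQ]
        unfold Yv
        linarith
      unfold OmT
      simp only [tv_cons, tv_nil, if_true, add_zero]
      linarith
    rcases c2 with c2 | c2
    · omega
    · omega

/-- the periodic bound from the values at the thresholds -/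
theorem bnd_periodic (hL : Lists D PL) {n l p : ℕ} (hp : 0 < p) (d : ℤ)
    (h : ∀ o ∈ ups D PL, PL.length + 3 + tv n p (GT D PL o) ≤ d) : bnd D n l p ≤ d := by
  obtain ⟨o, ho, m, H⟩ := exists_thr D PL n l p hp
  have hG := (le_GT hL hp H).trans (h o ho)
  unfold bnd
  split_ifs
  · exact hG
  · exact le_trans (min_le_left _ _) (by omega)
  · omega

end Pool.Agent.TwoOdd.Tab
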