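import Pool.Agent.TwoOdd.Defs

/-!
Finite table, step 1: the exponent `ord - V` is bounded by one of finitely many functions of
`n / p` alone (the value at the last threshold where it can go up).  Seat: helper61.
-/

open Finset

namespace Pool.Agent.TwoOdd.Tab

/-- `⌊k x + c / 6⌋` at `x = n / p` -/
def fl (n p : ℕ) (k c : ℤ) : ℤ := (6 * k * n + c * p) / (6 * p)

/-- `6 p (y - k x - c / 6)` -/
def Yv (n l p : ℕ) (k c : ℤ) : ℤ := 6 * l - 6 * k * n - c * p

theorem ediv_two (z : ℤ) (p : ℕ) (hp : 0 < p) :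
    (2 * z) / (p : ℤ) - z / (p : ℤ) = (6 * z + 3 * p) / (6 * p) := by
  have hp' : (0 : ℤ) < p := by exact_mod_cast hp
  have h1 := Int.emod_add_mul_ediv z p
  have h2 := Int.emod_nonneg z hp'.ne'
  have h3 := Int.emod_lt_of_pos z hp'
  generalize z / (p : ℤ) = a at *
  generalize z % (p : ℤ) = r at *
  subst h1
  have e1 : 2 * (r + p * a) = 2 * r + p * (2 * a) := by ring
  have e2 : 6 * (r + p * a) + 3 * (p : ℤ) = (6 * r + 3 * p) + (6 * p) * a := by ring
  rw [e1, e2, Int.add_mul_ediv_left _ _ hp'.ne', Int.add_mul_ediv_left _ _ (by positivity)]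
  have : (2 * r) / (p : ℤ) = (6 * r + 3 * p) / (6 * p) := by
    by_cases h : 2 * r < p
    · rw [Int.ediv_eq_zero_of_lt (by omega) h, Int.ediv_eq_zero_of_lt (by omega) (by omega)]
    · have g1 : (2 * r) / (p : ℤ) = 1 := by
        rw [Int.ediv_eq_iff_of_pos hp']
        constructor <;> omega
      have g2 : (6 * r + 3 * p) / (6 * (p : ℤ)) = 1 := by
        rw [Int.ediv_eq_iff_of_pos (by omega)]
        constructor <;> omega
      rw [g1, g2]
  rw [this]
  ring

theorem ediv_three (z : ℤ) (p : ℕ) (hp : 0 < p) :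
    (3 * z) / (p : ℤ) - z / (p : ℤ) = (6 * z + 2 * p) / (6 * p) + (6 * z + 4 * p) / (6 * p) := by
  have hp' : (0 : ℤ) < p := by exact_mod_cast hp
  have h1 := Int.emod_add_mul_ediv z p
  have h2 := Int.emod_nonneg z hp'.ne'
  have h3 := Int.emod_lt_of_pos z hp'
  generalize z / (p : ℤ) = a at *
  generalize z % (p : ℤ) = r at *
  subst h1
  have e1 : 3 * (r + p * a) = 3 * r + p * (3 * a) := by ring
  have e2 : 6 * (r + p * a) + 2 * (p : ℤ) = (6 * r + 2 * p) + (6 * p) * a := by ring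
  have e3 : 6 * (r + p * a) + 4 * (p : ℤ) = (6 * r + 4 * p) + (6 * p) * a := by ring
  rw [e1, e2, e3, Int.add_mul_ediv_left _ _ hp'.ne', Int.add_mul_ediv_left _ _ (by positivity),
    Int.add_mul_ediv_left _ _ (by positivity)]
  have : (3 * r) / (p : ℤ) = (6 * r + 2 * p) / (6 * p) + (6 * r + 4 * p) / (6 * p) := by
    by_cases h : 3 * r < p
    · rw [Int.ediv_eq_zero_of_lt (by omega) h, Int.ediv_eq_zero_of_lt (by omega) (by omega),
        Int.ediv_eq_zero_of_lt (by omega) (by omega)]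
      rfl
    · by_cases h' : 3 * r < 2 * p
      · have g1 : (3 * r) / (p : ℤ) = 1 := by
          rw [Int.ediv_eq_iff_of_pos hp']
          constructor <;> omega
        have g2 : (6 * r + 4 * p) / (6 * (p : ℤ)) = 1 := by
          rw [Int.ediv_eq_iff_of_pos (by omega)]
          constructor <;> omega
        rw [g1, g2, Int.ediv_eq_zero_of_lt (by omega) (by omega)]
        rfl
      · have g1 : (3 * r) / (p : ℤ) = 2 := by
          rw [Int.ediv_eq_iff_of_pos hp']
          constructor <;> omega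
        have g2 : (6 * r + 4 * p) / (6 * (p : ℤ)) = 1 := by
          rw [Int.ediv_eq_iff_of_pos (by omega)]
          constructor <;> omega
        have g3 : (6 * r + 2 * p) / (6 * (p : ℤ)) = 1 := by
          rw [Int.ediv_eq_iff_of_pos (by omega)]
          constructor <;> omega
        rw [g1, g2, g3]
        rfl
  rw [this]
  ring

theorem ediv_six (z : ℤ) (p : ℕ) : z / (p : ℤ) = (6 * z) / (6 * p) := by
  rw [Int.mul_ediv_mul_of_pos _ _ (by norm_num)]

/-- the lists of the block parameters -/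
structure Lists (D : Dat) (PL : List ℕ) : Prop where
  P_eq : D.P.val.map D.h = (PL : Multiset ℕ)
  lt : ∀ h ∈ PL, 2 * h < D.C
  ltH : 2 * D.hH < D.C
  ltG : 2 * D.hG < D.C
  Cpos : 0 < D.C

variable {D : Dat} {PL : List ℕ}

theorem sumP (hL : Lists D PL) (f : ℕ → ℤ) : ∑ i ∈ D.P, f (D.h i) = (PL.map f).sum := by
  have h1 : ∑ i ∈ D.P, f (D.h i) = ((D.P.val.map D.h).map f).sum := by
    rw [Multiset.map_map]
    rfl
  rw [h1, hL.P_eq]
  rfl

theorem h_mem (hL : Lists D PL) {i : ℕ} (hi : i ∈ D.P) : D.h i ∈ PL := by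
  have : D.h i ∈ D.P.val.map D.h := Multiset.mem_map_of_mem _ hi
  rw [hL.P_eq] at this
  exact this

theorem Nl_fl (n p h : ℕ) (hh : 2 * h < D.C) :
    ((Nl D n h / p : ℕ) : ℤ) = fl n p (D.C - 2 * h) 0 := by
  unfold fl Nl
  rw [Int.natCast_div, Nat.cast_mul, Nat.cast_sub (by omega), ediv_six]
  push_cast
  congr 1
  ring

theorem E0_fl (hL : Lists D PL) (n p : ℕ) :
    E0 D n p = (PL.map fun h : ℕ => fl n p (D.C - 2 * h) 0).sum -
      (fl n p D.C 0 + fl n p (D.C - 2 * D.hH) 0 + 2 * fl n p (D.C - 2 * D.hG) 0) := by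
  have hC : ((D.C * n / p : ℕ) : ℤ) = fl n p D.C 0 := by
    have := Nl_fl (D := D) n p 0 (by have := hL.Cpos; omega)
    unfold Nl at this
    simpa using this
  unfold E0
  rw [hC, Nl_fl n p _ hL.ltH, Nl_fl n p _ hL.ltG, ← sumP hL]
  congr 1
  apply Finset.sum_congr rfl
  intro i hi
  exact Nl_fl n p _ (hL.lt _ (h_mem hL hi))

/-- the exact value of `ord - V` -/
theorem ord_sub_V (hL : Lists D PL) (n l p : ℕ) (hp : 0 < p) : ord D n l - V D n l p =
    (PL.map fun h : ℕ => Yv n l p h 0 / (6 * p) + (- Yv n l p (D.C - h) 0) / (6 * p) + 1 -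
      fl n p (D.C - 2 * h) 0).sum - 1 +
    (fl n p D.C 0 + fl n p (D.C - 2 * D.hH) 0 + 2 * fl n p (D.C - 2 * D.hG) 0) -
    (Yv n l p 0 0 / (6 * p) + Yv n l p D.hH (-3) / (6 * p) + Yv n l p D.hG (-2) / (6 * p) +
      Yv n l p D.hG (-4) / (6 * p)) -
    ((- Yv n l p D.C 0) / (6 * p) + (- Yv n l p (D.C - D.hH) 3) / (6 * p) +
      (- Yv n l p (D.C - D.hG) 4) / (6 * p) + (- Yv n l p (D.C - D.hG) 2) / (6 * p)) := by
  have hp' : (0 : ℤ) < p := by exact_mod_cast hp
  -- the zero part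
  have z0 : fA n l p 0 = Yv n l p 0 0 / (6 * p) := by
    unfold fA Yv
    rw [ediv_six]
    congr 1
    push_cast
    ring
  have z0' : fB D n l p 0 = (- Yv n l p D.C 0) / (6 * p) := by
    unfold fB Yv
    rw [ediv_six]
    congr 1
    push_cast
    ring
  have z1 : (2 * ((l : ℤ) - D.hH * n)) / p - fA n l p D.hH = Yv n l p D.hH (-3) / (6 * p) := by
    unfold fA Yv
    rw [ediv_two _ _ hp]
    congr 1
    ring
  have z1' : (2 * ((D.C - D.hH : ℤ) * n - l)) / p - fB D n l p D.hH =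
      (- Yv n l p (D.C - D.hH) 3) / (6 * p) := by
    unfold fB Yv
    rw [ediv_two _ _ hp]
    congr 1
    ring
  have z2 : (3 * ((l : ℤ) - D.hG * n)) / p - fA n l p D.hG =
      Yv n l p D.hG (-2) / (6 * p) + Yv n l p D.hG (-4) / (6 * p) := by
    unfold fA Yv
    rw [ediv_three _ _ hp]
    congr 2 <;> ring
  have z2' : (3 * ((D.C - D.hG : ℤ) * n - l)) / p - fB D n l p D.hG =
      (- Yv n l p (D.C - D.hG) 2) / (6 * p) + (- Yv n l p (D.C - D.hG) 4) / (6 * p) := by
    unfold fB Yv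
    rw [ediv_three _ _ hp]
    congr 2 <;> ring
  have zE := E0_fl hL n p
  have hord : (#{i ∈ D.P | l ∈ blk D n (D.h i)} : ℤ) =
      ∑ i ∈ D.P, (if l ∈ blk D n (D.h i) then (1 : ℤ) else 0) := by
    rw [Finset.card_filter]
    push_cast
    rfl
  have hsum : (PL.map fun h : ℕ => Yv n l p h 0 / (6 * p) + (- Yv n l p (D.C - h) 0) / (6 * p) + 1 -
      fl n p (D.C - 2 * h) 0).sum = ∑ i ∈ D.P, ((if l ∈ blk D n (D.h i) then (1 : ℤ) else 0) +
        cnt D n l p (D.h i)) - (PL.map fun h : ℕ => fl n p (D.C - 2 * h) 0).sum := by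
    rw [← sumP hL, ← sumP hL, ← Finset.sum_sub_distrib]
    apply Finset.sum_congr rfl
    intro i _
    have e1 : fA n l p (D.h i) = Yv n l p (D.h i) 0 / (6 * p) := by
      unfold fA Yv
      rw [ediv_six]
      congr 1
      ring
    have e2 : fB D n l p (D.h i) = (- Yv n l p (D.C - D.h i) 0) / (6 * p) := by
      unfold fB Yv
      rw [ediv_six]
      congr 1
      ring
    unfold cnt
    rw [e1, e2]
    split_ifs <;> ring
  unfold ord V cntZ
  rw [hord, hsum, z1, z1', z2, z2', z0, z0', zE, Finset.sum_add_distrib]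
  ring

/-! ### the thresholds where the exponent goes up -/

/-- the thresholds -/
def ups (D : Dat) (PL : List ℕ) : List (ℤ × ℤ) :=
  (PL.map fun h : ℕ => ((h : ℤ), (0 : ℤ))) ++
    [((D.C : ℤ), 0), ((D.C : ℤ) - D.hH, 3), ((D.C : ℤ) - D.hG, 4), ((D.C : ℤ) - D.hG, 2)]

/-- signed terms of the value at the threshold `o` -/
def GT (D : Dat) (PL : List ℕ) (o : ℤ × ℤ) : List (Bool × ℤ × ℤ) :=
  (PL.map fun h : ℕ => (true, o.1 - h, o.2)) ++
  ((PL.map fun h : ℕ => (true, (D.C : ℤ) - h - o.1, -o.2)) ++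
  ((PL.map fun h : ℕ => (false, (D.C : ℤ) - 2 * h, (0 : ℤ))) ++
  [(true, (D.C : ℤ), 0), (true, (D.C : ℤ) - 2 * D.hH, 0), (true, (D.C : ℤ) - 2 * D.hG, 0),
    (true, (D.C : ℤ) - 2 * D.hG, 0),
    (false, o.1, o.2), (false, o.1 - D.hH, o.2 + 3), (false, o.1 - D.hG, o.2 + 2),
    (false, o.1 - D.hG, o.2 + 4),
    (true, o.1 - D.C, o.2), (true, o.1 - (D.C - D.hH), o.2 - 3),
    (true, o.1 - (D.C - D.hG), o.2 - 4), (true, o.1 - (D.C - D.hG), o.2 - 2)]))

/-- value of a list of signed terms -/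
def tv (n p : ℕ) (T : List (Bool × ℤ × ℤ)) : ℤ :=
  (T.map fun t => if t.1 then fl n p t.2.1 t.2.2 else - fl n p t.2.1 t.2.2).sum

theorem tv_append (n p : ℕ) (S T : List (Bool × ℤ × ℤ)) : tv n p (S ++ T) = tv n p S + tv n p T := by
  unfold tv
  rw [List.map_append, List.sum_append]

theorem tv_cons (n p : ℕ) (t : Bool × ℤ × ℤ) (T : List (Bool × ℤ × ℤ)) :
    tv n p (t :: T) = (if t.1 then fl n p t.2.1 t.2.2 else - fl n p t.2.1 t.2.2) + tv n p T := by
  unfold tv
  rw [List.map_cons, List.sum_cons]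

theorem tv_nil (n p : ℕ) : tv n p [] = 0 := rfl

theorem sub_ediv_of_emod_le {a b Q : ℤ} (hQ : 0 < Q) (h : b % Q ≤ a % Q) :
    (a - b) / Q = a / Q - b / Q := by
  have h1 := Int.emod_add_mul_ediv a Q
  have h2 := Int.emod_add_mul_ediv b Q
  have h3 := Int.emod_lt_of_pos a hQ
  have h4 := Int.emod_nonneg b hQ.ne'
  have e : a - b = (a % Q - b % Q) + Q * (a / Q - b / Q) := by
    rw [mul_sub]
    linarith
  rw [e, Int.add_mul_ediv_left _ _ hQ.ne', Int.ediv_eq_zero_of_lt (by omega) (by omega), zero_add]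

theorem sub_ediv_le (a b : ℤ) {Q : ℤ} (hQ : 0 < Q) : (a - b) / Q ≤ a / Q - b / Q := by
  have h2 := Int.emod_add_mul_ediv b Q
  have h4 := Int.emod_nonneg b hQ.ne'
  have e : a / Q - b / Q = (a + Q * (-(b / Q))) / Q := by
    rw [Int.add_mul_ediv_left _ _ hQ.ne']
    ring
  rw [e]
  apply Int.ediv_le_ediv hQ
  rw [mul_neg]
  linarith

theorem le_add_ediv (a b : ℤ) {Q : ℤ} (hQ : 0 < Q) : a / Q + b / Q ≤ (a + b) / Q := by
  have h2 := Int.emod_add_mul_ediv b Q
  have h4 := Int.emod_nonneg b hQ.ne'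
  have e : a / Q + b / Q = (a + Q * (b / Q)) / Q := by
    rw [Int.add_mul_ediv_left _ _ hQ.ne']
  rw [e]
  apply Int.ediv_le_ediv hQ
  linarith

/-- the threshold below `l`: all that is used about it -/
structure Thr (D : Dat) (PL : List ℕ) (n l p : ℕ) (o : ℤ × ℤ) (m : ℤ) : Prop where
  up : ∀ u ∈ ups D PL, Yv n l p u.1 u.2 / (6 * p) = fl n p (o.1 - u.1) (o.2 - u.2) + m
  st : ∀ k c : ℤ, fl n p (o.1 - k) (o.2 - c) + m ≤ Yv n l p k c / (6 * p)
  en : ∀ k c : ℤ, (- Yv n l p k c) / (6 * p) ≤ fl n p (k - o.1) (c - o.2) - m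

theorem exists_thr (D : Dat) (PL : List ℕ) (n l p : ℕ) (hp : 0 < p) :
    ∃ o ∈ ups D PL, ∃ m : ℤ, Thr D PL n l p o m := by
  classical
  have hQ : (0 : ℤ) < 6 * p := by positivity
  have hne : (ups D PL).toFinset.Nonempty := by
    refine ⟨((D.C : ℤ), 0), ?_⟩
    rw [List.mem_toFinset]
    unfold ups
    simp
  obtain ⟨o, ho, hmin⟩ := Finset.exists_min_image (ups D PL).toFinset
    (fun u => Yv n l p u.1 u.2 % (6 * p)) hne
  rw [List.mem_toFinset] at ho
  refine ⟨o, ho, Yv n l p o.1 o.2 / (6 * p), ?_, ?_, ?_⟩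
  · intro u hu
    have h1 := hmin u (List.mem_toFinset.2 hu)
    have h2 := sub_ediv_of_emod_le hQ h1
    have e : Yv n l p u.1 u.2 - Yv n l p o.1 o.2 = 6 * (o.1 - u.1) * n + (o.2 - u.2) * p := by
      unfold Yv
      ring
    rw [e] at h2
    unfold fl
    rw [h2]
    ring
  · intro k c
    have e : Yv n l p k c = (6 * (o.1 - k) * n + (o.2 - c) * p) + Yv n l p o.1 o.2 := by
      unfold Yv
      ring
    unfold fl
    rw [e]
    exact le_add_ediv _ _ hQ
  · intro k c
    have e : - Yv n l p k c = (6 * (k - o.1) * n + (c - o.2) * p) - Yv n l p o.1 o.2 := by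
      unfold Yv
      ring
    unfold fl
    rw [e]
    exact sub_ediv_le _ _ hQ

theorem neg_ediv_ge (a : ℤ) {Q : ℤ} (hQ : 0 < Q) : - (a / Q) - 1 ≤ (-a) / Q := by
  have h1 := Int.emod_add_mul_ediv a Q
  have h2 := Int.emod_lt_of_pos a hQ
  rw [Int.le_ediv_iff_mul_le hQ]
  have e : (-(a / Q) - 1) * Q = - (Q * (a / Q)) - Q := by ring
  rw [e]
  linarith

/-- the exponent is at most its value at the threshold -/
theorem le_GT (hL : Lists D PL) {n l p : ℕ} (hp : 0 < p) {o : ℤ × ℤ} {m : ℤ}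
    (H : Thr D PL n l p o m) : ord D n l - V D n l p ≤ PL.length + 3 + tv n p (GT D PL o) := by
  have hQ : (0 : ℤ) < 6 * p := by positivity
  rw [ord_sub_V hL n l p hp]
  unfold GT
  simp only [tv_append, tv_cons, tv_nil, if_true, Bool.false_eq_true, if_false, add_zero]
  -- the pole blocks
  have hP : ∀ L : List ℕ, L ⊆ PL → (L.map fun h : ℕ => Yv n l p h 0 / (6 * p) +
      (- Yv n l p (D.C - h) 0) / (6 * p) + 1 - fl n p (D.C - 2 * h) 0).sum ≤
      L.length + tv n p (L.map fun h : ℕ => (true, o.1 - h, o.2)) +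
        tv n p (L.map fun h : ℕ => (true, (D.C : ℤ) - h - o.1, -o.2)) +
        tv n p (L.map fun h : ℕ => (false, (D.C : ℤ) - 2 * h, (0 : ℤ))) := by
    intro L
    induction L with
    | nil => intro _; simp [tv]
    | cons h L ih =>
      intro hsub
      have h1 := ih (fun x hx => hsub (List.mem_cons_of_mem _ hx))
      have hh : h ∈ PL := hsub (by simp)
      have u1 := H.up ((h : ℤ), 0) (by
        unfold ups
        rw [List.mem_append]
        left
        rw [List.mem_map]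
        exact ⟨h, hh, rfl⟩)
      have u2 := H.en ((D.C : ℤ) - h) 0
      simp only [List.map_cons, List.sum_cons, tv_cons, List.length_cons, if_true,
        Bool.false_eq_true, if_false]
      simp only [sub_zero, zero_sub] at u1 u2
      push_cast
      linarith
  have h1 := hP PL (fun _ h => h)
  -- the zero blocks
  have s0 := H.st 0 0
  have s1 := H.st D.hH (-3)
  have s2 := H.st D.hG (-2)
  have s3 := H.st D.hG (-4)
  have e0 := H.up ((D.C : ℤ), 0) (by unfold ups; simp)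
  have e1 := H.up ((D.C : ℤ) - D.hH, 3) (by unfold ups; simp)
  have e2 := H.up ((D.C : ℤ) - D.hG, 4) (by unfold ups; simp)
  have e3 := H.up ((D.C : ℤ) - D.hG, 2) (by unfold ups; simp)
  have g0 := neg_ediv_ge (Yv n l p D.C 0) hQ
  have g1 := neg_ediv_ge (Yv n l p (D.C - D.hH) 3) hQ
  have g2 := neg_ediv_ge (Yv n l p (D.C - D.hG) 4) hQ
  have g3 := neg_ediv_ge (Yv n l p (D.C - D.hG) 2) hQ
  simp only at e0 e1 e2 e3
  simp only [sub_zero, sub_neg_eq_add] at s0 s1 s2 s3 e0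
  linarith

end Pool.Agent.TwoOdd.Tab
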