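import Pool.Agent.TwoOdd.TabExpl

/-!
Finite table, step 3: normal form of the functions of `n / p` with natural numbers only, and
bounds on an interval.  Seat: helper61.
-/

open Finset

namespace Pool.Agent.TwoOdd.Tab

/-- `(HI, LO, cp, cn)`: the function `cp + ∑_{HI} ⌊⌋ - cn - ∑_{LO} ⌊⌋` -/
abbrev FForm := List (ℕ × ℕ) × List (ℕ × ℕ) × ℕ × ℕ

def Fv (n p : ℕ) (t : ℕ × ℕ) : ℕ := (t.1 * n + t.2 * p) / (6 * p)

def fv (n p : ℕ) (f : FForm) : ℤ :=
  ((f.2.2.1 : ℤ) + (f.1.map fun t => (Fv n p t : ℤ)).sum) -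
    ((f.2.2.2 : ℤ) + (f.2.1.map fun t => (Fv n p t : ℤ)).sum)

/-! ### normal form -/

def ntm (t : Bool × ℤ × ℤ) : ℕ × ℕ :=
  if 0 < t.2.1 then (6 * t.2.1.toNat, (t.2.2 % 6).toNat)
  else (6 * (-t.2.1).toNat, ((-t.2.2) % 6).toNat)

def npos (t : Bool × ℤ × ℤ) : Bool :=
  if t.2.1 = 0 then false else if 0 < t.2.1 then t.1 else !t.1

def nneg (t : Bool × ℤ × ℤ) : Bool :=
  if t.2.1 = 0 then false else if 0 < t.2.1 then !t.1 else t.1

def ncst (t : Bool × ℤ × ℤ) : ℤ :=
  if t.1 then (if 0 ≤ t.2.1 then t.2.2 / 6 else -((-t.2.2) / 6) - 1)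
  else -(if 0 ≤ t.2.1 then t.2.2 / 6 else -((-t.2.2) / 6) - 1)

def posL (T : List (Bool × ℤ × ℤ)) : List (ℕ × ℕ) := (T.filter npos).map ntm
def negL (T : List (Bool × ℤ × ℤ)) : List (ℕ × ℕ) := (T.filter nneg).map ntm

theorem fl_nonneg_eq (n p : ℕ) (hp : 0 < p) {k : ℤ} (hk : 0 ≤ k) (c : ℤ) :
    fl n p k c = c / 6 + (Fv n p (6 * k.toNat, (c % 6).toNat) : ℤ) := by
  have hp' : (0 : ℤ) < p := by exact_mod_cast hp
  unfold fl Fv
  obtain ⟨j, rfl⟩ := Int.eq_ofNat_of_zero_le hk
  have h1 := Int.emod_add_mul_ediv c 6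
  have h2 := Int.emod_nonneg c (show (6 : ℤ) ≠ 0 by norm_num)
  obtain ⟨r, hr⟩ := Int.eq_ofNat_of_zero_le h2
  rw [hr, Int.toNat_natCast, Int.natCast_div]
  have e : 6 * (j : ℤ) * n + c * p = ((6 * j * n + r * p : ℕ) : ℤ) + (6 * p) * (c / 6) := by
    rw [hr] at h1
    push_cast
    rw [← h1]
    generalize c / 6 = x at *
    have : ((r : ℤ) + 6 * x) / 6 = x := by omega
    rw [this]
    ring
  rw [e, Int.add_mul_ediv_left _ _ (by positivity), Int.toNat_natCast]
  push_cast
  ring

theorem fl_neg_eq (n p : ℕ) (hp : 0 < p) {k : ℤ} (hk : k < 0) (c : ℤ)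
    (hg : ¬ (p : ℤ) ∣ 6 * k * n) :
    fl n p k c = -((-c) / 6) - 1 - (Fv n p (6 * (-k).toNat, ((-c) % 6).toNat) : ℤ) := by
  have hQ : (0 : ℤ) < 6 * p := by positivity
  have h1 := fl_nonneg_eq n p hp (k := -k) (by omega) (-c)
  have h2 : fl n p k c = - fl n p (-k) (-c) - 1 := by
    unfold fl
    have e : 6 * k * (n : ℤ) + c * p = -(6 * (-k) * n + (-c) * p) := by ring
    rw [e]
    generalize hz : 6 * (-k) * (n : ℤ) + (-c) * p = z
    have hnd : ¬ (6 * (p : ℤ)) ∣ z := by
      intro hd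
      apply hg
      have h3 : (p : ℤ) ∣ z := Dvd.dvd.trans (Dvd.intro_left _ rfl) hd
      rw [← hz] at h3
      have h4 : (p : ℤ) ∣ 6 * (-k) * n := by
        have := dvd_sub h3 (Dvd.intro_left (-c) rfl : (p : ℤ) ∣ (-c) * p)
        simpa using this
      have : 6 * k * (n : ℤ) = -(6 * (-k) * n) := by ring
      rw [this]
      exact (dvd_neg).2 h4
    have g1 := Int.emod_add_mul_ediv z (6 * p)
    have g2 := Int.emod_nonneg z hQ.ne'
    have g3 := Int.emod_lt_of_pos z hQ
    have g4 : z % (6 * p) ≠ 0 := fun h => hnd (Int.dvd_of_emod_eq_zero h)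
    have e2 : -z = (6 * p - z % (6 * p)) + (6 * p) * (-(z / (6 * p)) - 1) := by
      have : (6 * (p : ℤ)) * (-(z / (6 * p)) - 1) = - ((6 * p) * (z / (6 * p))) - 6 * p := by ring
      rw [this]
      linarith
    rw [e2, Int.add_mul_ediv_left _ _ hQ.ne', Int.ediv_eq_zero_of_lt (by omega) (by omega)]
    ring
  rw [h2, h1]
  ring

/-- the point `n / p` is generic -/
def Gen (n p K : ℕ) : Prop := ∀ k : ℤ, k ≠ 0 → k.natAbs ≤ K → ¬ (p : ℤ) ∣ 6 * k * n

theorem tv_norm {n p K : ℕ} (hp : 0 < p) (hg : Gen n p K) (T : List (Bool × ℤ × ℤ))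
    (hT : ∀ t ∈ T, t.2.1.natAbs ≤ K) :
    tv n p T = (T.map ncst).sum + ((posL T).map fun t => (Fv n p t : ℤ)).sum -
      ((negL T).map fun t => (Fv n p t : ℤ)).sum := by
  induction T with
  | nil => simp [tv, posL, negL]
  | cons t T ih =>
    have h1 := ih (fun x hx => hT x (List.mem_cons_of_mem _ hx))
    rw [tv_cons, h1]
    obtain ⟨s, k, c⟩ := t
    have hk := hT (s, k, c) (by simp)
    simp only at hk
    have F0 : ∀ x : ℤ, (Fv n p (0, (x % 6).toNat) : ℤ) = 0 := by
      intro x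
      unfold Fv
      have h5 : (x % 6).toNat < 6 := by omega
      have : ((x % 6).toNat * p) / (6 * p) = 0 := by
        apply Nat.div_eq_of_lt
        exact Nat.mul_lt_mul_of_pos_right h5 hp
      simp [this]
    rcases lt_trichotomy k 0 with hneg | hz | hpos
    · have e := fl_neg_eq n p hp hneg c (hg k hneg.ne hk)
      have c1 : ¬ (0 < k) := by omega
      have c2 : ¬ (0 ≤ k) := by omega
      have c3 : k ≠ 0 := hneg.ne
      cases s
      · have a1 : posL ((false, k, c) :: T) = ntm (false, k, c) :: posL T := by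
          simp [posL, npos, c1, c3]
        have a2 : negL ((false, k, c) :: T) = negL T := by
          simp [negL, nneg, c1, c3]
        have a3 : ncst (false, k, c) = -(-((-c) / 6) - 1) := by simp [ncst, c2]
        have a4 : ntm (false, k, c) = (6 * (-k).toNat, ((-c) % 6).toNat) := by simp [ntm, c1]
        rw [a1, a2, a4, List.map_cons, List.map_cons, List.sum_cons, List.sum_cons, a3]
        simp only [Bool.false_eq_true, if_false]
        rw [e]
        ring
      · have a1 : posL ((true, k, c) :: T) = posL T := by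
          simp [posL, npos, c1, c3]
        have a2 : negL ((true, k, c) :: T) = ntm (true, k, c) :: negL T := by
          simp [negL, nneg, c1, c3]
        have a3 : ncst (true, k, c) = (-((-c) / 6) - 1) := by simp [ncst, c2]
        have a4 : ntm (true, k, c) = (6 * (-k).toNat, ((-c) % 6).toNat) := by simp [ntm, c1]
        rw [a1, a2, a4, List.map_cons, List.map_cons, List.sum_cons, List.sum_cons, a3]
        simp only [if_true]
        rw [e]
        ring
    · subst hz
      have e := fl_nonneg_eq n p hp (le_refl (0 : ℤ)) c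
      have z : (6 * (0 : ℤ).toNat, (c % 6).toNat) = (0, (c % 6).toNat) := by simp
      rw [z, F0] at e
      have a1 : posL ((s, 0, c) :: T) = posL T := by simp [posL, npos]
      have a2 : negL ((s, 0, c) :: T) = negL T := by simp [negL, nneg]
      rw [a1, a2, List.map_cons, List.sum_cons]
      cases s
      · have a3 : ncst (false, (0 : ℤ), c) = -(c / 6) := by simp [ncst]
        simp only [Bool.false_eq_true, if_false]
        rw [a3, e]
        ring
      · have a3 : ncst (true, (0 : ℤ), c) = c / 6 := by simp [ncst]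
        simp only [if_true]
        rw [a3, e]
        ring
    · have e := fl_nonneg_eq n p hp hpos.le c
      have c2 : 0 ≤ k := hpos.le
      have c3 : k ≠ 0 := hpos.ne'
      cases s
      · have a1 : posL ((false, k, c) :: T) = posL T := by
          simp [posL, npos, hpos, c3]
        have a2 : negL ((false, k, c) :: T) = ntm (false, k, c) :: negL T := by
          simp [negL, nneg, hpos, c3]
        have a3 : ncst (false, k, c) = -(c / 6) := by simp [ncst, c2]
        have a4 : ntm (false, k, c) = (6 * k.toNat, (c % 6).toNat) := by simp [ntm, hpos]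
        rw [a1, a2, a4, List.map_cons, List.map_cons, List.sum_cons, List.sum_cons, a3]
        simp only [Bool.false_eq_true, if_false]
        rw [e]
        ring
      · have a1 : posL ((true, k, c) :: T) = ntm (true, k, c) :: posL T := by
          simp [posL, npos, hpos, c3]
        have a2 : negL ((true, k, c) :: T) = negL T := by
          simp [negL, nneg, hpos, c3]
        have a3 : ncst (true, k, c) = c / 6 := by simp [ncst, c2]
        have a4 : ntm (true, k, c) = (6 * k.toNat, (c % 6).toNat) := by simp [ntm, hpos]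
        rw [a1, a2, a4, List.map_cons, List.map_cons, List.sum_cons, List.sum_cons, a3]
        simp only [if_true]
        rw [e]
        ring

/-! ### equality of lists up to order, by comparing packed numbers -/

def ply (l : List ℕ) : ℕ := l.foldr (fun u s => 256 ^ u + s) 0

theorem ply_split (u : ℕ) (l : List ℕ) : ∃ low q k : ℕ, ply l = low + l.count u * 256 ^ u +
    256 ^ (u + 1) * q ∧ low * 256 ≤ k * 256 ^ u ∧ k + l.count u ≤ l.length := by
  induction l with
  | nil => exact ⟨0, 0, 0, by simp [ply], by simp, by simp⟩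
  | cons a l ih =>
    obtain ⟨low, q, k, h1, h2, h3⟩ := ih
    have e : ply (a :: l) = 256 ^ a + ply l := rfl
    rw [e, h1]
    rcases lt_trichotomy a u with h | h | h
    · refine ⟨256 ^ a + low, q, k + 1, ?_, ?_, ?_⟩
      · rw [List.count_cons_of_ne (by omega)]
        ring
      · have : 256 ^ a * 256 ≤ 256 ^ u := by
          rw [← pow_succ]
          exact Nat.pow_le_pow_right (by norm_num) (by omega)
        calc (256 ^ a + low) * 256 = 256 ^ a * 256 + low * 256 := by ring
          _ ≤ 256 ^ u + k * 256 ^ u := Nat.add_le_add this h2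
          _ = (k + 1) * 256 ^ u := by ring
      · rw [List.count_cons_of_ne (by omega), List.length_cons]
        omega
    · subst h
      refine ⟨low, q, k, ?_, h2, ?_⟩
      · rw [List.count_cons_self]
        ring
      · rw [List.count_cons_self, List.length_cons]
        omega
    · refine ⟨low, q + 256 ^ (a - (u + 1)), k, ?_, h2, ?_⟩
      · rw [List.count_cons_of_ne (by omega), mul_add, ← pow_add,
          show u + 1 + (a - (u + 1)) = a by omega]
        ring
      · rw [List.count_cons_of_ne (by omega), List.length_cons]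
        omega

theorem count_ply {l : List ℕ} (hl : l.length < 256) (u : ℕ) :
    ply l / 256 ^ u % 256 = l.count u := by
  obtain ⟨low, q, k, h1, h2, h3⟩ := ply_split u l
  have h4 : low < 256 ^ u := by
    have h5 : k * 256 ^ u < 256 * 256 ^ u := Nat.mul_lt_mul_of_pos_right (by omega) (by positivity)
    omega
  have e : low + l.count u * 256 ^ u + 256 ^ (u + 1) * q =
      low + 256 ^ u * (l.count u + 256 * q) := by ring
  rw [h1, e, Nat.add_mul_div_left _ _ (by positivity), Nat.div_eq_of_lt h4, zero_add,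
    Nat.add_mul_mod_self_left, Nat.mod_eq_of_lt (by omega)]

theorem perm_of_ply {A B : List ℕ} (hA : A.length < 256) (hB : B.length < 256)
    (h : ply A = ply B) : A.Perm B := by
  rw [List.perm_iff_count]
  intro u
  rw [← count_ply hA, ← count_ply hB, h]

def code (t : ℕ × ℕ) : ℕ := t.1 + t.2
def dec (u : ℕ) : ℕ × ℕ := (u - u % 6, u % 6)

theorem dec_code {t : ℕ × ℕ} (h1 : t.1 % 6 = 0) (h2 : t.2 < 6) : dec (code t) = t := by
  obtain ⟨a, b⟩ := t
  simp only at h1 h2
  unfold dec code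
  simp only [Prod.mk.injEq]
  constructor <;> omega

theorem ntm_good (t : Bool × ℤ × ℤ) : (ntm t).1 % 6 = 0 ∧ (ntm t).2 < 6 := by
  unfold ntm
  split_ifs
  · exact ⟨by simp, by simp only; omega⟩
  · exact ⟨by simp, by simp only; omega⟩

theorem sum_code (g : ℕ × ℕ → ℤ) (l : List (ℕ × ℕ)) (hl : ∀ t ∈ l, t.1 % 6 = 0 ∧ t.2 < 6) :
    (l.map g).sum = ((l.map code).map fun u => g (dec u)).sum := by
  rw [List.map_map]
  congr 1
  apply List.map_congr_left
  intro t ht
  simp only [Function.comp]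
  rw [dec_code (hl t ht).1 (hl t ht).2]

/-- `f` is the normal form of `c0 + T` -/
def frmOK (K : ℕ) (T : List (Bool × ℤ × ℤ)) (c0 : ℤ) (f : FForm) : Bool :=
  Nat.beq (ply ((posL T ++ f.2.1).map code)) (ply ((negL T ++ f.1).map code)) &&
  (Nat.blt (posL T ++ f.2.1).length 256 && (Nat.blt (negL T ++ f.1).length 256 &&
    (decide ((f.2.2.1 : ℤ) - f.2.2.2 = c0 + (T.map ncst).sum) &&
      (T.all (fun t => Nat.ble t.2.1.natAbs K) &&
        (f.1 ++ f.2.1).all (fun t => Nat.beq (t.1 % 6) 0 && (Nat.blt t.2 6 && Nat.blt 0 t.1))))))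

theorem frm_eq {n p K : ℕ} (hp : 0 < p) (hg : Gen n p K) {T : List (Bool × ℤ × ℤ)} {c0 : ℤ}
    {f : FForm} (h : frmOK K T c0 f = true) : c0 + tv n p T = fv n p f ∧
      (∀ t ∈ f.1, 0 < t.1) ∧ ∀ t ∈ f.2.1, 0 < t.1 := by
  unfold frmOK at h
  rw [Bool.and_eq_true, Bool.and_eq_true, Bool.and_eq_true, Bool.and_eq_true, Bool.and_eq_true,
    decide_eq_true_eq, List.all_eq_true, List.all_eq_true, Nat.blt_eq, Nat.blt_eq] at h
  obtain ⟨h1, h2, h3, h4, h5, h6⟩ := h
  have h1 := Nat.eq_of_beq_eq_true h1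
  have h6' : ∀ t ∈ f.1 ++ f.2.1, (t.1 % 6 = 0 ∧ t.2 < 6) ∧ 0 < t.1 := by
    intro t ht
    have := h6 t ht
    rw [Bool.and_eq_true, Bool.and_eq_true, Nat.blt_eq, Nat.blt_eq] at this
    exact ⟨⟨Nat.eq_of_beq_eq_true this.1, this.2.1⟩, this.2.2⟩
  refine ⟨?_, fun t ht => (h6' t (List.mem_append_left _ ht)).2,
    fun t ht => (h6' t (List.mem_append_right _ ht)).2⟩
  rw [tv_norm hp hg T (fun t ht => Nat.le_of_ble_eq_true (h5 t ht))]
  have hperm := perm_of_ply (by simpa using h2) (by simpa using h3) h1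
  have hs := (hperm.map fun u => ((Fv n p (dec u) : ℕ) : ℤ)).sum_eq
  rw [← sum_code (fun t => (Fv n p t : ℤ)) _ (by
      intro t ht
      rcases List.mem_append.1 ht with ht | ht
      · unfold posL at ht
        rw [List.mem_map] at ht
        obtain ⟨x, -, rfl⟩ := ht
        exact ntm_good x
      · exact (h6' t (List.mem_append_right _ ht)).1),
    ← sum_code (fun t => (Fv n p t : ℤ)) _ (by
      intro t ht
      rcases List.mem_append.1 ht with ht | ht
      · unfold negL at ht
        rw [List.mem_map] at ht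
        obtain ⟨x, -, rfl⟩ := ht
        exact ntm_good x
      · exact (h6' t (List.mem_append_left _ ht)).1)] at hs
  rw [List.map_append, List.map_append, List.sum_append, List.sum_append] at hs
  unfold fv
  linarith

/-! ### bounds on an interval -/

def hiS (a b : ℕ) (l : List (ℕ × ℕ)) : ℕ := l.foldr (fun t s => (t.1 * a + t.2 * b - 1) / (6 * b) + s) 0
def loS (a b : ℕ) (l : List (ℕ × ℕ)) : ℕ := l.foldr (fun t s => (t.1 * a + t.2 * b) / (6 * b) + s) 0

/-- the function is at most `v - u` on the open interval -/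
def fle (a1 b1 a2 b2 : ℕ) (f : FForm) (u v : ℕ) : Bool :=
  Nat.ble (f.2.2.1 + hiS a2 b2 f.1 + u) (v + (f.2.2.2 + loS a1 b1 f.2.1))

theorem Fv_le_hi {n p a b : ℕ} (_hp : 0 < p) (hb : 0 < b) (h : b * n < a * p) {t : ℕ × ℕ}
    (ht : 0 < t.1) : Fv n p t ≤ (t.1 * a + t.2 * b - 1) / (6 * b) := by
  unfold Fv
  rw [Nat.le_div_iff_mul_le (by omega)]
  have h1 : (t.1 * n + t.2 * p) / (6 * p) * (6 * p) ≤ t.1 * n + t.2 * p := Nat.div_mul_le_self _ _
  generalize (t.1 * n + t.2 * p) / (6 * p) = F at *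
  have h2 : F * (6 * b) * p < (t.1 * a + t.2 * b) * p := by
    calc F * (6 * b) * p = F * (6 * p) * b := by ring
      _ ≤ (t.1 * n + t.2 * p) * b := Nat.mul_le_mul_right _ h1
      _ = t.1 * (b * n) + t.2 * b * p := by ring
      _ < t.1 * (a * p) + t.2 * b * p := by
          have := Nat.mul_lt_mul_of_pos_left h ht
          omega
      _ = (t.1 * a + t.2 * b) * p := by ring
  have h3 := Nat.lt_of_mul_lt_mul_right h2
  omega

theorem lo_le_Fv {n p a b : ℕ} (hp : 0 < p) (hb : 0 < b) (h : a * p ≤ b * n) (t : ℕ × ℕ) :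
    (t.1 * a + t.2 * b) / (6 * b) ≤ Fv n p t := by
  unfold Fv
  rw [Nat.le_div_iff_mul_le (by omega)]
  have h1 : (t.1 * a + t.2 * b) / (6 * b) * (6 * b) ≤ t.1 * a + t.2 * b := Nat.div_mul_le_self _ _
  generalize (t.1 * a + t.2 * b) / (6 * b) = F at *
  have h2 : F * (6 * p) * b ≤ (t.1 * n + t.2 * p) * b := by
    calc F * (6 * p) * b = F * (6 * b) * p := by ring
      _ ≤ (t.1 * a + t.2 * b) * p := Nat.mul_le_mul_right _ h1
      _ = t.1 * (a * p) + t.2 * b * p := by ring
      _ ≤ t.1 * (b * n) + t.2 * b * p := by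
          have := Nat.mul_le_mul_left t.1 h
          omega
      _ = (t.1 * n + t.2 * p) * b := by ring
  exact Nat.le_of_mul_le_mul_right h2 hb

theorem sum_le_hiS {n p a b : ℕ} (hp : 0 < p) (hb : 0 < b) (h : b * n < a * p)
    (l : List (ℕ × ℕ)) (hl : ∀ t ∈ l, 0 < t.1) :
    (l.map fun t => (Fv n p t : ℤ)).sum ≤ hiS a b l := by
  induction l with
  | nil => simp [hiS]
  | cons t l ih =>
    have e : hiS a b (t :: l) = (t.1 * a + t.2 * b - 1) / (6 * b) + hiS a b l := rfl
    rw [e, List.map_cons, List.sum_cons, Nat.cast_add]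
    have h1 : (Fv n p t : ℤ) ≤ (((t.1 * a + t.2 * b - 1) / (6 * b) : ℕ) : ℤ) := by
      exact_mod_cast Fv_le_hi hp hb h (hl t (by simp))
    exact add_le_add h1 (ih (fun x hx => hl x (List.mem_cons_of_mem _ hx)))

theorem loS_le_sum {n p a b : ℕ} (hp : 0 < p) (hb : 0 < b) (h : a * p ≤ b * n)
    (l : List (ℕ × ℕ)) : (loS a b l : ℤ) ≤ (l.map fun t => (Fv n p t : ℤ)).sum := by
  induction l with
  | nil => simp [loS]
  | cons t l ih =>
    have e : loS a b (t :: l) = (t.1 * a + t.2 * b) / (6 * b) + loS a b l := rfl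
    rw [e, List.map_cons, List.sum_cons, Nat.cast_add]
    have h1 : (((t.1 * a + t.2 * b) / (6 * b) : ℕ) : ℤ) ≤ (Fv n p t : ℤ) := by
      exact_mod_cast lo_le_Fv hp hb h t
    exact add_le_add h1 ih

theorem fle_spec {n p a1 b1 a2 b2 : ℕ} (hp : 0 < p) (hb1 : 0 < b1) (hb2 : 0 < b2)
    (h1 : a1 * p ≤ b1 * n) (h2 : b2 * n < a2 * p) {f : FForm} (hf : ∀ t ∈ f.1, 0 < t.1) {u v : ℕ}
    (h : fle a1 b1 a2 b2 f u v = true) : fv n p f + u ≤ v := by
  unfold fle at h
  have h' := Nat.le_of_ble_eq_true h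
  have g1 := sum_le_hiS hp hb2 h2 f.1 hf
  have g2 := loS_le_sum hp hb1 h1 f.2.1
  unfold fv
  have h3 : ((f.2.2.1 + hiS a2 b2 f.1 + u : ℕ) : ℤ) ≤ ((v + (f.2.2.2 + loS a1 b1 f.2.1) : ℕ) : ℤ) := by
    exact_mod_cast h'
  push_cast at h3
  linarith

/-- invariance under `n ↦ n mod p` -/
theorem fv_mod {n p : ℕ} (hp : 0 < p) {f : FForm}
    (hb : (f.1.map fun t => t.1 / 6).sum = (f.2.1.map fun t => t.1 / 6).sum)
    (h6 : ∀ t ∈ f.1 ++ f.2.1, 6 ∣ t.1) : fv n p f = fv (n % p) p f := by
  have key : ∀ l : List (ℕ × ℕ), (∀ t ∈ l, 6 ∣ t.1) →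
      (l.map fun t => (Fv n p t : ℤ)).sum = (l.map fun t => (Fv (n % p) p t : ℤ)).sum +
        (((l.map fun t => t.1 / 6).sum * (n / p) : ℕ) : ℤ) := by
    intro l hl
    induction l with
    | nil => simp
    | cons t l ih =>
      rw [List.map_cons, List.map_cons, List.map_cons, List.sum_cons, List.sum_cons, List.sum_cons,
        ih (fun x hx => hl x (List.mem_cons_of_mem _ hx))]
      obtain ⟨k, hk⟩ := hl t (by simp)
      have e : Fv n p t = Fv (n % p) p t + k * (n / p) := by
        unfold Fv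
        rw [hk]
        have e1 : 6 * k * n + t.2 * p = (6 * k * (n % p) + t.2 * p) + (6 * p) * (k * (n / p)) := by
          conv_lhs => rw [← Nat.mod_add_div n p]
          ring
        rw [e1, Nat.add_mul_div_left _ _ (by omega)]
      rw [e, hk, Nat.mul_div_cancel_left _ (by norm_num)]
      push_cast
      ring
  unfold fv
  rw [key f.1 (fun t ht => h6 t (List.mem_append_left _ ht)),
    key f.2.1 (fun t ht => h6 t (List.mem_append_right _ ht)), hb]
  ring

end Pool.Agent.TwoOdd.Tab
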