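import Pool.Agent.TwoOdd.TabCellE
import Pool.Agent.TwoOdd.TabCells
import Pool.Agent.OddZetaG.TabMain

/-!
Finite table: the table as a list of cells, kernel evaluation of its integral.  Seat: helper61.
-/

open Finset

namespace Pool.Agent.TwoOdd.D29

open Pool.Agent.TwoOdd Pool.Agent.TwoOdd.Tab
open Pool.Agent.OddZetaG.Tab (sumUb ub chain)

/-- the cells of a block -/
def cellsOf : ℕ → List (ℕ × ℕ) → List (ℕ × ℕ × ℕ × ℕ × ℕ)
  | _, [] => []
  | s, (len, v) :: r => (s, 27720, s + len, 27720, v) :: cellsOf (s + len) r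

/-- the cells below `1 / 40` -/
def T1a : List (ℕ × ℕ × ℕ × ℕ × ℕ) := cellsOf 0 r0

/-- the cells from `1 / 40` to `1` -/
def T1b : List (ℕ × ℕ × ℕ × ℕ × ℕ) := (BL.drop 1).flatMap fun b => cellsOf b.1 b.2

def Bf (i : ℕ) : ℕ :=
  match i with
  | 0 => 8501126157
  | 1 => 2823023403
  | 2 => 1410231390
  | 3 => 845851559
  | 4 => 563815783
  | 5 => 402697380
  | 6 => 302014614
  | 7 => 234899547
  | 8 => 187922092
  | 9 => 153758296
  | 10 => 128136215
  | 11 => 108427455
  | _ => 0

set_option maxRecDepth 100000 in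
theorem ok_T0 : T0.all cellE = true := by decide +kernel

set_option maxRecDepth 100000 in
theorem chain_T0 : chain 1 214 T0 1 40 = true := by decide +kernel

set_option maxRecDepth 100000 in
theorem num_T0 : sumUb 0 T0 ≤ 901466667473 := Nat.le_of_ble_eq_true (by decide +kernel)

set_option maxRecDepth 100000 in
theorem num_T1b : sumUb 0 T1b ≤ 658087284626 := Nat.le_of_ble_eq_true (by decide +kernel)

set_option maxRecDepth 100000 in
theorem num_0 : sumUb (0 + 1) (T1a ++ T1b) ≤ Bf 0 := Nat.le_of_ble_eq_true (by decide +kernel)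

set_option maxRecDepth 100000 in
theorem num_1 : sumUb (1 + 1) (T1a ++ T1b) ≤ Bf 1 := Nat.le_of_ble_eq_true (by decide +kernel)

set_option maxRecDepth 100000 in
theorem num_2 : sumUb (2 + 1) (T1a ++ T1b) ≤ Bf 2 := Nat.le_of_ble_eq_true (by decide +kernel)

set_option maxRecDepth 100000 in
theorem num_3 : sumUb (3 + 1) (T1a ++ T1b) ≤ Bf 3 := Nat.le_of_ble_eq_true (by decide +kernel)

set_option maxRecDepth 100000 in
theorem num_4 : sumUb (4 + 1) (T1a ++ T1b) ≤ Bf 4 := Nat.le_of_ble_eq_true (by decide +kernel)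

set_option maxRecDepth 100000 in
theorem num_5 : sumUb (5 + 1) (T1a ++ T1b) ≤ Bf 5 := Nat.le_of_ble_eq_true (by decide +kernel)

set_option maxRecDepth 100000 in
theorem num_6 : sumUb (6 + 1) (T1a ++ T1b) ≤ Bf 6 := Nat.le_of_ble_eq_true (by decide +kernel)

set_option maxRecDepth 100000 in
theorem num_7 : sumUb (7 + 1) (T1a ++ T1b) ≤ Bf 7 := Nat.le_of_ble_eq_true (by decide +kernel)

set_option maxRecDepth 100000 in
theorem num_8 : sumUb (8 + 1) (T1a ++ T1b) ≤ Bf 8 := Nat.le_of_ble_eq_true (by decide +kernel)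

set_option maxRecDepth 100000 in
theorem num_9 : sumUb (9 + 1) (T1a ++ T1b) ≤ Bf 9 := Nat.le_of_ble_eq_true (by decide +kernel)

set_option maxRecDepth 100000 in
theorem num_10 : sumUb (10 + 1) (T1a ++ T1b) ≤ Bf 10 := Nat.le_of_ble_eq_true (by decide +kernel)

set_option maxRecDepth 100000 in
theorem num_11 : sumUb (11 + 1) (T1a ++ T1b) ≤ Bf 11 := Nat.le_of_ble_eq_true (by decide +kernel)

/-- consecutive blocks -/
def bch : ℕ → List (ℕ × List (ℕ × ℕ)) → ℕ → Bool
  | s, [], t => Nat.beq s t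
  | s, b :: l, t => Nat.beq b.1 s && bch (s + rlen b.2) l t

set_option maxRecDepth 100000 in
theorem bch_ok : bch 0 BL 27720 = true := by decide +kernel

set_option maxRecDepth 100000 in
theorem run_ok : BL.all (fun b => b.2.all (fun t => Nat.blt 0 t.1 && Nat.ble t.2 31)) = true := by
  decide +kernel

set_option maxRecDepth 100000 in
theorem first_ok : Nat.beq (rlen r0) 693 = true := by decide +kernel

end Pool.Agent.TwoOdd.D29
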