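import Pool.Agent.TwoOdd.TabNorm

/-!
Finite table, step 4: a packed comparison of functions on a uniform grid.  All values on a block of
`m` cells are the base-65536 digits of one number.  Seat: helper61.
-/

open Finset

namespace Pool.Agent.TwoOdd.Tab

/-- value of a run-length encoded function -/
def rv : List (ℕ × ℕ) → ℕ → ℕ
  | [], _ => 0
  | (len, v) :: r, t => if t < len then v else rv r (t - len)

def rlen : List (ℕ × ℕ) → ℕ
  | [] => 0
  | (len, _) :: r => len + rlen r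

/-- packed value of a run-length encoded function, times 65535 -/
def pk : ℕ → List (ℕ × ℕ) → ℕ
  | _, [] => 0
  | s, (len, v) :: r => v * (65536 ^ (s + len) - 65536 ^ s) + pk (s + len) r

/-- packed positions of the jumps of `e ↦ (A e + B) / Q` -/
noncomputable def sj (A B Q e0 f0 R : ℕ) : ℕ :=
  Nat.rec (motive := fun _ => ℕ) 0
    (fun i s => 65536 ^ ((Q * (f0 + 1 + i) - B + (A - 1)) / A - e0) + s) R

theorem geo (s len : ℕ) : ∑ t ∈ Finset.range len, (65535 * 65536 ^ (s + t) : ℤ) =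
    65536 ^ (s + len) - 65536 ^ s := by
  induction len with
  | zero => simp
  | succ n ih =>
    rw [Finset.sum_range_succ, ih, ← add_assoc, pow_succ]
    ring

theorem pk_eq (r : List (ℕ × ℕ)) : ∀ s : ℕ, (pk s r : ℤ) =
    ∑ t ∈ Finset.range (rlen r), (rv r t : ℤ) * (65535 * 65536 ^ (s + t)) := by
  induction r with
  | nil => intro s; simp [pk, rlen]
  | cons e r ih =>
    intro s
    obtain ⟨len, v⟩ := e
    have e1 : pk s ((len, v) :: r) = v * (65536 ^ (s + len) - 65536 ^ s) + pk (s + len) r := rfl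
    have e2 : rlen ((len, v) :: r) = len + rlen r := rfl
    have hle : (65536 : ℕ) ^ s ≤ 65536 ^ (s + len) := Nat.pow_le_pow_right (by norm_num) (by omega)
    rw [e1, e2, Finset.sum_range_add, Nat.cast_add, ih (s + len)]
    congr 1
    · have : ∀ t ∈ Finset.range len, (rv ((len, v) :: r) t : ℤ) * (65535 * 65536 ^ (s + t)) =
          (v : ℤ) * (65535 * 65536 ^ (s + t)) := by
        intro t ht
        rw [Finset.mem_range] at ht
        simp [rv, ht]
      rw [Finset.sum_congr rfl this, ← Finset.mul_sum, geo]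
      push_cast [Nat.cast_sub hle]
      ring
    · apply Finset.sum_congr rfl
      intro t _
      have : rv ((len, v) :: r) (len + t) = rv r t := by
        simp [rv]
      rw [this, add_assoc]

theorem thr_iff {A B Q e0 v t : ℕ} (hA : 0 < A) (hQ : 0 < Q) :
    (Q * v - B + (A - 1)) / A - e0 ≤ t ↔ v ≤ (A * (e0 + t) + B) / Q := by
  rw [Nat.le_div_iff_mul_le hQ, Nat.sub_le_iff_le_add, ← Nat.lt_succ_iff, Nat.div_lt_iff_lt_mul hA]
  have e : (t + e0).succ * A = A * (e0 + t) + A := by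
    rw [Nat.succ_eq_add_one]
    ring
  rw [e, mul_comm v Q]
  omega

theorem sj_eq {A B Q e0 m : ℕ} (hA : 0 < A) (hQ : 0 < Q) (R : ℕ)
    (hR : (A * e0 + B) / Q + R ≤ (A * (e0 + m) + B) / Q) :
    ∑ t ∈ Finset.range m,
      ((min R ((A * (e0 + t) + B) / Q - (A * e0 + B) / Q) : ℕ) : ℤ) * (65535 * 65536 ^ t) =
      R * 65536 ^ m - (sj A B Q e0 ((A * e0 + B) / Q) R : ℤ) := by
  induction R with
  | zero => simp [sj]
  | succ R ih =>
    set f0 := (A * e0 + B) / Q with hf0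
    have h1 := ih (by omega)
    have e1 : sj A B Q e0 f0 (R + 1) = 65536 ^ ((Q * (f0 + 1 + R) - B + (A - 1)) / A - e0) +
      sj A B Q e0 f0 R := rfl
    set T := (Q * (f0 + 1 + R) - B + (A - 1)) / A - e0 with hT
    have hTm : T ≤ m := by
      rw [hT, thr_iff hA hQ]
      omega
    have h2 : ∀ t ∈ Finset.range m,
        ((min (R + 1) ((A * (e0 + t) + B) / Q - f0) : ℕ) : ℤ) * (65535 * 65536 ^ t) =
        ((min R ((A * (e0 + t) + B) / Q - f0) : ℕ) : ℤ) * (65535 * 65536 ^ t) +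
          (if T ≤ t then 1 else 0) * (65535 * 65536 ^ t) := by
      intro t _
      rw [← add_mul]
      congr 1
      have h3 : T ≤ t ↔ f0 + 1 + R ≤ (A * (e0 + t) + B) / Q := by
        rw [hT]
        exact thr_iff hA hQ
      by_cases h4 : T ≤ t
      · rw [if_pos h4]
        have := h3.1 h4
        rw [min_eq_left (by omega), min_eq_left (by omega)]
        push_cast
        ring
      · rw [if_neg h4]
        have h5 : ¬ (f0 + 1 + R ≤ (A * (e0 + t) + B) / Q) := fun h => h4 (h3.2 h)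
        rw [min_eq_right (by omega), min_eq_right (by omega), add_zero]
    rw [Finset.sum_congr rfl h2, Finset.sum_add_distrib, h1, e1]
    have h3 : ∑ t ∈ Finset.range m, (if T ≤ t then (1 : ℤ) else 0) * (65535 * 65536 ^ t) =
        65536 ^ m - 65536 ^ T := by
      obtain ⟨q, rfl⟩ := Nat.exists_eq_add_of_le hTm
      rw [Finset.sum_range_add]
      have z : ∑ t ∈ Finset.range T, (if T ≤ t then (1 : ℤ) else 0) * (65535 * 65536 ^ t) = 0 := by
        apply Finset.sum_eq_zero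
        intro t ht
        rw [Finset.mem_range] at ht
        rw [if_neg (by omega), zero_mul]
      rw [z, zero_add, ← geo]
      apply Finset.sum_congr rfl
      intro t _
      rw [if_pos (by omega), one_mul]
    rw [h3]
    push_cast
    ring

/-! ### sums over a list of terms -/

def sumf (Bf : ℕ × ℕ → ℕ) (Q e : ℕ) (l : List (ℕ × ℕ)) : ℕ :=
  l.foldr (fun t s => (t.1 * e + Bf t) / Q + s) 0

noncomputable def sumj (Bf : ℕ × ℕ → ℕ) (Q e0 e1 : ℕ) (l : List (ℕ × ℕ)) : ℕ :=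
  l.foldr (fun t s => sj t.1 (Bf t) Q e0 ((t.1 * e0 + Bf t) / Q)
    ((t.1 * e1 + Bf t) / Q - (t.1 * e0 + Bf t) / Q) + s) 0

theorem sumf_cons (Bf : ℕ × ℕ → ℕ) (Q e : ℕ) (t : ℕ × ℕ) (l : List (ℕ × ℕ)) :
    sumf Bf Q e (t :: l) = (t.1 * e + Bf t) / Q + sumf Bf Q e l := rfl

theorem sumj_cons (Bf : ℕ × ℕ → ℕ) (Q e0 e1 : ℕ) (t : ℕ × ℕ) (l : List (ℕ × ℕ)) :
    sumj Bf Q e0 e1 (t :: l) = sj t.1 (Bf t) Q e0 ((t.1 * e0 + Bf t) / Q)
      ((t.1 * e1 + Bf t) / Q - (t.1 * e0 + Bf t) / Q) + sumj Bf Q e0 e1 l := rfl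

theorem sumf_mono (Bf : ℕ × ℕ → ℕ) (Q : ℕ) {e e' : ℕ} (h : e ≤ e') (l : List (ℕ × ℕ)) :
    sumf Bf Q e l ≤ sumf Bf Q e' l := by
  induction l with
  | nil => exact le_rfl
  | cons t l ih =>
    rw [sumf_cons, sumf_cons]
    have : (t.1 * e + Bf t) / Q ≤ (t.1 * e' + Bf t) / Q :=
      Nat.div_le_div_right (by have := Nat.mul_le_mul_left t.1 h; omega)
    omega

theorem sumj_eq (Bf : ℕ × ℕ → ℕ) {Q e0 m : ℕ} (hQ : 0 < Q) (hm : 0 < m) (l : List (ℕ × ℕ))
    (hl : ∀ t ∈ l, 0 < t.1) :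
    ∑ t ∈ Finset.range m,
      ((sumf Bf Q (e0 + t) l : ℤ) - sumf Bf Q e0 l) * (65535 * 65536 ^ t) =
      ((sumf Bf Q (e0 + m - 1) l : ℤ) - sumf Bf Q e0 l) * 65536 ^ m -
        (sumj Bf Q e0 (e0 + m - 1) l : ℤ) := by
  induction l with
  | nil => simp [sumf, sumj]
  | cons u l ih =>
    have h1 := ih (fun x hx => hl x (List.mem_cons_of_mem _ hx))
    have hu := hl u (by simp)
    have mono : ∀ e e' : ℕ, e ≤ e' → (u.1 * e + Bf u) / Q ≤ (u.1 * e' + Bf u) / Q := by
      intro e e' h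
      exact Nat.div_le_div_right (by have := Nat.mul_le_mul_left u.1 h; omega)
    have hR0 := mono e0 (e0 + m - 1) (by omega)
    have hR1 := mono (e0 + m - 1) (e0 + m) (by omega)
    have h2 := sj_eq (A := u.1) (B := Bf u) (e0 := e0) (m := m) hu hQ
      ((u.1 * (e0 + m - 1) + Bf u) / Q - (u.1 * e0 + Bf u) / Q) (by omega)
    simp only [sumf_cons, sumj_cons]
    have e1 : ∀ t ∈ Finset.range m, ((((u.1 * (e0 + t) + Bf u) / Q + sumf Bf Q (e0 + t) l : ℕ) : ℤ) -
        (((u.1 * e0 + Bf u) / Q + sumf Bf Q e0 l : ℕ) : ℤ)) * (65535 * 65536 ^ t) =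
        ((min ((u.1 * (e0 + m - 1) + Bf u) / Q - (u.1 * e0 + Bf u) / Q)
          ((u.1 * (e0 + t) + Bf u) / Q - (u.1 * e0 + Bf u) / Q) : ℕ) : ℤ) * (65535 * 65536 ^ t) +
        ((sumf Bf Q (e0 + t) l : ℤ) - sumf Bf Q e0 l) * (65535 * 65536 ^ t) := by
      intro t ht
      rw [Finset.mem_range] at ht
      have q1 := mono e0 (e0 + t) (by omega)
      have q2 := mono (e0 + t) (e0 + m - 1) (by omega)
      rw [min_eq_right (by omega), Nat.cast_sub q1]
      push_cast
      ring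
    rw [Finset.sum_congr rfl e1, Finset.sum_add_distrib, h1, h2, Nat.cast_sub hR0]
    push_cast
    ring

/-! ### digits -/

theorem low_lt (g : ℕ → ℕ) (hg : ∀ t, g t < 65536) (s : ℕ) :
    ∑ t ∈ Finset.range s, g t * 65536 ^ t < 65536 ^ s := by
  induction s with
  | zero => simp
  | succ s ih =>
    rw [Finset.sum_range_succ, pow_succ]
    have := hg s
    have h2 : g s * 65536 ^ s ≤ 65535 * 65536 ^ s := Nat.mul_le_mul_right _ (by omega)
    omega

theorem digit (g : ℕ → ℕ) (hg : ∀ t, g t < 65536) (b s : ℕ) (hs : s < b) :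
    (∑ t ∈ Finset.range b, g t * 65536 ^ t) / 65536 ^ s % 65536 = g s := by
  have h1 : ∃ q, ∑ t ∈ Finset.range b, g t * 65536 ^ t =
      ∑ t ∈ Finset.range (s + 1), g t * 65536 ^ t + 65536 ^ (s + 1) * q := by
    clear hg
    induction b, hs using Nat.le_induction with
    | base => exact ⟨0, by simp⟩
    | succ b hb ih =>
      obtain ⟨q, hq⟩ := ih
      refine ⟨q + g b * 65536 ^ (b - (s + 1)), ?_⟩
      rw [Finset.sum_range_succ, hq]
      have : (65536 : ℕ) ^ b = 65536 ^ (s + 1) * 65536 ^ (b - (s + 1)) := by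
        rw [← pow_add, Nat.add_sub_cancel' hb]
      rw [this]
      ring
  obtain ⟨q, hq⟩ := h1
  rw [hq, Finset.sum_range_succ]
  have h2 := low_lt g hg s
  generalize ∑ t ∈ Finset.range s, g t * 65536 ^ t = A at *
  have h3 : A + g s * 65536 ^ s + 65536 ^ (s + 1) * q = A + 65536 ^ s * (g s + 65536 * q) := by ring
  rw [h3, Nat.add_mul_div_left _ _ (by positivity), Nat.div_eq_of_lt h2, zero_add,
    Nat.add_mul_mod_self_left, Nat.mod_eq_of_lt (hg s)]

theorem top_bit (Z s : ℕ) : Z.testBit (16 * s + 15) = decide (32768 ≤ Z / 65536 ^ s % 65536) := by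
  have e : (65536 : ℕ) ^ s = 2 ^ (16 * s) := by
    rw [pow_mul]
    norm_num
  rw [add_comm (16 * s) 15, ← Nat.testBit_div_two_pow, ← e]
  generalize Z / 65536 ^ s = y
  rw [Nat.testBit_eq_decide_div_mod_eq]
  have : (y / 2 ^ 15 % 2 = 1) = (32768 ≤ y % 65536) := by
    rw [eq_iff_iff]
    norm_num
    omega
  simp only [this]

theorem all_ge {g : ℕ → ℕ} (hg : ∀ t, g t < 65536) {m : ℕ}
    (h : (∑ t ∈ Finset.range m, g t * 65536 ^ t) &&& (32768 * ((65536 ^ m - 1) / 65535)) =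
      32768 * ((65536 ^ m - 1) / 65535)) {s : ℕ} (hs : s < m) : 32768 ≤ g s := by
  have hR : 32768 * ((65536 ^ m - 1) / 65535) = ∑ t ∈ Finset.range m, (fun _ => 32768) t * 65536 ^ t := by
    have h1 : (65536 ^ m - 1) / 65535 = ∑ t ∈ Finset.range m, 65536 ^ t := by
      apply Nat.div_eq_of_eq_mul_left (by norm_num)
      have hpow : 1 ≤ 65536 ^ m := Nat.one_le_pow _ _ (by norm_num)
      have := geo 0 m
      simp only [zero_add, pow_zero] at this
      rw [← Finset.mul_sum] at this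
      have h2 : (((∑ t ∈ Finset.range m, 65536 ^ t) * 65535 : ℕ) : ℤ) = ((65536 ^ m - 1 : ℕ) : ℤ) := by
        push_cast [Nat.cast_sub hpow]
        linarith
      exact_mod_cast h2.symm
    rw [h1, Finset.mul_sum]
  have h1 : (32768 * ((65536 ^ m - 1) / 65535)).testBit (16 * s + 15) = true := by
    rw [top_bit, hR, digit _ (fun _ => by norm_num) m s hs]
    simp
  have h2 : ((∑ t ∈ Finset.range m, g t * 65536 ^ t) &&&
      (32768 * ((65536 ^ m - 1) / 65535))).testBit (16 * s + 15) = true := by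
    rw [h]
    exact h1
  rw [Nat.testBit_and, Bool.and_eq_true] at h2
  have h3 := h2.1
  rw [top_bit, digit g hg m s hs, decide_eq_true_eq] at h3
  exact h3

/-! ### the check of one function on one block -/

def bH (L : ℕ) (t : ℕ × ℕ) : ℕ := t.1 + t.2 * L - 1
def bL (L : ℕ) (t : ℕ × ℕ) : ℕ := t.2 * L

/-- check that `f ≤ runs` on the cells `e0, ..., e0 + m - 1` of the grid with step `1 / L` -/
noncomputable def chk (L e0 m : ℕ) (runs : List (ℕ × ℕ)) (f : FForm) : Bool :=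
  Nat.ble (f.2.2.1 + sumf (bH L) (6 * L) (e0 + m - 1) f.1) 32768 &&
  (Nat.ble (f.2.2.2 + sumf (bL L) (6 * L) (e0 + m - 1) f.2.1) 32667 &&
  Nat.beq (Nat.land (((32768 + (f.2.2.2 + sumf (bL L) (6 * L) e0 f.2.1)) * (65536 ^ m - 1) + pk 0 runs +
      (sumf (bL L) (6 * L) (e0 + m - 1) f.2.1 - sumf (bL L) (6 * L) e0 f.2.1) * 65536 ^ m +
      sumj (bH L) (6 * L) e0 (e0 + m - 1) f.1 -
    ((f.2.2.1 + sumf (bH L) (6 * L) e0 f.1) * (65536 ^ m - 1) +
      (sumf (bH L) (6 * L) (e0 + m - 1) f.1 - sumf (bH L) (6 * L) e0 f.1) * 65536 ^ m +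
      sumj (bL L) (6 * L) e0 (e0 + m - 1) f.2.1)) / 65535)
      (32768 * ((65536 ^ m - 1) / 65535))) (32768 * ((65536 ^ m - 1) / 65535)))

theorem chk_spec {L e0 m : ℕ} (hL : 0 < L) (hm : 0 < m) {runs : List (ℕ × ℕ)} {f : FForm}
    (hr : rlen runs = m) (hv : ∀ t, rv runs t ≤ 100) (hf : ∀ t ∈ f.1, 0 < t.1)
    (hf' : ∀ t ∈ f.2.1, 0 < t.1) (h : chk L e0 m runs f = true) {s : ℕ} (hs : s < m) :
    fle (e0 + s) L (e0 + s + 1) L f 0 (rv runs s) = true := by
  have hQ : 0 < 6 * L := by omega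
  unfold chk at h
  rw [Bool.and_eq_true, Bool.and_eq_true] at h
  obtain ⟨h1, h2, h3⟩ := h
  have h1 := Nat.le_of_ble_eq_true h1
  have h2 := Nat.le_of_ble_eq_true h2
  have h3 := Nat.eq_of_beq_eq_true h3
  set U : ℕ → ℕ := fun t => sumf (bH L) (6 * L) (e0 + t) f.1 with hU
  set W : ℕ → ℕ := fun t => sumf (bL L) (6 * L) (e0 + t) f.2.1 with hW
  have eU : ∀ t < m, U t ≤ sumf (bH L) (6 * L) (e0 + m - 1) f.1 := by
    intro t ht
    exact sumf_mono _ _ (by omega) _
  have eW : ∀ t < m, W t ≤ sumf (bL L) (6 * L) (e0 + m - 1) f.2.1 := by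
    intro t ht
    exact sumf_mono _ _ (by omega) _
  set g : ℕ → ℕ := fun t => if t < m then
    32768 + rv runs t + (f.2.2.2 + W t) - (f.2.2.1 + U t) else 0 with hg
  have hg0 : ∀ t < m, ((g t : ℕ) : ℤ) =
      32768 + rv runs t + (f.2.2.2 + W t) - (f.2.2.1 + U t) := by
    intro t ht
    have := eU t ht
    rw [hg]
    simp only
    rw [if_pos ht, Nat.cast_sub (by omega)]
    push_cast
    ring
  have hg1 : ∀ t, g t < 65536 := by
    intro t
    by_cases ht : t < m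
    · have := hg0 t ht
      have := eW t ht
      have := hv t
      omega
    · rw [hg]
      simp only
      rw [if_neg ht]
      norm_num
  have hZ : ((32768 + (f.2.2.2 + sumf (bL L) (6 * L) e0 f.2.1)) * (65536 ^ m - 1) + pk 0 runs +
      (sumf (bL L) (6 * L) (e0 + m - 1) f.2.1 - sumf (bL L) (6 * L) e0 f.2.1) * 65536 ^ m +
      sumj (bH L) (6 * L) e0 (e0 + m - 1) f.1 -
    ((f.2.2.1 + sumf (bH L) (6 * L) e0 f.1) * (65536 ^ m - 1) +
      (sumf (bH L) (6 * L) (e0 + m - 1) f.1 - sumf (bH L) (6 * L) e0 f.1) * 65536 ^ m +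
      sumj (bL L) (6 * L) e0 (e0 + m - 1) f.2.1)) / 65535 = ∑ t ∈ Finset.range m, g t * 65536 ^ t := by
    apply Nat.div_eq_of_eq_mul_left (by norm_num)
    have hpow : 1 ≤ 65536 ^ m := Nat.one_le_pow _ _ (by norm_num)
    have m1 : sumf (bL L) (6 * L) e0 f.2.1 ≤ sumf (bL L) (6 * L) (e0 + m - 1) f.2.1 :=
      sumf_mono _ _ (by omega) _
    have m2 : sumf (bH L) (6 * L) e0 f.1 ≤ sumf (bH L) (6 * L) (e0 + m - 1) f.1 :=
      sumf_mono _ _ (by omega) _
    have s1 := sumj_eq (bH L) hQ hm (e0 := e0) f.1 hf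
    have s2 := sumj_eq (bL L) hQ hm (e0 := e0) f.2.1 hf'
    have s3 := pk_eq runs 0
    rw [hr] at s3
    simp only [zero_add] at s3
    have s4 := geo 0 m
    simp only [zero_add, pow_zero] at s4
    have key : ((∑ t ∈ Finset.range m, g t * 65536 ^ t : ℕ) : ℤ) * 65535 =
        (((32768 + (f.2.2.2 + sumf (bL L) (6 * L) e0 f.2.1)) * (65536 ^ m - 1) + pk 0 runs +
      (sumf (bL L) (6 * L) (e0 + m - 1) f.2.1 - sumf (bL L) (6 * L) e0 f.2.1) * 65536 ^ m +
      sumj (bH L) (6 * L) e0 (e0 + m - 1) f.1 : ℕ) : ℤ) -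
        (((f.2.2.1 + sumf (bH L) (6 * L) e0 f.1) * (65536 ^ m - 1) +
      (sumf (bH L) (6 * L) (e0 + m - 1) f.1 - sumf (bH L) (6 * L) e0 f.1) * 65536 ^ m +
      sumj (bL L) (6 * L) e0 (e0 + m - 1) f.2.1 : ℕ) : ℤ) := by
      push_cast [Nat.cast_sub hpow, Nat.cast_sub m1, Nat.cast_sub m2]
      rw [s3, Finset.sum_mul]
      have e : ∀ t ∈ Finset.range m, ((g t : ℕ) : ℤ) * 65536 ^ t * 65535 =
          (32768 + (f.2.2.2 + sumf (bL L) (6 * L) e0 f.2.1 : ℤ) -
            (f.2.2.1 + sumf (bH L) (6 * L) e0 f.1 : ℤ)) * (65535 * 65536 ^ t) +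
          (rv runs t : ℤ) * (65535 * 65536 ^ t) +
          ((sumf (bL L) (6 * L) (e0 + t) f.2.1 : ℤ) - sumf (bL L) (6 * L) e0 f.2.1) *
            (65535 * 65536 ^ t) -
          ((sumf (bH L) (6 * L) (e0 + t) f.1 : ℤ) - sumf (bH L) (6 * L) e0 f.1) *
            (65535 * 65536 ^ t) := by
        intro t ht
        rw [hg0 t (Finset.mem_range.1 ht)]
        simp only [hU, hW]
        ring
      rw [Finset.sum_congr rfl e, Finset.sum_sub_distrib, Finset.sum_add_distrib,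
        Finset.sum_add_distrib, s1, s2, ← Finset.mul_sum, s4]
      ring
    have key2 : (((32768 + (f.2.2.2 + sumf (bL L) (6 * L) e0 f.2.1)) * (65536 ^ m - 1) + pk 0 runs +
      (sumf (bL L) (6 * L) (e0 + m - 1) f.2.1 - sumf (bL L) (6 * L) e0 f.2.1) * 65536 ^ m +
      sumj (bH L) (6 * L) e0 (e0 + m - 1) f.1 : ℕ) : ℤ) =
        (((∑ t ∈ Finset.range m, g t * 65536 ^ t) * 65535 +
        ((f.2.2.1 + sumf (bH L) (6 * L) e0 f.1) * (65536 ^ m - 1) +
      (sumf (bH L) (6 * L) (e0 + m - 1) f.1 - sumf (bH L) (6 * L) e0 f.1) * 65536 ^ m +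
      sumj (bL L) (6 * L) e0 (e0 + m - 1) f.2.1) : ℕ) : ℤ) := by
      rw [Nat.cast_add ((∑ t ∈ Finset.range m, g t * 65536 ^ t) * 65535), Nat.cast_mul
        (∑ t ∈ Finset.range m, g t * 65536 ^ t)]
      have c65 : ((65535 : ℕ) : ℤ) = 65535 := by norm_num
      rw [c65, key]
      ring
    have key3 := Int.ofNat_inj.1 key2
    rw [key3, Nat.add_sub_cancel]
  have h4 : (∑ t ∈ Finset.range m, g t * 65536 ^ t) &&& (32768 * ((65536 ^ m - 1) / 65535)) =
      32768 * ((65536 ^ m - 1) / 65535) := by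
    rw [← hZ]
    exact h3
  have h5 := all_ge hg1 h4 hs
  have h6 := hg0 s hs
  have h7 : f.2.2.1 + U s ≤ rv runs s + (f.2.2.2 + W s) := by omega
  -- conversion
  have hi : hiS (e0 + s + 1) L f.1 = U s := by
    rw [hU]
    simp only
    clear hU hg hg0 hg1 hZ h4 h5 h6 h7 eU h1 h2 h3
    have : ∀ l : List (ℕ × ℕ), (∀ t ∈ l, 0 < t.1) →
        hiS (e0 + s + 1) L l = sumf (bH L) (6 * L) (e0 + s) l := by
      intro l
      induction l with
      | nil => intro _; rfl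
      | cons t l ih =>
        intro hl
        have e1 : hiS (e0 + s + 1) L (t :: l) = (t.1 * (e0 + s + 1) + t.2 * L - 1) / (6 * L) +
          hiS (e0 + s + 1) L l := rfl
        have ht := hl t (by simp)
        rw [e1, sumf_cons, ih (fun x hx => hl x (List.mem_cons_of_mem _ hx))]
        unfold bH
        have : t.1 * (e0 + s + 1) + t.2 * L - 1 = t.1 * (e0 + s) + (t.1 + t.2 * L - 1) := by
          have : t.1 * (e0 + s + 1) = t.1 * (e0 + s) + t.1 := by ring
          omega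
        rw [this]
    exact this f.1 hf
  have lo : loS (e0 + s) L f.2.1 = W s := rfl
  unfold fle
  rw [hi, lo, add_zero]
  exact Nat.ble_eq_true_of_le h7

end Pool.Agent.TwoOdd.Tab
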