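import Pool.Agent.TwoOdd.Final
import Pool.Agent.OddZeta.FiveSevenNine

/-!
# At least two of `ζ(5), ζ(7), ..., ζ(29)` are irrational

By the theorem `ZetaFiveSevenNine` one of `ζ(5), ζ(7), ζ(9)` is irrational, say `ζ(i)`. The
rational function used here has `31` pole blocks `[h n, (214 - h) n]`, `67 ≤ h ≤ 94`, one zero block
at all integers of `[0, 214 n]`, one at the half integers of `(23 n, 191 n)` and one at the points
with denominator three of `(22 n, 192 n)`. Its three sums over the integers, the half integers and
the points with denominator three are linear forms in `1` and the numbers `c(j) ζ(j)`,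
`j = 3, 5, ..., 29`, with the same coefficients, where `c(j) = 1, 2 ^ j - 1, 3 ^ j - 1`. A
combination with integer weights kills `ζ(3)` and `ζ(i)`. The denominators come from the exact
`p`-adic valuations (with the prime number theorem), the size from a pointwise estimate of the
summands, and the nonvanishing of the integer in question from its `n`-adic valuation for prime `n`.

Seats: helper30 (construction, blueprint, p-adic bounds for the forms, size inequality), helper20
(p-adic bounds for the coefficients), helper92 (linear forms), helper40 (partial fractions),
helper96 (real size), helper55 (nonvanishing), helper86 (value at `n = 1` modulo 1289), helper61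
(table), helper59 (main argument, assembly).
-/

namespace Pool.Agent.TwoOdd.TwoUpToTwentyNine

/-- At least two of the numbers `ζ(5), ζ(7), ..., ζ(29)` are irrational. -/
theorem two_up_to_twenty_nine : ∃ s t : ℕ, 5 ≤ s ∧ s < t ∧ t ≤ 29 ∧ Odd s ∧ Odd t ∧
    (∃ x : ℝ, riemannZeta (s : ℂ) = (x : ℂ) ∧ Irrational x) ∧
    (∃ x : ℝ, riemannZeta (t : ℂ) = (x : ℂ) ∧ Irrational x) :=
  Pool.Agent.TwoOdd.D29.two_of Pool.Agent.OddZeta.FiveSevenNine.zeta_five_seven_nine

end Pool.Agent.TwoOdd.TwoUpToTwentyNine
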